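import Mathlib

/-!
# Decompositions of complete r-graphs into complete r-partite r-graphs, part 1

A family of r-sets is encoded by its weight polynomial (as a function of the weights of the points).
`Dw r F c` means that `F` is a sum of at most `c` products of `r` linear forms with pairwise disjoint
supports. Part 1 contains the calculus of `Dw`, elementary symmetric polynomials, and the cross module:
the 4-sets meeting both of two disjoint m-sets are decomposed into at most (2/3) m^2 + 22 m products.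
-/

set_option autoImplicit false

namespace Pool.Agent.Lib.MP_60210e_co.RankGaps

open Finset

/-- total weight of a finite set -/
def wt {V : Type} (w : V → ℤ) (A : Finset V) : ℤ := ∑ a ∈ A, w a

/-- `F` is a sum of at most `c` products of `r` linear forms with disjoint supports -/
def Dw {V : Type} (r : ℕ) (F : (V → ℤ) → ℤ) (c : ℕ) : Prop :=
  ∃ (ι : Type) (_ : Fintype ι) (P : ι → Fin r → Finset V), Fintype.card ι ≤ c ∧
    (∀ i j k, j ≠ k → Disjoint (P i j) (P i k)) ∧ ∀ w, F w = ∑ i, ∏ j, wt w (P i j)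

/-- `F` depends only on the weights of the points of `S` -/
def Loc {V : Type} (S : Finset V) (F : (V → ℤ) → ℤ) : Prop :=
  ∀ w w' : V → ℤ, (∀ v ∈ S, w v = w' v) → F w = F w'

section basic
variable {V : Type}

theorem Dw.mono {r : ℕ} {F : (V → ℤ) → ℤ} {c d : ℕ} (h : Dw r F c) (hcd : c ≤ d) : Dw r F d := by
  obtain ⟨ι, i1, P, h1, h2, h3⟩ := h
  exact ⟨ι, i1, P, h1.trans hcd, h2, h3⟩

theorem Dw.congr {r : ℕ} {F G : (V → ℤ) → ℤ} {c : ℕ} (h : Dw r F c) (hFG : ∀ w, G w = F w) :
    Dw r G c := by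
  obtain ⟨ι, i1, P, h1, h2, h3⟩ := h
  exact ⟨ι, i1, P, h1, h2, fun w => (hFG w).trans (h3 w)⟩

theorem Dw.zero (r c : ℕ) : Dw (V := V) r (fun _ => 0) c :=
  ⟨Fin 0, inferInstance, fun _ _ => ∅, by simp, by simp, by simp⟩

theorem Dw.add {r : ℕ} {F G : (V → ℤ) → ℤ} {c d : ℕ} (hF : Dw r F c) (hG : Dw r G d) :
    Dw r (fun w => F w + G w) (c + d) := by
  obtain ⟨ι, i1, P, h1, h2, h3⟩ := hF
  obtain ⟨κ, i2, Q, g1, g2, g3⟩ := hG
  refine ⟨ι ⊕ κ, inferInstance, Sum.elim P Q, ?_, ?_, ?_⟩
  · rw [Fintype.card_sum]; omega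
  · rintro (i | i) j k hjk
    · exact h2 i j k hjk
    · exact g2 i j k hjk
  · intro w
    rw [Fintype.sum_sum_type]
    simp only [Sum.elim_inl, Sum.elim_inr]
    rw [h3 w, g3 w]

theorem Dw.sum {r : ℕ} {α : Type} (s : Finset α) (F : α → (V → ℤ) → ℤ) (c : α → ℕ)
    (h : ∀ a ∈ s, Dw r (F a) (c a)) : Dw r (fun w => ∑ a ∈ s, F a w) (∑ a ∈ s, c a) := by
  classical
  induction s using Finset.induction_on with
  | empty => simpa using Dw.zero (V := V) r 0
  | insert a s ha ih =>
    have h1 := h a (mem_insert_self a s)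
    have h2 := ih (fun b hb => h b (mem_insert_of_mem hb))
    have h3 := h1.add h2
    rw [Finset.sum_insert ha]
    refine h3.congr (fun w => ?_)
    rw [Finset.sum_insert ha]

theorem Dw.box {r : ℕ} (P : Fin r → Finset V) (hP : ∀ j k, j ≠ k → Disjoint (P j) (P k)) :
    Dw r (fun w => ∏ j, wt w (P j)) 1 :=
  ⟨Fin 1, inferInstance, fun _ => P, by simp, fun _ => hP, by simp⟩

theorem Dw.restrict [DecidableEq V] {r : ℕ} {F : (V → ℤ) → ℤ} {c : ℕ} {S : Finset V}
    (h : Dw r F c) (hS : Loc S F) :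
    ∃ (ι : Type) (_ : Fintype ι) (P : ι → Fin r → Finset V), Fintype.card ι ≤ c ∧
    (∀ i j k, j ≠ k → Disjoint (P i j) (P i k)) ∧ (∀ i j, P i j ⊆ S) ∧
      ∀ w, F w = ∑ i, ∏ j, wt w (P i j) := by
  obtain ⟨ι, i1, P, h1, h2, h3⟩ := h
  refine ⟨ι, i1, fun i j => P i j ∩ S, h1, ?_, ?_, ?_⟩
  · intro i j k hjk
    exact (h2 i j k hjk).mono inter_subset_left inter_subset_left
  · intro i j
    exact inter_subset_right
  · intro w
    have e1 : F w = F (fun v => if v ∈ S then w v else 0) := by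
      apply hS
      intro v hv
      simp [hv]
    rw [e1, h3]
    apply Finset.sum_congr rfl
    intro i _
    apply Finset.prod_congr rfl
    intro j _
    unfold wt
    rw [Finset.sum_ite_mem]

theorem Dw.mul [DecidableEq V] {r s : ℕ} {F G : (V → ℤ) → ℤ} {c d : ℕ} {S T : Finset V}
    (hF : Dw r F c) (hG : Dw s G d) (hS : Loc S F) (hT : Loc T G) (hST : Disjoint S T) :
    Dw (r + s) (fun w => F w * G w) (c * d) := by
  obtain ⟨ι, i1, P, h1, h2, h4, h3⟩ := hF.restrict hS
  obtain ⟨κ, i2, Q, g1, g2, g4, g3⟩ := hG.restrict hT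
  refine ⟨ι × κ, inferInstance, fun x => Fin.append (P x.1) (Q x.2), ?_, ?_, ?_⟩
  · rw [Fintype.card_prod]
    exact Nat.mul_le_mul h1 g1
  · rintro ⟨i, i'⟩ j k hjk
    refine Fin.addCases (fun j' => ?_) (fun j' => ?_) j hjk <;>
    refine Fin.addCases (fun k' => ?_) (fun k' => ?_) k
    · intro hjk
      simp only [Fin.append_left]
      apply h2
      rintro rfl
      exact hjk rfl
    · intro hjk
      simp only [Fin.append_left, Fin.append_right]
      exact hST.mono (h4 _ _) (g4 _ _)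
    · intro hjk
      simp only [Fin.append_left, Fin.append_right]
      exact (hST.mono (h4 _ _) (g4 _ _)).symm
    · intro hjk
      simp only [Fin.append_right]
      apply g2
      rintro rfl
      exact hjk rfl
  · intro w
    beta_reduce
    rw [h3, g3, Finset.sum_mul_sum, Fintype.sum_prod_type]
    apply Finset.sum_congr rfl
    intro i _
    apply Finset.sum_congr rfl
    intro i' _
    rw [Fin.prod_univ_add]
    simp only [Fin.append_left, Fin.append_right]

theorem Dw.pull {U : Type} [DecidableEq U] {r : ℕ} {F : (U → ℤ) → ℤ} {c : ℕ} (h : Dw r F c)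
    (π : V → U) (S : Finset V) :
    Dw r (fun w => F (fun u => ∑ v ∈ S with π v = u, w v)) c := by
  obtain ⟨ι, i1, P, h1, h2, h3⟩ := h
  refine ⟨ι, i1, fun i j => S.filter (fun v => π v ∈ P i j), h1, ?_, ?_⟩
  · intro i j k hjk
    rw [Finset.disjoint_left]
    intro v hv hv'
    rw [Finset.mem_filter] at hv hv'
    exact Finset.disjoint_left.1 (h2 i j k hjk) hv.2 hv'.2
  · intro w
    beta_reduce
    rw [h3]
    apply Finset.sum_congr rfl
    intro i _
    apply Finset.prod_congr rfl
    intro j _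
    unfold wt
    rw [← Finset.sum_fiberwise_of_maps_to (s := S.filter (fun v => π v ∈ P i j)) (t := P i j)
      (g := π) (fun v hv => (Finset.mem_filter.1 hv).2)]
    apply Finset.sum_congr rfl
    intro u hu
    apply Finset.sum_congr _ (fun _ _ => rfl)
    ext v
    simp only [Finset.mem_filter]
    constructor
    · rintro ⟨h5, rfl⟩
      exact ⟨⟨h5, hu⟩, rfl⟩
    · rintro ⟨⟨h5, _⟩, h6⟩
      exact ⟨h5, h6⟩

end basic

/-- elementary symmetric polynomial: the weight of the complete `k`-graph on `S` -/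
def E {V : Type} (k : ℕ) (S : Finset V) (w : V → ℤ) : ℤ := ∑ e ∈ S.powersetCard k, ∏ x ∈ e, w x

section esymm
variable {V : Type}

theorem E_zero (S : Finset V) (w : V → ℤ) : E 0 S w = 1 := by
  simp [E]

theorem E_empty (k : ℕ) (w : V → ℤ) : E (k + 1) ∅ w = 0 := by
  unfold E
  rw [Finset.powersetCard_eq_empty.2 (by simp)]
  simp

theorem E_insert [DecidableEq V] (k : ℕ) {a : V} {S : Finset V} (ha : a ∉ S) (w : V → ℤ) :
    E (k + 1) (insert a S) w = E (k + 1) S w + w a * E k S w := by
  unfold E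
  rw [Finset.powersetCard_succ_insert ha, Finset.sum_union]
  · congr 1
    rw [Finset.sum_image, Finset.mul_sum]
    · apply Finset.sum_congr rfl
      intro e he
      rw [Finset.prod_insert]
      intro hae
      exact ha ((Finset.mem_powersetCard.1 he).1 hae)
    · intro x hx y hy hxy
      have hx' : a ∉ x := fun h => ha ((Finset.mem_powersetCard.1 hx).1 h)
      have hy' : a ∉ y := fun h => ha ((Finset.mem_powersetCard.1 hy).1 h)
      rw [← Finset.erase_insert hx', ← Finset.erase_insert hy', hxy]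
  · rw [Finset.disjoint_left]
    intro e he he'
    obtain ⟨e', _, rfl⟩ := Finset.mem_image.1 he'
    exact ha ((Finset.mem_powersetCard.1 he).1 (mem_insert_self a e'))

theorem E_one [DecidableEq V] (S : Finset V) (w : V → ℤ) : E 1 S w = wt w S := by
  induction S using Finset.induction_on with
  | empty => simp [E_empty, wt]
  | insert a S ha ih =>
    rw [E_insert 0 ha, ih, E_zero, wt, wt, Finset.sum_insert ha]
    ring

theorem E_union [DecidableEq V] (k : ℕ) {A B : Finset V} (h : Disjoint A B) (w : V → ℤ) :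
    E k (A ∪ B) w = ∑ i ∈ range (k + 1), E i A w * E (k - i) B w := by
  induction A using Finset.induction_on generalizing k with
  | empty =>
    rw [Finset.empty_union, Finset.sum_range_succ', E_zero]
    simp [E_empty]
  | insert a A ha ih =>
    rw [Finset.disjoint_insert_left] at h
    rw [Finset.insert_union]
    cases k with
    | zero => simp [E_zero]
    | succ k =>
      have ha' : a ∉ A ∪ B := by
        rw [Finset.mem_union]
        rintro (h1 | h1)
        · exact ha h1
        · exact h.1 h1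
      rw [E_insert k ha', ih (k + 1) h.2, ih k h.2, Finset.sum_range_succ', Finset.sum_range_succ'
        (fun i => E i (insert a A) w * E (k + 1 - i) B w), E_zero, E_zero, Finset.mul_sum]
      have : ∀ i ∈ range (k + 1), E (i + 1) (insert a A) w * E (k + 1 - (i + 1)) B w =
          E (i + 1) A w * E (k + 1 - (i + 1)) B w + w a * (E i A w * E (k - i) B w) := by
        intro i _
        rw [E_insert i ha, Nat.add_sub_add_right]
        ring
      rw [Finset.sum_congr rfl this, Finset.sum_add_distrib]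
      ring

theorem E_loc (k : ℕ) (S : Finset V) : Loc S (E k S) := by
  intro w w' h
  unfold E
  apply Finset.sum_congr rfl
  intro e he
  apply Finset.prod_congr rfl
  intro x hx
  exact h x ((Finset.mem_powersetCard.1 he).1 hx)

theorem E_mono_zero [DecidableEq V] (k : ℕ) {S T : Finset V} (h : S ⊆ T) (w : V → ℤ)
    (hw : ∀ v ∈ T, v ∉ S → w v = 0) : E k T w = E k S w := by
  unfold E
  symm
  apply Finset.sum_subset (Finset.powersetCard_mono h)
  intro e he he'
  rw [Finset.mem_powersetCard] at he he'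
  have : ∃ x ∈ e, x ∉ S := by
    by_contra hcon
    push Not at hcon
    exact he' ⟨hcon, he.2⟩
  obtain ⟨x, hx, hxS⟩ := this
  exact Finset.prod_eq_zero hx (hw x (he.1 hx) hxS)

theorem E_image {U : Type} [DecidableEq U] (k : ℕ) {S : Finset V} {π : V → U}
    (h : Set.InjOn π S) (w : V → ℤ) :
    E k (S.image π) (fun u => ∑ v ∈ S with π v = u, w v) = E k S w := by
  classical
  unfold E
  have hpush : ∀ v ∈ S, (∑ v' ∈ S with π v' = π v, w v') = w v := by
    intro v hv
    rw [Finset.sum_eq_single v]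
    · intro b hb hbv
      rw [Finset.mem_filter] at hb
      exact absurd (h hb.1 hv hb.2) hbv
    · intro hcon
      exact (hcon (Finset.mem_filter.2 ⟨hv, rfl⟩)).elim
  symm
  apply Finset.sum_bij (fun e _ => e.image π)
  · intro e he
    rw [Finset.mem_powersetCard] at he ⊢
    refine ⟨Finset.image_subset_image he.1, ?_⟩
    rw [Finset.card_image_of_injOn (h.mono (by exact_mod_cast he.1)), he.2]
  · intro e he f hf hef
    rw [Finset.mem_powersetCard] at he hf
    ext v
    constructor
    · intro hv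
      have : π v ∈ f.image π := by
        rw [← hef]
        exact Finset.mem_image_of_mem π hv
      obtain ⟨v', hv', hvv⟩ := Finset.mem_image.1 this
      rw [h (he.1 hv) (hf.1 hv') hvv.symm]
      exact hv'
    · intro hv
      have : π v ∈ e.image π := by
        rw [hef]
        exact Finset.mem_image_of_mem π hv
      obtain ⟨v', hv', hvv⟩ := Finset.mem_image.1 this
      rw [h (hf.1 hv) (he.1 hv') hvv.symm]
      exact hv'
  · intro f hf
    rw [Finset.mem_powersetCard] at hf
    refine ⟨S.filter (fun v => π v ∈ f), ?_, ?_⟩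
    · have himg : (S.filter (fun v => π v ∈ f)).image π = f := by
        ext u
        rw [Finset.mem_image]
        constructor
        · rintro ⟨v, hv, rfl⟩
          exact (Finset.mem_filter.1 hv).2
        · intro hu
          obtain ⟨v, hv, rfl⟩ := Finset.mem_image.1 (hf.1 hu)
          exact ⟨v, Finset.mem_filter.2 ⟨hv, hu⟩, rfl⟩
      rw [Finset.mem_powersetCard]
      refine ⟨Finset.filter_subset _ _, ?_⟩
      rw [← hf.2]
      conv_rhs => rw [← himg]
      rw [Finset.card_image_of_injOn (h.mono (by exact_mod_cast Finset.filter_subset _ _))]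
    · ext u
      rw [Finset.mem_image]
      constructor
      · rintro ⟨v, hv, rfl⟩
        exact (Finset.mem_filter.1 hv).2
      · intro hu
        obtain ⟨v, hv, rfl⟩ := Finset.mem_image.1 (hf.1 hu)
        exact ⟨v, Finset.mem_filter.2 ⟨hv, hu⟩, rfl⟩
  · intro e he
    rw [Finset.mem_powersetCard] at he
    rw [Finset.prod_image]
    · apply Finset.prod_congr rfl
      intro v hv
      exact (hpush v (he.1 hv)).symm
    · exact h.mono (by exact_mod_cast he.1)

/-- transport of a decomposition of a complete graph to any finite set that is not larger -/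
theorem Dw.transport {U : Type} {r c n : ℕ} (h : Dw r (E r (range n)) c)
    (S : Finset U) (hS : S.card ≤ n) : Dw r (E r S) c := by
  classical
  have hex : ∃ π : U → ℕ, Set.InjOn π S ∧ S.image π ⊆ range n := by
    obtain ⟨f⟩ : Nonempty (S ≃ Fin S.card) := ⟨S.equivFin⟩
    refine ⟨fun u => if hu : u ∈ S then (f ⟨u, hu⟩ : ℕ) else 0, ?_, ?_⟩
    · intro x hx y hy hxy
      simp only [Finset.mem_coe] at hx hy
      simp only [hx, hy, dif_pos] at hxy
      have := f.injective (Fin.ext hxy)
      simpa using this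
    · intro x hx
      obtain ⟨u, hu, rfl⟩ := Finset.mem_image.1 hx
      simp only [hu, dif_pos, Finset.mem_range]
      exact lt_of_lt_of_le (f ⟨u, hu⟩).2 hS
  obtain ⟨π, hπ, hsub⟩ := hex
  refine (h.pull π S).congr (fun w => ?_)
  rw [E_mono_zero r hsub, E_image r hπ w]
  intro v _ hv
  apply Finset.sum_eq_zero
  intro u hu
  rw [Finset.mem_filter] at hu
  exact absurd (Finset.mem_image.2 ⟨u, hu.1, hu.2⟩) hv

end esymm

/-- weight of the 4-sets meeting both `A` and `B` -/
def crossF {V : Type} (A B : Finset V) (w : V → ℤ) : ℤ :=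
  E 1 A w * E 3 B w + E 2 A w * E 2 B w + E 3 A w * E 1 B w

theorem Dw.box4 {V : Type} (P0 P1 P2 P3 : Finset V) (h01 : Disjoint P0 P1) (h02 : Disjoint P0 P2)
    (h03 : Disjoint P0 P3) (h12 : Disjoint P1 P2) (h13 : Disjoint P1 P3) (h23 : Disjoint P2 P3) :
    Dw 4 (fun w => wt w P0 * wt w P1 * wt w P2 * wt w P3) 1 := by
  have := Dw.box ![P0, P1, P2, P3] (by
    intro j k hjk
    fin_cases j <;> fin_cases k <;> first | exact absurd rfl hjk | skip
    all_goals simp
    all_goals first | assumption | exact Disjoint.symm (by assumption))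
  refine this.congr (fun w => ?_)
  rw [Fin.prod_univ_four]
  rfl

theorem wt_row (w : Fin 4 × ℕ → ℤ) (s : Fin 4) (T : Finset ℕ) :
    wt w ({s} ×ˢ T) = ∑ i ∈ T, w (s, i) := by
  unfold wt
  rw [Finset.sum_product, Finset.sum_singleton]

theorem wt_pt {V : Type} (w : V → ℤ) (v : V) : wt w {v} = w v := by
  simp [wt]

theorem wt_union {V : Type} [DecidableEq V] (w : V → ℤ) (A B : Finset V) (h : Disjoint A B) :
    wt w (A ∪ B) = wt w A + wt w B := by
  unfold wt
  rw [Finset.sum_union h]

/-- sums over the doubled set -/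
theorem dbl_aux (x y : ℕ → ℤ) (M : ℕ) :
    (∑ i ∈ range (M + 1), x i * y i * ((∑ k ∈ range (M + 1), (x k + y k)) - (x i + y i))) =
    (∑ i ∈ range M, x i * y i * ((∑ k ∈ range M, (x k + y k)) - (x i + y i))) +
      (x M + y M) * (∑ i ∈ range M, x i * y i) + x M * y M * (∑ k ∈ range M, (x k + y k)) := by
  rw [Finset.sum_range_succ, Finset.sum_range_succ (fun k => x k + y k), Finset.mul_sum]
  have : ∀ i ∈ range M, x i * y i * ((∑ k ∈ range M, (x k + y k)) + (x M + y M) - (x i + y i)) =
      x i * y i * ((∑ k ∈ range M, (x k + y k)) - (x i + y i)) + (x M + y M) * (x i * y i) := by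
    intro i _
    ring
  rw [Finset.sum_congr rfl this, Finset.sum_add_distrib]
  ring

theorem range_dbl_succ (a b : Fin 4) (M : ℕ) :
    ({a, b} : Finset (Fin 4)) ×ˢ range (M + 1) =
      insert (a, M) (insert (b, M) (({a, b} : Finset (Fin 4)) ×ˢ range M)) := by
  ext ⟨s, i⟩
  simp only [Finset.mem_product, Finset.mem_insert, Finset.mem_singleton, Finset.mem_range,
    Prod.mk.injEq]
  constructor
  · rintro ⟨h1, h2⟩
    rcases Nat.lt_succ_iff_lt_or_eq.1 h2 with h3 | h3
    · exact Or.inr (Or.inr ⟨h1, h3⟩)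
    · rcases h1 with h1 | h1
      · exact Or.inl ⟨h1, h3⟩
      · exact Or.inr (Or.inl ⟨h1, h3⟩)
  · rintro (⟨h1, h2⟩ | ⟨h1, h2⟩ | ⟨h1, h2⟩)
    · exact ⟨Or.inl h1, by omega⟩
    · exact ⟨Or.inr h1, by omega⟩
    · exact ⟨h1, by omega⟩

theorem dbl_step (a b : Fin 4) (hab : a ≠ b) (M k : ℕ) (w : Fin 4 × ℕ → ℤ) :
    E (k + 2) (({a, b} : Finset (Fin 4)) ×ˢ range (M + 1)) w =
      E (k + 2) (({a, b} : Finset (Fin 4)) ×ˢ range M) w +
      (w (a, M) + w (b, M)) * E (k + 1) (({a, b} : Finset (Fin 4)) ×ˢ range M) w +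
      w (a, M) * w (b, M) * E k (({a, b} : Finset (Fin 4)) ×ˢ range M) w := by
  rw [range_dbl_succ, E_insert, E_insert, E_insert]
  · ring
  · simp
  · simp
  · simp [hab]

theorem dbl_E1 (a b : Fin 4) (hab : a ≠ b) (M : ℕ) (w : Fin 4 × ℕ → ℤ) :
    E 1 (({a, b} : Finset (Fin 4)) ×ˢ range M) w = ∑ i ∈ range M, (w (a, i) + w (b, i)) := by
  rw [E_one]
  unfold wt
  rw [Finset.sum_product, Finset.sum_pair hab, Finset.sum_add_distrib]

theorem hat_E1 (M : ℕ) (s : ℕ → ℤ) : E 1 (range M) s = ∑ i ∈ range M, s i := by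
  rw [E_one]
  rfl

theorem hat_step (M k : ℕ) (s : ℕ → ℤ) :
    E (k + 1) (range (M + 1)) s = E (k + 1) (range M) s + s M * E k (range M) s := by
  rw [Finset.range_add_one, E_insert]
  simp

theorem dbl_E2 (a b : Fin 4) (hab : a ≠ b) (M : ℕ) (w : Fin 4 × ℕ → ℤ) :
    E 2 (({a, b} : Finset (Fin 4)) ×ˢ range M) w =
      E 2 (range M) (fun i => w (a, i) + w (b, i)) + ∑ i ∈ range M, w (a, i) * w (b, i) := by
  induction M with
  | zero => simp [E_empty]
  | succ M ih =>
    rw [dbl_step a b hab M 0 w, ih, hat_step M 1, dbl_E1 a b hab, hat_E1, E_zero,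
      Finset.sum_range_succ (fun i => w (a, i) * w (b, i))]
    ring

theorem dbl_E3 (a b : Fin 4) (hab : a ≠ b) (M : ℕ) (w : Fin 4 × ℕ → ℤ) :
    E 3 (({a, b} : Finset (Fin 4)) ×ˢ range M) w =
      E 3 (range M) (fun i => w (a, i) + w (b, i)) +
      ∑ i ∈ range M, w (a, i) * w (b, i) *
        ((∑ k ∈ range M, (w (a, k) + w (b, k))) - (w (a, i) + w (b, i))) := by
  induction M with
  | zero => simp [E_empty]
  | succ M ih =>
    rw [dbl_step a b hab M 1 w, ih, hat_step M 2, dbl_E1 a b hab, dbl_E2 a b hab,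
      dbl_aux (fun i => w (a, i)) (fun i => w (b, i)) M]
    ring

/-- ordered sums -/
theorem ord1 (x y : ℕ → ℤ) (M : ℕ) :
    (∑ i ∈ range M, (x i * ((∑ k ∈ Ico (i + 1) M, x k) + ∑ k ∈ range i, y k) +
      y i * ((∑ k ∈ Ico (i + 1) M, y k) + ∑ k ∈ range i, x k))) =
    E 2 (range M) (fun i => x i + y i) := by
  induction M with
  | zero => simp [E_empty]
  | succ M ih =>
    rw [hat_step M 1, ← ih, hat_E1, Finset.sum_range_succ]
    have : ∀ i ∈ range M, (x i * ((∑ k ∈ Ico (i + 1) (M + 1), x k) + ∑ k ∈ range i, y k) +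
      y i * ((∑ k ∈ Ico (i + 1) (M + 1), y k) + ∑ k ∈ range i, x k)) =
      (x i * ((∑ k ∈ Ico (i + 1) M, x k) + ∑ k ∈ range i, y k) +
      y i * ((∑ k ∈ Ico (i + 1) M, y k) + ∑ k ∈ range i, x k)) + (x i * x M + y i * y M) := by
      intro i hi
      have hi' : i + 1 ≤ M := Finset.mem_range.1 hi
      rw [Finset.sum_Ico_succ_top hi', Finset.sum_Ico_succ_top hi']
      ring
    have h2 : (∑ i ∈ range M, (x i * x M + y i * y M)) =
        (∑ i ∈ range M, x i) * x M + (∑ i ∈ range M, y i) * y M := by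
      rw [Finset.sum_add_distrib, Finset.sum_mul, Finset.sum_mul]
    have h3 : (∑ i ∈ range M, (x i + y i)) = (∑ i ∈ range M, x i) + (∑ i ∈ range M, y i) :=
      Finset.sum_add_distrib
    rw [Finset.sum_congr rfl this, Finset.sum_add_distrib (f := fun i =>
      (x i * ((∑ k ∈ Ico (i + 1) M, x k) + ∑ k ∈ range i, y k) +
      y i * ((∑ k ∈ Ico (i + 1) M, y k) + ∑ k ∈ range i, x k))), h2, h3, Finset.Ico_self,
      Finset.sum_empty, Finset.sum_empty]
    ring

theorem ord2 (x y : ℕ → ℤ) (M : ℕ) :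
    (∑ i ∈ range M, x i * (∑ k ∈ range i, x k)) + (∑ i ∈ range M, y i * (∑ k ∈ range i, y k)) +
      (∑ i ∈ range M, x i) * (∑ i ∈ range M, y i) =
    E 2 (range M) (fun i => x i + y i) + ∑ i ∈ range M, x i * y i := by
  induction M with
  | zero => simp [E_empty]
  | succ M ih =>
    rw [hat_step M 1, hat_E1, Finset.sum_range_succ, Finset.sum_range_succ, Finset.sum_range_succ x,
      Finset.sum_range_succ y, Finset.sum_range_succ (fun i => x i * y i),
      Finset.sum_add_distrib]
    linear_combination ih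

theorem ord3 (p s : ℕ → ℤ) (M : ℕ) :
    (∑ j ∈ range M, p j * ((∑ k ∈ range j, s k) + ∑ k ∈ Ico (j + 1) M, s k)) =
      ∑ j ∈ range M, p j * ((∑ k ∈ range M, s k) - s j) := by
  apply Finset.sum_congr rfl
  intro j hj
  have hj' : j + 1 ≤ M := Finset.mem_range.1 hj
  rw [← Finset.sum_range_add_sum_Ico s hj', Finset.sum_range_succ]
  ring

/-- the exact identity behind the cross module -/
theorem key_identity (x y u v : ℕ → ℤ) (M N : ℕ) :
    (∑ i ∈ range M, ∑ j ∈ range N,
      (x i * u j * (y i + v j) *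
          ((∑ k ∈ Ico (i + 1) M, x k) + (∑ k ∈ range i, y k) + ∑ k ∈ range j, u k) +
        y i * v j * (x i + u j) *
          ((∑ k ∈ Ico (i + 1) M, y k) + (∑ k ∈ range i, x k) + ∑ k ∈ range j, v k))) +
    (∑ i ∈ range M, (x i * y i * (∑ k ∈ range N, u k) * (∑ k ∈ range N, v k) +
      x i * y i * ((∑ k ∈ Ico (i + 1) M, x k) + ∑ k ∈ range i, y k) * (∑ k ∈ range N, v k) +
      x i * y i * ((∑ k ∈ Ico (i + 1) M, y k) + ∑ k ∈ range i, x k) * (∑ k ∈ range N, u k))) +
    (∑ j ∈ range N, (u j * v j * (∑ k ∈ range M, x k) *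
        ((∑ k ∈ range j, v k) + (∑ k ∈ Ico (j + 1) N, u k) + ∑ k ∈ Ico (j + 1) N, v k) +
      u j * v j * (∑ k ∈ range M, y k) *
        ((∑ k ∈ range j, u k) + (∑ k ∈ Ico (j + 1) N, u k) + ∑ k ∈ Ico (j + 1) N, v k))) =
    (∑ k ∈ range M, (x k + y k)) *
      (∑ j ∈ range N, u j * v j * ((∑ k ∈ range N, (u k + v k)) - (u j + v j))) +
    E 2 (range M) (fun i => x i + y i) * (∑ j ∈ range N, u j * v j) +
    (∑ i ∈ range M, x i * y i) *
      (E 2 (range N) (fun i => u i + v i) + ∑ j ∈ range N, u j * v j) +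
    (∑ i ∈ range M, x i * y i * ((∑ k ∈ range M, (x k + y k)) - (x i + y i))) *
      (∑ k ∈ range N, (u k + v k)) := by
  -- aggregated sums
  have hT : (∑ i ∈ range M, ∑ j ∈ range N,
      (x i * u j * (y i + v j) *
          ((∑ k ∈ Ico (i + 1) M, x k) + (∑ k ∈ range i, y k) + ∑ k ∈ range j, u k) +
        y i * v j * (x i + u j) *
          ((∑ k ∈ Ico (i + 1) M, y k) + (∑ k ∈ range i, x k) + ∑ k ∈ range j, v k))) =
      (∑ i ∈ range M, x i * y i * ((∑ k ∈ Ico (i + 1) M, x k) + ∑ k ∈ range i, y k)) *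
        (∑ j ∈ range N, u j) +
      (∑ i ∈ range M, x i * y i) * (∑ j ∈ range N, u j * ∑ k ∈ range j, u k) +
      (∑ i ∈ range M, x i * ((∑ k ∈ Ico (i + 1) M, x k) + ∑ k ∈ range i, y k)) *
        (∑ j ∈ range N, u j * v j) +
      (∑ i ∈ range M, x i) * (∑ j ∈ range N, u j * v j * ∑ k ∈ range j, u k) +
      (∑ i ∈ range M, x i * y i * ((∑ k ∈ Ico (i + 1) M, y k) + ∑ k ∈ range i, x k)) *
        (∑ j ∈ range N, v j) +
      (∑ i ∈ range M, x i * y i) * (∑ j ∈ range N, v j * ∑ k ∈ range j, v k) +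
      (∑ i ∈ range M, y i * ((∑ k ∈ Ico (i + 1) M, y k) + ∑ k ∈ range i, x k)) *
        (∑ j ∈ range N, u j * v j) +
      (∑ i ∈ range M, y i) * (∑ j ∈ range N, u j * v j * ∑ k ∈ range j, v k) := by
    simp only [Finset.sum_mul_sum, ← Finset.sum_add_distrib]
    apply Finset.sum_congr rfl
    intro i _
    apply Finset.sum_congr rfl
    intro j _
    ring
  have hL1 : (∑ i ∈ range M, (x i * y i * (∑ k ∈ range N, u k) * (∑ k ∈ range N, v k) +
      x i * y i * ((∑ k ∈ Ico (i + 1) M, x k) + ∑ k ∈ range i, y k) * (∑ k ∈ range N, v k) +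
      x i * y i * ((∑ k ∈ Ico (i + 1) M, y k) + ∑ k ∈ range i, x k) * (∑ k ∈ range N, u k))) =
      (∑ i ∈ range M, x i * y i) * (∑ k ∈ range N, u k) * (∑ k ∈ range N, v k) +
      (∑ i ∈ range M, x i * y i * ((∑ k ∈ Ico (i + 1) M, x k) + ∑ k ∈ range i, y k)) *
        (∑ k ∈ range N, v k) +
      (∑ i ∈ range M, x i * y i * ((∑ k ∈ Ico (i + 1) M, y k) + ∑ k ∈ range i, x k)) *
        (∑ k ∈ range N, u k) := by
    rw [Finset.sum_add_distrib, Finset.sum_add_distrib]
    simp only [Finset.sum_mul]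
  have hL2 : (∑ j ∈ range N, (u j * v j * (∑ k ∈ range M, x k) *
        ((∑ k ∈ range j, v k) + (∑ k ∈ Ico (j + 1) N, u k) + ∑ k ∈ Ico (j + 1) N, v k) +
      u j * v j * (∑ k ∈ range M, y k) *
        ((∑ k ∈ range j, u k) + (∑ k ∈ Ico (j + 1) N, u k) + ∑ k ∈ Ico (j + 1) N, v k))) =
      (∑ k ∈ range M, x k) * (∑ j ∈ range N, u j * v j * ∑ k ∈ range j, v k) +
      (∑ k ∈ range M, x k) * (∑ j ∈ range N, u j * v j * ∑ k ∈ Ico (j + 1) N, (u k + v k)) +
      (∑ k ∈ range M, y k) * (∑ j ∈ range N, u j * v j * ∑ k ∈ range j, u k) +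
      (∑ k ∈ range M, y k) * (∑ j ∈ range N, u j * v j * ∑ k ∈ Ico (j + 1) N, (u k + v k)) := by
    rw [Finset.mul_sum, Finset.mul_sum, Finset.mul_sum, Finset.mul_sum,
      ← Finset.sum_add_distrib, ← Finset.sum_add_distrib, ← Finset.sum_add_distrib]
    apply Finset.sum_congr rfl
    intro j _
    rw [Finset.sum_add_distrib]
    ring
  have hb := ord1 x y M
  rw [Finset.sum_add_distrib] at hb
  have hc := ord2 u v N
  have hd := ord3 (fun j => u j * v j) (fun k => u k + v k) N
  have hd' : (∑ j ∈ range N, u j * v j * ((∑ k ∈ range j, (u k + v k)) +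
      ∑ k ∈ Ico (j + 1) N, (u k + v k))) =
      (∑ j ∈ range N, u j * v j * ∑ k ∈ range j, u k) +
      (∑ j ∈ range N, u j * v j * ∑ k ∈ range j, v k) +
      (∑ j ∈ range N, u j * v j * ∑ k ∈ Ico (j + 1) N, (u k + v k)) := by
    rw [← Finset.sum_add_distrib, ← Finset.sum_add_distrib]
    apply Finset.sum_congr rfl
    intro j _
    rw [Finset.sum_add_distrib]
    ring
  have ha := ord3 (fun j => x j * y j) (fun k => x k + y k) M
  have ha' : (∑ j ∈ range M, x j * y j * ((∑ k ∈ range j, (x k + y k)) +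
      ∑ k ∈ Ico (j + 1) M, (x k + y k))) =
      (∑ i ∈ range M, x i * y i * ((∑ k ∈ Ico (i + 1) M, x k) + ∑ k ∈ range i, y k)) +
      (∑ i ∈ range M, x i * y i * ((∑ k ∈ Ico (i + 1) M, y k) + ∑ k ∈ range i, x k)) := by
    rw [← Finset.sum_add_distrib]
    apply Finset.sum_congr rfl
    intro j _
    rw [Finset.sum_add_distrib, Finset.sum_add_distrib]
    ring
  rw [hT, hL1, hL2, ← ha, ← hd]
  rw [ha', hd', ← hb, ← hc, Finset.sum_add_distrib, Finset.sum_add_distrib]
  ring

theorem E_push {V U : Type} [DecidableEq V] [DecidableEq U] (k : ℕ) {S T : Finset V} {S0 : Finset U}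
    (π : V → U) (hST : S ⊆ T) (hπ : Set.InjOn π S) (hS0 : ∀ v ∈ S, π v ∈ S0)
    (hT : ∀ v ∈ T, v ∉ S → π v ∉ S0) (w : V → ℤ) :
    E k S0 (fun u => ∑ v ∈ T with π v = u, w v) = E k S w := by
  have h1 : E k S0 (fun u => ∑ v ∈ T with π v = u, w v) =
      E k S0 (fun u => ∑ v ∈ S with π v = u, w v) := by
    apply E_loc
    intro u hu
    apply Finset.sum_congr _ (fun _ _ => rfl)
    ext v
    simp only [Finset.mem_filter]
    constructor
    · rintro ⟨hv, rfl⟩
      refine ⟨?_, rfl⟩
      by_contra hvS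
      exact hT v hv hvS hu
    · rintro ⟨hv, rfl⟩
      exact ⟨hST hv, rfl⟩
  rw [h1]
  have h2 : S.image π ⊆ S0 := by
    intro u hu
    obtain ⟨v, hv, rfl⟩ := Finset.mem_image.1 hu
    exact hS0 v hv
  rw [E_mono_zero k h2, E_image k hπ w]
  intro v _ hv
  apply Finset.sum_eq_zero
  intro u hu
  rw [Finset.mem_filter] at hu
  exact absurd (Finset.mem_image.2 ⟨u, hu.1, hu.2⟩) hv

theorem exists_inj {V U : Type} [DecidableEq V] [DecidableEq U] (A : Finset V) (A0 : Finset U)
    (h : A.card ≤ A0.card) (hne : Nonempty U) :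
    ∃ π : V → U, Set.InjOn π A ∧ ∀ v ∈ A, π v ∈ A0 := by
  obtain ⟨B, hB, hc⟩ := Finset.exists_subset_card_eq h
  have e : A ≃ B := Finset.equivOfCardEq hc.symm
  obtain ⟨u0⟩ := hne
  refine ⟨fun v => if hv : v ∈ A then (e ⟨v, hv⟩ : U) else u0, ?_, ?_⟩
  · intro x hx y hy hxy
    simp only [Finset.mem_coe] at hx hy
    simp only [hx, hy, dif_pos] at hxy
    have := e.injective (Subtype.ext hxy)
    simpa using this
  · intro v hv
    simp only [hv, dif_pos]
    exact hB (e ⟨v, hv⟩).2

theorem cross_transport {V U : Type} [DecidableEq V] [DecidableEq U] [Nonempty U] {c : ℕ}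
    {A B : Finset V} {A0 B0 : Finset U}
    (h0 : Disjoint A0 B0) (h : Disjoint A B) (hA : A.card ≤ A0.card) (hB : B.card ≤ B0.card)
    (hD : Dw 4 (crossF A0 B0) c) : Dw 4 (crossF A B) c := by
  obtain ⟨f, hf, hf'⟩ := exists_inj A A0 hA inferInstance
  obtain ⟨g, hg, hg'⟩ := exists_inj B B0 hB inferInstance
  refine (hD.pull (fun v => if v ∈ A then f v else g v) (A ∪ B)).congr (fun w => ?_)
  have hBA : ∀ v ∈ B, v ∉ A := fun v hv hv' => Finset.disjoint_left.1 h hv' hv
  have eA : ∀ k, E k A0 (fun u => ∑ v ∈ A ∪ B with (if v ∈ A then f v else g v) = u, w v) =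
      E k A w := by
    intro k
    apply E_push k (fun v => if v ∈ A then f v else g v) subset_union_left
    · intro x hx y hy hxy
      simp only [Finset.mem_coe] at hx hy
      simp only [hx, hy, if_true] at hxy
      exact hf hx hy hxy
    · intro v hv
      simp only [hv, if_true]
      exact hf' v hv
    · intro v hv hvA
      simp only [hvA, if_false]
      have hvB : v ∈ B := by
        rcases Finset.mem_union.1 hv with h1 | h1
        · exact absurd h1 hvA
        · exact h1
      intro h2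
      exact Finset.disjoint_left.1 h0 h2 (hg' v hvB)
  have eB : ∀ k, E k B0 (fun u => ∑ v ∈ A ∪ B with (if v ∈ A then f v else g v) = u, w v) =
      E k B w := by
    intro k
    apply E_push k (fun v => if v ∈ A then f v else g v) subset_union_right
    · intro x hx y hy hxy
      simp only [Finset.mem_coe] at hx hy
      simp only [hBA x hx, hBA y hy, if_false] at hxy
      exact hg hx hy hxy
    · intro v hv
      simp only [hBA v hv, if_false]
      exact hg' v hv
    · intro v hv hvB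
      have hvA : v ∈ A := by
        rcases Finset.mem_union.1 hv with h1 | h1
        · exact h1
        · exact absurd h1 hvB
      simp only [hvA, if_true]
      intro h2
      exact Finset.disjoint_left.1 h0 (hf' v hvA) h2
  unfold crossF
  rw [eA, eA, eA, eB, eB, eB]

theorem E_slice (k M : ℕ) (b : Bool) (W : Bool × ℕ → ℤ) :
    E k (({b} : Finset Bool) ×ˢ range M) W = E k (range M) (fun i => W (b, i)) := by
  induction M generalizing k with
  | zero =>
    cases k with
    | zero => simp [E_zero]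
    | succ k => simp [E_empty]
  | succ M ih =>
    cases k with
    | zero => simp [E_zero]
    | succ k =>
      have h1 : ({b} : Finset Bool) ×ˢ range (M + 1) = insert (b, M) (({b} : Finset Bool) ×ˢ range M) := by
        ext ⟨s, i⟩
        simp only [Finset.mem_product, Finset.mem_insert, Finset.mem_singleton, Finset.mem_range,
          Prod.mk.injEq]
        constructor
        · rintro ⟨h1, h2⟩
          rcases Nat.lt_succ_iff_lt_or_eq.1 h2 with h3 | h3
          · exact Or.inr ⟨h1, h3⟩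
          · exact Or.inl ⟨h1, h3⟩
        · rintro (⟨h1, h2⟩ | ⟨h1, h2⟩)
          · exact ⟨h1, by omega⟩
          · exact ⟨h1, by omega⟩
      rw [h1, E_insert k (by simp), ih, ih, hat_step]

def side : Fin 4 × ℕ → Bool × ℕ := fun v => (decide (2 ≤ v.1.val), v.2)

theorem push_side (M : ℕ) (w : Fin 4 × ℕ → ℤ) (b : Bool) (i : ℕ) (hi : i < M) :
    (∑ v ∈ (univ : Finset (Fin 4)) ×ˢ range M with side v = (b, i), w v) =
      if b then w (2, i) + w (3, i) else w (0, i) + w (1, i) := by
  cases b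
  · have : ((univ : Finset (Fin 4)) ×ˢ range M).filter (fun v => side v = (false, i)) =
        {(0, i), (1, i)} := by
      ext ⟨s, j⟩
      fin_cases s <;> simp [side] <;> omega
    rw [this, Finset.sum_pair (by simp)]
    simp
  · have : ((univ : Finset (Fin 4)) ×ˢ range M).filter (fun v => side v = (true, i)) =
        {(2, i), (3, i)} := by
      ext ⟨s, j⟩
      fin_cases s <;> simp [side] <;> omega
    rw [this, Finset.sum_pair (by simp)]
    simp

theorem crossF_push (M : ℕ) (w : Fin 4 × ℕ → ℤ) :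
    crossF (({false} : Finset Bool) ×ˢ range M) (({true} : Finset Bool) ×ˢ range M)
      (fun u => ∑ v ∈ (univ : Finset (Fin 4)) ×ˢ range M with side v = u, w v) =
    E 1 (range M) (fun i => w (0, i) + w (1, i)) * E 3 (range M) (fun i => w (2, i) + w (3, i)) +
    E 2 (range M) (fun i => w (0, i) + w (1, i)) * E 2 (range M) (fun i => w (2, i) + w (3, i)) +
    E 3 (range M) (fun i => w (0, i) + w (1, i)) * E 1 (range M) (fun i => w (2, i) + w (3, i)) := by
  have h1 : ∀ k, E k (range M) (fun i => ∑ v ∈ (univ : Finset (Fin 4)) ×ˢ range M with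
      side v = (false, i), w v) = E k (range M) (fun i => w (0, i) + w (1, i)) := by
    intro k
    apply E_loc
    intro i hi
    rw [push_side M w false i (Finset.mem_range.1 hi)]
    simp
  have h2 : ∀ k, E k (range M) (fun i => ∑ v ∈ (univ : Finset (Fin 4)) ×ˢ range M with
      side v = (true, i), w v) = E k (range M) (fun i => w (2, i) + w (3, i)) := by
    intro k
    apply E_loc
    intro i hi
    rw [push_side M w true i (Finset.mem_range.1 hi)]
    simp
  unfold crossF
  simp only [E_slice]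
  rw [h1, h1, h1, h2, h2, h2]

theorem crossF_double (M : ℕ) (w : Fin 4 × ℕ → ℤ) :
    crossF (({0, 1} : Finset (Fin 4)) ×ˢ range M) (({2, 3} : Finset (Fin 4)) ×ˢ range M) w =
    crossF (({false} : Finset Bool) ×ˢ range M) (({true} : Finset Bool) ×ˢ range M)
      (fun u => ∑ v ∈ (univ : Finset (Fin 4)) ×ˢ range M with side v = u, w v) +
    ((∑ i ∈ range M, ∑ j ∈ range M,
      (w (0, i) * w (2, j) * (w (1, i) + w (3, j)) *
          ((∑ k ∈ Ico (i + 1) M, w (0, k)) + (∑ k ∈ range i, w (1, k)) + ∑ k ∈ range j, w (2, k)) +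
        w (1, i) * w (3, j) * (w (0, i) + w (2, j)) *
          ((∑ k ∈ Ico (i + 1) M, w (1, k)) + (∑ k ∈ range i, w (0, k)) + ∑ k ∈ range j, w (3, k)))) +
    (∑ i ∈ range M, (w (0, i) * w (1, i) * (∑ k ∈ range M, w (2, k)) * (∑ k ∈ range M, w (3, k)) +
      w (0, i) * w (1, i) * ((∑ k ∈ Ico (i + 1) M, w (0, k)) + ∑ k ∈ range i, w (1, k)) *
        (∑ k ∈ range M, w (3, k)) +
      w (0, i) * w (1, i) * ((∑ k ∈ Ico (i + 1) M, w (1, k)) + ∑ k ∈ range i, w (0, k)) *
        (∑ k ∈ range M, w (2, k)))) +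
    (∑ j ∈ range M, (w (2, j) * w (3, j) * (∑ k ∈ range M, w (0, k)) *
        ((∑ k ∈ range j, w (3, k)) + (∑ k ∈ Ico (j + 1) M, w (2, k)) +
          ∑ k ∈ Ico (j + 1) M, w (3, k)) +
      w (2, j) * w (3, j) * (∑ k ∈ range M, w (1, k)) *
        ((∑ k ∈ range j, w (2, k)) + (∑ k ∈ Ico (j + 1) M, w (2, k)) +
          ∑ k ∈ Ico (j + 1) M, w (3, k))))) := by
  rw [key_identity (fun i => w (0, i)) (fun i => w (1, i)) (fun i => w (2, i))
    (fun i => w (3, i)) M M, crossF_push]
  unfold crossF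
  rw [dbl_E1 0 1 (by decide), dbl_E1 2 3 (by decide), dbl_E2 0 1 (by decide),
    dbl_E2 2 3 (by decide), dbl_E3 0 1 (by decide), dbl_E3 2 3 (by decide), hat_E1, hat_E1]
  ring

theorem row_disj (s t : Fin 4) (h : s ≠ t) (T T' : Finset ℕ) :
    Disjoint (({s} : Finset (Fin 4)) ×ˢ T) (({t} : Finset (Fin 4)) ×ˢ T') :=
  Finset.disjoint_product.2 (Or.inl (by simpa using h))

theorem cross_canon (M c : ℕ)
    (h : Dw 4 (crossF (({false} : Finset Bool) ×ˢ range M) (({true} : Finset Bool) ×ˢ range M)) c) :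
    Dw 4 (crossF (({0, 1} : Finset (Fin 4)) ×ˢ range M) (({2, 3} : Finset (Fin 4)) ×ˢ range M))
      (c + (2 * M ^ 2 + 5 * M)) := by
  have h0 := h.pull side ((univ : Finset (Fin 4)) ×ˢ range M)
  have hT : Dw 4 (fun w : Fin 4 × ℕ → ℤ => ∑ i ∈ range M, ∑ j ∈ range M,
      (w (0, i) * w (2, j) * (w (1, i) + w (3, j)) *
          ((∑ k ∈ Ico (i + 1) M, w (0, k)) + (∑ k ∈ range i, w (1, k)) + ∑ k ∈ range j, w (2, k)) +
        w (1, i) * w (3, j) * (w (0, i) + w (2, j)) *
          ((∑ k ∈ Ico (i + 1) M, w (1, k)) + (∑ k ∈ range i, w (0, k)) + ∑ k ∈ range j, w (3, k))))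
      (∑ i ∈ range M, ∑ j ∈ range M, 2) := by
    apply Dw.sum
    intro i hi
    apply Dw.sum
    intro j hj
    have b1 := Dw.box4 ({(0, i)} : Finset (Fin 4 × ℕ)) {(2, j)} {(1, i), (3, j)}
      (({0} ×ˢ Ico (i + 1) M ∪ {1} ×ˢ range i) ∪ {2} ×ˢ range j)
      (by simp) (by simp) (by simp) (by simp) (by simp) (by simp)
    have b2 := Dw.box4 ({(1, i)} : Finset (Fin 4 × ℕ)) {(3, j)} {(0, i), (2, j)}
      (({1} ×ˢ Ico (i + 1) M ∪ {0} ×ˢ range i) ∪ {3} ×ˢ range j)
      (by simp) (by simp) (by simp) (by simp) (by simp) (by simp)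
    refine (b1.add b2).congr (fun w => ?_)
    have d1 : Disjoint (({0} : Finset (Fin 4)) ×ˢ Ico (i + 1) M ∪ ({1} : Finset (Fin 4)) ×ˢ range i)
      (({2} : Finset (Fin 4)) ×ˢ range j) := by
      rw [Finset.disjoint_left]
      rintro ⟨s, k⟩ h1 h2
      simp only [Finset.mem_union, Finset.mem_product, Finset.mem_singleton] at h1 h2
      rw [h2.1] at h1
      revert h1
      simp
    have d2 : Disjoint (({0} : Finset (Fin 4)) ×ˢ Ico (i + 1) M) (({1} : Finset (Fin 4)) ×ˢ range i) := by
      rw [Finset.disjoint_left]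
      rintro ⟨s, k⟩ h1 h2
      simp only [Finset.mem_product, Finset.mem_singleton] at h1 h2
      rw [h2.1] at h1
      revert h1
      simp
    have d3 : Disjoint (({1} : Finset (Fin 4)) ×ˢ Ico (i + 1) M ∪ ({0} : Finset (Fin 4)) ×ˢ range i)
      (({3} : Finset (Fin 4)) ×ˢ range j) := by
      rw [Finset.disjoint_left]
      rintro ⟨s, k⟩ h1 h2
      simp only [Finset.mem_union, Finset.mem_product, Finset.mem_singleton] at h1 h2
      rw [h2.1] at h1
      revert h1
      simp
    have d4 : Disjoint (({1} : Finset (Fin 4)) ×ˢ Ico (i + 1) M) (({0} : Finset (Fin 4)) ×ˢ range i) := by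
      rw [Finset.disjoint_left]
      rintro ⟨s, k⟩ h1 h2
      simp only [Finset.mem_product, Finset.mem_singleton] at h1 h2
      rw [h2.1] at h1
      revert h1
      simp
    rw [wt_union _ _ _ d1, wt_union _ _ _ d2, wt_union _ _ _ d3, wt_union _ _ _ d4]
    simp only [wt_row, wt_pt]
    have e1 : wt w ({(1, i), (3, j)} : Finset (Fin 4 × ℕ)) = w (1, i) + w (3, j) := by
      unfold wt
      rw [Finset.sum_pair (by simp)]
    have e2 : wt w ({(0, i), (2, j)} : Finset (Fin 4 × ℕ)) = w (0, i) + w (2, j) := by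
      unfold wt
      rw [Finset.sum_pair (by simp)]
    rw [e1, e2]
  have hL1 : Dw 4 (fun w : Fin 4 × ℕ → ℤ => ∑ i ∈ range M,
      (w (0, i) * w (1, i) * (∑ k ∈ range M, w (2, k)) * (∑ k ∈ range M, w (3, k)) +
      w (0, i) * w (1, i) * ((∑ k ∈ Ico (i + 1) M, w (0, k)) + ∑ k ∈ range i, w (1, k)) *
        (∑ k ∈ range M, w (3, k)) +
      w (0, i) * w (1, i) * ((∑ k ∈ Ico (i + 1) M, w (1, k)) + ∑ k ∈ range i, w (0, k)) *
        (∑ k ∈ range M, w (2, k)))) (∑ i ∈ range M, 3) := by
    apply Dw.sum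
    intro i hi
    have b1 := Dw.box4 ({(0, i)} : Finset (Fin 4 × ℕ)) {(1, i)} ({2} ×ˢ range M) ({3} ×ˢ range M)
      (by simp) (by simp) (by simp) (by simp) (by simp) (row_disj 2 3 (by decide) _ _)
    have b2 := Dw.box4 ({(0, i)} : Finset (Fin 4 × ℕ)) {(1, i)}
      ({0} ×ˢ Ico (i + 1) M ∪ {1} ×ˢ range i) ({3} ×ˢ range M)
      (by simp) (by simp) (by simp) (by simp) (by simp)
      (Finset.disjoint_union_left.2 ⟨row_disj 0 3 (by decide) _ _, row_disj 1 3 (by decide) _ _⟩)
    have b3 := Dw.box4 ({(0, i)} : Finset (Fin 4 × ℕ)) {(1, i)}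
      ({1} ×ˢ Ico (i + 1) M ∪ {0} ×ˢ range i) ({2} ×ˢ range M)
      (by simp) (by simp) (by simp) (by simp) (by simp)
      (Finset.disjoint_union_left.2 ⟨row_disj 1 2 (by decide) _ _, row_disj 0 2 (by decide) _ _⟩)
    refine ((b1.add b2).add b3).congr (fun w => ?_)
    have d2 : Disjoint (({0} : Finset (Fin 4)) ×ˢ Ico (i + 1) M) (({1} : Finset (Fin 4)) ×ˢ range i) := by
      rw [Finset.disjoint_left]
      rintro ⟨s, k⟩ h1 h2
      simp only [Finset.mem_product, Finset.mem_singleton] at h1 h2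
      rw [h2.1] at h1
      revert h1
      simp
    have d4 : Disjoint (({1} : Finset (Fin 4)) ×ˢ Ico (i + 1) M) (({0} : Finset (Fin 4)) ×ˢ range i) := by
      rw [Finset.disjoint_left]
      rintro ⟨s, k⟩ h1 h2
      simp only [Finset.mem_product, Finset.mem_singleton] at h1 h2
      rw [h2.1] at h1
      revert h1
      simp
    rw [wt_union _ _ _ d2, wt_union _ _ _ d4]
    simp only [wt_row, wt_pt]
  have hL2 : Dw 4 (fun w : Fin 4 × ℕ → ℤ => ∑ j ∈ range M,
      (w (2, j) * w (3, j) * (∑ k ∈ range M, w (0, k)) *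
        ((∑ k ∈ range j, w (3, k)) + (∑ k ∈ Ico (j + 1) M, w (2, k)) +
          ∑ k ∈ Ico (j + 1) M, w (3, k)) +
      w (2, j) * w (3, j) * (∑ k ∈ range M, w (1, k)) *
        ((∑ k ∈ range j, w (2, k)) + (∑ k ∈ Ico (j + 1) M, w (2, k)) +
          ∑ k ∈ Ico (j + 1) M, w (3, k)))) (∑ i ∈ range M, 2) := by
    apply Dw.sum
    intro j hj
    have b1 := Dw.box4 ({(2, j)} : Finset (Fin 4 × ℕ)) {(3, j)} ({0} ×ˢ range M)
      (({3} ×ˢ range j ∪ {2} ×ˢ Ico (j + 1) M) ∪ {3} ×ˢ Ico (j + 1) M)
      (by simp) (by simp) (by simp) (by simp) (by simp)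
      (Finset.disjoint_union_right.2 ⟨Finset.disjoint_union_right.2
        ⟨row_disj 0 3 (by decide) _ _, row_disj 0 2 (by decide) _ _⟩, row_disj 0 3 (by decide) _ _⟩)
    have b2 := Dw.box4 ({(2, j)} : Finset (Fin 4 × ℕ)) {(3, j)} ({1} ×ˢ range M)
      (({2} ×ˢ range j ∪ {2} ×ˢ Ico (j + 1) M) ∪ {3} ×ˢ Ico (j + 1) M)
      (by simp) (by simp) (by simp) (by simp) (by simp)
      (Finset.disjoint_union_right.2 ⟨Finset.disjoint_union_right.2
        ⟨row_disj 1 2 (by decide) _ _, row_disj 1 2 (by decide) _ _⟩, row_disj 1 3 (by decide) _ _⟩)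
    refine (b1.add b2).congr (fun w => ?_)
    have d1 : Disjoint (({3} : Finset (Fin 4)) ×ˢ range j ∪ ({2} : Finset (Fin 4)) ×ˢ Ico (j + 1) M)
      (({3} : Finset (Fin 4)) ×ˢ Ico (j + 1) M) := by
      rw [Finset.disjoint_left]
      rintro ⟨s, k⟩ h1 h2
      simp only [Finset.mem_union, Finset.mem_product, Finset.mem_singleton, Finset.mem_range,
        Finset.mem_Ico] at h1 h2
      rcases h1 with h1 | h1
      · omega
      · rw [h2.1] at h1
        exact absurd h1.1 (by decide)
    have d2 : Disjoint (({3} : Finset (Fin 4)) ×ˢ range j) (({2} : Finset (Fin 4)) ×ˢ Ico (j + 1) M) := by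
      rw [Finset.disjoint_left]
      rintro ⟨s, k⟩ h1 h2
      simp only [Finset.mem_product, Finset.mem_singleton] at h1 h2
      rw [h2.1] at h1
      exact absurd h1.1 (by decide)
    have d3 : Disjoint (({2} : Finset (Fin 4)) ×ˢ range j ∪ ({2} : Finset (Fin 4)) ×ˢ Ico (j + 1) M)
      (({3} : Finset (Fin 4)) ×ˢ Ico (j + 1) M) := by
      rw [Finset.disjoint_left]
      rintro ⟨s, k⟩ h1 h2
      simp only [Finset.mem_union, Finset.mem_product, Finset.mem_singleton] at h1 h2
      rw [h2.1] at h1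
      rcases h1 with h1 | h1
      · exact absurd h1.1 (by decide)
      · exact absurd h1.1 (by decide)
    have d4 : Disjoint (({2} : Finset (Fin 4)) ×ˢ range j) (({2} : Finset (Fin 4)) ×ˢ Ico (j + 1) M) := by
      rw [Finset.disjoint_left]
      rintro ⟨s, k⟩ h1 h2
      simp only [Finset.mem_product, Finset.mem_singleton, Finset.mem_range,
        Finset.mem_Ico] at h1 h2
      omega
    rw [wt_union _ _ _ d1, wt_union _ _ _ d2, wt_union _ _ _ d3, wt_union _ _ _ d4]
    simp only [wt_row, wt_pt]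
  have hall := h0.add ((hT.add hL1).add hL2)
  refine (hall.mono ?_).congr (fun w => ?_)
  · simp only [Finset.sum_const, Finset.card_range, smul_eq_mul]
    apply le_of_eq
    ring
  · rw [crossF_double]

theorem cross_module (m : ℕ) : ∃ c : ℕ, (c : ℝ) ≤ 2 / 3 * (m : ℝ) ^ 2 + 22 * m ∧
    ∀ (V : Type) [DecidableEq V] (A B : Finset V), Disjoint A B → A.card ≤ m → B.card ≤ m →
      Dw 4 (crossF A B) c := by
  induction m using Nat.strong_induction_on with
  | _ m ih =>
    rcases Nat.lt_or_ge m 2 with hm | hm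
    · refine ⟨0, by rw [Nat.cast_zero]; positivity, ?_⟩
      intro V _ A B _ hA hB
      refine (Dw.zero 4 0).congr (fun w => ?_)
      have e2 : ∀ (S : Finset V), S.card ≤ m → E 2 S w = 0 := by
        intro S hS
        unfold E
        rw [Finset.powersetCard_eq_empty.2 (by omega)]
        simp
      have e3 : ∀ (S : Finset V), S.card ≤ m → E 3 S w = 0 := by
        intro S hS
        unfold E
        rw [Finset.powersetCard_eq_empty.2 (by omega)]
        simp
      unfold crossF
      rw [e2 A hA, e3 A hA, e3 B hB]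
      ring
    · set M := (m + 1) / 2 with hM
      obtain ⟨c, hc, hc'⟩ := ih M (by omega)
      refine ⟨c + (2 * M ^ 2 + 5 * M), ?_, ?_⟩
      · have h1 : (2 * M : ℝ) ≤ m + 1 := by
          have : 2 * M ≤ m + 1 := by omega
          exact_mod_cast this
        have h2 : (2 : ℝ) ≤ m := by exact_mod_cast hm
        have h3 : (0 : ℝ) ≤ M := by positivity
        push_cast
        nlinarith [mul_nonneg h3 h3, mul_nonneg h3 (sub_nonneg.2 h1)]
      · intro V _ A B hAB hA hB
        have hD := cross_canon M c (hc' (Bool × ℕ) _ _ (by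
          rw [Finset.disjoint_left]
          rintro ⟨s, k⟩ h1 h2
          simp only [Finset.mem_product, Finset.mem_singleton] at h1 h2
          rw [h1.1] at h2
          exact absurd h2.1 (by decide)) (by simp) (by simp))
        refine cross_transport ?_ hAB ?_ ?_ hD
        · rw [Finset.disjoint_left]
          rintro ⟨s, k⟩ h1 h2
          simp only [Finset.mem_product, Finset.mem_insert, Finset.mem_singleton] at h1 h2
          rcases h1.1 with h3 | h3 <;> rw [h3] at h2 <;> exact absurd h2.1 (by decide)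
        · rw [Finset.card_product, Finset.card_range]
          have : ({0, 1} : Finset (Fin 4)).card = 2 := by decide
          rw [this]
          omega
        · rw [Finset.card_product, Finset.card_range]
          have : ({2, 3} : Finset (Fin 4)).card = 2 := by decide
          rw [this]
          omega

end Pool.Agent.Lib.MP_60210e_co.RankGaps
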