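import Pool.Agent.Lib.MP_60210e_co.RG1

/-!
# Decompositions of complete r-graphs, part 2

Expansions along clusters, the easy construction, the combination lemma and the cost estimates.
-/

set_option autoImplicit false

namespace Pool.Agent.Lib.MP_60210e_co.RankGaps

open Finset

theorem Dw.cast {V : Type} {r s : ℕ} {F : (V → ℤ) → ℤ} {c : ℕ} (h : Dw r F c) (hrs : r = s) :
    Dw s F c := hrs ▸ h

theorem Loc.mono {V : Type} {S T : Finset V} {F : (V → ℤ) → ℤ} (h : Loc S F) (hST : S ⊆ T) :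
    Loc T F := fun w w' hw => h w w' (fun v hv => hw v (hST hv))

theorem Loc.mul {V : Type} {S : Finset V} {F G : (V → ℤ) → ℤ} (hF : Loc S F) (hG : Loc S G) :
    Loc S (fun w => F w * G w) := fun w w' hw => by
  show F w * G w = F w' * G w'
  rw [hF w w' hw, hG w w' hw]

theorem Loc.sum {V α : Type} {S : Finset V} (s : Finset α) (F : α → (V → ℤ) → ℤ)
    (h : ∀ a ∈ s, Loc S (F a)) : Loc S (fun w => ∑ a ∈ s, F a w) := fun w w' hw => by
  show ∑ a ∈ s, F a w = ∑ a ∈ s, F a w'
  exact Finset.sum_congr rfl (fun a ha => h a ha w w' hw)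

theorem wt_loc {V : Type} (S : Finset V) : Loc S (fun w => wt w S) := fun w w' hw => by
  show wt w S = wt w' S
  unfold wt
  exact Finset.sum_congr rfl (fun a ha => hw a ha)

theorem pt_loc {V : Type} (v : V) : Loc {v} (fun w => w v) := fun _ _ hw =>
  hw v (Finset.mem_singleton_self v)

/-- expansion by the largest element -/
theorem E_top (k n : ℕ) (w : ℕ → ℤ) :
    E (k + 1) (range n) w = ∑ v ∈ range n, E k (range v) w * w v := by
  induction n with
  | zero => simp [E_empty]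
  | succ n ih =>
    rw [hat_step, ih, Finset.sum_range_succ]
    ring

/-- expansion by the second largest element -/
theorem E_top2 (r n : ℕ) (w : ℕ → ℤ) :
    E (r + 2) (range n) w =
      ∑ v ∈ range n, E r (range v) w * (w v * wt w (Ico (v + 1) n)) := by
  induction n with
  | zero => simp [E_empty]
  | succ n ih =>
    rw [hat_step n (r + 1), ih, Finset.sum_range_succ, E_top r n w]
    have : ∀ v ∈ range n, E r (range v) w * (w v * wt w (Ico (v + 1) (n + 1))) =
        E r (range v) w * (w v * wt w (Ico (v + 1) n)) + w n * (E r (range v) w * w v) := by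
      intro v hv
      have hv' : v + 1 ≤ n := Finset.mem_range.1 hv
      unfold wt
      rw [Finset.sum_Ico_succ_top hv']
      ring
    rw [Finset.sum_congr rfl this, Finset.sum_add_distrib, ← Finset.mul_sum]
    simp [wt]

theorem sum_choose (n k : ℕ) : ∑ v ∈ range n, v.choose k = n.choose (k + 1) := by
  induction n with
  | zero => simp
  | succ n ih =>
    rw [Finset.sum_range_succ, ih, Nat.choose_succ_succ]
    ring

theorem Dw.box2 {V : Type} (P0 P1 : Finset V) (h01 : Disjoint P0 P1) :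
    Dw 2 (fun w => wt w P0 * wt w P1) 1 := by
  have := Dw.box ![P0, P1] (by
    intro j k hjk
    fin_cases j <;> fin_cases k <;> first | exact absurd rfl hjk | skip
    all_goals simp
    all_goals first | assumption | exact Disjoint.symm (by assumption))
  refine this.congr (fun w => ?_)
  rw [Fin.prod_univ_two]
  rfl

theorem Dw.box1 {V : Type} (P0 : Finset V) : Dw 1 (fun w => wt w P0) 1 := by
  have := Dw.box (fun _ : Fin 1 => P0) (by
    intro j k hjk
    exact absurd (Subsingleton.elim j k) hjk)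
  refine this.congr (fun w => ?_)
  rw [Fin.prod_univ_one]

theorem Dw.step2 (r n : ℕ) (f : ℕ → ℕ) (h : ∀ v < n, Dw r (E r (range v)) (f v)) :
    Dw (r + 2) (E (r + 2) (range n)) (∑ v ∈ range n, f v) := by
  have h1 : Dw (r + 2) (fun w => ∑ v ∈ range n, E r (range v) w * (w v * wt w (Ico (v + 1) n)))
      (∑ v ∈ range n, f v) := by
    apply Dw.sum
    intro v hv
    have b := Dw.box2 ({v} : Finset ℕ) (Ico (v + 1) n) (by simp)
    have hloc : Loc (Ico v n) (fun w : ℕ → ℤ => wt w {v} * wt w (Ico (v + 1) n)) := by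
      apply Loc.mul
      · apply (wt_loc ({v} : Finset ℕ)).mono
        intro x hx
        rw [Finset.mem_singleton] at hx
        rw [hx, Finset.mem_Ico]
        exact ⟨le_rfl, Finset.mem_range.1 hv⟩
      · apply (wt_loc (Ico (v + 1) n)).mono
        intro x hx
        rw [Finset.mem_Ico] at hx ⊢
        omega
    have hd : Disjoint (range v) (Ico v n) := by
      rw [Finset.disjoint_left]
      intro x hx hx'
      rw [Finset.mem_range] at hx
      rw [Finset.mem_Ico] at hx'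
      omega
    have h2 := (h v (Finset.mem_range.1 hv)).mul b (E_loc r (range v)) hloc hd
    rw [mul_one] at h2
    refine h2.congr (fun w => ?_)
    rw [wt_pt]
  exact h1.congr (fun w => E_top2 r n w)

/-- the easy construction -/
theorem trivial_range (r n : ℕ) : Dw r (E r (range n)) (n.choose (r / 2)) := by
  induction r using Nat.strong_induction_on generalizing n with
  | _ r ih =>
    rcases r with _ | _ | r
    · have : Dw 0 (fun w : ℕ → ℤ => ∏ j : Fin 0, wt w ((fun _ : Fin 0 => (∅ : Finset ℕ)) j)) 1 :=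
        Dw.box _ (fun j => j.elim0)
      refine (this.congr (fun w => ?_)).mono (by simp)
      simp [E_zero]
    · refine ((Dw.box1 (range n)).congr (fun w => ?_)).mono (by simp)
      rw [E_one]
    · have h1 := Dw.step2 r n (fun v => v.choose (r / 2)) (fun v _ => ih r (by omega) v)
      refine h1.mono ?_
      have h2 : (r + 1 + 1) / 2 = r / 2 + 1 := by omega
      rw [h2, sum_choose]

theorem trivial_set {V : Type} (r N : ℕ) (S : Finset V) (hS : S.card ≤ N) :
    Dw r (E r S) (N.choose (r / 2)) := (trivial_range r N).transport S hS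

theorem trivial_pow {V : Type} (r N : ℕ) (S : Finset V) (hS : S.card ≤ N) :
    Dw r (E r S) (N ^ (r / 2)) := (trivial_set r N S hS).mono (Nat.choose_le_pow _ _)

/-- the `c`-th cluster -/
def Cl (m c : ℕ) : Finset ℕ := Ico (c * m) ((c + 1) * m)

theorem Cl_card (m c : ℕ) : (Cl m c).card = m := by
  unfold Cl
  rw [Nat.card_Ico, Nat.add_mul, Nat.one_mul, Nat.add_sub_cancel_left]

theorem mul_le_mul_cl {c d m : ℕ} (h : c ≤ d) : c * m ≤ d * m := Nat.mul_le_mul_right m h

theorem Ico_split (m c v : ℕ) (h : c < v) :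
    Ico (c * m) (v * m) = Cl m c ∪ Ico ((c + 1) * m) (v * m) := by
  unfold Cl
  rw [Finset.Ico_union_Ico_eq_Ico (mul_le_mul_cl (by omega)) (mul_le_mul_cl (by omega))]

theorem Cl_disj_hi (m c v : ℕ) : Disjoint (Cl m c) (Ico ((c + 1) * m) (v * m)) := by
  unfold Cl
  rw [Finset.disjoint_left]
  intro x hx hx'
  rw [Finset.mem_Ico] at hx hx'
  omega

theorem low_one (m k c v : ℕ) (h : c < v) (w : ℕ → ℤ) :
    E (k + 1) (Ico (c * m) (v * m)) w =
      (∑ j ∈ range (k + 1), E (j + 1) (Cl m c) w * E (k - j) (Ico ((c + 1) * m) (v * m)) w) +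
      E (k + 1) (Ico ((c + 1) * m) (v * m)) w := by
  rw [Ico_split m c v h, E_union (k + 1) (Cl_disj_hi m c v), Finset.sum_range_succ', E_zero,
    one_mul, Nat.sub_zero]
  congr 1
  apply Finset.sum_congr rfl
  intro j _
  rw [Nat.add_sub_add_right]

theorem low_expand (m k d u : ℕ) (w : ℕ → ℤ) :
    E (k + 1) (Ico (u * m) ((u + d) * m)) w =
      ∑ c ∈ Ico u (u + d), ∑ j ∈ range (k + 1),
        E (j + 1) (Cl m c) w * E (k - j) (Ico ((c + 1) * m) ((u + d) * m)) w := by
  induction d generalizing u with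
  | zero => simp [E_empty]
  | succ d ih =>
    have h1 : u < u + (d + 1) := by omega
    rw [low_one m k u (u + (d + 1)) h1, Finset.sum_eq_sum_Ico_succ_bot h1]
    congr 1
    have h2 := ih (u + 1)
    have h3 : u + 1 + d = u + (d + 1) := by ring
    rw [h3] at h2
    exact h2

theorem low_expand' (m k u v : ℕ) (huv : u ≤ v) (w : ℕ → ℤ) :
    E (k + 1) (Ico (u * m) (v * m)) w =
      ∑ c ∈ Ico u v, ∑ j ∈ range (k + 1),
        E (j + 1) (Cl m c) w * E (k - j) (Ico ((c + 1) * m) (v * m)) w := by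
  obtain ⟨d, rfl⟩ := Nat.exists_eq_add_of_le huv
  exact low_expand m k d u w

theorem range_split (m v : ℕ) : range ((v + 1) * m) = range (v * m) ∪ Cl m v := by
  unfold Cl
  rw [Finset.range_eq_Ico, Finset.range_eq_Ico,
    Finset.Ico_union_Ico_eq_Ico (Nat.zero_le _) (mul_le_mul_cl (by omega))]

theorem lo_disj_Cl (m v : ℕ) : Disjoint (range (v * m)) (Cl m v) := by
  unfold Cl
  rw [Finset.disjoint_left]
  intro x hx hx'
  rw [Finset.mem_range] at hx
  rw [Finset.mem_Ico] at hx'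
  omega

theorem high_expand (m k v : ℕ) (w : ℕ → ℤ) :
    E (k + 1) (range (v * m)) w =
      ∑ c ∈ range v, ∑ j ∈ range (k + 1),
        E (k - j) (range (c * m)) w * E (j + 1) (Cl m c) w := by
  induction v with
  | zero => simp [E_empty]
  | succ v ih =>
    rw [Finset.sum_range_succ, ← ih, range_split m v, E_union (k + 1) (lo_disj_Cl m v),
      Finset.sum_range_succ, Nat.sub_self, E_zero, mul_one, add_comm]
    congr 1
    rw [← Finset.sum_range_reflect]
    apply Finset.sum_congr rfl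
    intro j hj
    have hj' : j < k + 1 := Finset.mem_range.1 hj
    have e1 : k + 1 - 1 - j = k - j := by omega
    have e2 : k + 1 - (k - j) = j + 1 := by omega
    rw [e1, e2]

/-- pairs with sum at most `T` -/
def PS (T : ℕ) : Finset (ℕ × ℕ) :=
  (range (T + 1) ×ˢ range (T + 1)).filter (fun x => x.1 + x.2 ≤ T)

theorem sum_PS (T : ℕ) (g : ℕ → ℕ → ℤ) :
    ∑ x ∈ PS T, g x.1 x.2 = ∑ i ∈ range (T + 1), ∑ j ∈ range (T - i + 1), g i j := by
  unfold PS
  rw [Finset.sum_filter, Finset.sum_product]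
  apply Finset.sum_congr rfl
  intro i hi
  have hi' : i < T + 1 := Finset.mem_range.1 hi
  rw [← Finset.sum_filter]
  apply Finset.sum_congr _ (fun _ _ => rfl)
  ext j
  simp only [Finset.mem_filter, Finset.mem_range]
  omega

/-- the part of the `(T+2)`-sets with lowest cluster `A`, expanded by the second cluster -/
theorem low_pairs (m T p A : ℕ) (hA : A < p) (w : ℕ → ℤ) :
    (∑ i ∈ range (T + 1 + 1), E (i + 1) (Cl m A) w *
      E (T + 1 - i) (Ico ((A + 1) * m) (p * m)) w) =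
    (∑ B ∈ Ico (A + 1) p, ∑ x ∈ PS T, E (x.1 + 1) (Cl m A) w * E (x.2 + 1) (Cl m B) w *
      E (T - (x.1 + x.2)) (Ico ((B + 1) * m) (p * m)) w) + E (T + 2) (Cl m A) w := by
  rw [Finset.sum_range_succ, Nat.sub_self, E_zero, mul_one]
  congr 1
  have h1 : ∀ B, ∑ x ∈ PS T, E (x.1 + 1) (Cl m A) w * E (x.2 + 1) (Cl m B) w *
      E (T - (x.1 + x.2)) (Ico ((B + 1) * m) (p * m)) w =
      ∑ i ∈ range (T + 1), ∑ j ∈ range (T - i + 1), E (i + 1) (Cl m A) w * E (j + 1) (Cl m B) w *
      E (T - (i + j)) (Ico ((B + 1) * m) (p * m)) w := fun B =>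
    sum_PS T (fun i j => E (i + 1) (Cl m A) w * E (j + 1) (Cl m B) w *
      E (T - (i + j)) (Ico ((B + 1) * m) (p * m)) w)
  rw [Finset.sum_congr rfl (fun B _ => h1 B), Finset.sum_comm]
  apply Finset.sum_congr rfl
  intro i hi
  have hi' : i < T + 1 := Finset.mem_range.1 hi
  have e1 : T + 1 - i = T - i + 1 := by omega
  rw [e1, low_expand' m (T - i) (A + 1) p (by omega), Finset.mul_sum]
  apply Finset.sum_congr rfl
  intro B _
  rw [Finset.mul_sum]
  apply Finset.sum_congr rfl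
  intro j _
  rw [Nat.sub_sub]
  ring

/-- the mirrored version -/
theorem high_pairs (m T B : ℕ) (w : ℕ → ℤ) :
    (∑ j ∈ range (T + 1 + 1), E (T + 1 - j) (range (B * m)) w * E (j + 1) (Cl m B) w) =
    (∑ A ∈ range B, ∑ x ∈ PS T, E (T - (x.1 + x.2)) (range (A * m)) w *
      (E (x.1 + 1) (Cl m A) w * E (x.2 + 1) (Cl m B) w)) + E (T + 2) (Cl m B) w := by
  rw [Finset.sum_range_succ, Nat.sub_self, E_zero, one_mul]
  congr 1
  have h1 : ∀ A, ∑ x ∈ PS T, E (T - (x.1 + x.2)) (range (A * m)) w *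
      (E (x.1 + 1) (Cl m A) w * E (x.2 + 1) (Cl m B) w) =
      ∑ j ∈ range (T + 1), ∑ i ∈ range (T - j + 1), E (T - (i + j)) (range (A * m)) w *
      (E (i + 1) (Cl m A) w * E (j + 1) (Cl m B) w) := by
    intro A
    rw [← sum_PS T (fun j i => E (T - (i + j)) (range (A * m)) w *
      (E (i + 1) (Cl m A) w * E (j + 1) (Cl m B) w))]
    refine Finset.sum_nbij' (fun x => (x.2, x.1)) (fun x => (x.2, x.1)) ?_ ?_ ?_ ?_ ?_
    · intro x hx
      simp only [PS, Finset.mem_filter, Finset.mem_product, Finset.mem_range] at hx ⊢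
      omega
    · intro x hx
      simp only [PS, Finset.mem_filter, Finset.mem_product, Finset.mem_range] at hx ⊢
      omega
    · intro x _
      rfl
    · intro x _
      rfl
    · intro x _
      rfl
  rw [Finset.sum_congr rfl (fun A _ => h1 A), Finset.sum_comm]
  apply Finset.sum_congr rfl
  intro j hj
  have hj' : j < T + 1 := Finset.mem_range.1 hj
  have e1 : T + 1 - j = T - j + 1 := by omega
  rw [e1, high_expand m (T - j) B, Finset.sum_mul]
  apply Finset.sum_congr rfl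
  intro A _
  rw [Finset.sum_mul]
  apply Finset.sum_congr rfl
  intro i _
  have e2 : T - (i + j) = T - j - i := by omega
  rw [e2]
  ring

/-- products of a lower family, two clusters and an upper family -/
theorem Dw.mid {m p A B r1 r2 r3 c1 c2 c3 : ℕ} (hAB : A < B) {L M U : (ℕ → ℤ) → ℤ}
    (hL : Dw r1 L c1) (hM : Dw r2 M c2) (hU : Dw r3 U c3) (lL : Loc (range (A * m)) L)
    (lM : Loc (Cl m A ∪ Cl m B) M) (lU : Loc (Ico ((B + 1) * m) (p * m)) U) :
    Dw (r1 + r2 + r3) (fun w => L w * M w * U w) (c1 * c2 * c3) := by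
  have hAB' : (A + 1) * m ≤ B * m := mul_le_mul_cl (by omega)
  have hA' : A * m ≤ (A + 1) * m := mul_le_mul_cl (by omega)
  have hB' : B * m ≤ (B + 1) * m := mul_le_mul_cl (by omega)
  have h1 := hL.mul hM lL lM (by
    rw [Finset.disjoint_left]
    intro x hx hx'
    rw [Finset.mem_range] at hx
    rw [Finset.mem_union, Cl, Cl, Finset.mem_Ico, Finset.mem_Ico] at hx'
    omega)
  have l1 : Loc (range ((B + 1) * m)) (fun w => L w * M w) := by
    apply Loc.mul
    · apply lL.mono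
      intro x hx
      rw [Finset.mem_range] at hx ⊢
      omega
    · apply lM.mono
      intro x hx
      rw [Finset.mem_union, Cl, Cl, Finset.mem_Ico, Finset.mem_Ico] at hx
      rw [Finset.mem_range]
      omega
  exact h1.mul hU l1 lU (by
    rw [Finset.disjoint_left]
    intro x hx hx'
    rw [Finset.mem_range] at hx
    rw [Finset.mem_Ico] at hx'
    omega)

theorem Cl_disj (m A B : ℕ) (hAB : A < B) : Disjoint (Cl m A) (Cl m B) := by
  have hAB' : (A + 1) * m ≤ B * m := mul_le_mul_cl (by omega)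
  rw [Finset.disjoint_left]
  intro x hx hx'
  rw [Cl, Finset.mem_Ico] at hx hx'
  omega

theorem crossF_loc {V : Type} [DecidableEq V] (A B : Finset V) : Loc (A ∪ B) (crossF A B) := by
  intro w w' hw
  unfold crossF
  have hA : ∀ k, E k A w = E k A w' := fun k =>
    E_loc k A w w' (fun v hv => hw v (Finset.mem_union_left _ hv))
  have hB : ∀ k, E k B w = E k B w' := fun k =>
    E_loc k B w w' (fun v hv => hw v (Finset.mem_union_right _ hv))
  rw [hA, hA, hA, hB, hB, hB]

theorem PS_filter (T : ℕ) (hT : 2 ≤ T) :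
    (PS T).filter (fun x => x.1 + x.2 = 2) = {(0, 2), (1, 1), (2, 0)} := by
  ext ⟨i, j⟩
  simp only [PS, Finset.mem_filter, Finset.mem_product, Finset.mem_range, Finset.mem_insert,
    Finset.mem_singleton, Prod.mk.injEq]
  omega

/-- the main combination lemma -/
theorem mid_sum (m p T D q : ℕ) (hT : 2 ≤ T)
    (hq : ∀ A B : Finset ℕ, Disjoint A B → A.card ≤ m → B.card ≤ m → Dw 4 (crossF A B) q)
    (L U : ℕ → ℕ → (ℕ → ℤ) → ℤ) (dL dU : ℕ → ℕ) (hD : ∀ s ≤ T, dL s + (s + 2) + dU s = D)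
    (cL cU : ℕ → ℕ → ℕ)
    (lL : ∀ s ≤ T, ∀ A < p, Loc (range (A * m)) (L s A))
    (lU : ∀ s ≤ T, ∀ B < p, Loc (Ico ((B + 1) * m) (p * m)) (U s B))
    (hL : ∀ s ≤ T, ∀ A < p, Dw (dL s) (L s A) (cL s A))
    (hU : ∀ s ≤ T, ∀ B < p, Dw (dU s) (U s B) (cU s B)) :
    Dw D (fun w => ∑ A ∈ range p, ∑ B ∈ Ico (A + 1) p, ∑ x ∈ PS T,
      L (x.1 + x.2) A w * (E (x.1 + 1) (Cl m A) w * E (x.2 + 1) (Cl m B) w) * U (x.1 + x.2) B w)
    (∑ A ∈ range p, ∑ B ∈ Ico (A + 1) p, (cL 2 A * q * cU 2 B +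
      ∑ x ∈ (PS T).filter (fun x => ¬ (x.1 + x.2 = 2)),
        cL (x.1 + x.2) A * (m ^ ((x.1 + 1) / 2) * m ^ ((x.2 + 1) / 2)) * cU (x.1 + x.2) B)) := by
  apply Dw.sum
  intro A hA
  apply Dw.sum
  intro B hB
  have hA' : A < p := Finset.mem_range.1 hA
  have hB' := Finset.mem_Ico.1 hB
  have hAB : A < B := by omega
  have hmain : Dw D (fun w => L 2 A w * crossF (Cl m A) (Cl m B) w * U 2 B w)
      (cL 2 A * q * cU 2 B) := by
    have h1 := Dw.mid hAB (hL 2 hT A hA') (hq _ _ (Cl_disj m A B hAB) (Cl_card m A).le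
      (Cl_card m B).le) (hU 2 hT B hB'.2) (lL 2 hT A hA') (crossF_loc _ _) (lU 2 hT B hB'.2)
    exact h1.cast (by have := hD 2 hT; omega)
  have hrest : Dw D (fun w => ∑ x ∈ (PS T).filter (fun x => ¬ (x.1 + x.2 = 2)),
      L (x.1 + x.2) A w * (E (x.1 + 1) (Cl m A) w * E (x.2 + 1) (Cl m B) w) * U (x.1 + x.2) B w)
      (∑ x ∈ (PS T).filter (fun x => ¬ (x.1 + x.2 = 2)),
        cL (x.1 + x.2) A * (m ^ ((x.1 + 1) / 2) * m ^ ((x.2 + 1) / 2)) * cU (x.1 + x.2) B) := by
    apply Dw.sum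
    intro x hx
    have hxT : x.1 + x.2 ≤ T := by
      have := (Finset.mem_filter.1 hx).1
      exact (Finset.mem_filter.1 this).2
    have hEE := (trivial_pow (x.1 + 1) m (Cl m A) (Cl_card m A).le).mul
      (trivial_pow (x.2 + 1) m (Cl m B) (Cl_card m B).le) (E_loc _ _) (E_loc _ _)
      (Cl_disj m A B hAB)
    have lEE : Loc (Cl m A ∪ Cl m B)
        (fun w => E (x.1 + 1) (Cl m A) w * E (x.2 + 1) (Cl m B) w) := by
      apply Loc.mul
      · exact (E_loc _ _).mono subset_union_left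
      · exact (E_loc _ _).mono subset_union_right
    have h1 := Dw.mid hAB (hL _ hxT A hA') hEE (hU _ hxT B hB'.2) (lL _ hxT A hA') lEE
      (lU _ hxT B hB'.2)
    exact h1.cast (by have := hD _ hxT; omega)
  refine (hmain.add hrest).congr (fun w => ?_)
  rw [← Finset.sum_filter_add_sum_filter_not (PS T) (fun x => x.1 + x.2 = 2), PS_filter T hT]
  congr 1
  rw [Finset.sum_insert (by decide), Finset.sum_insert (by decide), Finset.sum_singleton]
  unfold crossF
  ring

theorem choose_conv (n i j : ℕ) :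
    ∑ x ∈ range n, x.choose i * (n - 1 - x).choose j = n.choose (i + j + 1) := by
  induction n generalizing j with
  | zero => simp
  | succ n ih =>
    rcases j with _ | j
    · simp only [Nat.choose_zero_right, mul_one, add_zero]
      exact sum_choose (n + 1) i
    · rw [Finset.sum_range_succ]
      have h1 : ∀ x ∈ range n, x.choose i * (n + 1 - 1 - x).choose (j + 1) =
          x.choose i * (n - 1 - x).choose j + x.choose i * (n - 1 - x).choose (j + 1) := by
        intro x hx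
        have hx' : x < n := Finset.mem_range.1 hx
        have h2 : n + 1 - 1 - x = (n - 1 - x) + 1 := by omega
        rw [h2, Nat.choose_succ_succ]
        ring
      rw [Finset.sum_congr rfl h1, Finset.sum_add_distrib, ih, ih]
      have h3 : n + 1 - 1 - n = 0 := by omega
      rw [h3, Nat.choose_zero_succ, mul_zero, add_zero,
        show i + (j + 1) + 1 = (i + j + 1) + 1 by ring, Nat.choose_succ_succ]

theorem choose_blocks (m p i j k : ℕ) (hk : k ≤ p) :
    ∑ A ∈ range k, (A * m).choose i * m * ((p - 1 - A) * m).choose j ≤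
      ∑ x ∈ range (k * m), x.choose i * (p * m - 1 - x).choose j := by
  induction k with
  | zero => simp
  | succ k ih =>
    rw [Finset.sum_range_succ, range_split m k, Finset.sum_union (lo_disj_Cl m k)]
    have h1 := ih (by omega)
    have h2 : (k * m).choose i * m * ((p - 1 - k) * m).choose j ≤
        ∑ x ∈ Cl m k, x.choose i * (p * m - 1 - x).choose j := by
      have h3 := Finset.card_nsmul_le_sum (Cl m k)
        (fun x => x.choose i * (p * m - 1 - x).choose j)
        ((k * m).choose i * ((p - 1 - k) * m).choose j) (by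
          intro x hx
          rw [Cl, Finset.mem_Ico] at hx
          apply Nat.mul_le_mul
          · exact Nat.choose_le_choose i hx.1
          · apply Nat.choose_le_choose j
            have h4 : (p - 1 - k) * m + (k + 1) * m = p * m := by
              rw [← Nat.add_mul]
              congr 1
              omega
            omega)
      rw [Cl_card, smul_eq_mul] at h3
      calc (k * m).choose i * m * ((p - 1 - k) * m).choose j
          = m * ((k * m).choose i * ((p - 1 - k) * m).choose j) := by ring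
        _ ≤ _ := h3
    omega

theorem choose_sum (m p i j : ℕ) :
    ∑ A ∈ range p, (A * m).choose i * m * ((p - 1 - A) * m).choose j ≤
      (p * m).choose (i + j + 1) := by
  rw [← choose_conv]
  exact choose_blocks m p i j p le_rfl

theorem sum_swap (p : ℕ) (g : ℕ → ℕ → ℕ) :
    ∑ A ∈ range p, ∑ B ∈ Ico (A + 1) p, g A B = ∑ B ∈ range p, ∑ A ∈ range B, g A B := by
  apply Finset.sum_comm'
  intro x y
  simp only [Finset.mem_range, Finset.mem_Ico]
  omega

theorem choose_double (m p i j : ℕ) :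
    ∑ A ∈ range p, ∑ B ∈ Ico (A + 1) p,
      (A * m).choose i * (m * m) * ((p - 1 - B) * m).choose j ≤ (p * m).choose (i + j + 2) := by
  rw [sum_swap]
  calc ∑ B ∈ range p, ∑ A ∈ range B, (A * m).choose i * (m * m) * ((p - 1 - B) * m).choose j
      = ∑ B ∈ range p, (∑ A ∈ range B, (A * m).choose i * m * ((B - 1 - A) * m).choose 0) * m *
          ((p - 1 - B) * m).choose j := by
        apply Finset.sum_congr rfl
        intro B _
        rw [Finset.sum_mul, Finset.sum_mul]
        apply Finset.sum_congr rfl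
        intro A _
        rw [Nat.choose_zero_right]
        ring
    _ ≤ ∑ B ∈ range p, (B * m).choose (i + 1) * m * ((p - 1 - B) * m).choose j := by
        apply Finset.sum_le_sum
        intro B _
        apply Nat.mul_le_mul_right
        apply Nat.mul_le_mul_right
        exact choose_sum m B i 0
    _ ≤ (p * m).choose (i + 1 + j + 1) := choose_sum m p (i + 1) j
    _ = _ := by congr 1; ring

/-- `f_r(n) ≤ (α + o(1)) C(n,h)` in the form used in the induction -/
def Good (r h : ℕ) (α : ℝ) : Prop :=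
  ∀ ε : ℝ, 0 < ε → ∃ (K : ℝ) (f : ℕ → ℕ), 0 ≤ K ∧ ∀ n, Dw r (E r (range n)) (f n) ∧
    (f n : ℝ) ≤ (α + ε) * (n.choose h : ℝ) + K * (n : ℝ) ^ (h - 1)

theorem pow_shift (p h : ℕ) (hh : 1 ≤ h) : ∃ K : ℝ, 0 ≤ K ∧ ∀ n : ℕ, 1 ≤ n →
    ((n + p : ℕ) : ℝ) ^ h ≤ (h.factorial : ℝ) * (n.choose h : ℝ) + K * (n : ℝ) ^ (h - 1) := by
  -- `(n+p)^h - (n+1-h)^h ≤ h (p+h) (n+p)^(h-1)`
  refine ⟨h * (p + h) * (p + 1) ^ (h - 1) + (h + p) ^ h, by positivity, ?_⟩
  intro n hn
  have hn1 : (1 : ℝ) ≤ n := by exact_mod_cast hn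
  have hpow1 : (1 : ℝ) ≤ (n : ℝ) ^ (h - 1) := one_le_pow₀ hn1
  rcases Nat.lt_or_ge n h with hnh | hnh
  · have h1 : ((n + p : ℕ) : ℝ) ^ h ≤ ((h : ℝ) + p) ^ h := by
      apply pow_le_pow_left₀ (by positivity)
      push_cast
      have : (n : ℝ) ≤ h := by exact_mod_cast hnh.le
      linarith
    have h2 : (0 : ℝ) ≤ (h.factorial : ℝ) * (n.choose h : ℝ) := by positivity
    have h3 : (0 : ℝ) ≤ h * (p + h) * (p + 1) ^ (h - 1) := by positivity
    have h4 : (0 : ℝ) ≤ ((h : ℝ) + p) ^ h := by positivity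
    nlinarith
  · have h1 : (((n + 1 - h : ℕ) : ℝ)) ^ h ≤ (h.factorial : ℝ) * (n.choose h : ℝ) := by
      have h10 := Nat.pow_le_choose (α := ℝ) h n
      rw [div_le_iff₀ (by positivity)] at h10
      rw [mul_comm]
      exact_mod_cast h10
    have h2 : (n : ℝ) - h ≤ ((n + 1 - h : ℕ) : ℝ) := by
      have : n ≤ (n + 1 - h) + h := by omega
      have : (n : ℝ) ≤ ((n + 1 - h : ℕ) : ℝ) + h := by exact_mod_cast this
      linarith
    have h0 : (0 : ℝ) ≤ (n : ℝ) - h := by
      have : (h : ℝ) ≤ n := by exact_mod_cast hnh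
      linarith
    have h3 : ((n : ℝ) - h) ^ h ≤ (h.factorial : ℝ) * (n.choose h : ℝ) :=
      (pow_le_pow_left₀ h0 h2 h).trans h1
    -- difference of powers
    have h4 : ∀ (x y : ℝ), 0 ≤ y → y ≤ x → ∀ k : ℕ, 1 ≤ k → x ^ k - y ^ k ≤ k * (x - y) * x ^ (k - 1) := by
      intro x y hy hxy k hk
      induction k with
      | zero => omega
      | succ k ih =>
        rcases Nat.eq_zero_or_pos k with h5 | h5
        · subst h5
          simp
        · have h6 := ih h5
          have hx : 0 ≤ x := hy.trans hxy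
          have h7 : x ^ (k + 1) - y ^ (k + 1) = x * (x ^ k - y ^ k) + (x - y) * y ^ k := by ring
          have h8 : y ^ k ≤ x ^ k := pow_le_pow_left₀ hy hxy k
          have h9 : x * (x ^ k - y ^ k) ≤ x * (k * (x - y) * x ^ (k - 1)) :=
            mul_le_mul_of_nonneg_left h6 hx
          have h10 : (x - y) * y ^ k ≤ (x - y) * x ^ k :=
            mul_le_mul_of_nonneg_left h8 (sub_nonneg.2 hxy)
          have h11 : x * x ^ (k - 1) = x ^ k := by
            rw [← pow_succ']
            congr 1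
            omega
          rw [h7, Nat.add_sub_cancel]
          push_cast
          calc x * (x ^ k - y ^ k) + (x - y) * y ^ k
              ≤ x * (k * (x - y) * x ^ (k - 1)) + (x - y) * x ^ k := add_le_add h9 h10
            _ = (k * (x - y)) * (x * x ^ (k - 1)) + (x - y) * x ^ k := by ring
            _ = (k + 1) * (x - y) * x ^ k := by rw [h11]; ring
    have h5 := h4 ((n + p : ℕ) : ℝ) ((n : ℝ) - h) h0 (by push_cast; have : (0:ℝ) ≤ h := by positivity
                                                         have : (0:ℝ) ≤ p := by positivity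
                                                         linarith) h hh
    have h6 : ((n + p : ℕ) : ℝ) - ((n : ℝ) - h) = p + h := by push_cast; ring
    rw [h6] at h5
    have h7 : ((n + p : ℕ) : ℝ) ^ (h - 1) ≤ ((p + 1 : ℝ) * n) ^ (h - 1) := by
      apply pow_le_pow_left₀ (by positivity)
      push_cast
      have : (0:ℝ) ≤ p := by positivity
      nlinarith
    rw [mul_pow] at h7
    have h8 : (h : ℝ) * (p + h) * ((n + p : ℕ) : ℝ) ^ (h - 1) ≤
        (h : ℝ) * (p + h) * ((p + 1 : ℝ) ^ (h - 1) * (n : ℝ) ^ (h - 1)) :=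
      mul_le_mul_of_nonneg_left h7 (by positivity)
    have h9 : (0 : ℝ) ≤ ((h : ℝ) + p) ^ h * (n : ℝ) ^ (h - 1) := by positivity
    nlinarith

/-- from multiples of `p` to all `n` -/
theorem Good.of_blocks {r h : ℕ} {γ N : ℝ} (hr : 1 ≤ r) (hh : 1 ≤ h) (hγ : 0 ≤ γ) (hN : 0 ≤ N)
    (H : ∀ ε : ℝ, 0 < ε → ∀ p : ℕ, 1 ≤ p → ∃ C : ℝ, 0 ≤ C ∧ ∀ m : ℕ, ∃ c : ℕ,
      Dw r (E r (range (p * m))) c ∧
      (c : ℝ) ≤ (γ + ε) * ((p * m).choose h : ℝ) + N * ((p * m : ℕ) : ℝ) ^ h / p +
        C * (m : ℝ) ^ (h - 1)) : Good r h γ := by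
  intro ε hε
  set Fh : ℝ := (h.factorial : ℝ) with hFh
  have hFpos : 0 < Fh := by positivity
  obtain ⟨p, hp⟩ := exists_nat_gt (2 * N * Fh / ε)
  have hp1 : 1 ≤ p := by
    by_contra hcon
    have : p = 0 := by omega
    rw [this] at hp
    have : 0 ≤ 2 * N * Fh / ε := by positivity
    simp at hp
    linarith
  have hppos : (0 : ℝ) < p := by exact_mod_cast hp1
  obtain ⟨C, hC, HC⟩ := H (ε / 2) (by linarith) p hp1
  obtain ⟨K1, hK1, HK⟩ := pow_shift p h hh
  choose c hc1 hc2 using HC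
  refine ⟨(γ + ε / 2) * K1 / Fh + N / p * K1 + C * 2 ^ (h - 1),
    fun n => if n = 0 then 0 else c (n / p + 1), by positivity, ?_⟩
  intro n
  rcases Nat.eq_zero_or_pos n with hn | hn
  · subst hn
    refine ⟨?_, ?_⟩
    · obtain ⟨r', rfl⟩ : ∃ r', r = r' + 1 := ⟨r - 1, by omega⟩
      refine (Dw.zero _ _).congr (fun w => ?_)
      simp [E_empty]
    · simp only [if_pos]
      have : (0 : ℝ) ≤ γ + ε := by linarith
      push_cast
      positivity
  · have hn0 : n ≠ 0 := by omega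
    simp only [hn0, if_false]
    set m := n / p + 1 with hm
    have hle : n ≤ p * m := by
      have := Nat.lt_mul_div_succ n (show 0 < p by omega)
      rw [hm]
      omega
    have hle' : p * m ≤ n + p := by
      rw [hm, Nat.mul_add, Nat.mul_one]
      have := Nat.mul_div_le n p
      omega
    refine ⟨?_, ?_⟩
    · exact (hc1 m).transport (range n) (by rw [Finset.card_range]; exact hle)
    · have h1 := hc2 m
      have h2 := HK n hn
      have h3 : ((p * m : ℕ) : ℝ) ^ h ≤ ((n + p : ℕ) : ℝ) ^ h :=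
        pow_le_pow_left₀ (by positivity) (by exact_mod_cast hle') h
      have h4 : ((p * m).choose h : ℝ) ≤ ((p * m : ℕ) : ℝ) ^ h / Fh := by
        have := Nat.choose_le_pow_div (α := ℝ) h (p * m)
        exact this
      have h5 : ((p * m).choose h : ℝ) ≤ (n.choose h : ℝ) + K1 / Fh * (n : ℝ) ^ (h - 1) := by
        calc ((p * m).choose h : ℝ) ≤ ((p * m : ℕ) : ℝ) ^ h / Fh := h4
          _ ≤ (Fh * (n.choose h : ℝ) + K1 * (n : ℝ) ^ (h - 1)) / Fh := by
              apply div_le_div_of_nonneg_right _ hFpos.le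
              exact h3.trans h2
          _ = _ := by field_simp
      have h6 : (m : ℝ) ^ (h - 1) ≤ 2 ^ (h - 1) * (n : ℝ) ^ (h - 1) := by
        rw [← mul_pow]
        apply pow_le_pow_left₀ (by positivity)
        have h7 : m ≤ 2 * n := by
          rw [hm]
          have := Nat.div_le_self n p
          omega
        exact_mod_cast h7
      have h7 : N * ((p * m : ℕ) : ℝ) ^ h / p ≤ N / p * (Fh * (n.choose h : ℝ) +
          K1 * (n : ℝ) ^ (h - 1)) := by
        rw [mul_div_right_comm]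
        exact mul_le_mul_of_nonneg_left (h3.trans h2) (by positivity)
      have h8 : N / p * Fh ≤ ε / 2 := by
        rw [div_mul_eq_mul_div, div_le_iff₀ hppos]
        have := (div_lt_iff₀ hε).1 hp
        linarith
      have h9 : N / p * (Fh * (n.choose h : ℝ)) ≤ ε / 2 * (n.choose h : ℝ) := by
        rw [← mul_assoc]
        exact mul_le_mul_of_nonneg_right h8 (by positivity)
      have h10 : (γ + ε / 2) * ((p * m).choose h : ℝ) ≤
          (γ + ε / 2) * ((n.choose h : ℝ) + K1 / Fh * (n : ℝ) ^ (h - 1)) :=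
        mul_le_mul_of_nonneg_left h5 (by linarith)
      have h11 : C * (m : ℝ) ^ (h - 1) ≤ C * (2 ^ (h - 1) * (n : ℝ) ^ (h - 1)) :=
        mul_le_mul_of_nonneg_left h6 hC
      calc (c m : ℝ) ≤ _ := h1
        _ ≤ (γ + ε / 2) * ((n.choose h : ℝ) + K1 / Fh * (n : ℝ) ^ (h - 1)) +
            N / p * (Fh * (n.choose h : ℝ) + K1 * (n : ℝ) ^ (h - 1)) +
            C * (2 ^ (h - 1) * (n : ℝ) ^ (h - 1)) := add_le_add (add_le_add h10 h7) h11
        _ = (γ + ε / 2) * (n.choose h : ℝ) + N / p * (Fh * (n.choose h : ℝ)) +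
            ((γ + ε / 2) * K1 / Fh + N / p * K1 + C * 2 ^ (h - 1)) * (n : ℝ) ^ (h - 1) := by ring
        _ ≤ (γ + ε / 2) * (n.choose h : ℝ) + ε / 2 * (n.choose h : ℝ) +
            ((γ + ε / 2) * K1 / Fh + N / p * K1 + C * 2 ^ (h - 1)) * (n : ℝ) ^ (h - 1) := by
            linarith
        _ = _ := by ring

theorem PS_card (T : ℕ) : ((PS T).filter (fun x => ¬ (x.1 + x.2 = 2))).card ≤ (T + 1) * (T + 1) := by
  calc _ ≤ (PS T).card := Finset.card_filter_le _ _
    _ ≤ (range (T + 1) ×ˢ range (T + 1)).card := Finset.card_filter_le _ _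
    _ = _ := by rw [Finset.card_product, Finset.card_range]

theorem bad_term (p m g H i j c : ℕ) (hp : 1 ≤ p) (hm : 1 ≤ m) (hg : 3 ≤ g)
    (hT : i + j ≤ 2 * g - 2) (h2 : i + j ≠ 2)
    (hc : c ≤ (p * m) ^ (H + (2 * g - 2 - (i + j)) / 2)) :
    c * (m ^ ((i + 1) / 2) * m ^ ((j + 1) / 2)) ≤
      p ^ (H + g - 3) * m ^ (H + g) + p ^ (H + g) * m ^ (H + g - 1) := by
  have h1 : c * (m ^ ((i + 1) / 2) * m ^ ((j + 1) / 2)) ≤
      (p * m) ^ (H + (2 * g - 2 - (i + j)) / 2) * (m ^ ((i + 1) / 2) * m ^ ((j + 1) / 2)) :=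
    Nat.mul_le_mul_right _ hc
  have h3 : (p * m) ^ (H + (2 * g - 2 - (i + j)) / 2) * (m ^ ((i + 1) / 2) * m ^ ((j + 1) / 2)) =
      p ^ (H + (2 * g - 2 - (i + j)) / 2) *
        m ^ (H + (2 * g - 2 - (i + j)) / 2 + ((i + 1) / 2 + (j + 1) / 2)) := by
    rw [mul_pow, pow_add m (H + (2 * g - 2 - (i + j)) / 2) ((i + 1) / 2 + (j + 1) / 2),
      pow_add m ((i + 1) / 2) ((j + 1) / 2)]
    ring
  rw [h3] at h1
  refine h1.trans ?_
  rcases Nat.lt_or_ge ((2 * g - 2 - (i + j)) / 2 + ((i + 1) / 2 + (j + 1) / 2)) g with h4 | h4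
  · have h5 : p ^ (H + (2 * g - 2 - (i + j)) / 2) ≤ p ^ (H + g) :=
      Nat.pow_le_pow_right hp (by omega)
    have h6 : m ^ (H + (2 * g - 2 - (i + j)) / 2 + ((i + 1) / 2 + (j + 1) / 2)) ≤
        m ^ (H + g - 1) := Nat.pow_le_pow_right hm (by omega)
    exact (Nat.mul_le_mul h5 h6).trans (Nat.le_add_left _ _)
  · have h5 : p ^ (H + (2 * g - 2 - (i + j)) / 2) ≤ p ^ (H + g - 3) :=
      Nat.pow_le_pow_right hp (by omega)
    have h6 : m ^ (H + (2 * g - 2 - (i + j)) / 2 + ((i + 1) / 2 + (j + 1) / 2)) ≤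
        m ^ (H + g) := Nat.pow_le_pow_right hm (by omega)
    exact (Nat.mul_le_mul h5 h6).trans (Nat.le_add_right _ _)

theorem sum_pairs_le (p c : ℕ) (g : ℕ → ℕ → ℕ) (hg : ∀ A < p, ∀ B < p, g A B ≤ c) :
    ∑ A ∈ range p, ∑ B ∈ Ico (A + 1) p, g A B ≤ p * (p * c) := by
  calc ∑ A ∈ range p, ∑ B ∈ Ico (A + 1) p, g A B ≤ ∑ A ∈ range p, ∑ B ∈ range p, c := by
        apply Finset.sum_le_sum
        intro A hA
        calc ∑ B ∈ Ico (A + 1) p, g A B ≤ ∑ B ∈ Ico (A + 1) p, c := by
              apply Finset.sum_le_sum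
              intro B hB
              exact hg A (Finset.mem_range.1 hA) B (Finset.mem_Ico.1 hB).2
          _ ≤ ∑ B ∈ range p, c := by
              apply Finset.sum_le_sum_of_subset
              intro B hB
              rw [Finset.mem_range]
              exact (Finset.mem_Ico.1 hB).2
    _ = _ := by
        rw [Finset.sum_const, Finset.sum_const, Finset.card_range, smul_eq_mul, smul_eq_mul]

/-- cost of the exceptional terms -/
theorem bad_cost (p m g H : ℕ) (hp : 1 ≤ p) (hm : 1 ≤ m) (hg : 3 ≤ g)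
    (cL cU : ℕ → ℕ → ℕ)
    (hbad : ∀ s ≤ 2 * g - 2, s ≠ 2 → ∀ A < p, ∀ B < p,
      cL s A * cU s B ≤ (p * m) ^ (H + (2 * g - 2 - s) / 2)) :
    ∑ A ∈ range p, ∑ B ∈ Ico (A + 1) p,
      ∑ x ∈ (PS (2 * g - 2)).filter (fun x => ¬ (x.1 + x.2 = 2)),
        cL (x.1 + x.2) A * (m ^ ((x.1 + 1) / 2) * m ^ ((x.2 + 1) / 2)) * cU (x.1 + x.2) B ≤
    4 * g ^ 2 * (p ^ (H + g - 1) * m ^ (H + g) + p ^ (H + g + 2) * m ^ (H + g - 1)) := by
  have h1 := sum_pairs_le p
    ((2 * g - 2 + 1) * (2 * g - 2 + 1) *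
      (p ^ (H + g - 3) * m ^ (H + g) + p ^ (H + g) * m ^ (H + g - 1)))
    (fun A B => ∑ x ∈ (PS (2 * g - 2)).filter (fun x => ¬ (x.1 + x.2 = 2)),
        cL (x.1 + x.2) A * (m ^ ((x.1 + 1) / 2) * m ^ ((x.2 + 1) / 2)) * cU (x.1 + x.2) B) (by
      intro A hA B hB
      have h2 : ∀ x ∈ (PS (2 * g - 2)).filter (fun x => ¬ (x.1 + x.2 = 2)),
          cL (x.1 + x.2) A * (m ^ ((x.1 + 1) / 2) * m ^ ((x.2 + 1) / 2)) * cU (x.1 + x.2) B ≤
          p ^ (H + g - 3) * m ^ (H + g) + p ^ (H + g) * m ^ (H + g - 1) := by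
        intro x hx
        rw [Finset.mem_filter] at hx
        have hxT : x.1 + x.2 ≤ 2 * g - 2 := (Finset.mem_filter.1 hx.1).2
        have h3 := bad_term p m g H x.1 x.2 _ hp hm hg hxT hx.2 (hbad _ hxT hx.2 A hA B hB)
        calc _ = cL (x.1 + x.2) A * cU (x.1 + x.2) B *
            (m ^ ((x.1 + 1) / 2) * m ^ ((x.2 + 1) / 2)) := by ring
          _ ≤ _ := h3
      have h4 := Finset.sum_le_card_nsmul _ _ _ h2
      rw [smul_eq_mul] at h4
      exact h4.trans (Nat.mul_le_mul_right _ (PS_card _)))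
  refine h1.trans ?_
  have h5 : p * p * p ^ (H + g - 3) = p ^ (H + g - 1) := by
    rw [← pow_two, ← pow_add]
    congr 1
    omega
  have h6 : p * p * p ^ (H + g) = p ^ (H + g + 2) := by
    rw [← pow_two, ← pow_add]
    congr 1
    omega
  have h7 : (2 * g - 2 + 1) * (2 * g - 2 + 1) ≤ 4 * g ^ 2 := by
    have : 2 * g - 2 + 1 ≤ 2 * g := by omega
    calc (2 * g - 2 + 1) * (2 * g - 2 + 1) ≤ (2 * g) * (2 * g) := Nat.mul_le_mul this this
      _ = _ := by ring
  calc p * (p * ((2 * g - 2 + 1) * (2 * g - 2 + 1) *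
      (p ^ (H + g - 3) * m ^ (H + g) + p ^ (H + g) * m ^ (H + g - 1))))
      = (2 * g - 2 + 1) * (2 * g - 2 + 1) *
        ((p * p * p ^ (H + g - 3)) * m ^ (H + g) + (p * p * p ^ (H + g)) * m ^ (H + g - 1)) := by
        ring
    _ ≤ _ := by
        rw [h5, h6]
        exact Nat.mul_le_mul_right _ h7

/-- cost of the main terms -/
theorem main_cost (p m i j q : ℕ) (hp : 1 ≤ p) (hm : 1 ≤ m)
    (x y K1 K2 k1 k2 : ℝ) (hx : 0 ≤ x) (hy : 0 ≤ y) (hK1 : 0 ≤ K1) (hK2 : 0 ≤ K2) (hk1 : 0 ≤ k1)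
    (hk2 : 0 ≤ k2) (hq : (q : ℝ) ≤ 2 / 3 * (m : ℝ) ^ 2 + 22 * m) (X Y : ℕ → ℕ)
    (hX : ∀ A < p, (X A : ℝ) ≤ x * ((A * m).choose i : ℝ) + k1)
    (hY : ∀ B < p, (Y B : ℝ) ≤ y * (((p - 1 - B) * m).choose j : ℝ) + k2)
    (h1 : k1 * m ≤ K1 * ((p : ℝ) * m) ^ i) (h2 : k2 * m ≤ K2 * ((p : ℝ) * m) ^ j) :
    ((∑ A ∈ range p, ∑ B ∈ Ico (A + 1) p, X A * q * Y B : ℕ) : ℝ) ≤
      2 / 3 * (x * y) * ((p * m).choose (i + j + 2) : ℝ) +
      (p : ℝ) ^ 2 * ((22 * (x * y) + 23 * (y * K1 + x * K2 + K1 * K2)) * (p : ℝ) ^ (i + j)) *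
        (m : ℝ) ^ (i + j + 1) := by
  have hm1 : (1 : ℝ) ≤ m := by exact_mod_cast hm
  have hp1 : (1 : ℝ) ≤ p := by exact_mod_cast hp
  set E1 : ℝ := (22 * (x * y) + 23 * (y * K1 + x * K2 + K1 * K2)) * (p : ℝ) ^ (i + j) *
    (m : ℝ) ^ (i + j + 1) with hE1
  have hE1' : 0 ≤ E1 := by positivity
  -- one term
  have hterm : ∀ A < p, ∀ B < p, (X A : ℝ) * q * Y B ≤
      2 / 3 * (x * y) * (((A * m).choose i * (m * m) * ((p - 1 - B) * m).choose j : ℕ) : ℝ) + E1 := by
    intro A hA B hB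
    set ci : ℝ := ((A * m).choose i : ℝ) with hci
    set cj : ℝ := (((p - 1 - B) * m).choose j : ℝ) with hcj
    set u : ℝ := ((p : ℝ) * m) ^ i with hu
    set v : ℝ := ((p : ℝ) * m) ^ j with hv
    have hci0 : 0 ≤ ci := by positivity
    have hcj0 : 0 ≤ cj := by positivity
    have hciu : ci ≤ u := by
      have h3 : (A * m).choose i ≤ (p * m) ^ i :=
        (Nat.choose_le_pow _ _).trans (Nat.pow_le_pow_left (Nat.mul_le_mul_right m hA.le) i)
      rw [hci, hu]
      exact_mod_cast h3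
    have hcjv : cj ≤ v := by
      have h3 : ((p - 1 - B) * m).choose j ≤ (p * m) ^ j :=
        (Nat.choose_le_pow _ _).trans
          (Nat.pow_le_pow_left (Nat.mul_le_mul_right m (by omega)) j)
      rw [hcj, hv]
      exact_mod_cast h3
    have hu0 : 0 ≤ u := by positivity
    have hv0 : 0 ≤ v := by positivity
    have h3 : (X A : ℝ) * q * Y B ≤ (x * ci + k1) * (2 / 3 * (m : ℝ) ^ 2 + 22 * m) * (y * cj + k2) := by
      apply mul_le_mul
      · apply mul_le_mul (hX A hA) hq (by positivity) (by positivity)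
      · exact hY B hB
      · positivity
      · positivity
    have hxc : x * ci ≤ x * u := mul_le_mul_of_nonneg_left hciu hx
    have hyc : y * cj ≤ y * v := mul_le_mul_of_nonneg_left hcjv hy
    have hxc0 : 0 ≤ x * ci := by positivity
    have hyc0 : 0 ≤ y * cj := by positivity
    -- error parts
    have e1 : (x * ci) * (y * cj) ≤ (x * u) * (y * v) := mul_le_mul hxc hyc hyc0 (by positivity)
    have e2 : (k1 * m) * (y * cj) ≤ (K1 * u) * (y * v) := mul_le_mul h1 hyc hyc0 (by positivity)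
    have e3 : (x * ci) * (k2 * m) ≤ (x * u) * (K2 * v) := mul_le_mul hxc h2 (by positivity) (by positivity)
    have e4 : (k1 * m) * (k2 * m) ≤ (K1 * u) * (K2 * v) := mul_le_mul h1 h2 (by positivity) (by positivity)
    have huv : u * v = (p : ℝ) ^ (i + j) * (m : ℝ) ^ (i + j) := by
      rw [hu, hv, ← pow_add, mul_pow]
    have hmm : (m : ℝ) ^ (i + j + 1) = (m : ℝ) ^ (i + j) * m := pow_succ _ _
    have h22 : 2 / 3 * (m : ℝ) ^ 2 + 22 * m ≤ 23 * (m : ℝ) ^ 2 := by nlinarith
    have expand : (x * ci + k1) * (2 / 3 * (m : ℝ) ^ 2 + 22 * m) * (y * cj + k2) =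
        2 / 3 * (x * y) * (ci * (m * m) * cj) + 22 * m * ((x * ci) * (y * cj)) +
        (2 / 3 * (m : ℝ) ^ 2 + 22 * m) * (k1 * (y * cj) + (x * ci) * k2 + k1 * k2) := by ring
    have f1 : 22 * (m : ℝ) * ((x * ci) * (y * cj)) ≤ 22 * m * ((x * u) * (y * v)) :=
      mul_le_mul_of_nonneg_left e1 (by positivity)
    have f2 : (2 / 3 * (m : ℝ) ^ 2 + 22 * m) * (k1 * (y * cj) + (x * ci) * k2 + k1 * k2) ≤
        23 * (m : ℝ) ^ 2 * (k1 * (y * cj) + (x * ci) * k2 + k1 * k2) :=
      mul_le_mul_of_nonneg_right h22 (by positivity)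
    have f3 : 23 * (m : ℝ) ^ 2 * (k1 * (y * cj) + (x * ci) * k2 + k1 * k2) =
        23 * m * ((k1 * m) * (y * cj) + (x * ci) * (k2 * m)) + 23 * ((k1 * m) * (k2 * m)) := by ring
    have f4 : 23 * (m : ℝ) * ((k1 * m) * (y * cj) + (x * ci) * (k2 * m)) ≤
        23 * m * ((K1 * u) * (y * v) + (x * u) * (K2 * v)) :=
      mul_le_mul_of_nonneg_left (add_le_add e2 e3) (by positivity)
    have f5 : 23 * ((k1 * m) * (k2 * m)) ≤ 23 * m * ((K1 * u) * (K2 * v)) := by
      have : 0 ≤ (K1 * u) * (K2 * v) := by positivity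
      nlinarith
    have f6 : 22 * (m : ℝ) * ((x * u) * (y * v)) + 23 * m * ((K1 * u) * (y * v) + (x * u) * (K2 * v)) +
        23 * m * ((K1 * u) * (K2 * v)) = E1 := by
      rw [hE1, hmm]
      calc _ = (22 * (x * y) + 23 * (y * K1 + x * K2 + K1 * K2)) * (u * v) * m := by ring
        _ = _ := by rw [huv]; ring
    have hcast : (((A * m).choose i * (m * m) * ((p - 1 - B) * m).choose j : ℕ) : ℝ) =
        ci * (m * m) * cj := by
      push_cast
      rfl
    rw [hcast]
    linarith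
  have hsum : ((∑ A ∈ range p, ∑ B ∈ Ico (A + 1) p, X A * q * Y B : ℕ) : ℝ) ≤
      ∑ A ∈ range p, ∑ B ∈ Ico (A + 1) p, (2 / 3 * (x * y) *
        (((A * m).choose i * (m * m) * ((p - 1 - B) * m).choose j : ℕ) : ℝ) + E1) := by
    push_cast
    apply Finset.sum_le_sum
    intro A hA
    apply Finset.sum_le_sum
    intro B hB
    have := hterm A (Finset.mem_range.1 hA) B (Finset.mem_Ico.1 hB).2
    push_cast at this
    exact this
  refine hsum.trans ?_
  have h3 : ∑ A ∈ range p, ∑ B ∈ Ico (A + 1) p, (2 / 3 * (x * y) *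
        (((A * m).choose i * (m * m) * ((p - 1 - B) * m).choose j : ℕ) : ℝ) + E1) =
      2 / 3 * (x * y) * ((∑ A ∈ range p, ∑ B ∈ Ico (A + 1) p,
        (A * m).choose i * (m * m) * ((p - 1 - B) * m).choose j : ℕ) : ℝ) +
      ∑ A ∈ range p, ∑ B ∈ Ico (A + 1) p, E1 := by
    rw [Nat.cast_sum, Finset.mul_sum, ← Finset.sum_add_distrib]
    apply Finset.sum_congr rfl
    intro A _
    rw [Nat.cast_sum, Finset.mul_sum, ← Finset.sum_add_distrib]
  rw [h3]
  have h4 : ∑ A ∈ range p, ∑ B ∈ Ico (A + 1) p, E1 ≤ (p : ℝ) ^ 2 * E1 := by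
    calc ∑ A ∈ range p, ∑ B ∈ Ico (A + 1) p, E1 ≤ ∑ A ∈ range p, ∑ B ∈ range p, E1 := by
          apply Finset.sum_le_sum
          intro A _
          apply Finset.sum_le_sum_of_subset_of_nonneg
          · intro B hB
            rw [Finset.mem_range]
            exact (Finset.mem_Ico.1 hB).2
          · intro _ _ _
            exact hE1'
      _ = _ := by
          rw [Finset.sum_const, Finset.sum_const, Finset.card_range, nsmul_eq_mul, nsmul_eq_mul]
          ring
  have h5 : 2 / 3 * (x * y) * ((∑ A ∈ range p, ∑ B ∈ Ico (A + 1) p,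
        (A * m).choose i * (m * m) * ((p - 1 - B) * m).choose j : ℕ) : ℝ) ≤
      2 / 3 * (x * y) * ((p * m).choose (i + j + 2) : ℝ) := by
    apply mul_le_mul_of_nonneg_left _ (by positivity)
    exact_mod_cast choose_double m p i j
  calc _ ≤ 2 / 3 * (x * y) * ((p * m).choose (i + j + 2) : ℝ) + (p : ℝ) ^ 2 * E1 := add_le_add h5 h4
    _ = _ := by rw [hE1]; ring

end Pool.Agent.Lib.MP_60210e_co.RankGaps
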