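import Pool.Agent.Lib.MP_60210e_co.RG2

/-!
# Decompositions of complete r-graphs, part 3

Even ranks, odd ranks, and the translation into partitions.
-/

set_option autoImplicit false

namespace Pool.Agent.Lib.MP_60210e_co.RankGaps

open Finset

theorem trivial_term (p m g H : ℕ) (hp : 1 ≤ p) (hg : 3 ≤ g) (c : ℕ → ℕ)
    (hc : ∀ A < p, c A ≤ (p * m) ^ H) :
    ∑ A ∈ range p, c A * m ^ g ≤ p ^ (H + g - 1) * m ^ (H + g) := by
  calc ∑ A ∈ range p, c A * m ^ g ≤ ∑ A ∈ range p, (p * m) ^ H * m ^ g := by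
        apply Finset.sum_le_sum
        intro A hA
        exact Nat.mul_le_mul_right _ (hc A (Finset.mem_range.1 hA))
    _ = p ^ (H + 1) * m ^ (H + g) := by
        rw [Finset.sum_const, Finset.card_range, smul_eq_mul, mul_pow, pow_add, pow_add, pow_one]
        ring
    _ ≤ p ^ (H + g - 1) * m ^ (H + g) := by
        apply Nat.mul_le_mul_right
        exact Nat.pow_le_pow_right hp (by omega)

/-- pairing at the bottom: a family below, then an even number `2a` of points whose lowest cluster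
is fixed -/
theorem pair_low (a b d : ℕ) (ha : 3 ≤ a) (β : ℝ) (hβ : 0 ≤ β)
    (hG : Good (2 * a - 4) (a - 2) β) (ε : ℝ) (hε : 0 < ε) (p : ℕ) (hp : 1 ≤ p) :
    ∃ C : ℝ, 0 ≤ C ∧ ∀ m : ℕ, 1 ≤ m → ∀ F : ℕ → (ℕ → ℤ) → ℤ,
      (∀ A < p, Loc (range (A * m)) (F A)) → (∀ A < p, Dw d (F A) ((A * m).choose b)) →
      ∃ c : ℕ, Dw (d + 2 * a) (fun w => ∑ A ∈ range p, F A w *
        ∑ i ∈ range (2 * a - 2 + 1 + 1), E (i + 1) (Cl m A) w *
          E (2 * a - 2 + 1 - i) (Ico ((A + 1) * m) (p * m)) w) c ∧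
        (c : ℝ) ≤ (2 / 3 * β + ε) * ((p * m).choose (a + b) : ℝ) +
          (4 * (a : ℝ) ^ 2 + 1) * ((p * m : ℕ) : ℝ) ^ (a + b) / p + C * (m : ℝ) ^ (a + b - 1) := by
  obtain ⟨K, f, hK, hf⟩ := hG ε hε
  refine ⟨(p : ℝ) ^ 2 * ((22 * (1 * (β + ε)) + 23 * ((β + ε) * 0 + 1 * K + 0 * K)) *
    (p : ℝ) ^ (b + (a - 2))) + 4 * (a : ℝ) ^ 2 * (p : ℝ) ^ (b + a + 2), by positivity, ?_⟩
  intro m hm F hFloc hFD
  obtain ⟨q, hq1, hq2⟩ := cross_module m
  have hpos : (0 : ℝ) < p := by exact_mod_cast hp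
  have hβε : 0 ≤ β + ε := by linarith
  -- cost functions
  set cL : ℕ → ℕ → ℕ := fun _ A => (A * m).choose b with hcL
  set cU : ℕ → ℕ → ℕ := fun s B => if s = 2 then f ((p - 1 - B) * m) else
    (p * m) ^ ((2 * a - 2 - s) / 2) with hcU
  have hIco : ∀ B < p, (Ico ((B + 1) * m) (p * m)).card = (p - 1 - B) * m := by
    intro B hB
    rw [Nat.card_Ico, ← Nat.sub_mul]
    congr 1
    omega
  have hmid := mid_sum m p (2 * a - 2) (d + 2 * a) q (by omega) (fun A B h1 h2 h3 => hq2 ℕ A B h1 h2 h3)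
    (fun _ A => F A) (fun s B => E (2 * a - 2 - s) (Ico ((B + 1) * m) (p * m)))
    (fun _ => d) (fun s => 2 * a - 2 - s) (by intro s hs; omega) cL cU
    (fun s _ A hA => hFloc A hA) (fun s _ B _ => E_loc _ _) (fun s _ A hA => hFD A hA) (by
      intro s hs B hB
      rw [hcU]
      by_cases h2 : s = 2
      · subst h2
        simp only [if_true]
        have h3 := (hf ((p - 1 - B) * m)).1.transport (Ico ((B + 1) * m) (p * m)) (hIco B hB).le
        have h4 : 2 * a - 2 - 2 = 2 * a - 4 := by omega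
        rw [h4]
        exact h3
      · simp only [h2, if_false]
        apply trivial_pow
        rw [hIco B hB]
        exact Nat.mul_le_mul_right m (by omega))
  have hsingle : Dw (d + 2 * a) (fun w => ∑ A ∈ range p, F A w * E (2 * a - 2 + 2) (Cl m A) w)
      (∑ A ∈ range p, (A * m).choose b * m ^ a) := by
    apply Dw.sum
    intro A hA
    have hA' := Finset.mem_range.1 hA
    have h1 := trivial_pow (2 * a - 2 + 2) m (Cl m A) (Cl_card m A).le
    have h2 : (2 * a - 2 + 2) / 2 = a := by omega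
    rw [h2] at h1
    have h3 := (hFD A hA').mul h1 (hFloc A hA') (E_loc _ _) (lo_disj_Cl m A)
    exact h3.cast (by omega)
  refine ⟨_, (hmid.add hsingle).congr (fun w => ?_), ?_⟩
  · rw [← Finset.sum_add_distrib]
    apply Finset.sum_congr rfl
    intro A hA
    rw [low_pairs m (2 * a - 2) p A (Finset.mem_range.1 hA), mul_add]
    congr 1
    rw [Finset.mul_sum]
    apply Finset.sum_congr rfl
    intro B _
    rw [Finset.mul_sum]
    apply Finset.sum_congr rfl
    intro x _
    ring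
  · -- numerical estimate
    have hsplit : ∑ A ∈ range p, ∑ B ∈ Ico (A + 1) p, (cL 2 A * q * cU 2 B +
        ∑ x ∈ (PS (2 * a - 2)).filter (fun x => ¬ (x.1 + x.2 = 2)),
          cL (x.1 + x.2) A * (m ^ ((x.1 + 1) / 2) * m ^ ((x.2 + 1) / 2)) * cU (x.1 + x.2) B) =
        (∑ A ∈ range p, ∑ B ∈ Ico (A + 1) p, (A * m).choose b * q * f ((p - 1 - B) * m)) +
        ∑ A ∈ range p, ∑ B ∈ Ico (A + 1) p,
        ∑ x ∈ (PS (2 * a - 2)).filter (fun x => ¬ (x.1 + x.2 = 2)),
          cL (x.1 + x.2) A * (m ^ ((x.1 + 1) / 2) * m ^ ((x.2 + 1) / 2)) * cU (x.1 + x.2) B := by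
      rw [← Finset.sum_add_distrib]
      apply Finset.sum_congr rfl
      intro A _
      rw [← Finset.sum_add_distrib]
      apply Finset.sum_congr rfl
      intro B _
      simp [hcL, hcU]
    rw [hsplit]
    have hmain := main_cost p m b (a - 2) q hp hm 1 (β + ε) 0 K 0 (K * ((p : ℝ) * m) ^ (a - 2 - 1))
      (by norm_num) hβε le_rfl hK le_rfl (by positivity) hq1
      (fun A => (A * m).choose b) (fun B => f ((p - 1 - B) * m)) (by
        intro A _
        simp) (by
        intro B hB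
        have h1 := (hf ((p - 1 - B) * m)).2
        refine h1.trans ?_
        have h2 : (((p - 1 - B) * m : ℕ) : ℝ) ^ (a - 2 - 1) ≤ ((p : ℝ) * m) ^ (a - 2 - 1) := by
          apply pow_le_pow_left₀ (by positivity)
          have h3 : (p - 1 - B) * m ≤ p * m := Nat.mul_le_mul_right m (by omega)
          exact_mod_cast h3
        have h4 := mul_le_mul_of_nonneg_left h2 hK
        linarith) (by simp) (by
        have h1 : ((p : ℝ) * m) ^ (a - 2) = ((p : ℝ) * m) ^ (a - 2 - 1) * ((p : ℝ) * m) := by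
          rw [← pow_succ]
          congr 1
          omega
        rw [h1]
        have hp1 : (1 : ℝ) ≤ p := by exact_mod_cast hp
        have hm0 : (0 : ℝ) ≤ m := by positivity
        have h2 : (m : ℝ) ≤ p * m := by nlinarith
        have h3 : 0 ≤ K * ((p : ℝ) * m) ^ (a - 2 - 1) := by positivity
        calc K * ((p : ℝ) * m) ^ (a - 2 - 1) * m ≤ K * ((p : ℝ) * m) ^ (a - 2 - 1) * (p * m) :=
              mul_le_mul_of_nonneg_left h2 h3
          _ = _ := by ring)
    have hbad := bad_cost p m a b hp hm ha cL cU (by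
      intro s hs h2 A hA B hB
      simp only [hcL, hcU, h2, if_false]
      rw [pow_add]
      apply Nat.mul_le_mul_right
      exact (Nat.choose_le_pow _ _).trans
        (Nat.pow_le_pow_left (Nat.mul_le_mul_right m hA.le) _))
    have htriv := trivial_term p m a b hp ha (fun A => (A * m).choose b) (by
      intro A hA
      exact (Nat.choose_le_pow _ _).trans
        (Nat.pow_le_pow_left (Nat.mul_le_mul_right m hA.le) _))
    have e1 : b + (a - 2) + 2 = a + b := by omega
    have e2 : b + (a - 2) + 1 = a + b - 1 := by omega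
    rw [e1, e2] at hmain
    have e3 : b + a = a + b := by omega
    rw [e3] at hbad htriv
    have hbad' : ((∑ A ∈ range p, ∑ B ∈ Ico (A + 1) p,
        ∑ x ∈ (PS (2 * a - 2)).filter (fun x => ¬ (x.1 + x.2 = 2)),
          cL (x.1 + x.2) A * (m ^ ((x.1 + 1) / 2) * m ^ ((x.2 + 1) / 2)) * cU (x.1 + x.2) B : ℕ) : ℝ) ≤
        4 * (a : ℝ) ^ 2 * ((p : ℝ) ^ (a + b - 1) * (m : ℝ) ^ (a + b) +
          (p : ℝ) ^ (a + b + 2) * (m : ℝ) ^ (a + b - 1)) := by exact_mod_cast hbad
    have htriv' : ((∑ A ∈ range p, (A * m).choose b * m ^ a : ℕ) : ℝ) ≤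
        (p : ℝ) ^ (a + b - 1) * (m : ℝ) ^ (a + b) := by exact_mod_cast htriv
    have e4 : (p : ℝ) ^ (a + b - 1) * (m : ℝ) ^ (a + b) = ((p * m : ℕ) : ℝ) ^ (a + b) / p := by
      rw [eq_div_iff hpos.ne']
      push_cast
      rw [mul_pow]
      have : (p : ℝ) ^ (a + b) = (p : ℝ) ^ (a + b - 1) * p := by
        rw [← pow_succ]
        congr 1
        omega
      rw [this]
      ring
    rw [e4] at hbad' htriv'
    rw [Nat.cast_add, Nat.cast_add]
    have e5 : b + a + 2 = a + b + 2 := by omega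
    rw [e5]
    have e6 : 2 / 3 * (1 * (β + ε)) * ((p * m).choose (a + b) : ℝ) ≤
        (2 / 3 * β + ε) * ((p * m).choose (a + b) : ℝ) := by
      apply mul_le_mul_of_nonneg_right _ (by positivity)
      linarith
    have e7 : ∀ (S Z P1 Q M : ℝ), S + (4 * (a : ℝ) ^ 2 + 1) * Z / p + (P1 + 4 * (a : ℝ) ^ 2 * Q) * M =
        S + P1 * M + 4 * (a : ℝ) ^ 2 * (Z / p + Q * M) + Z / p := by
      intro S Z P1 Q M
      ring
    rw [e7]
    linarith

theorem sum_swapZ (p : ℕ) (g : ℕ → ℕ → ℤ) :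
    ∑ A ∈ range p, ∑ B ∈ Ico (A + 1) p, g A B = ∑ B ∈ range p, ∑ A ∈ range B, g A B := by
  apply Finset.sum_comm'
  intro x y
  simp only [Finset.mem_range, Finset.mem_Ico]
  omega

/-- pairing below a family whose lower end is fixed -/
theorem pair_high (a b d : ℕ) (hb : 3 ≤ b) (β : ℝ) (hβ : 0 ≤ β)
    (hG : Good (2 * b - 4) (b - 2) β) (ε : ℝ) (hε : 0 < ε) (p : ℕ) (hp : 1 ≤ p) :
    ∃ C : ℝ, 0 ≤ C ∧ ∀ m : ℕ, 1 ≤ m → ∀ G : ℕ → (ℕ → ℤ) → ℤ,
      (∀ B < p, Loc (Ico ((B + 1) * m) (p * m)) (G B)) →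
      (∀ B < p, Dw d (G B) (((p - 1 - B) * m).choose a)) →
      ∃ c : ℕ, Dw (2 * b + d) (fun w => ∑ B ∈ range p,
        (∑ j ∈ range (2 * b - 2 + 1 + 1), E (2 * b - 2 + 1 - j) (range (B * m)) w *
          E (j + 1) (Cl m B) w) * G B w) c ∧
        (c : ℝ) ≤ (2 / 3 * β + ε) * ((p * m).choose (a + b) : ℝ) +
          (4 * (b : ℝ) ^ 2 + 1) * ((p * m : ℕ) : ℝ) ^ (a + b) / p + C * (m : ℝ) ^ (a + b - 1) := by
  obtain ⟨K, f, hK, hf⟩ := hG ε hε
  refine ⟨(p : ℝ) ^ 2 * ((22 * ((β + ε) * 1) + 23 * (1 * K + (β + ε) * 0 + K * 0)) *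
    (p : ℝ) ^ (b - 2 + a)) + 4 * (b : ℝ) ^ 2 * (p : ℝ) ^ (a + b + 2), by positivity, ?_⟩
  intro m hm G hGLoc hGD
  obtain ⟨q, hq1, hq2⟩ := cross_module m
  have hpos : (0 : ℝ) < p := by exact_mod_cast hp
  have hβε : 0 ≤ β + ε := by linarith
  set cL : ℕ → ℕ → ℕ := fun s A => if s = 2 then f (A * m) else
    (p * m) ^ ((2 * b - 2 - s) / 2) with hcL
  set cU : ℕ → ℕ → ℕ := fun _ B => ((p - 1 - B) * m).choose a with hcU
  have hmid := mid_sum m p (2 * b - 2) (2 * b + d) q (by omega)
    (fun A B h1 h2 h3 => hq2 ℕ A B h1 h2 h3)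
    (fun s A => E (2 * b - 2 - s) (range (A * m))) (fun _ B => G B)
    (fun s => 2 * b - 2 - s) (fun _ => d) (by intro s hs; omega) cL cU
    (fun s _ A _ => E_loc _ _) (fun s _ B hB => hGLoc B hB) (by
      intro s hs A hA
      rw [hcL]
      by_cases h2 : s = 2
      · subst h2
        simp only [if_true]
        have h3 := (hf (A * m)).1
        have h4 : 2 * b - 2 - 2 = 2 * b - 4 := by omega
        rw [h4]
        exact h3
      · simp only [h2, if_false]
        apply trivial_pow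
        rw [Finset.card_range]
        exact Nat.mul_le_mul_right m hA.le) (fun s _ B hB => hGD B hB)
  have hsingle : Dw (2 * b + d) (fun w => ∑ B ∈ range p, E (2 * b - 2 + 2) (Cl m B) w * G B w)
      (∑ B ∈ range p, ((p - 1 - B) * m).choose a * m ^ b) := by
    apply Dw.sum
    intro B hB
    have hB' := Finset.mem_range.1 hB
    have h1 := trivial_pow (2 * b - 2 + 2) m (Cl m B) (Cl_card m B).le
    have h2 : (2 * b - 2 + 2) / 2 = b := by omega
    rw [h2] at h1
    have h3 := h1.mul (hGD B hB') (E_loc _ _) (hGLoc B hB') (Cl_disj_hi m B p)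
    exact (h3.cast (by omega)).mono (by rw [mul_comm])
  refine ⟨_, (hmid.add hsingle).congr (fun w => ?_), ?_⟩
  · rw [sum_swapZ, ← Finset.sum_add_distrib]
    apply Finset.sum_congr rfl
    intro B hB
    rw [high_pairs m (2 * b - 2) B, add_mul]
    congr 1
    rw [Finset.sum_mul]
    apply Finset.sum_congr rfl
    intro A _
    rw [Finset.sum_mul]
  · have hsplit : ∑ A ∈ range p, ∑ B ∈ Ico (A + 1) p, (cL 2 A * q * cU 2 B +
        ∑ x ∈ (PS (2 * b - 2)).filter (fun x => ¬ (x.1 + x.2 = 2)),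
          cL (x.1 + x.2) A * (m ^ ((x.1 + 1) / 2) * m ^ ((x.2 + 1) / 2)) * cU (x.1 + x.2) B) =
        (∑ A ∈ range p, ∑ B ∈ Ico (A + 1) p, f (A * m) * q * ((p - 1 - B) * m).choose a) +
        ∑ A ∈ range p, ∑ B ∈ Ico (A + 1) p,
        ∑ x ∈ (PS (2 * b - 2)).filter (fun x => ¬ (x.1 + x.2 = 2)),
          cL (x.1 + x.2) A * (m ^ ((x.1 + 1) / 2) * m ^ ((x.2 + 1) / 2)) * cU (x.1 + x.2) B := by
      rw [← Finset.sum_add_distrib]
      apply Finset.sum_congr rfl
      intro A _
      rw [← Finset.sum_add_distrib]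
      apply Finset.sum_congr rfl
      intro B _
      simp [hcL, hcU]
    rw [hsplit]
    have hmain := main_cost p m (b - 2) a q hp hm (β + ε) 1 K 0 (K * ((p : ℝ) * m) ^ (b - 2 - 1)) 0
      hβε (by norm_num) hK le_rfl (by positivity) le_rfl hq1
      (fun A => f (A * m)) (fun B => ((p - 1 - B) * m).choose a) (by
        intro A hA
        have h1 := (hf (A * m)).2
        refine h1.trans ?_
        have h2 : ((A * m : ℕ) : ℝ) ^ (b - 2 - 1) ≤ ((p : ℝ) * m) ^ (b - 2 - 1) := by
          apply pow_le_pow_left₀ (by positivity)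
          have h3 : A * m ≤ p * m := Nat.mul_le_mul_right m hA.le
          exact_mod_cast h3
        have h4 := mul_le_mul_of_nonneg_left h2 hK
        linarith) (by
        intro B _
        simp) (by
        have h1 : ((p : ℝ) * m) ^ (b - 2) = ((p : ℝ) * m) ^ (b - 2 - 1) * ((p : ℝ) * m) := by
          rw [← pow_succ]
          congr 1
          omega
        rw [h1]
        have hp1 : (1 : ℝ) ≤ p := by exact_mod_cast hp
        have hm0 : (0 : ℝ) ≤ m := by positivity
        have h2 : (m : ℝ) ≤ p * m := by nlinarith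
        have h3 : 0 ≤ K * ((p : ℝ) * m) ^ (b - 2 - 1) := by positivity
        calc K * ((p : ℝ) * m) ^ (b - 2 - 1) * m ≤ K * ((p : ℝ) * m) ^ (b - 2 - 1) * (p * m) :=
              mul_le_mul_of_nonneg_left h2 h3
          _ = _ := by ring) (by simp)
    have hbad := bad_cost p m b a hp hm hb cL cU (by
      intro s hs h2 A hA B hB
      simp only [hcL, hcU, h2, if_false]
      rw [add_comm a, pow_add]
      apply Nat.mul_le_mul_left
      exact (Nat.choose_le_pow _ _).trans
        (Nat.pow_le_pow_left (Nat.mul_le_mul_right m (by omega)) _))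
    have htriv := trivial_term p m b a hp hb (fun B => ((p - 1 - B) * m).choose a) (by
      intro B hB
      exact (Nat.choose_le_pow _ _).trans
        (Nat.pow_le_pow_left (Nat.mul_le_mul_right m (by omega)) _))
    have e1 : b - 2 + a + 2 = a + b := by omega
    have e2 : b - 2 + a + 1 = a + b - 1 := by omega
    rw [e1, e2] at hmain
    have hbad' : ((∑ A ∈ range p, ∑ B ∈ Ico (A + 1) p,
        ∑ x ∈ (PS (2 * b - 2)).filter (fun x => ¬ (x.1 + x.2 = 2)),
          cL (x.1 + x.2) A * (m ^ ((x.1 + 1) / 2) * m ^ ((x.2 + 1) / 2)) * cU (x.1 + x.2) B : ℕ) : ℝ) ≤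
        4 * (b : ℝ) ^ 2 * ((p : ℝ) ^ (a + b - 1) * (m : ℝ) ^ (a + b) +
          (p : ℝ) ^ (a + b + 2) * (m : ℝ) ^ (a + b - 1)) := by exact_mod_cast hbad
    have htriv' : ((∑ B ∈ range p, ((p - 1 - B) * m).choose a * m ^ b : ℕ) : ℝ) ≤
        (p : ℝ) ^ (a + b - 1) * (m : ℝ) ^ (a + b) := by exact_mod_cast htriv
    have e4 : (p : ℝ) ^ (a + b - 1) * (m : ℝ) ^ (a + b) = ((p * m : ℕ) : ℝ) ^ (a + b) / p := by
      rw [eq_div_iff hpos.ne']
      push_cast
      rw [mul_pow]
      have : (p : ℝ) ^ (a + b) = (p : ℝ) ^ (a + b - 1) * p := by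
        rw [← pow_succ]
        congr 1
        omega
      rw [this]
      ring
    rw [e4] at hbad' htriv'
    rw [Nat.cast_add, Nat.cast_add]
    have e6 : 2 / 3 * ((β + ε) * 1) * ((p * m).choose (a + b) : ℝ) ≤
        (2 / 3 * β + ε) * ((p * m).choose (a + b) : ℝ) := by
      apply mul_le_mul_of_nonneg_right _ (by positivity)
      linarith
    have e7 : ∀ (S Z P1 Q M : ℝ), S + (4 * (b : ℝ) ^ 2 + 1) * Z / p + (P1 + 4 * (b : ℝ) ^ 2 * Q) * M =
        S + P1 * M + 4 * (b : ℝ) ^ 2 * (Z / p + Q * M) + Z / p := by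
      intro S Z P1 Q M
      ring
    rw [e7]
    linarith

/-- **even ranks**: four more points save a factor `2/3` -/
theorem Good.even_step (a : ℕ) (ha : 3 ≤ a) (β : ℝ) (hβ : 0 ≤ β)
    (hG : Good (2 * a - 4) (a - 2) β) : Good (2 * a) a (2 / 3 * β) := by
  apply Good.of_blocks (N := 4 * (a : ℝ) ^ 2 + 1) (by omega) (by omega) (by positivity) (by positivity)
  intro ε hε p hp
  obtain ⟨C, hC, H⟩ := pair_low a 0 0 ha β hβ hG ε hε p hp
  refine ⟨C, hC, ?_⟩
  intro m
  rcases Nat.eq_zero_or_pos m with hm | hm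
  · subst hm
    refine ⟨0, ?_, ?_⟩
    · obtain ⟨k, hk⟩ : ∃ k, 2 * a = k + 1 := ⟨2 * a - 1, by omega⟩
      rw [hk]
      refine (Dw.zero _ _).congr (fun w => ?_)
      simp [E_empty]
    · rw [Nat.cast_zero]
      have : 0 ≤ 2 / 3 * β + ε := by positivity
      positivity
  · obtain ⟨c, hc1, hc2⟩ := H m hm (fun _ _ => 1) (fun A _ w w' _ => rfl) (fun A _ => by
      have h1 := trivial_range 0 0
      refine (h1.congr (fun w => ?_)).mono (by simp)
      rw [E_zero])
    refine ⟨c, ?_, ?_⟩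
    · refine (hc1.cast (by omega)).congr (fun w => ?_)
      have h1 := low_expand' m (2 * a - 1) 0 p (Nat.zero_le _) w
      rw [Nat.zero_mul] at h1
      have h2 : 2 * a - 1 + 1 = 2 * a := by omega
      rw [h2] at h1
      rw [Finset.range_eq_Ico, h1, ← Finset.range_eq_Ico]
      have h3 : 2 * a - 2 + 1 = 2 * a - 1 := by omega
      rw [h3, h2]
      apply Finset.sum_congr rfl
      intro A _
      rw [one_mul]
    · simpa using hc2

theorem Good.step {r h : ℕ} {α : ℝ} (hh : 1 ≤ h) (hG : Good r h α) :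
    Good (r + 2) (h + 1) α := by
  intro ε hε
  obtain ⟨K, f, hK, hf⟩ := hG ε hε
  refine ⟨K, fun n => ∑ v ∈ range n, f v, hK, ?_⟩
  intro n
  refine ⟨Dw.step2 r n f (fun v _ => (hf v).1), ?_⟩
  have h1 : ((∑ v ∈ range n, f v : ℕ) : ℝ) ≤
      ∑ v ∈ range n, ((α + ε) * (v.choose h : ℝ) + K * (n : ℝ) ^ (h - 1)) := by
    push_cast
    apply Finset.sum_le_sum
    intro v hv
    refine (hf v).2.trans ?_
    have h2 : (v : ℝ) ^ (h - 1) ≤ (n : ℝ) ^ (h - 1) := by
      apply pow_le_pow_left₀ (by positivity)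
      exact_mod_cast (Finset.mem_range.1 hv).le
    have h3 := mul_le_mul_of_nonneg_left h2 hK
    linarith
  refine h1.trans ?_
  rw [Finset.sum_add_distrib, ← Finset.mul_sum, Finset.sum_const, Finset.card_range, nsmul_eq_mul]
  have h4 : (∑ v ∈ range n, (v.choose h : ℝ)) = (n.choose (h + 1) : ℝ) := by
    have := sum_choose n h
    exact_mod_cast this
  rw [h4]
  have h5 : (n : ℝ) * (K * (n : ℝ) ^ (h - 1)) = K * (n : ℝ) ^ (h + 1 - 1) := by
    have h6 : h + 1 - 1 = (h - 1) + 1 := by omega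
    rw [h6, pow_succ]
    ring
  rw [h5]

theorem four_rec (m c q : ℕ) (hc : Dw 4 (E 4 (range m)) c)
    (hq : ∀ A B : Finset ℕ, Disjoint A B → A.card ≤ m → B.card ≤ m → Dw 4 (crossF A B) q) :
    Dw 4 (E 4 (range (2 * m))) (c + c + q) := by
  have hd : Disjoint (range m) (Ico m (2 * m)) := by
    rw [Finset.disjoint_left]
    intro x hx hx'
    rw [Finset.mem_range] at hx
    rw [Finset.mem_Ico] at hx'
    omega
  have hu : range (2 * m) = range m ∪ Ico m (2 * m) := by
    rw [Finset.range_eq_Ico, Finset.range_eq_Ico,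
      Finset.Ico_union_Ico_eq_Ico (Nat.zero_le _) (by omega)]
  have hcard : (Ico m (2 * m)).card = m := by
    rw [Nat.card_Ico]
    omega
  have h1 := hc.transport (Ico m (2 * m)) hcard.le
  have h2 := hq (range m) (Ico m (2 * m)) hd (by rw [Finset.card_range]) hcard.le
  refine ((hc.add h1).add h2).congr (fun w => ?_)
  rw [hu, E_union 4 hd]
  simp only [Finset.sum_range_succ, Finset.sum_range_zero]
  unfold crossF
  simp only [E_zero, Nat.sub_zero, Nat.sub_self]
  norm_num
  ring

theorem good_four : Good 4 2 (2 / 3) := by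
  intro ε hε
  set δ : ℝ := ε / 2 with hδ
  have hδ0 : 0 < δ := by positivity
  obtain ⟨N0, hN0⟩ := exists_nat_gt (46 / δ + 3)
  have hN0' : (3 : ℝ) < N0 := by
    have : 0 < 46 / δ := by positivity
    linarith
  have hN1 : 3 < N0 := by exact_mod_cast hN0'
  have key : ∀ n : ℕ, ∃ c : ℕ, Dw 4 (E 4 (range n)) c ∧
      (1 ≤ n → (c : ℝ) ≤ (1 / 3 + δ) * (n : ℝ) ^ 2 + N0 * ((n : ℝ) - 1)) ∧ (n = 0 → c = 0) := by
    intro n
    induction n using Nat.strong_induction_on with
    | _ n ih =>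
      rcases Nat.lt_or_ge n N0 with hn | hn
      · refine ⟨n.choose 2, trivial_range 4 n, ?_, ?_⟩
        · intro hn1
          have hnr : (1 : ℝ) ≤ n := by exact_mod_cast hn1
          have h1 : (n.choose 2 : ℝ) = n * (n - 1) / 2 := Nat.cast_choose_two ℝ n
          have h2 : (n : ℝ) ≤ N0 := by exact_mod_cast hn.le
          rw [h1]
          have h3 : (n : ℝ) * (n - 1) ≤ N0 * (n - 1) := mul_le_mul_of_nonneg_right h2 (by linarith)
          have h4 : 0 ≤ (n : ℝ) * (n - 1) := by
            apply mul_nonneg <;> linarith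
          have h5 : 0 ≤ (1 / 3 + δ) * (n : ℝ) ^ 2 := by positivity
          linarith
        · intro h0
          rw [h0]
          rfl
      · set m := (n + 1) / 2 with hm
        obtain ⟨c, hc1, hc2, _⟩ := ih m (by omega)
        obtain ⟨q, hq1, hq2⟩ := cross_module m
        have hD := four_rec m c q hc1 (fun A B h1 h2 h3 => hq2 ℕ A B h1 h2 h3)
        refine ⟨c + c + q, hD.transport (range n) (by rw [Finset.card_range]; omega), ?_, ?_⟩
        · intro hn1
          have hc := hc2 (by omega)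
          have h1 : (2 * m : ℝ) ≤ n + 1 := by
            have : 2 * m ≤ n + 1 := by omega
            exact_mod_cast this
          have h2 : (46 / δ + 3 : ℝ) < n := lt_of_lt_of_le hN0 (by exact_mod_cast hn)
          have h3 : 46 + 3 * δ ≤ δ * n := by
            have h4 : δ * (46 / δ + 3) < δ * n := mul_lt_mul_of_pos_left h2 hδ0
            have h5 : δ * (46 / δ + 3) = 46 + 3 * δ := by field_simp
            linarith
          have hn3 : (3 : ℝ) < n := lt_of_lt_of_le hN0' (by exact_mod_cast hn)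
          have hm0 : (0 : ℝ) ≤ m := by positivity
          have h6 : (2 * m : ℝ) ^ 2 ≤ ((n : ℝ) + 1) ^ 2 := pow_le_pow_left₀ (by positivity) h1 2
          have h7 : (4 / 3 + 2 * δ) * (m : ℝ) ^ 2 ≤ (1 / 3 + δ / 2) * ((n : ℝ) + 1) ^ 2 := by
            have h8 : (1 / 3 + δ / 2) * (2 * m : ℝ) ^ 2 ≤ (1 / 3 + δ / 2) * ((n : ℝ) + 1) ^ 2 :=
              mul_le_mul_of_nonneg_left h6 (by positivity)
            calc (4 / 3 + 2 * δ) * (m : ℝ) ^ 2 = (1 / 3 + δ / 2) * (2 * m : ℝ) ^ 2 := by ring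
              _ ≤ _ := h8
          have h9 : (N0 : ℝ) * (2 * m - 2) ≤ N0 * (n - 1) :=
            mul_le_mul_of_nonneg_left (by linarith) (by positivity)
          have h10 : δ / 2 * ((46 + 3 * δ) * n) ≤ δ / 2 * ((δ * n) * n) := by
            apply mul_le_mul_of_nonneg_left _ (by positivity)
            exact mul_le_mul_of_nonneg_right h3 (by linarith)
          have h11 : (23 + 3 / 2 * δ) * n ≤ δ / 2 * (n : ℝ) ^ 2 := by
            have h12 : (46 + 3 * δ) * n ≤ (δ * n) * n := mul_le_mul_of_nonneg_right h3 (by linarith)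
            nlinarith
          have h13 : (1 / 3 + δ / 2) * (2 * n + 1) + 11 * (n + 1) ≤ (23 + 3 / 2 * δ) * (n : ℝ) := by
            nlinarith
          push_cast
          nlinarith
        · intro h0
          omega
  choose f hf using key
  refine ⟨1 / 3 + δ + N0, f, by positivity, ?_⟩
  intro n
  refine ⟨(hf n).1, ?_⟩
  rcases Nat.eq_zero_or_pos n with hn | hn
  · subst hn
    rw [(hf 0).2.2 rfl]
    simp
  · have h1 := (hf n).2.1 hn
    have h2 : (n.choose 2 : ℝ) = n * (n - 1) / 2 := Nat.cast_choose_two ℝ n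
    rw [h2]
    have hnr : (1 : ℝ) ≤ n := by exact_mod_cast hn
    have h3 : (2 - 1 : ℕ) = 1 := rfl
    rw [h3, pow_one]
    have h4 : (0 : ℝ) ≤ N0 := by positivity
    nlinarith

/-- the bound for even ranks -/
theorem good_even (q k : ℕ) (hq : 1 ≤ q) (hk : 2 * q ≤ k) : Good (2 * k) k ((2 / 3 : ℝ) ^ q) := by
  induction q generalizing k with
  | zero => omega
  | succ q ih =>
    rcases Nat.eq_zero_or_pos q with h0 | h0
    · subst h0
      rw [zero_add, pow_one]
      induction k with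
      | zero => omega
      | succ k ihk =>
        rcases Nat.lt_or_ge k 2 with h1 | h1
        · have : k = 1 := by omega
          subst this
          exact good_four
        · have h2 := (ihk (by omega)).step (by omega)
          have h3 : 2 * (k + 1) = 2 * k + 2 := by ring
          rw [h3]
          exact h2
    · have h1 := ih (k - 2) h0 (by omega)
      have h2 : 2 * (k - 2) = 2 * k - 4 := by omega
      rw [h2] at h1
      have h3 := Good.even_step k (by omega) _ (by positivity) h1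
      have h4 : (2 / 3 : ℝ) ^ (q + 1) = 2 / 3 * (2 / 3) ^ q := pow_succ' _ _
      rw [h4]
      exact h3

theorem E_Ico_top (k u n : ℕ) (hun : u ≤ n) (w : ℕ → ℤ) :
    E (k + 1) (Ico u (n + 1)) w = E (k + 1) (Ico u n) w + w n * E k (Ico u n) w := by
  have h1 : Ico u (n + 1) = insert n (Ico u n) := by
    ext x
    simp only [Finset.mem_Ico, Finset.mem_insert]
    omega
  rw [h1, E_insert]
  simp

/-- expansion by the `(s+1)`-st element -/
theorem E_pin (s t n : ℕ) (w : ℕ → ℤ) :
    E (s + 1 + t) (range n) w =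
      ∑ v ∈ range n, E s (range v) w * (w v * E t (Ico (v + 1) n) w) := by
  induction n generalizing t with
  | zero =>
    have h : s + 1 + t = (s + t) + 1 := by ring
    rw [h]
    simp [E_empty]
  | succ n ih =>
    rcases t with _ | t
    · rw [add_zero, E_top]
      apply Finset.sum_congr rfl
      intro v _
      rw [E_zero, mul_one]
    · have h1 : s + 1 + (t + 1) = (s + 1 + t) + 1 := by ring
      rw [h1, hat_step, ← h1, ih (t + 1), ih t, Finset.sum_range_succ, Finset.Ico_self, E_empty,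
        mul_zero, mul_zero, add_zero, Finset.mul_sum, ← Finset.sum_add_distrib]
      apply Finset.sum_congr rfl
      intro v hv
      have hv' : v + 1 ≤ n := Finset.mem_range.1 hv
      rw [E_Ico_top t (v + 1) n hv']
      ring

/-- expansion by the smallest element -/
theorem E_low_pt (k d u : ℕ) (w : ℕ → ℤ) :
    E (k + 1) (Ico u (u + d)) w = ∑ v ∈ Ico u (u + d), w v * E k (Ico (v + 1) (u + d)) w := by
  induction d generalizing u with
  | zero => simp [E_empty]
  | succ d ih =>
    have h1 : u < u + (d + 1) := by omega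
    have h2 : Ico u (u + (d + 1)) = insert u (Ico (u + 1) (u + (d + 1))) := by
      ext x
      simp only [Finset.mem_Ico, Finset.mem_insert]
      omega
    rw [Finset.sum_eq_sum_Ico_succ_bot h1]
    conv_lhs => rw [h2]
    rw [E_insert _ (by simp), add_comm]
    congr 1
    have h3 := ih (u + 1)
    have h4 : u + 1 + d = u + (d + 1) := by ring
    rw [h4] at h3
    exact h3

theorem E_low_pt' (k u n : ℕ) (hun : u ≤ n) (w : ℕ → ℤ) :
    E (k + 1) (Ico u n) w = ∑ v ∈ Ico u n, w v * E k (Ico (v + 1) n) w := by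
  obtain ⟨d, rfl⟩ := Nat.exists_eq_add_of_le hun
  exact E_low_pt k d u w

theorem sum_clusters (m p : ℕ) (g : ℕ → ℤ) :
    ∑ v ∈ range (p * m), g v = ∑ c ∈ range p, ∑ v ∈ Cl m c, g v := by
  induction p with
  | zero => simp
  | succ p ih =>
    rw [Finset.sum_range_succ, ← ih, range_split m p, Finset.sum_union (lo_disj_Cl m p)]

theorem range_pin_split (m c v : ℕ) (hv : v ∈ Cl m c) :
    range v = range (c * m) ∪ Ico (c * m) v := by
  rw [Cl, Finset.mem_Ico] at hv
  rw [Finset.range_eq_Ico, Finset.range_eq_Ico, Finset.Ico_union_Ico_eq_Ico (Nat.zero_le _) hv.1]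

theorem disj_pin (x v : ℕ) : Disjoint (range x) (Ico x v) := by
  rw [Finset.disjoint_left]
  intro y hy hy'
  rw [Finset.mem_range] at hy
  rw [Finset.mem_Ico] at hy'
  omega

/-- the top part of kind 1 -/
theorem kind1_top (m a c p : ℕ) (ha : 1 ≤ a) (hc : c < p) (w : ℕ → ℤ) :
    ∑ v ∈ Cl m c, w v * E (2 * a - 1) (Ico (v + 1) (p * m)) w =
      ∑ i ∈ range (2 * a - 2 + 1 + 1), E (i + 1) (Cl m c) w *
          E (2 * a - 2 + 1 - i) (Ico ((c + 1) * m) (p * m)) w := by
  have h1 : 2 * a - 2 + 1 = 2 * a - 1 := by omega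
  have h2 := low_one m (2 * a - 1) c p hc w
  have hle : c * m ≤ p * m := mul_le_mul_cl hc.le
  have hle' : (c + 1) * m ≤ p * m := mul_le_mul_cl hc
  rw [E_low_pt' (2 * a - 1) (c * m) (p * m) hle, E_low_pt' (2 * a - 1) ((c + 1) * m) (p * m) hle',
    Ico_split m c p hc, Finset.sum_union (Cl_disj_hi m c p)] at h2
  rw [h1]
  linarith

/-- decomposition of the odd rank `2(a+b)+1` -/
theorem odd_split (m p a b : ℕ) (ha : 1 ≤ a) (hb : 1 ≤ b) (w : ℕ → ℤ) :
    E (2 * (a + b) + 1) (range (p * m)) w =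
      (∑ A ∈ range p, E (2 * b + 1) (range (A * m)) w *
        ∑ i ∈ range (2 * a - 2 + 1 + 1), E (i + 1) (Cl m A) w *
          E (2 * a - 2 + 1 - i) (Ico ((A + 1) * m) (p * m)) w) +
      (∑ B ∈ range p, (∑ j ∈ range (2 * b - 2 + 1 + 1), E (2 * b - 2 + 1 - j) (range (B * m)) w *
          E (j + 1) (Cl m B) w) * (∑ c ∈ Ico (B + 1) p, ∑ v ∈ Cl m c,
            wt w (Ico (c * m) v) * (w v * E (2 * a - 1) (Ico (v + 1) (p * m)) w))) +
      ∑ c ∈ range p, ∑ v ∈ Cl m c, ∑ s ∈ range (2 * b),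
        E s (range (c * m)) w * (E (2 * b + 1 - s) (Ico (c * m) v) w *
          (w v * E (2 * a - 1) (Ico (v + 1) (p * m)) w)) := by
  have h1 : 2 * (a + b) + 1 = (2 * b + 1) + 1 + (2 * a - 1) := by omega
  rw [h1, E_pin, sum_clusters]
  have h2 : ∀ c ∈ range p, ∑ v ∈ Cl m c, E (2 * b + 1) (range v) w *
      (w v * E (2 * a - 1) (Ico (v + 1) (p * m)) w) =
      (∑ v ∈ Cl m c, ∑ s ∈ range (2 * b), E s (range (c * m)) w * (E (2 * b + 1 - s)
        (Ico (c * m) v) w * (w v * E (2 * a - 1) (Ico (v + 1) (p * m)) w))) +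
      E (2 * b) (range (c * m)) w * (∑ v ∈ Cl m c,
            wt w (Ico (c * m) v) * (w v * E (2 * a - 1) (Ico (v + 1) (p * m)) w)) +
      E (2 * b + 1) (range (c * m)) w *
        ∑ i ∈ range (2 * a - 2 + 1 + 1), E (i + 1) (Cl m c) w *
          E (2 * a - 2 + 1 - i) (Ico ((c + 1) * m) (p * m)) w := by
    intro c hc
    rw [← kind1_top m a c p ha (Finset.mem_range.1 hc) w, Finset.mul_sum, Finset.mul_sum,
      ← Finset.sum_add_distrib, ← Finset.sum_add_distrib]
    apply Finset.sum_congr rfl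
    intro v hv
    rw [range_pin_split m c v hv, E_union (2 * b + 1) (disj_pin (c * m) v), Finset.sum_range_succ,
      Finset.sum_range_succ, Nat.sub_self, E_zero]
    have h3 : 2 * b + 1 - 2 * b = 1 := by omega
    rw [h3, E_one, add_mul, add_mul, Finset.sum_mul]
    congr 1
    · congr 1
      · apply Finset.sum_congr rfl
        intro s _
        ring
      · ring
    · ring
  rw [Finset.sum_congr rfl h2, Finset.sum_add_distrib, Finset.sum_add_distrib]
  have h4 : ∑ c ∈ range p, E (2 * b) (range (c * m)) w * (∑ v ∈ Cl m c,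
            wt w (Ico (c * m) v) * (w v * E (2 * a - 1) (Ico (v + 1) (p * m)) w)) =
      ∑ B ∈ range p, (∑ j ∈ range (2 * b - 2 + 1 + 1), E (2 * b - 2 + 1 - j) (range (B * m)) w *
          E (j + 1) (Cl m B) w) * (∑ c ∈ Ico (B + 1) p, ∑ v ∈ Cl m c,
            wt w (Ico (c * m) v) * (w v * E (2 * a - 1) (Ico (v + 1) (p * m)) w)) := by
    have h5 : ∀ B ∈ range p, (∑ j ∈ range (2 * b - 2 + 1 + 1), E (2 * b - 2 + 1 - j) (range (B * m)) w *
          E (j + 1) (Cl m B) w) * (∑ c ∈ Ico (B + 1) p, ∑ v ∈ Cl m c,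
            wt w (Ico (c * m) v) * (w v * E (2 * a - 1) (Ico (v + 1) (p * m)) w)) =
        ∑ c ∈ Ico (B + 1) p, (∑ j ∈ range (2 * b - 2 + 1 + 1), E (2 * b - 2 + 1 - j)
          (range (B * m)) w * E (j + 1) (Cl m B) w) * (∑ v ∈ Cl m c,
            wt w (Ico (c * m) v) * (w v * E (2 * a - 1) (Ico (v + 1) (p * m)) w)) := by
      intro B _
      rw [Finset.mul_sum]
    rw [Finset.sum_congr rfl h5, sum_swapZ]
    apply Finset.sum_congr rfl
    intro c _
    have h6 : 2 * b - 2 + 1 = 2 * b - 1 := by omega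
    have h7 := high_expand m (2 * b - 1) c w
    have h8 : 2 * b - 1 + 1 = 2 * b := by omega
    rw [h8] at h7
    rw [h7, h6, h8, Finset.sum_mul]
  rw [h4]
  ring

theorem reflect_choose (p m B a : ℕ) (ha : 1 ≤ a) (hB : B < p) :
    ∑ c ∈ Ico (B + 1) p, ∑ v ∈ Cl m c, (p * m - 1 - v).choose (a - 1) =
      ((p - 1 - B) * m).choose a := by
  have h1 : ∀ d, ∑ c ∈ Ico (p - d) p, ∑ v ∈ Cl m c, (p * m - 1 - v).choose (a - 1) =
      (min d p * m).choose a := by
    intro d
    induction d with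
    | zero =>
      simp
      exact (Nat.choose_eq_zero_of_lt (by omega)).symm
    | succ d ih =>
      rcases Nat.lt_or_ge d p with hd | hd
      · have h2 : p - (d + 1) < p := by omega
        rw [Finset.sum_eq_sum_Ico_succ_bot h2]
        have h3 : p - (d + 1) + 1 = p - d := by omega
        rw [h3, ih]
        have h4 : min d p = d := by omega
        have h5 : min (d + 1) p = d + 1 := by omega
        rw [h4, h5, ← Nat.sub_add_cancel ha, ← sum_choose, ← sum_choose, Nat.add_sub_cancel,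
          range_split m d, Finset.sum_union (lo_disj_Cl m d), add_comm]
        congr 1
        -- reflect
        apply Finset.sum_nbij' (fun v => p * m - 1 - v) (fun v => p * m - 1 - v)
        · intro v hv
          rw [Cl, Finset.mem_Ico] at hv ⊢
          have h6 : (p - (d + 1)) * m + (d + 1) * m = p * m := by
            rw [← Nat.add_mul]
            congr 1
            omega
          have h7 : (p - (d + 1) + 1) * m + d * m = p * m := by
            rw [← Nat.add_mul]
            congr 1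
            omega
          omega
        · intro v hv
          rw [Cl, Finset.mem_Ico] at hv ⊢
          have h6 : (p - (d + 1)) * m + (d + 1) * m = p * m := by
            rw [← Nat.add_mul]
            congr 1
            omega
          have h7 : (p - (d + 1) + 1) * m + d * m = p * m := by
            rw [← Nat.add_mul]
            congr 1
            omega
          omega
        · intro v hv
          rw [Cl, Finset.mem_Ico] at hv
          have h7 : (p - (d + 1) + 1) * m + d * m = p * m := by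
            rw [← Nat.add_mul]
            congr 1
            omega
          show p * m - 1 - (p * m - 1 - v) = v
          omega
        · intro v hv
          rw [Cl, Finset.mem_Ico] at hv
          have h6 : (p - (d + 1)) * m + (d + 1) * m = p * m := by
            rw [← Nat.add_mul]
            congr 1
            omega
          show p * m - 1 - (p * m - 1 - v) = v
          omega
        · intro v _
          rfl
      · have h2 : p - (d + 1) = p - d := by omega
        have h3 : min (d + 1) p = min d p := by omega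
        rw [h2, h3, ih]
  have h2 := h1 (p - 1 - B)
  have h3 : p - (p - 1 - B) = B + 1 := by omega
  have h4 : min (p - 1 - B) p = p - 1 - B := by omega
  rw [h3, h4] at h2
  exact h2

/-- the upper family of kind 2 -/
theorem kind2_upper (m p a B : ℕ) (ha : 1 ≤ a) (hB : B < p) :
    Dw (2 * a + 1) (fun w => ∑ c ∈ Ico (B + 1) p, ∑ v ∈ Cl m c,
      wt w (Ico (c * m) v) * (w v * E (2 * a - 1) (Ico (v + 1) (p * m)) w))
      (((p - 1 - B) * m).choose a) := by
  rw [← reflect_choose p m B a ha hB]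
  apply Dw.sum
  intro c hc
  apply Dw.sum
  intro v hv
  have hc' := Finset.mem_Ico.1 hc
  have hle : (c + 1) * m ≤ p * m := mul_le_mul_cl hc'.2
  have hv' := Finset.mem_Ico.1 hv
  have hbox := Dw.box2 (Ico (c * m) v) ({v} : Finset ℕ) (by simp)
  have hE := trivial_set (2 * a - 1) (p * m - 1 - v) (Ico (v + 1) (p * m)) (by
    rw [Nat.card_Ico]
    omega)
  have h3 : (2 * a - 1) / 2 = a - 1 := by omega
  rw [h3] at hE
  have hl : Loc (Ico (c * m) (v + 1)) (fun w : ℕ → ℤ => wt w (Ico (c * m) v) * wt w {v}) := by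
    apply Loc.mul
    · apply (wt_loc (Ico (c * m) v)).mono
      intro x hx
      rw [Finset.mem_Ico] at hx ⊢
      omega
    · apply (wt_loc ({v} : Finset ℕ)).mono
      intro x hx
      rw [Finset.mem_singleton] at hx
      rw [Finset.mem_Ico]
      omega
  have h4 := hbox.mul hE hl (E_loc _ _) (by
    rw [Finset.disjoint_left]
    intro x hx hx'
    rw [Finset.mem_Ico] at hx hx'
    omega)
  rw [one_mul] at h4
  refine (h4.cast (by omega)).congr (fun w => ?_)
  rw [wt_pt]
  ring

theorem kind2_loc (m p a B : ℕ) :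
    Loc (Ico ((B + 1) * m) (p * m)) (fun w : ℕ → ℤ => ∑ c ∈ Ico (B + 1) p, ∑ v ∈ Cl m c,
      wt w (Ico (c * m) v) * (w v * E (2 * a - 1) (Ico (v + 1) (p * m)) w)) := by
  apply Loc.sum
  intro c hc
  apply Loc.sum
  intro v hv
  have hc' := Finset.mem_Ico.1 hc
  have hle : (c + 1) * m ≤ p * m := mul_le_mul_cl hc'.2
  have hle' : (B + 1) * m ≤ c * m := mul_le_mul_cl hc'.1
  have hv' := Finset.mem_Ico.1 hv
  apply Loc.mul
  · apply (wt_loc (Ico (c * m) v)).mono
    intro x hx
    rw [Finset.mem_Ico] at hx ⊢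
    omega
  · apply Loc.mul
    · apply (pt_loc v).mono
      intro x hx
      rw [Finset.mem_singleton] at hx
      rw [Finset.mem_Ico]
      omega
    · apply (E_loc _ _).mono
      intro x hx
      rw [Finset.mem_Ico] at hx ⊢
      omega

/-- the cheap part of the odd case -/
theorem cheap_part (m p a b : ℕ) (hm : 1 ≤ m) (hp : 1 ≤ p) (ha : 1 ≤ a) (hb : 1 ≤ b) :
    Dw (2 * (a + b) + 1) (fun w => ∑ c ∈ range p, ∑ v ∈ Cl m c, ∑ s ∈ range (2 * b),
        E s (range (c * m)) w * (E (2 * b + 1 - s) (Ico (c * m) v) w *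
          (w v * E (2 * a - 1) (Ico (v + 1) (p * m)) w)))
      (2 * b * (p ^ (a + b - 1) * m ^ (a + b))) := by
  have hmain : Dw (2 * (a + b) + 1) (fun w => ∑ c ∈ range p, ∑ v ∈ Cl m c, ∑ s ∈ range (2 * b),
        E s (range (c * m)) w * (E (2 * b + 1 - s) (Ico (c * m) v) w *
          (w v * E (2 * a - 1) (Ico (v + 1) (p * m)) w)))
      (∑ c ∈ range p, ∑ v ∈ Cl m c, ∑ s ∈ range (2 * b),
        (p * m) ^ (s / 2) * (m ^ ((2 * b + 1 - s) / 2) * (1 * (p * m) ^ ((2 * a - 1) / 2)))) := by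
    apply Dw.sum
    intro c hc
    apply Dw.sum
    intro v hv
    apply Dw.sum
    intro s hs
    have hc' := Finset.mem_range.1 hc
    have hs' := Finset.mem_range.1 hs
    have hle : (c + 1) * m ≤ p * m := mul_le_mul_cl hc'
    have hle2 : c * m ≤ p * m := mul_le_mul_cl hc'.le
    have hv' := Finset.mem_Ico.1 hv
    have hcm : (c + 1) * m = c * m + m := by ring
    have h1 := trivial_pow s (p * m) (range (c * m)) (by rw [Finset.card_range]; exact hle2)
    have h2 := trivial_pow (2 * b + 1 - s) m (Ico (c * m) v) (by rw [Nat.card_Ico]; omega)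
    have h3 := trivial_pow (2 * a - 1) (p * m) (Ico (v + 1) (p * m)) (by rw [Nat.card_Ico]; omega)
    have h4 : Dw 1 (fun w : ℕ → ℤ => w v) 1 := (Dw.box1 ({v} : Finset ℕ)).congr
      (fun w => (wt_pt w v).symm)
    have h5 := h4.mul h3 (pt_loc v) (E_loc _ _) (by simp)
    have l5 : Loc (Ico v (p * m)) (fun w : ℕ → ℤ => w v * E (2 * a - 1) (Ico (v + 1) (p * m)) w) := by
      apply Loc.mul
      · apply (pt_loc v).mono
        intro x hx
        rw [Finset.mem_singleton] at hx
        rw [Finset.mem_Ico]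
        omega
      · apply (E_loc _ _).mono
        intro x hx
        rw [Finset.mem_Ico] at hx ⊢
        omega
    have h6 := h2.mul h5 (E_loc _ _) l5 (by
      rw [Finset.disjoint_left]
      intro x hx hx'
      rw [Finset.mem_Ico] at hx hx'
      omega)
    have l6 : Loc (Ico (c * m) (p * m)) (fun w : ℕ → ℤ => E (2 * b + 1 - s) (Ico (c * m) v) w *
        (w v * E (2 * a - 1) (Ico (v + 1) (p * m)) w)) := by
      apply Loc.mul
      · apply (E_loc _ _).mono
        intro x hx
        rw [Finset.mem_Ico] at hx ⊢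
        omega
      · apply l5.mono
        intro x hx
        rw [Finset.mem_Ico] at hx ⊢
        omega
    have h7 := h1.mul h6 (E_loc _ _) l6 (by
      rw [Finset.disjoint_left]
      intro x hx hx'
      rw [Finset.mem_range] at hx
      rw [Finset.mem_Ico] at hx'
      omega)
    exact h7.cast (by omega)
  refine hmain.mono ?_
  have hterm : ∀ s ∈ range (2 * b),
      (p * m) ^ (s / 2) * (m ^ ((2 * b + 1 - s) / 2) * (1 * (p * m) ^ ((2 * a - 1) / 2))) ≤
      p ^ (a + b - 2) * m ^ (a + b - 1) := by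
    intro s hs
    have hs' := Finset.mem_range.1 hs
    have h3 : (2 * a - 1) / 2 = a - 1 := by omega
    rw [h3]
    calc (p * m) ^ (s / 2) * (m ^ ((2 * b + 1 - s) / 2) * (1 * (p * m) ^ (a - 1)))
        = p ^ (s / 2 + (a - 1)) * m ^ (s / 2 + (2 * b + 1 - s) / 2 + (a - 1)) := by
          rw [mul_pow, mul_pow, pow_add p, pow_add m (s / 2 + (2 * b + 1 - s) / 2) (a - 1),
            pow_add m (s / 2)]
          ring
      _ ≤ p ^ (a + b - 2) * m ^ (a + b - 1) := by
          apply Nat.mul_le_mul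
          · exact Nat.pow_le_pow_right hp (by omega)
          · exact Nat.pow_le_pow_right hm (by omega)
  calc ∑ c ∈ range p, ∑ v ∈ Cl m c, ∑ s ∈ range (2 * b),
        (p * m) ^ (s / 2) * (m ^ ((2 * b + 1 - s) / 2) * (1 * (p * m) ^ ((2 * a - 1) / 2)))
      ≤ ∑ c ∈ range p, ∑ v ∈ Cl m c, ∑ s ∈ range (2 * b), p ^ (a + b - 2) * m ^ (a + b - 1) := by
        apply Finset.sum_le_sum
        intro c _
        apply Finset.sum_le_sum
        intro v _
        exact Finset.sum_le_sum hterm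
    _ = 2 * b * ((p * p ^ (a + b - 2)) * (m * m ^ (a + b - 1))) := by
        simp only [Finset.sum_const, Finset.card_range, Cl_card, smul_eq_mul]
        ring
    _ = _ := by
        rw [← pow_succ', ← pow_succ']
        have h1 : a + b - 2 + 1 = a + b - 1 := by omega
        have h2 : a + b - 1 + 1 = a + b := by omega
        rw [h1, h2]

/-- **odd ranks** -/
theorem Good.odd (a b : ℕ) (ha : 3 ≤ a) (hb : 3 ≤ b) (α β : ℝ) (hα : 0 ≤ α) (hβ : 0 ≤ β)
    (hA : Good (2 * a - 4) (a - 2) α) (hB : Good (2 * b - 4) (b - 2) β) :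
    Good (2 * (a + b) + 1) (a + b) (2 / 3 * α + 2 / 3 * β) := by
  apply Good.of_blocks (N := 4 * (a : ℝ) ^ 2 + 1 + (4 * (b : ℝ) ^ 2 + 1) + 2 * b)
    (by omega) (by omega) (by positivity) (by positivity)
  intro ε hε p hp
  obtain ⟨C1, hC1, H1⟩ := pair_low a b (2 * b + 1) ha α hα hA (ε / 2) (by linarith) p hp
  obtain ⟨C2, hC2, H2⟩ := pair_high a b (2 * a + 1) hb β hβ hB (ε / 2) (by linarith) p hp
  refine ⟨C1 + C2, by positivity, ?_⟩
  intro m
  have hpos : (0 : ℝ) < p := by exact_mod_cast hp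
  rcases Nat.eq_zero_or_pos m with hm | hm
  · subst hm
    refine ⟨0, ?_, ?_⟩
    · refine (Dw.zero _ _).congr (fun w => ?_)
      simp [E_empty]
    · rw [Nat.cast_zero]
      have : 0 ≤ 2 / 3 * α + 2 / 3 * β + ε := by positivity
      positivity
  · obtain ⟨c1, hc1, hc1'⟩ := H1 m hm (fun A => E (2 * b + 1) (range (A * m)))
      (fun A _ => E_loc _ _) (fun A _ => by
        have h1 := trivial_range (2 * b + 1) (A * m)
        have h2 : (2 * b + 1) / 2 = b := by omega
        rw [h2] at h1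
        exact h1)
    obtain ⟨c2, hc2, hc2'⟩ := H2 m hm (fun B w => ∑ c ∈ Ico (B + 1) p, ∑ v ∈ Cl m c,
        wt w (Ico (c * m) v) * (w v * E (2 * a - 1) (Ico (v + 1) (p * m)) w))
      (fun B _ => kind2_loc m p a B) (fun B hB => kind2_upper m p a B (by omega) hB)
    have h3 := cheap_part m p a b hm hp (by omega) (by omega)
    refine ⟨c1 + c2 + 2 * b * (p ^ (a + b - 1) * m ^ (a + b)), ?_, ?_⟩
    · refine (((hc1.cast (by omega)).add (hc2.cast (by omega))).add h3).congr (fun w => ?_)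
      exact odd_split m p a b (by omega) (by omega) w
    · have e4 : (p : ℝ) ^ (a + b - 1) * (m : ℝ) ^ (a + b) = ((p * m : ℕ) : ℝ) ^ (a + b) / p := by
        rw [eq_div_iff hpos.ne']
        push_cast
        rw [mul_pow]
        have : (p : ℝ) ^ (a + b) = (p : ℝ) ^ (a + b - 1) * p := by
          rw [← pow_succ]
          congr 1
          omega
        rw [this]
        ring
      have e5 : ((c1 + c2 + 2 * b * (p ^ (a + b - 1) * m ^ (a + b)) : ℕ) : ℝ) =
          (c1 : ℝ) + c2 + 2 * b * (((p * m : ℕ) : ℝ) ^ (a + b) / p) := by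
        rw [← e4]
        push_cast
        ring
      rw [e5]
      have e6 : ∀ (X Z M : ℝ), (2 / 3 * α + 2 / 3 * β + ε) * X +
          (4 * (a : ℝ) ^ 2 + 1 + (4 * (b : ℝ) ^ 2 + 1) + 2 * b) * Z / p + (C1 + C2) * M =
          ((2 / 3 * α + ε / 2) * X + (4 * (a : ℝ) ^ 2 + 1) * Z / p + C1 * M) +
          ((2 / 3 * β + ε / 2) * X + (4 * (b : ℝ) ^ 2 + 1) * Z / p + C2 * M) +
          2 * b * (Z / p) := by
        intro X Z M
        ring
      rw [e6]
      linarith

theorem E_indicator {V : Type} [Fintype V] [DecidableEq V] (r : ℕ) (e : Finset V) (he : e.card = r) :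
    E r (univ : Finset V) (fun v => if v ∈ e then (1 : ℤ) else 0) = 1 := by
  unfold E
  have h1 : ∀ f ∈ (univ : Finset V).powersetCard r,
      (∏ x ∈ f, (if x ∈ e then (1 : ℤ) else 0)) = if f = e then 1 else 0 := by
    intro f hf
    rw [Finset.mem_powersetCard] at hf
    by_cases hfe : f = e
    · subst hfe
      rw [if_pos rfl]
      apply Finset.prod_eq_one
      intro x hx
      rw [if_pos hx]
    · rw [if_neg hfe]
      have : ∃ x ∈ f, x ∉ e := by
        by_contra hcon
        push Not at hcon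
        exact hfe (Finset.eq_of_subset_of_card_le hcon (by omega))
      obtain ⟨x, hx, hxe⟩ := this
      exact Finset.prod_eq_zero hx (if_neg hxe)
  rw [Finset.sum_congr rfl h1, Finset.sum_ite_eq' , if_pos]
  rw [Finset.mem_powersetCard]
  exact ⟨Finset.subset_univ _, he⟩

theorem wt_indicator {V : Type} [DecidableEq V] (e A : Finset V) :
    wt (fun v => if v ∈ e then (1 : ℤ) else 0) A = ((e ∩ A).card : ℤ) := by
  unfold wt
  rw [Finset.sum_ite_mem, Finset.sum_const, nsmul_eq_mul, mul_one, Finset.inter_comm]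

/-- from weights to partitions -/
theorem Dw.extract {r n c : ℕ} (h : Dw r (E r (range n)) c) :
    ∃ m : ℕ, m ≤ c ∧ ∃ P : Fin m → Fin r → Finset (Fin n),
      (∀ i : Fin m, ∀ j k : Fin r, j ≠ k → Disjoint (P i j) (P i k)) ∧
      (∀ (i : Fin m) (j : Fin r), (P i j).Nonempty) ∧
      ∀ e : Finset (Fin n), e.card = r → ∃! i : Fin m, ∀ j : Fin r, (e ∩ P i j).card = 1 := by
  classical
  obtain ⟨ι, hι, P, h1, h2, h3⟩ := h.transport (univ : Finset (Fin n)) (by simp)
  let ι' := {i : ι // ∀ j, (P i j).Nonempty}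
  let σ : Fin (Fintype.card ι') ≃ ι' := (Fintype.equivFin ι').symm
  refine ⟨Fintype.card ι', (Fintype.card_subtype_le _).trans h1, fun i => P (σ i).1, ?_, ?_, ?_⟩
  · intro i j k hjk
    exact h2 _ j k hjk
  · intro i j
    exact (σ i).2 j
  · intro e he
    have h4 := h3 (fun v => if v ∈ e then (1 : ℤ) else 0)
    rw [E_indicator r e he] at h4
    have h5 : ∑ i, ∏ j, ((e ∩ P i j).card : ℤ) = 1 := by
      rw [h4]
      apply Finset.sum_congr rfl
      intro i _
      apply Finset.prod_congr rfl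
      intro j _
      rw [wt_indicator]
    have h6 : ∑ i, ∏ j, (e ∩ P i j).card = 1 := by exact_mod_cast h5
    have h7 : ∃ i, ∏ j, (e ∩ P i j).card ≠ 0 := by
      by_contra hcon
      push Not at hcon
      rw [Finset.sum_eq_zero (fun i _ => hcon i)] at h6
      exact absurd h6 (by decide)
    obtain ⟨i0, hi0⟩ := h7
    have h8 : ∀ i, i ≠ i0 → ∏ j, (e ∩ P i j).card = 0 := by
      intro i hi
      by_contra hcon
      have h9 : ∏ j, (e ∩ P i j).card + ∏ j, (e ∩ P i0 j).card ≤ ∑ i, ∏ j, (e ∩ P i j).card := by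
        rw [← Finset.sum_pair (f := fun i => ∏ j, (e ∩ P i j).card) hi]
        exact Finset.sum_le_sum_of_subset (Finset.subset_univ _)
      have h10 := Nat.pos_of_ne_zero hcon
      have h11 := Nat.pos_of_ne_zero hi0
      omega
    have h9 : ∏ j, (e ∩ P i0 j).card = 1 := by
      rw [← h6]
      exact (Finset.sum_eq_single i0 (fun i _ hi => h8 i hi) (fun hcon =>
        (hcon (Finset.mem_univ i0)).elim)).symm
    have h10 : ∀ j, (e ∩ P i0 j).card = 1 := by
      intro j
      exact Nat.eq_one_of_mul_eq_one_right (m := (e ∩ P i0 j).card)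
        (n := ∏ k ∈ univ.erase j, (e ∩ P i0 k).card) (by
          rw [Finset.mul_prod_erase univ (fun k => (e ∩ P i0 k).card) (Finset.mem_univ j)]
          exact h9)
    have hne : ∀ j, (P i0 j).Nonempty := by
      intro j
      have h11 := h10 j
      have h12 : (e ∩ P i0 j).Nonempty := by
        rw [← Finset.card_pos, h11]
        exact Nat.one_pos
      exact h12.mono Finset.inter_subset_right
    refine ⟨σ.symm ⟨i0, hne⟩, ?_, ?_⟩
    · intro j
      show (e ∩ P (σ (σ.symm ⟨i0, hne⟩)).1 j).card = 1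
      rw [Equiv.apply_symm_apply]
      exact h10 j
    · intro i hi
      have h11 : ∏ j, (e ∩ P (σ i).1 j).card = 1 := Finset.prod_eq_one (fun j _ => hi j)
      have h12 : (σ i).1 = i0 := by
        by_contra hcon
        rw [h8 _ hcon] at h11
        exact absurd h11 (by decide)
      rw [Equiv.eq_symm_apply]
      exact Subtype.ext h12

/-- final form of a bound -/
theorem Good.final {r h : ℕ} {α : ℝ} (hh : 1 ≤ h) (hG : Good r h α) :
    ∀ ε : ℝ, 0 < ε → ∃ N : ℕ, ∀ n : ℕ, N ≤ n →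
      ∃ m : ℕ, (m : ℝ) ≤ (α + ε) * ((n.choose h : ℕ) : ℝ) ∧
        ∃ P : Fin m → Fin r → Finset (Fin n),
          (∀ i : Fin m, ∀ j k : Fin r, j ≠ k → Disjoint (P i j) (P i k)) ∧
          (∀ (i : Fin m) (j : Fin r), (P i j).Nonempty) ∧
          ∀ e : Finset (Fin n), e.card = r → ∃! i : Fin m, ∀ j : Fin r, (e ∩ P i j).card = 1 := by
  intro ε hε
  obtain ⟨K, f, hK, hf⟩ := hG (ε / 2) (by linarith)
  obtain ⟨K1, hK1, H1⟩ := pow_shift 0 h hh
  obtain ⟨N, hN⟩ := exists_nat_gt (K1 + 2 * K * (h.factorial : ℝ) / ε + 1)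
  have hF : (0 : ℝ) < (h.factorial : ℝ) := by positivity
  refine ⟨N, fun n hn => ?_⟩
  obtain ⟨m, hm, P, hP1, hP2, hP3⟩ := (hf n).1.extract
  refine ⟨m, ?_, P, hP1, hP2, hP3⟩
  have hnN : (N : ℝ) ≤ n := by exact_mod_cast hn
  have hpos1 : 0 ≤ 2 * K * (h.factorial : ℝ) / ε := by positivity
  have hn1' : (1 : ℝ) ≤ n := by linarith
  have hn1 : 1 ≤ n := by exact_mod_cast hn1'
  have h1 := H1 n hn1
  rw [add_zero] at h1
  have h2 : (n : ℝ) ^ h = n * (n : ℝ) ^ (h - 1) := by
    rw [← pow_succ']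
    congr 1
    omega
  rw [h2] at h1
  have hpow : (0 : ℝ) ≤ (n : ℝ) ^ (h - 1) := by positivity
  have h3 : (2 * K * (h.factorial : ℝ) / ε) * (n : ℝ) ^ (h - 1) ≤
      (h.factorial : ℝ) * (n.choose h : ℝ) := by
    have h4 : (2 * K * (h.factorial : ℝ) / ε) * (n : ℝ) ^ (h - 1) ≤
        (n - K1) * (n : ℝ) ^ (h - 1) := by
      apply mul_le_mul_of_nonneg_right _ hpow
      linarith
    nlinarith
  have h5 : K * (n : ℝ) ^ (h - 1) ≤ ε / 2 * (n.choose h : ℝ) := by
    have h6 : (2 * K * (h.factorial : ℝ) / ε) * (n : ℝ) ^ (h - 1) * (ε / (2 * (h.factorial : ℝ))) ≤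
        (h.factorial : ℝ) * (n.choose h : ℝ) * (ε / (2 * (h.factorial : ℝ))) :=
      mul_le_mul_of_nonneg_right h3 (by positivity)
    have h7 : (2 * K * (h.factorial : ℝ) / ε) * (n : ℝ) ^ (h - 1) * (ε / (2 * (h.factorial : ℝ))) =
        K * (n : ℝ) ^ (h - 1) := by
      field_simp
    have h8 : (h.factorial : ℝ) * (n.choose h : ℝ) * (ε / (2 * (h.factorial : ℝ))) =
        ε / 2 * (n.choose h : ℝ) := by
      field_simp
    rw [h7, h8] at h6
    exact h6
  calc (m : ℝ) ≤ (f n : ℝ) := by exact_mod_cast hm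
    _ ≤ (α + ε / 2) * (n.choose h : ℝ) + K * (n : ℝ) ^ (h - 1) := (hf n).2
    _ ≤ (α + ε / 2) * (n.choose h : ℝ) + ε / 2 * (n.choose h : ℝ) := by linarith
    _ = _ := by ring

theorem good_odd (q k : ℕ) (hq : 2 ≤ q) (hk : 4 * q ≤ k) :
    Good (2 * k + 1) k (2 * (2 / 3 : ℝ) ^ q) := by
  induction k with
  | zero => omega
  | succ k ih =>
    rcases Nat.lt_or_ge k (4 * q) with h1 | h1
    · have h2 : k + 1 = 2 * q + 2 * q := by omega
      obtain ⟨q', rfl⟩ : ∃ q', q = q' + 1 := ⟨q - 1, by omega⟩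
      have h3 := good_even q' (2 * (q' + 1) - 2) (by omega) (by omega)
      have h4 : 2 * (2 * (q' + 1) - 2) = 2 * (2 * (q' + 1)) - 4 := by omega
      rw [h4] at h3
      have h5 := Good.odd (2 * (q' + 1)) (2 * (q' + 1)) (by omega) (by omega) _ _
        (by positivity) (by positivity) h3 h3
      rw [h2]
      have h6 : 2 * (2 / 3 : ℝ) ^ (q' + 1) = 2 / 3 * (2 / 3) ^ q' + 2 / 3 * (2 / 3) ^ q' := by
        rw [pow_succ]
        ring
      rw [h6]
      exact h5
    · have h2 := (ih h1).step (by omega)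
      have h3 : 2 * (k + 1) + 1 = 2 * k + 1 + 2 := by ring
      rw [h3]
      exact h2

end Pool.Agent.Lib.MP_60210e_co.RankGaps
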