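import Pool.Agent.Lib.MP_60210e_co.RH9

/-!
# Clusters: types of edges
-/

set_option autoImplicit false
set_option linter.unusedSectionVars false

namespace Pool.Agent.Lib.MP_60210e_co.RankGaps

open Finset

/-- the even types -/
def ev (a : ℕ → ℕ → ℤ) : ℕ → ℕ → ℤ
  | 0, d => if d = 0 then 1 else 0
  | p + 1, d => ∑ i ∈ range (d + 1), ev a p (d - i) * a p (2 * i)

/-- the types with exactly one odd entry -/
def od (a : ℕ → ℕ → ℤ) : ℕ → ℕ → ℤ
  | 0, _ => 0
  | p + 1, d => ∑ i ∈ range (d + 1),
      (od a p (d - i) * a p (2 * i) + ev a p (d - i) * a p (2 * i + 1))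

theorem ev_succ (a : ℕ → ℕ → ℤ) (p d : ℕ) :
    ev a (p + 1) d = ∑ i ∈ range (d + 1), ev a p (d - i) * a p (2 * i) := rfl

theorem od_succ (a : ℕ → ℕ → ℤ) (p d : ℕ) :
    od a (p + 1) d = ∑ i ∈ range (d + 1),
      (od a p (d - i) * a p (2 * i) + ev a p (d - i) * a p (2 * i + 1)) := rfl

theorem ev_base (a : ℕ → ℕ → ℤ) (d : ℕ) : ev a 0 d = if d = 0 then 1 else 0 := rfl

theorem od_base (a : ℕ → ℕ → ℤ) (d : ℕ) : od a 0 d = 0 := rfl

/-- the elementary symmetric polynomials of the clusters -/
def cl (m : ℕ) (w : ℕ → ℤ) : ℕ → ℕ → ℤ := fun c k => E k (Cl m c) w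

theorem ev_loc (m p : ℕ) : ∀ d, Loc (range (p * m)) (fun w => ev (cl m w) p d) := by
  induction p with
  | zero => intro d w w' _; rfl
  | succ p ih =>
    intro d w w' hw
    show ev (cl m w) (p + 1) d = ev (cl m w') (p + 1) d
    rw [ev_succ, ev_succ]
    apply Finset.sum_congr rfl
    intro i _
    have h1 : ∀ v ∈ range (p * m), w v = w' v := fun v hv => hw v (by
      rw [range_split, Finset.mem_union]; exact Or.inl hv)
    have h2 : ∀ v ∈ Cl m p, w v = w' v := fun v hv => hw v (by
      rw [range_split, Finset.mem_union]; exact Or.inr hv)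
    have h3 := ih (d - i) w w' h1
    have h4 := E_loc (2 * i) (Cl m p) w w' h2
    simp only at h3
    rw [h3]
    unfold cl
    rw [h4]

theorem od_loc (m p : ℕ) : ∀ d, Loc (range (p * m)) (fun w => od (cl m w) p d) := by
  induction p with
  | zero => intro d w w' _; rfl
  | succ p ih =>
    intro d w w' hw
    show od (cl m w) (p + 1) d = od (cl m w') (p + 1) d
    rw [od_succ, od_succ]
    apply Finset.sum_congr rfl
    intro i _
    have h1 : ∀ v ∈ range (p * m), w v = w' v := fun v hv => hw v (by
      rw [range_split, Finset.mem_union]; exact Or.inl hv)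
    have h2 : ∀ v ∈ Cl m p, w v = w' v := fun v hv => hw v (by
      rw [range_split, Finset.mem_union]; exact Or.inr hv)
    have h3 := ih (d - i) w w' h1
    have h5 := ev_loc m p (d - i) w w' h1
    have h4 := E_loc (2 * i) (Cl m p) w w' h2
    have h6 := E_loc (2 * i + 1) (Cl m p) w w' h2
    simp only at h3 h5
    rw [h3, h5]
    unfold cl
    rw [h4, h6]

theorem E_split (m p k : ℕ) (w : ℕ → ℤ) : E k (range ((p + 1) * m)) w =
    ∑ i ∈ range (k + 1), E (k - i) (range (p * m)) w * cl m w p i := by
  rw [range_split, Finset.union_comm, E_union k (lo_disj_Cl m p).symm]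
  apply Finset.sum_congr rfl
  intro i _
  rw [mul_comm]
  rfl

theorem sum_par (d : ℕ) (f : ℕ → ℤ) : ∑ i ∈ range (2 * d + 1), f i =
    ∑ i ∈ range (d + 1), f (2 * i) + ∑ i ∈ range d, f (2 * i + 1) := by
  induction d with
  | zero => simp
  | succ d ih =>
    have h1 : 2 * (d + 1) + 1 = 2 * d + 1 + 1 + 1 := by ring
    have h2 : 2 * d + 1 + 1 = 2 * (d + 1) := by ring
    rw [h1, Finset.sum_range_succ, Finset.sum_range_succ, ih,
      Finset.sum_range_succ (fun i => f (2 * i)) (d + 1),
      Finset.sum_range_succ (fun i => f (2 * i + 1)) d, h2]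
    ring

theorem sum_par' (d : ℕ) (f : ℕ → ℤ) : ∑ i ∈ range (2 * d + 1 + 1), f i =
    ∑ i ∈ range (d + 1), (f (2 * i) + f (2 * i + 1)) := by
  rw [Finset.sum_range_succ, sum_par, Finset.sum_add_distrib,
    Finset.sum_range_succ (fun i => f (2 * i + 1))]
  ring

theorem dw_pair {m p r s c : ℕ} {F : (ℕ → ℤ) → ℤ} (hF : Dw r F c) {S : Finset ℕ} (lF : Loc S F)
    (hS : Disjoint S (Cl m p)) {k : ℕ} (hs : r + k = s) :
    Dw s (fun w => F w * cl m w p k) (c * m ^ (k / 2)) := by
  have h1 := trivial_pow k m (Cl m p) (Cl_card m p).le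
  exact (hF.mul h1 lF (E_loc k (Cl m p)) hS).cast hs

theorem Dw.zero_of {V : Type} {r c : ℕ} {F : (V → ℤ) → ℤ} (h : ∀ w, F w = 0) : Dw r F c :=
  (Dw.zero r c).congr h

/-- everything except the types counted in `ev` and `od` is cheap -/
theorem cheap_types (p : ℕ) : ∀ d, (∃ K : ℕ, ∀ m, ∃ c, Dw (2 * d)
      (fun w => E (2 * d) (range (p * m)) w - ev (cl m w) p d) c ∧ c * m ≤ K * m ^ d) ∧
    (∃ K : ℕ, ∀ m, ∃ c, Dw (2 * d + 1)
      (fun w => E (2 * d + 1) (range (p * m)) w - od (cl m w) p d) c ∧ c * m ≤ K * m ^ d) := by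
  induction p with
  | zero =>
    intro d
    constructor
    · refine ⟨0, fun m => ⟨0, Dw.zero_of (fun w => ?_), by simp⟩⟩
      rw [Nat.zero_mul, Finset.range_zero, ev_base]
      rcases Nat.eq_zero_or_pos d with h | h
      · subst h
        rw [if_pos rfl, Nat.mul_zero, E_zero, sub_self]
      · obtain ⟨d', rfl⟩ := Nat.exists_eq_succ_of_ne_zero h.ne'
        have h2 : 2 * (d' + 1) = (2 * d' + 1) + 1 := by ring
        rw [if_neg h.ne', Nat.succ_eq_add_one, h2, E_empty, sub_self]
    · refine ⟨0, fun m => ⟨0, Dw.zero_of (fun w => ?_), by simp⟩⟩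
      rw [Nat.zero_mul, Finset.range_zero, E_empty]
      rfl
  | succ p ih =>
    intro d
    have ih1 := fun i => (ih i).1
    have ih2 := fun i => (ih i).2
    choose K1 c1 h1 using ih1
    choose K2 c2 h2 using ih2
    have l1 : ∀ i m, Loc (range (p * m)) (fun w => E (2 * i) (range (p * m)) w -
        ev (cl m w) p i) := by
      intro i m w w' hw
      have e1 := E_loc (2 * i) (range (p * m)) w w' hw
      have e2 := ev_loc m p i w w' hw
      simp only at e1 e2 ⊢
      rw [e1, e2]
    have l2 : ∀ i m, Loc (range (p * m)) (fun w => E (2 * i + 1) (range (p * m)) w -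
        od (cl m w) p i) := by
      intro i m w w' hw
      have e1 := E_loc (2 * i + 1) (range (p * m)) w w' hw
      have e2 := od_loc m p i w w' hw
      simp only at e1 e2 ⊢
      rw [e1, e2]
    constructor
    · refine ⟨∑ i ∈ range (d + 1), K1 (d - i) + ∑ i ∈ range d, p ^ (d - 1 - i), fun m => ?_⟩
      have a1 : ∀ i ∈ range (d + 1), Dw (2 * d) (fun w => (E (2 * (d - i)) (range (p * m)) w -
          ev (cl m w) p (d - i)) * cl m w p (2 * i)) (c1 (d - i) m * m ^ i) := by
        intro i hi
        have hi' : i < d + 1 := Finset.mem_range.1 hi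
        have := dw_pair (m := m) (p := p) (h1 (d - i) m).1 (l1 (d - i) m) (lo_disj_Cl m p)
          (k := 2 * i) (s := 2 * d) (by omega)
        rwa [Nat.mul_div_cancel_left i (by norm_num : 0 < 2)] at this
      have a2 : ∀ i ∈ range d, Dw (2 * d) (fun w => E (2 * (d - 1 - i) + 1) (range (p * m)) w *
          cl m w p (2 * i + 1)) ((p * m) ^ (d - 1 - i) * m ^ i) := by
        intro i hi
        have hi' : i < d := Finset.mem_range.1 hi
        have h3 := trivial_pow (2 * (d - 1 - i) + 1) (p * m) (range (p * m)) (by simp)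
        have := dw_pair (m := m) (p := p) h3 (E_loc _ _) (lo_disj_Cl m p)
          (k := 2 * i + 1) (s := 2 * d) (by omega)
        have e1 : (2 * (d - 1 - i) + 1) / 2 = d - 1 - i := by omega
        have e2 : (2 * i + 1) / 2 = i := by omega
        rwa [e1, e2] at this
      refine ⟨_, ((Dw.sum _ _ _ a1).add (Dw.sum _ _ _ a2)).congr (fun w => ?_), ?_⟩
      · rw [E_split, sum_par, ev_succ]
        have e1 : ∑ i ∈ range (d + 1), E (2 * d - 2 * i) (range (p * m)) w * cl m w p (2 * i) -
            ∑ i ∈ range (d + 1), ev (cl m w) p (d - i) * cl m w p (2 * i) =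
            ∑ i ∈ range (d + 1), (E (2 * (d - i)) (range (p * m)) w -
              ev (cl m w) p (d - i)) * cl m w p (2 * i) := by
          rw [← Finset.sum_sub_distrib]
          apply Finset.sum_congr rfl
          intro i _
          rw [Nat.mul_sub, sub_mul]
        have e2 : ∑ i ∈ range d, E (2 * d - (2 * i + 1)) (range (p * m)) w *
            cl m w p (2 * i + 1) = ∑ i ∈ range d, E (2 * (d - 1 - i) + 1) (range (p * m)) w *
              cl m w p (2 * i + 1) := by
          apply Finset.sum_congr rfl
          intro i hi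
          have hi' : i < d := Finset.mem_range.1 hi
          have : 2 * d - (2 * i + 1) = 2 * (d - 1 - i) + 1 := by omega
          rw [this]
        rw [e2]
        linear_combination e1
      · rw [add_mul, add_mul]
        apply add_le_add
        · rw [Finset.sum_mul, Finset.sum_mul]
          apply Finset.sum_le_sum
          intro i hi
          have hi' : i < d + 1 := Finset.mem_range.1 hi
          have h3 := (h1 (d - i) m).2
          calc c1 (d - i) m * m ^ i * m = (c1 (d - i) m * m) * m ^ i := by ring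
            _ ≤ (K1 (d - i) * m ^ (d - i)) * m ^ i := Nat.mul_le_mul_right _ h3
            _ = K1 (d - i) * m ^ d := by
                rw [mul_assoc, ← pow_add]
                congr 2
                omega
        · rw [Finset.sum_mul, Finset.sum_mul]
          apply Finset.sum_le_sum
          intro i hi
          have hi' : i < d := Finset.mem_range.1 hi
          apply le_of_eq
          rw [mul_pow]
          have : m ^ d = m ^ (d - 1 - i) * m ^ i * m := by
            rw [← pow_add, ← pow_succ]
            congr 1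
            omega
          rw [this]
          ring
    · refine ⟨∑ i ∈ range (d + 1), (K2 (d - i) + K1 (d - i)), fun m => ?_⟩
      have a1 : ∀ i ∈ range (d + 1), Dw (2 * d + 1) (fun w =>
          (E (2 * (d - i) + 1) (range (p * m)) w - od (cl m w) p (d - i)) * cl m w p (2 * i) +
          (E (2 * (d - i)) (range (p * m)) w - ev (cl m w) p (d - i)) * cl m w p (2 * i + 1))
            (c2 (d - i) m * m ^ i + c1 (d - i) m * m ^ i) := by
        intro i hi
        have hi' : i < d + 1 := Finset.mem_range.1 hi
        have b1 := dw_pair (m := m) (p := p) (h1 (d - i) m).1 (l1 (d - i) m) (lo_disj_Cl m p)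
          (k := 2 * i + 1) (s := 2 * d + 1) (by omega)
        have b2 := dw_pair (m := m) (p := p) (h2 (d - i) m).1 (l2 (d - i) m) (lo_disj_Cl m p)
          (k := 2 * i) (s := 2 * d + 1) (by omega)
        rw [Nat.mul_div_cancel_left i (by norm_num : 0 < 2)] at b2
        have e2 : (2 * i + 1) / 2 = i := by omega
        rw [e2] at b1
        exact b2.add b1
      refine ⟨_, (Dw.sum _ _ _ a1).congr (fun w => ?_), ?_⟩
      · rw [E_split, sum_par', od_succ, ← Finset.sum_sub_distrib]
        apply Finset.sum_congr rfl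
        intro i hi
        have hi' : i < d + 1 := Finset.mem_range.1 hi
        have e1 : 2 * d + 1 - 2 * i = 2 * (d - i) + 1 := by omega
        have e2 : 2 * d + 1 - (2 * i + 1) = 2 * (d - i) := by omega
        rw [e1, e2]
        ring
      · rw [Finset.sum_mul, Finset.sum_mul]
        apply Finset.sum_le_sum
        intro i hi
        have hi' : i < d + 1 := Finset.mem_range.1 hi
        have h3 := (h1 (d - i) m).2
        have h4 := (h2 (d - i) m).2
        have h5 : m ^ d = m ^ (d - i) * m ^ i := by
          rw [← pow_add]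
          congr 1
          omega
        calc (c2 (d - i) m * m ^ i + c1 (d - i) m * m ^ i) * m =
            (c2 (d - i) m * m + c1 (d - i) m * m) * m ^ i := by ring
          _ ≤ (K2 (d - i) * m ^ (d - i) + K1 (d - i) * m ^ (d - i)) * m ^ i :=
              Nat.mul_le_mul_right _ (add_le_add h4 h3)
          _ = (K2 (d - i) + K1 (d - i)) * m ^ d := by
              rw [h5]
              ring

/-! ### full costs -/

theorem geo_le (p d : ℕ) : ∑ i ∈ range (d + 1), p ^ (d - i) ≤ (p + 1) ^ d := by
  have h1 : ∀ d, ∑ i ∈ range (d + 1), p ^ i ≤ (p + 1) ^ d := by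
    intro d
    induction d with
    | zero => simp
    | succ d ih =>
      rw [Finset.sum_range_succ, pow_succ (p + 1)]
      have h2 : p ^ (d + 1) ≤ p * (p + 1) ^ d := by
        rw [pow_succ, mul_comm]
        exact Nat.mul_le_mul_left p (Nat.pow_le_pow_left (by omega) d)
      calc _ ≤ (p + 1) ^ d + p * (p + 1) ^ d := add_le_add ih h2
        _ = _ := by ring
  refine le_trans (le_of_eq ?_) (h1 d)
  rw [← Finset.sum_range_reflect]
  apply Finset.sum_congr rfl
  intro i hi
  have hi' : i < d + 1 := Finset.mem_range.1 hi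
  congr 1
  omega

theorem ev_full (m p : ℕ) : ∀ d, Dw (2 * d) (fun w => ev (cl m w) p d) ((p * m) ^ d) := by
  induction p with
  | zero =>
    intro d
    rcases Nat.eq_zero_or_pos d with h | h
    · subst h
      have := Dw.box (V := ℕ) (fun _ : Fin 0 => (∅ : Finset _)) (fun j => j.elim0)
      refine (this.congr (fun w => ?_)).mono (by simp)
      rw [ev_base]
      simp
    · refine Dw.zero_of (fun w => ?_)
      rw [ev_base, if_neg h.ne']
  | succ p ih =>
    intro d
    have a1 : ∀ i ∈ range (d + 1), Dw (2 * d) (fun w => ev (cl m w) p (d - i) * cl m w p (2 * i))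
        ((p * m) ^ (d - i) * m ^ i) := by
      intro i hi
      have hi' : i < d + 1 := Finset.mem_range.1 hi
      have := dw_pair (m := m) (p := p) (ih (d - i)) (ev_loc m p (d - i)) (lo_disj_Cl m p)
        (k := 2 * i) (s := 2 * d) (by omega)
      rwa [Nat.mul_div_cancel_left i (by norm_num : 0 < 2)] at this
    refine (Dw.sum _ _ _ a1).mono ?_
    have e1 : ∀ i ∈ range (d + 1), (p * m) ^ (d - i) * m ^ i = p ^ (d - i) * m ^ d := by
      intro i hi
      have hi' : i < d + 1 := Finset.mem_range.1 hi
      rw [mul_pow, mul_assoc, ← pow_add]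
      congr 2
      omega
    rw [Finset.sum_congr rfl e1, ← Finset.sum_mul, mul_pow]
    exact Nat.mul_le_mul_right _ (geo_le p d)

end Pool.Agent.Lib.MP_60210e_co.RankGaps
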