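import Pool.Agent.Lib.MP_60210e_co.RH10

/-!
# Clusters: the main types and the bad types
-/

set_option autoImplicit false
set_option linter.unusedSectionVars false

namespace Pool.Agent.Lib.MP_60210e_co.RankGaps

open Finset

theorem od_full (m p : ℕ) : ∀ O : Finset ℕ, Disjoint (range (p * m)) O → ∀ d,
    Dw (2 * d + 1) (fun w => od (cl m w) p d + ev (cl m w) p d * wt w O)
      ((d + 1) * (p * m) ^ d) := by
  induction p with
  | zero =>
    intro O _ d
    rcases Nat.eq_zero_or_pos d with h | h
    · subst h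
      refine ((Dw.box1 O).congr (fun w => ?_)).mono (by simp)
      rw [ev_base, od_base]
      simp
    · refine Dw.zero_of (fun w => ?_)
      rw [ev_base, od_base, if_neg h.ne']
      simp
  | succ p ih =>
    intro O hO d
    rw [range_split, Finset.disjoint_union_left] at hO
    have hO' : Disjoint (range (p * m)) (Cl m p ∪ O) := by
      rw [Finset.disjoint_union_right]
      exact ⟨lo_disj_Cl m p, hO.1⟩
    have hd : Disjoint (range (p * m) ∪ O) (Cl m p) := by
      rw [Finset.disjoint_union_left]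
      exact ⟨lo_disj_Cl m p, hO.2.symm⟩
    have b0 := ih (Cl m p ∪ O) hO' d
    have b1 : ∀ i ∈ range d, Dw (2 * d + 1) (fun w =>
        (od (cl m w) p (d - (i + 1)) + ev (cl m w) p (d - (i + 1)) * wt w O) *
          cl m w p (2 * (i + 1)) +
        ev (cl m w) p (d - (i + 1)) * cl m w p (2 * (i + 1) + 1))
        ((d - (i + 1) + 1) * (p * m) ^ (d - (i + 1)) * m ^ (i + 1) +
          (p * m) ^ (d - (i + 1)) * m ^ (i + 1)) := by
      intro i hi
      have hi' : i < d := Finset.mem_range.1 hi
      have lOE : Loc (range (p * m) ∪ O) (fun w => od (cl m w) p (d - (i + 1)) +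
          ev (cl m w) p (d - (i + 1)) * wt w O) := by
        intro w w' hw
        have e1 := ev_loc m p (d - (i + 1)) w w' (fun v hv => hw v (Finset.mem_union_left _ hv))
        have e2 := od_loc m p (d - (i + 1)) w w' (fun v hv => hw v (Finset.mem_union_left _ hv))
        have e3 := wt_loc O w w' (fun v hv => hw v (Finset.mem_union_right _ hv))
        simp only at e1 e2 e3 ⊢
        rw [e1, e2, e3]
      have c1 := dw_pair (m := m) (p := p) (ih O hO.1 (d - (i + 1))) lOE hd
        (k := 2 * (i + 1)) (s := 2 * d + 1) (by omega)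
      have c2 := dw_pair (m := m) (p := p) (ev_full m p (d - (i + 1))) (ev_loc m p _)
        (lo_disj_Cl m p) (k := 2 * (i + 1) + 1) (s := 2 * d + 1) (by omega)
      have e1 : 2 * (i + 1) / 2 = i + 1 := by omega
      have e2 : (2 * (i + 1) + 1) / 2 = i + 1 := by omega
      rw [e1] at c1
      rw [e2] at c2
      exact c1.add c2
    refine ((b0.add (Dw.sum _ _ _ b1)).congr (fun w => ?_)).mono ?_
    · rw [od_succ, ev_succ, Finset.sum_range_succ', Finset.sum_range_succ', wt_union w _ _ hO.2]
      have e0 : cl m w p (2 * 0) = 1 := E_zero _ w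
      have e1 : cl m w p (2 * 0 + 1) = wt w (Cl m p) := E_one _ w
      rw [e0, e1, Nat.sub_zero, add_mul (∑ i ∈ range d, _), Finset.sum_mul]
      have e2 : ∑ i ∈ range d, ((od (cl m w) p (d - (i + 1)) +
          ev (cl m w) p (d - (i + 1)) * wt w O) * cl m w p (2 * (i + 1)) +
          ev (cl m w) p (d - (i + 1)) * cl m w p (2 * (i + 1) + 1)) =
          ∑ i ∈ range d, (od (cl m w) p (d - (i + 1)) * cl m w p (2 * (i + 1)) +
            ev (cl m w) p (d - (i + 1)) * cl m w p (2 * (i + 1) + 1)) +
          ∑ i ∈ range d, ev (cl m w) p (d - (i + 1)) * cl m w p (2 * (i + 1)) * wt w O := by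
        rw [← Finset.sum_add_distrib]
        apply Finset.sum_congr rfl
        intro i _
        ring
      rw [e2]
      ring
    · have e1 : ∀ i ∈ range d, (d - (i + 1) + 1) * (p * m) ^ (d - (i + 1)) * m ^ (i + 1) +
          (p * m) ^ (d - (i + 1)) * m ^ (i + 1) ≤ (d + 1) * (p ^ (d - (i + 1)) * m ^ d) := by
        intro i hi
        have hi' : i < d := Finset.mem_range.1 hi
        have e2 : (p * m) ^ (d - (i + 1)) * m ^ (i + 1) = p ^ (d - (i + 1)) * m ^ d := by
          rw [mul_pow, mul_assoc, ← pow_add]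
          congr 2
          omega
        rw [mul_assoc, e2]
        have e3 : d - (i + 1) + 1 + 1 ≤ d + 1 := by omega
        calc (d - (i + 1) + 1) * (p ^ (d - (i + 1)) * m ^ d) + p ^ (d - (i + 1)) * m ^ d =
            (d - (i + 1) + 1 + 1) * (p ^ (d - (i + 1)) * m ^ d) := by ring
          _ ≤ _ := Nat.mul_le_mul_right _ e3
      calc (d + 1) * (p * m) ^ d + ∑ i ∈ range d, ((d - (i + 1) + 1) * (p * m) ^ (d - (i + 1)) *
            m ^ (i + 1) + (p * m) ^ (d - (i + 1)) * m ^ (i + 1)) ≤
          (d + 1) * (p * m) ^ d + ∑ i ∈ range d, (d + 1) * (p ^ (d - (i + 1)) * m ^ d) :=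
            Nat.add_le_add_left (Finset.sum_le_sum e1) _
        _ = (d + 1) * ((∑ i ∈ range (d + 1), p ^ (d - i)) * m ^ d) := by
            rw [← Finset.mul_sum, ← Finset.sum_mul, Finset.sum_range_succ' (fun i => p ^ (d - i)),
              Nat.sub_zero, mul_pow]
            ring
        _ ≤ (d + 1) * ((p + 1) ^ d * m ^ d) :=
            Nat.mul_le_mul_left _ (Nat.mul_le_mul_right _ (geo_le p d))
        _ = _ := by rw [mul_pow]

/-! ### algebra of the main types -/

section algebra
variable (a : ℕ → ℕ → ℤ) (ha : ∀ c, a c 0 = 1)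
include ha

theorem ev_d0 (p : ℕ) : ev a p 0 = 1 := by
  induction p with
  | zero => rfl
  | succ p ih =>
    rw [ev_succ, Finset.sum_range_one, Nat.sub_zero, ih, Nat.mul_zero, ha, mul_one]

theorem od_d0 (p : ℕ) : od a p 0 = ∑ c ∈ range p, a c 1 := by
  induction p with
  | zero => rfl
  | succ p ih =>
    rw [od_succ, Finset.sum_range_one, Nat.sub_zero, ih, Nat.mul_zero, ha, mul_one,
      ev_d0 a ha p, one_mul, Finset.sum_range_succ]

theorem ev_d1 (p : ℕ) : ev a p 1 = E 1 (range p) (fun c => a c 2) := by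
  induction p with
  | zero => rw [ev_base, Finset.range_zero, E_empty]; rfl
  | succ p ih =>
    rw [ev_succ, Finset.sum_range_succ, Finset.sum_range_one, Nat.sub_zero, ih, Nat.mul_zero, ha,
      mul_one, Nat.sub_self, ev_d0 a ha p, hat_step, E_zero]
    ring

theorem ev_peel (p d : ℕ) : ev a (p + 1) (d + 2) = ev a p (d + 2) + ev a p (d + 1) * a p 2 +
    ∑ i ∈ range (d + 1), ev a p (d - i) * a p (2 * (i + 2)) := by
  rw [ev_succ, Finset.sum_range_succ', Finset.sum_range_succ']
  have h1 : ∀ i ∈ range (d + 1), ev a p (d + 2 - (i + 1 + 1)) * a p (2 * (i + 1 + 1)) =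
      ev a p (d - i) * a p (2 * (i + 2)) := by
    intro i _
    have : d + 2 - (i + 1 + 1) = d - i := by omega
    rw [this]
  rw [Finset.sum_congr rfl h1, Nat.sub_zero, Nat.mul_zero, ha]
  have h2 : d + 2 - (0 + 1) = d + 1 := by omega
  rw [h2]
  ring

theorem od_peel (p d : ℕ) : od a (p + 1) (d + 2) = od a p (d + 2) + ev a p (d + 2) * a p 1 +
    (od a p (d + 1) * a p 2 + ev a p (d + 1) * a p 3) +
    ∑ i ∈ range (d + 1), (od a p (d - i) * a p (2 * (i + 2)) +
      ev a p (d - i) * a p (2 * (i + 2) + 1)) := by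
  rw [od_succ, Finset.sum_range_succ', Finset.sum_range_succ']
  have h1 : ∀ i ∈ range (d + 1), od a p (d + 2 - (i + 1 + 1)) * a p (2 * (i + 1 + 1)) +
      ev a p (d + 2 - (i + 1 + 1)) * a p (2 * (i + 1 + 1) + 1) =
      od a p (d - i) * a p (2 * (i + 2)) + ev a p (d - i) * a p (2 * (i + 2) + 1) := by
    intro i _
    have : d + 2 - (i + 1 + 1) = d - i := by omega
    rw [this]
  rw [Finset.sum_congr rfl h1, Nat.sub_zero, Nat.mul_zero, ha]
  have h2 : d + 2 - (0 + 1) = d + 1 := by omega
  rw [h2]
  ring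

end algebra

/-- the main odd types with even part `S` -/
def MS (x y t : ℕ → ℤ) (p : ℕ) (L : ℤ) (S : Finset ℕ) : ℤ :=
  (∏ c ∈ S, y c) * (∑ c ∈ range p \ S, x c + L) + ∑ j ∈ S, t j * ∏ c ∈ S.erase j, y c

/-- the main odd types -/
def Mo (x y t : ℕ → ℤ) (p : ℕ) (L : ℤ) (d : ℕ) : ℤ :=
  ∑ S ∈ (range p).powersetCard d, MS x y t p L S

theorem Mo_zero (x y t : ℕ → ℤ) (p : ℕ) (L : ℤ) : Mo x y t p L 0 = ∑ c ∈ range p, x c + L := by
  unfold Mo MS
  simp

theorem Mo_base (x y t : ℕ → ℤ) (L : ℤ) (d : ℕ) : Mo x y t 0 L (d + 1) = 0 := by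
  unfold Mo
  rw [Finset.powersetCard_eq_empty.2 (by simp)]
  simp

theorem Mo_succ (x y t : ℕ → ℤ) (p : ℕ) (L : ℤ) (d : ℕ) : Mo x y t (p + 1) L (d + 1) =
    Mo x y t p (x p + L) (d + 1) + (Mo x y t p L d * y p + E d (range p) y * t p) := by
  have hp : p ∉ range p := Finset.notMem_range_self
  unfold Mo
  rw [Finset.range_add_one, Finset.powersetCard_succ_insert hp, Finset.sum_union]
  · congr 1
    · apply Finset.sum_congr rfl
      intro S hS
      have hS1 := (Finset.mem_powersetCard.1 hS).1
      have hpS : p ∉ S := fun h => hp (hS1 h)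
      unfold MS
      rw [Finset.range_add_one, Finset.insert_sdiff_of_notMem _ hpS, Finset.sum_insert]
      · ring
      · intro h
        exact hp (Finset.mem_sdiff.1 h).1
    · rw [Finset.sum_image]
      · unfold E
        rw [Finset.sum_mul, Finset.sum_mul, ← Finset.sum_add_distrib]
        apply Finset.sum_congr rfl
        intro S hS
        have hS1 := (Finset.mem_powersetCard.1 hS).1
        have hpS : p ∉ S := fun h => hp (hS1 h)
        unfold MS
        rw [Finset.range_add_one, Finset.insert_sdiff_insert, Finset.sdiff_insert_of_notMem hp,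
          Finset.prod_insert hpS, Finset.sum_insert hpS, Finset.erase_insert hpS]
        have h1 : ∑ j ∈ S, t j * ∏ c ∈ (insert p S).erase j, y c =
            ∑ j ∈ S, (t j * ∏ c ∈ S.erase j, y c) * y p := by
          apply Finset.sum_congr rfl
          intro j hj
          have hjp : p ≠ j := fun h => hpS (h ▸ hj)
          rw [Finset.erase_insert_of_ne hjp, Finset.prod_insert]
          · ring
          · intro h
            exact hpS (Finset.mem_of_mem_erase h)
        rw [h1, ← Finset.sum_mul]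
        ring
      · intro S hS T hT hST
        have hS1 := (Finset.mem_powersetCard.1 hS).1
        have hT1 := (Finset.mem_powersetCard.1 hT).1
        have hpS : p ∉ S := fun h => hp (hS1 h)
        have hpT : p ∉ T := fun h => hp (hT1 h)
        rw [← Finset.erase_insert hpS, ← Finset.erase_insert hpT, hST]
  · rw [Finset.disjoint_left]
    intro S hS hS'
    obtain ⟨T, _, rfl⟩ := Finset.mem_image.1 hS'
    exact hp ((Finset.mem_powersetCard.1 hS).1 (Finset.mem_insert_self p T))

theorem od_d1 (a : ℕ → ℕ → ℤ) (ha : ∀ c, a c 0 = 1) (p : ℕ) : ∀ L : ℤ,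
    od a p 1 + ev a p 1 * L =
      Mo (fun c => a c 1) (fun c => a c 2) (fun c => a c 3) p L 1 := by
  induction p with
  | zero =>
    intro L
    rw [od_base, ev_base, Mo_base]
    simp
  | succ p ih =>
    intro L
    rw [Mo_succ, ← ih, Mo_zero, E_zero, od_succ, ev_succ, Finset.sum_range_succ,
      Finset.sum_range_one, Finset.sum_range_succ, Finset.sum_range_one, Nat.sub_zero,
      Nat.sub_self, Nat.mul_zero, ha, od_d0 a ha, ev_d0 a ha]
    ring

end Pool.Agent.Lib.MP_60210e_co.RankGaps
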