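import Pool.Agent.Lib.MP_60210e_co.RH11

/-!
# Clusters: the bad types
-/

set_option autoImplicit false
set_option linter.unusedSectionVars false

namespace Pool.Agent.Lib.MP_60210e_co.RankGaps

open Finset

theorem cl_zero (m : ℕ) (w : ℕ → ℤ) (c : ℕ) : cl m w c 0 = 1 := E_zero _ w

theorem cl_one (m : ℕ) (w : ℕ → ℤ) (c : ℕ) : cl m w c 1 = wt w (Cl m c) := E_one _ w

theorem bad_arith (p d : ℕ) : p ^ (d + 1) + (p + 1) ^ d ≤ (p + 1) ^ (d + 1) := by
  have h1 : p ^ (d + 1) ≤ p * (p + 1) ^ d := by
    rw [pow_succ, mul_comm]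
    exact Nat.mul_le_mul_left p (Nat.pow_le_pow_left (by omega) d)
  calc _ ≤ p * (p + 1) ^ d + (p + 1) ^ d := Nat.add_le_add_right h1 _
    _ = _ := by ring

theorem tail_arith (p m d : ℕ) : ∑ i ∈ range (d + 1), (p * m) ^ (d - i) * m ^ (i + 2) ≤
    (p + 1) ^ d * m ^ (d + 2) := by
  have e1 : ∀ i ∈ range (d + 1), (p * m) ^ (d - i) * m ^ (i + 2) = p ^ (d - i) * m ^ (d + 2) := by
    intro i hi
    have hi' : i < d + 1 := Finset.mem_range.1 hi
    rw [mul_pow, mul_assoc, ← pow_add]
    congr 2
    omega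
  rw [Finset.sum_congr rfl e1, ← Finset.sum_mul]
  exact Nat.mul_le_mul_right _ (geo_le p d)

theorem evbad_loc (m p d : ℕ) : Loc (range (p * m)) (fun w => ev (cl m w) p d -
    E d (range p) (fun c => cl m w c 2)) := by
  intro w w' hw
  have e1 := ev_loc m p d w w' hw
  have e2 : E d (range p) (fun c => cl m w c 2) = E d (range p) (fun c => cl m w' c 2) := by
    apply E_loc
    intro c hc
    apply E_loc
    intro v hv
    apply hw
    have hc' := Finset.mem_range.1 hc
    rw [Cl, Finset.mem_Ico] at hv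
    rw [Finset.mem_range]
    exact lt_of_lt_of_le hv.2 (Nat.mul_le_mul_right m hc')
  simp only at e1 e2 ⊢
  rw [e1, e2]

/-- the even types that are not main types -/
theorem ev_bad (d : ℕ) : ∃ N : ℕ, ∀ m p, ∃ c, Dw (2 * (d + 1)) (fun w => ev (cl m w) p (d + 1) -
    E (d + 1) (range p) (fun c => cl m w c 2)) c ∧ c ≤ N * p ^ d * m ^ (d + 1) := by
  induction d with
  | zero =>
    refine ⟨0, fun m p => ⟨0, Dw.zero_of (fun w => ?_), by simp⟩⟩
    rw [ev_d1 (cl m w) (cl_zero m w), sub_self]
  | succ d ih =>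
    obtain ⟨N, hN⟩ := ih
    refine ⟨N + 1, fun m p => ?_⟩
    induction p with
    | zero =>
      refine ⟨0, Dw.zero_of (fun w => ?_), by simp⟩
      rw [ev_base, Finset.range_zero, E_empty, if_neg (by omega), sub_self]
    | succ p ihp =>
      obtain ⟨c0, hc0, hc0'⟩ := ihp
      obtain ⟨c1, hc1, hc1'⟩ := hN m p
      have b1 := dw_pair (m := m) (p := p) hc1 (evbad_loc m p (d + 1)) (lo_disj_Cl m p)
        (k := 2) (s := 2 * (d + 1 + 1)) (by ring)
      have b2 : ∀ i ∈ range (d + 1), Dw (2 * (d + 1 + 1))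
          (fun w => ev (cl m w) p (d - i) * cl m w p (2 * (i + 2)))
          ((p * m) ^ (d - i) * m ^ (i + 2)) := by
        intro i hi
        have hi' : i < d + 1 := Finset.mem_range.1 hi
        have := dw_pair (m := m) (p := p) (ev_full m p (d - i)) (ev_loc m p (d - i))
          (lo_disj_Cl m p) (k := 2 * (i + 2)) (s := 2 * (d + 1 + 1)) (by omega)
        rwa [Nat.mul_div_cancel_left (i + 2) (by norm_num : 0 < 2)] at this
      refine ⟨_, ((hc0.add b1).add (Dw.sum _ _ _ b2)).congr (fun w => ?_), ?_⟩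
      · rw [ev_peel (cl m w) (cl_zero m w), hat_step]
        ring
      · have h2 : 2 / 2 = 1 := by norm_num
        rw [h2, pow_one]
        have h3 : c1 * m ≤ N * (p + 1) ^ d * m ^ (d + 2) := by
          calc c1 * m ≤ N * p ^ d * m ^ (d + 1) * m := Nat.mul_le_mul_right _ hc1'
            _ = N * p ^ d * m ^ (d + 2) := by rw [mul_assoc, ← pow_succ]
            _ ≤ _ := Nat.mul_le_mul_right _ (Nat.mul_le_mul_left _
                (Nat.pow_le_pow_left (by omega) d))
        calc c0 + c1 * m + _ ≤ (N + 1) * p ^ (d + 1) * m ^ (d + 2) +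
            N * (p + 1) ^ d * m ^ (d + 2) + (p + 1) ^ d * m ^ (d + 2) :=
              add_le_add (add_le_add hc0' h3) (tail_arith p m d)
          _ = (N + 1) * (p ^ (d + 1) + (p + 1) ^ d) * m ^ (d + 2) := by ring
          _ ≤ (N + 1) * (p + 1) ^ (d + 1) * m ^ (d + 2) :=
              Nat.mul_le_mul_right _ (Nat.mul_le_mul_left _ (bad_arith p d))

/-- the main odd types of the clusters -/
def MoC (m : ℕ) (w : ℕ → ℤ) (p : ℕ) (L : ℤ) (d : ℕ) : ℤ :=
  Mo (fun c => cl m w c 1) (fun c => cl m w c 2) (fun c => cl m w c 3) p L d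

theorem cl_loc {m p c : ℕ} (hc : c < p) (k : ℕ) {w w' : ℕ → ℤ}
    (hw : ∀ v ∈ range (p * m), w v = w' v) : cl m w c k = cl m w' c k := by
  apply E_loc
  intro v hv
  apply hw
  rw [Cl, Finset.mem_Ico] at hv
  rw [Finset.mem_range]
  exact lt_of_lt_of_le hv.2 (Nat.mul_le_mul_right m hc)

theorem MS_congr {x y t x' y' t' : ℕ → ℤ} {p : ℕ} {L : ℤ} {S : Finset ℕ} (hS : S ⊆ range p)
    (hx : ∀ c < p, x c = x' c) (hy : ∀ c < p, y c = y' c) (ht : ∀ c < p, t c = t' c) :
    MS x y t p L S = MS x' y' t' p L S := by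
  unfold MS
  have h1 : ∏ c ∈ S, y c = ∏ c ∈ S, y' c :=
    Finset.prod_congr rfl (fun c hc => hy c (Finset.mem_range.1 (hS hc)))
  have h2 : ∑ c ∈ range p \ S, x c = ∑ c ∈ range p \ S, x' c :=
    Finset.sum_congr rfl (fun c hc => hx c (Finset.mem_range.1 (Finset.mem_sdiff.1 hc).1))
  have h3 : ∑ j ∈ S, t j * ∏ c ∈ S.erase j, y c = ∑ j ∈ S, t' j * ∏ c ∈ S.erase j, y' c := by
    apply Finset.sum_congr rfl
    intro j hj
    rw [ht j (Finset.mem_range.1 (hS hj))]
    congr 1
    exact Finset.prod_congr rfl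
      (fun c hc => hy c (Finset.mem_range.1 (hS (Finset.mem_of_mem_erase hc))))
  rw [h1, h2, h3]

theorem odbad_loc (m p d : ℕ) (O : Finset ℕ) : Loc (range (p * m) ∪ O) (fun w =>
    od (cl m w) p d + ev (cl m w) p d * wt w O - MoC m w p (wt w O) d) := by
  intro w w' hw
  have e0 : ∀ v ∈ range (p * m), w v = w' v := fun v hv => hw v (Finset.mem_union_left _ hv)
  have e1 := ev_loc m p d w w' e0
  have e2 := od_loc m p d w w' e0
  have e3 := wt_loc O w w' (fun v hv => hw v (Finset.mem_union_right _ hv))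
  simp only at e1 e2 e3 ⊢
  have e4 : MoC m w p (wt w O) d = MoC m w' p (wt w O) d := by
    unfold MoC Mo
    apply Finset.sum_congr rfl
    intro S hS
    exact MS_congr (Finset.mem_powersetCard.1 hS).1 (fun c hc => cl_loc hc 1 e0)
      (fun c hc => cl_loc hc 2 e0) (fun c hc => cl_loc hc 3 e0)
  rw [e4, e1, e2, e3]

/-- the odd types that are not main types -/
theorem od_bad (d : ℕ) : ∃ N : ℕ, ∀ m p, ∀ O : Finset ℕ, Disjoint (range (p * m)) O →
    ∃ c, Dw (2 * (d + 1) + 1) (fun w => od (cl m w) p (d + 1) + ev (cl m w) p (d + 1) * wt w O -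
      MoC m w p (wt w O) (d + 1)) c ∧ c ≤ N * p ^ d * m ^ (d + 1) := by
  induction d with
  | zero =>
    refine ⟨0, fun m p O _ => ⟨0, Dw.zero_of (fun w => ?_), by simp⟩⟩
    rw [zero_add, od_d1 (cl m w) (cl_zero m w)]
    exact sub_self _
  | succ d ih =>
    obtain ⟨N1, hN1⟩ := ih
    obtain ⟨N0, hN0⟩ := ev_bad d
    refine ⟨N1 + N0 + (d + 2), fun m p => ?_⟩
    induction p with
    | zero =>
      intro O _
      refine ⟨0, Dw.zero_of (fun w => ?_), by simp⟩
      unfold MoC
      rw [ev_base, od_base, Mo_base, if_neg (by omega)]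
      simp
    | succ p ihp =>
      intro O hO
      rw [range_split, Finset.disjoint_union_left] at hO
      have hO' : Disjoint (range (p * m)) (Cl m p ∪ O) := by
        rw [Finset.disjoint_union_right]
        exact ⟨lo_disj_Cl m p, hO.1⟩
      have hd : Disjoint (range (p * m) ∪ O) (Cl m p) := by
        rw [Finset.disjoint_union_left]
        exact ⟨lo_disj_Cl m p, hO.2.symm⟩
      obtain ⟨c0, hc0, hc0'⟩ := ihp (Cl m p ∪ O) hO'
      obtain ⟨c1, hc1, hc1'⟩ := hN1 m p O hO.1
      obtain ⟨c2, hc2, hc2'⟩ := hN0 m p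
      have b1 := dw_pair (m := m) (p := p) hc1 (odbad_loc m p (d + 1) O) hd
        (k := 2) (s := 2 * (d + 1 + 1) + 1) (by ring)
      have b2 := dw_pair (m := m) (p := p) hc2 (evbad_loc m p (d + 1)) (lo_disj_Cl m p)
        (k := 3) (s := 2 * (d + 1 + 1) + 1) (by ring)
      have b3 : ∀ i ∈ range (d + 1), Dw (2 * (d + 1 + 1) + 1)
          (fun w => (od (cl m w) p (d - i) + ev (cl m w) p (d - i) * wt w O) *
            cl m w p (2 * (i + 2)) + ev (cl m w) p (d - i) * cl m w p (2 * (i + 2) + 1))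
          ((d - i + 1) * (p * m) ^ (d - i) * m ^ (i + 2) + (p * m) ^ (d - i) * m ^ (i + 2)) := by
        intro i hi
        have hi' : i < d + 1 := Finset.mem_range.1 hi
        have lOE : Loc (range (p * m) ∪ O) (fun w => od (cl m w) p (d - i) +
            ev (cl m w) p (d - i) * wt w O) := by
          intro w w' hw
          have e1 := ev_loc m p (d - i) w w' (fun v hv => hw v (Finset.mem_union_left _ hv))
          have e2 := od_loc m p (d - i) w w' (fun v hv => hw v (Finset.mem_union_left _ hv))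
          have e3 := wt_loc O w w' (fun v hv => hw v (Finset.mem_union_right _ hv))
          simp only at e1 e2 e3 ⊢
          rw [e1, e2, e3]
        have k1 := dw_pair (m := m) (p := p) (od_full m p O hO.1 (d - i)) lOE hd
          (k := 2 * (i + 2)) (s := 2 * (d + 1 + 1) + 1) (by omega)
        have k2 := dw_pair (m := m) (p := p) (ev_full m p (d - i)) (ev_loc m p (d - i))
          (lo_disj_Cl m p) (k := 2 * (i + 2) + 1) (s := 2 * (d + 1 + 1) + 1) (by omega)
        have e1 : 2 * (i + 2) / 2 = i + 2 := by omega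
        have e2 : (2 * (i + 2) + 1) / 2 = i + 2 := by omega
        rw [e1] at k1
        rw [e2] at k2
        exact k1.add k2
      refine ⟨_, (((hc0.add b1).add b2).add (Dw.sum _ _ _ b3)).congr (fun w => ?_), ?_⟩
      · have e1 : MoC m w (p + 1) (wt w O) (d + 1 + 1) = MoC m w p (wt w (Cl m p ∪ O)) (d + 1 + 1) +
            (MoC m w p (wt w O) (d + 1) * cl m w p 2 +
              E (d + 1) (range p) (fun c => cl m w c 2) * cl m w p 3) := by
          unfold MoC
          rw [Mo_succ, cl_one, wt_union w _ _ hO.2]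
        rw [e1, od_peel (cl m w) (cl_zero m w), ev_peel (cl m w) (cl_zero m w)]
        have e2 : ∑ i ∈ range (d + 1), ((od (cl m w) p (d - i) + ev (cl m w) p (d - i) * wt w O) *
            cl m w p (2 * (i + 2)) + ev (cl m w) p (d - i) * cl m w p (2 * (i + 2) + 1)) =
            ∑ i ∈ range (d + 1), (od (cl m w) p (d - i) * cl m w p (2 * (i + 2)) +
              ev (cl m w) p (d - i) * cl m w p (2 * (i + 2) + 1)) +
            (∑ i ∈ range (d + 1), ev (cl m w) p (d - i) * cl m w p (2 * (i + 2))) * wt w O := by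
          rw [Finset.sum_mul, ← Finset.sum_add_distrib]
          apply Finset.sum_congr rfl
          intro i _
          ring
        rw [e2, wt_union w _ _ hO.2, cl_one]
        ring
      · have h2 : 2 / 2 = 1 := by norm_num
        rw [h2, pow_one]
        have h3 : c1 * m ≤ N1 * (p + 1) ^ d * m ^ (d + 2) := by
          calc c1 * m ≤ N1 * p ^ d * m ^ (d + 1) * m := Nat.mul_le_mul_right _ hc1'
            _ = N1 * p ^ d * m ^ (d + 2) := by rw [mul_assoc, ← pow_succ]
            _ ≤ _ := Nat.mul_le_mul_right _ (Nat.mul_le_mul_left _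
                (Nat.pow_le_pow_left (by omega) d))
        have h4 : c2 * m ≤ N0 * (p + 1) ^ d * m ^ (d + 2) := by
          calc c2 * m ≤ N0 * p ^ d * m ^ (d + 1) * m := Nat.mul_le_mul_right _ hc2'
            _ = N0 * p ^ d * m ^ (d + 2) := by rw [mul_assoc, ← pow_succ]
            _ ≤ _ := Nat.mul_le_mul_right _ (Nat.mul_le_mul_left _
                (Nat.pow_le_pow_left (by omega) d))
        have h5 : ∑ i ∈ range (d + 1), ((d - i + 1) * (p * m) ^ (d - i) * m ^ (i + 2) +
            (p * m) ^ (d - i) * m ^ (i + 2)) ≤ (d + 2) * ((p + 1) ^ d * m ^ (d + 2)) := by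
          calc _ ≤ ∑ i ∈ range (d + 1), (d + 2) * ((p * m) ^ (d - i) * m ^ (i + 2)) := by
                apply Finset.sum_le_sum
                intro i _
                have h6 : d - i + 1 + 1 ≤ d + 2 := by omega
                calc (d - i + 1) * (p * m) ^ (d - i) * m ^ (i + 2) +
                    (p * m) ^ (d - i) * m ^ (i + 2) =
                    (d - i + 1 + 1) * ((p * m) ^ (d - i) * m ^ (i + 2)) := by ring
                  _ ≤ _ := Nat.mul_le_mul_right _ h6
            _ ≤ _ := by
                rw [← Finset.mul_sum]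
                exact Nat.mul_le_mul_left _ (tail_arith p m d)
        calc c0 + c1 * m + c2 * m + _ ≤ (N1 + N0 + (d + 2)) * p ^ (d + 1) * m ^ (d + 2) +
            N1 * (p + 1) ^ d * m ^ (d + 2) + N0 * (p + 1) ^ d * m ^ (d + 2) +
            (d + 2) * ((p + 1) ^ d * m ^ (d + 2)) :=
              add_le_add (add_le_add (add_le_add hc0' h3) h4) h5
          _ = (N1 + N0 + (d + 2)) * (p ^ (d + 1) + (p + 1) ^ d) * m ^ (d + 2) := by ring
          _ ≤ (N1 + N0 + (d + 2)) * (p + 1) ^ (d + 1) * m ^ (d + 2) :=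
              Nat.mul_le_mul_right _ (Nat.mul_le_mul_left _ (bad_arith p d))

/-! ### a triple or a pair and an outside vertex -/

theorem tri_range (n : ℕ) : Dw 3 (E 3 (range (n + 1))) n := by
  have h1 := Dw.step2 1 (n + 1) (fun v => if v = 0 then 0 else 1) (fun v _ => by
    by_cases hv : v = 0
    · subst hv
      rw [if_pos rfl]
      exact Dw.zero_of (fun w => by rw [Finset.range_zero, E_empty])
    · rw [if_neg hv]
      refine (Dw.box1 (range v)).congr (fun w => ?_)
      rw [E_one])
  refine h1.mono ?_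
  rw [Finset.sum_range_succ']
  simp

theorem tri_out {n : ℕ} (A O : Finset ℕ) (hA : A.card ≤ n) (hO : Disjoint A O) :
    Dw 3 (fun w => E 3 A w + E 2 A w * wt w O) n := by
  obtain ⟨π, h1, h2⟩ := exists_inj A (range n) (by rwa [Finset.card_range]) inferInstance
  have hOA : ∀ v ∈ O, v ∉ A := fun v hv hv' => Finset.disjoint_left.1 hO hv' hv
  refine ((tri_range n).pull (fun v => if v ∈ A then π v else n) (A ∪ O)).congr (fun w => ?_)
  have hE : ∀ k, E k (range n) (fun u => ∑ v ∈ A ∪ O with (if v ∈ A then π v else n) = u, w v) =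
      E k A w := by
    intro k
    apply E_push k (fun v => if v ∈ A then π v else n) subset_union_left
    · intro x hx y hy hxy
      simp only [Finset.mem_coe] at hx hy
      simp only [hx, hy, if_true] at hxy
      exact h1 hx hy hxy
    · intro v hv
      simp only [hv, if_true]
      exact h2 v hv
    · intro v _ hvA
      simp only [hvA, if_false]
      exact Finset.notMem_range_self
  rw [hat_step, hE 3, hE 2]
  have hn : ∑ v ∈ A ∪ O with (if v ∈ A then π v else n) = n, w v = wt w O := by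
    unfold wt
    apply Finset.sum_congr _ (fun _ _ => rfl)
    ext v
    rw [Finset.mem_filter, Finset.mem_union]
    constructor
    · rintro ⟨h3, h4⟩
      by_cases hvA : v ∈ A
      · rw [if_pos hvA] at h4
        have := h2 v hvA
        rw [h4] at this
        exact absurd this Finset.notMem_range_self
      · exact h3.resolve_left hvA
    · intro hv
      exact ⟨Or.inr hv, if_neg (hOA v hv)⟩
  rw [hn]
  ring

end Pool.Agent.Lib.MP_60210e_co.RankGaps
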