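import Pool.Agent.Lib.MP_60210e_co.RH12

/-!
# The final bounds for the complete hypergraphs
-/

set_option autoImplicit false
set_option linter.unusedSectionVars false

namespace Pool.Agent.Lib.MP_60210e_co.RankGaps

open Finset

theorem good_assemble {r D : ℕ} (hD : 1 ≤ D) (hr : r / 2 = D) (γ : ℝ) (hγ : 0 ≤ γ) (N : ℕ)
    (H : ∀ ε : ℝ, 0 < ε → ∀ p : ℕ, 1 ≤ p → ∃ K m0 : ℕ, ∀ m : ℕ, m0 ≤ m → 1 ≤ m →
      ∃ c1 c2 c3 : ℕ, Dw r (E r (range (p * m))) (c1 + c2 + c3) ∧
        (c1 : ℝ) ≤ (γ + ε) * ((p.choose D : ℝ) * (m : ℝ) ^ D) ∧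
        c2 ≤ N * p ^ (D - 1) * m ^ D ∧ c3 ≤ K * m ^ (D - 1)) : Good r D γ := by
  apply Good.of_blocks (N := N) (by omega) hD hγ (Nat.cast_nonneg N)
  intro ε hε p hp
  obtain ⟨K, m0, hH⟩ := H ε hε p hp
  obtain ⟨K1, hK1, HK⟩ := pow_shift 0 D hD
  have hp0 : (0 : ℝ) < (p : ℝ) := by exact_mod_cast hp
  have hF : (0 : ℝ) < (D.factorial : ℝ) := by positivity
  have hge : 0 ≤ γ + ε := by linarith
  refine ⟨(γ + ε) * K1 / (D.factorial : ℝ) * (p : ℝ) ^ (D - 1) + K + ((p * m0 : ℕ) : ℝ) ^ D,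
    by positivity, fun m => ?_⟩
  have t1 : 0 ≤ (γ + ε) * ((p * m).choose D : ℝ) := by positivity
  have t2 : 0 ≤ (N : ℝ) * ((p * m : ℕ) : ℝ) ^ D / p := by positivity
  have t3 : 0 ≤ (γ + ε) * K1 / (D.factorial : ℝ) * (p : ℝ) ^ (D - 1) := by positivity
  have t4 : (0 : ℝ) ≤ (K : ℝ) := by positivity
  have t5 : (0 : ℝ) ≤ ((p * m0 : ℕ) : ℝ) ^ D := by positivity
  rcases Nat.eq_zero_or_pos m with hm | hm
  · subst hm
    refine ⟨0, Dw.zero_of (fun w => ?_), ?_⟩
    · obtain ⟨r', rfl⟩ : ∃ r', r = r' + 1 := ⟨r - 1, by omega⟩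
      rw [Nat.mul_zero, Finset.range_zero, E_empty]
    · rw [Nat.cast_zero]
      positivity
  · have hm1 : (1 : ℝ) ≤ (m : ℝ) := by exact_mod_cast hm
    have hmp : (1 : ℝ) ≤ (m : ℝ) ^ (D - 1) := one_le_pow₀ hm1
    rcases Nat.lt_or_ge m m0 with hlt | hge'
    · refine ⟨_, trivial_range r (p * m), ?_⟩
      rw [hr]
      have h1 : ((p * m).choose D : ℝ) ≤ ((p * m0 : ℕ) : ℝ) ^ D := by
        have h2 : (p * m).choose D ≤ (p * m) ^ D := Nat.choose_le_pow _ _
        have h3 : (p * m) ^ D ≤ (p * m0) ^ D :=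
          Nat.pow_le_pow_left (Nat.mul_le_mul_left p hlt.le) D
        exact_mod_cast h2.trans h3
      have h2 : ((p * m0 : ℕ) : ℝ) ^ D ≤ ((p * m0 : ℕ) : ℝ) ^ D * (m : ℝ) ^ (D - 1) :=
        le_mul_of_one_le_right t5 hmp
      have h3 : 0 ≤ ((γ + ε) * K1 / (D.factorial : ℝ) * (p : ℝ) ^ (D - 1) + K) *
          (m : ℝ) ^ (D - 1) := by positivity
      nlinarith
    · obtain ⟨c1, c2, c3, h1, h2, h3, h4⟩ := hH m hge' hm
      refine ⟨_, h1, ?_⟩
      have a2 : (c2 : ℝ) ≤ (N : ℝ) * ((p * m : ℕ) : ℝ) ^ D / p := by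
        rw [le_div_iff₀ hp0]
        have h5 : c2 * p ≤ N * (p * m) ^ D := by
          calc c2 * p ≤ N * p ^ (D - 1) * m ^ D * p := Nat.mul_le_mul_right _ h3
            _ = N * (p ^ (D - 1) * p) * m ^ D := by ring
            _ = N * (p * m) ^ D := by
                rw [← pow_succ, mul_pow, Nat.sub_add_cancel hD, mul_assoc]
        exact_mod_cast h5
      have a3 : (c3 : ℝ) ≤ (K : ℝ) * (m : ℝ) ^ (D - 1) := by exact_mod_cast h4
      have a1 : (c1 : ℝ) ≤ (γ + ε) * ((p * m).choose D : ℝ) +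
          (γ + ε) * K1 / (D.factorial : ℝ) * (p : ℝ) ^ (D - 1) * (m : ℝ) ^ (D - 1) := by
        have h5 : (p.choose D : ℝ) ≤ (p : ℝ) ^ D / (D.factorial : ℝ) :=
          Nat.choose_le_pow_div (α := ℝ) D p
        have h6 : (p.choose D : ℝ) * (m : ℝ) ^ D ≤ ((p * m : ℕ) : ℝ) ^ D / (D.factorial : ℝ) := by
          push_cast
          rw [mul_pow, mul_div_right_comm]
          exact mul_le_mul_of_nonneg_right h5 (by positivity)
        have hpm : 1 ≤ p * m := Nat.mul_pos hp hm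
        have h7 := HK (p * m) hpm
        rw [add_zero] at h7
        have h8 : ((p * m : ℕ) : ℝ) ^ D / (D.factorial : ℝ) ≤ ((p * m).choose D : ℝ) +
            K1 / (D.factorial : ℝ) * ((p : ℝ) ^ (D - 1) * (m : ℝ) ^ (D - 1)) := by
          rw [div_le_iff₀ hF]
          have h9 : (((p * m).choose D : ℝ) + K1 / (D.factorial : ℝ) *
              ((p : ℝ) ^ (D - 1) * (m : ℝ) ^ (D - 1))) * (D.factorial : ℝ) =
              (D.factorial : ℝ) * ((p * m).choose D : ℝ) +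
                K1 * (((p * m : ℕ) : ℝ)) ^ (D - 1) := by
            push_cast
            rw [mul_pow]
            field_simp
          rw [h9]
          exact h7
        calc (c1 : ℝ) ≤ (γ + ε) * ((p.choose D : ℝ) * (m : ℝ) ^ D) := h2
          _ ≤ (γ + ε) * (((p * m).choose D : ℝ) +
            K1 / (D.factorial : ℝ) * ((p : ℝ) ^ (D - 1) * (m : ℝ) ^ (D - 1))) :=
              mul_le_mul_of_nonneg_left (h6.trans h8) hge
          _ = _ := by ring
      have a4 : 0 ≤ ((p * m0 : ℕ) : ℝ) ^ D * (m : ℝ) ^ (D - 1) := by positivity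
      rw [Nat.cast_add, Nat.cast_add]
      nlinarith

/-- the product theorem for clusters -/
theorem prod_clusters (d : ℕ) (hd : 1 ≤ d) (ε : ℝ) (hε : 0 < ε) : ∃ m0 : ℕ, ∀ m : ℕ, m0 ≤ m →
    ∃ c : ℕ, (c : ℝ) ≤ ((1 / 2) ^ (d - 1) + ε) * (m : ℝ) ^ d ∧ ∀ T : Finset ℕ, T.card = d →
      Dw (2 * d) (fun w => ∏ c ∈ T, cl m w c 2) c := by
  obtain ⟨m0, h0⟩ := prod_module d hd ε hε
  refine ⟨m0, fun m hm => ⟨⌊((1 / 2 : ℝ) ^ (d - 1) + ε) * (m : ℝ) ^ d⌋₊,
    Nat.floor_le (by positivity), fun T hT => ?_⟩⟩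
  have e : Fin d ≃ T := (Finset.equivFinOfCardEq hT).symm
  obtain ⟨c, h1, h2⟩ := h0 m hm ℕ inferInstance
    (fun j => if h : j < d then Cl m (e ⟨j, h⟩).1 else ∅) (by
      intro i hi j hj hij
      simp only [dif_pos hi, dif_pos hj]
      have h3 : (e ⟨i, hi⟩).1 ≠ (e ⟨j, hj⟩).1 := by
        intro h4
        have h5 := e.injective (Subtype.ext h4)
        exact hij (congrArg Fin.val h5)
      rcases lt_or_gt_of_ne h3 with h4 | h4
      · exact Cl_disj m _ _ h4
      · exact (Cl_disj m _ _ h4).symm) (by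
      intro j hj
      simp only [dif_pos hj]
      exact (Cl_card m _).le)
  refine (h1.mono (Nat.le_floor h2)).congr (fun w => ?_)
  rw [Finset.prod_range]
  have h3 : ∀ j : Fin d, E 2 (if h : (j : ℕ) < d then Cl m (e ⟨j, h⟩).1 else ∅) w =
      cl m w (e j).1 2 := by
    intro j
    rw [dif_pos j.2]
    rfl
  rw [Finset.prod_congr rfl (fun j _ => h3 j),
    Fintype.prod_equiv e (fun j => cl m w (e j).1 2) (fun i : T => cl m w i.1 2) (fun _ => rfl)]
  exact (Finset.prod_coe_sort T (fun c => cl m w c 2)).symm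

/-- **even ranks** -/
theorem good_even_half (d : ℕ) : Good (2 * (d + 1)) (d + 1) ((1 / 2) ^ d) := by
  obtain ⟨N, hN⟩ := ev_bad d
  refine good_assemble (by omega) (by omega) _ (by positivity) N (fun ε hε p _ => ?_)
  obtain ⟨m0, h0⟩ := prod_clusters (d + 1) (by omega) ε hε
  obtain ⟨K, hK⟩ := (cheap_types p (d + 1)).1
  refine ⟨K, m0, fun m hm hm1 => ?_⟩
  obtain ⟨c, hc, hcT⟩ := h0 m hm
  obtain ⟨c2, h2, h2'⟩ := hN m p
  obtain ⟨c3, h3, h3'⟩ := hK m
  have h1 : Dw (2 * (d + 1)) (fun w => E (d + 1) (range p) (fun c => cl m w c 2))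
      (p.choose (d + 1) * c) := by
    have := Dw.sum ((range p).powersetCard (d + 1)) (fun S w => ∏ c ∈ S, cl m w c 2) (fun _ => c)
      (fun S hS => hcT S (Finset.mem_powersetCard.1 hS).2)
    rw [Finset.sum_const, Finset.card_powersetCard, Finset.card_range, smul_eq_mul] at this
    exact this
  refine ⟨p.choose (d + 1) * c, c2, c3, ?_, ?_, ?_, ?_⟩
  · refine ((h1.add h2).add h3).congr (fun w => ?_)
    ring
  · rw [Nat.add_sub_cancel] at hc
    push_cast
    calc (p.choose (d + 1) : ℝ) * (c : ℝ) ≤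
        (p.choose (d + 1) : ℝ) * (((1 / 2) ^ d + ε) * (m : ℝ) ^ (d + 1)) :=
          mul_le_mul_of_nonneg_left hc (by positivity)
      _ = _ := by ring
  · rw [Nat.add_sub_cancel]
    exact h2'
  · rw [Nat.add_sub_cancel]
    have h4 : c3 * m ≤ (K * m ^ d) * m := by
      rw [mul_assoc, ← pow_succ]
      exact h3'
    exact Nat.le_of_mul_le_mul_right h4 hm1

/-- cost of the main odd types with even part `S` -/
theorem MS_dw {m p e c : ℕ} (hcT : ∀ T : Finset ℕ, T.card = e + 1 →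
      Dw (2 * (e + 1)) (fun w => ∏ c ∈ T, cl m w c 2) c) {S : Finset ℕ} (hS : S.card = e + 2) :
    Dw (2 * (e + 2) + 1) (fun w => MS (fun c => cl m w c 1) (fun c => cl m w c 2)
      (fun c => cl m w c 3) p 0 S) ((e + 2) * (m * c)) := by
  classical
  have hne : S.Nonempty := Finset.card_pos.1 (by omega)
  obtain ⟨j0, hj0⟩ := hne
  have hcard : ∀ j ∈ S, (S.erase j).card = e + 1 := by
    intro j hj
    rw [Finset.card_erase_of_mem hj, hS]
    omega
  have hCl : ∀ i j : ℕ, i ≠ j → Disjoint (Cl m i) (Cl m j) := by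
    intro i j hij
    rcases lt_or_gt_of_ne hij with h4 | h4
    · exact Cl_disj m _ _ h4
    · exact (Cl_disj m _ _ h4).symm
  have lP : ∀ T : Finset ℕ, Loc (T.biUnion (Cl m)) (fun w => ∏ c ∈ T, cl m w c 2) := by
    intro T w w' hw
    show ∏ c ∈ T, cl m w c 2 = ∏ c ∈ T, cl m w' c 2
    apply Finset.prod_congr rfl
    intro c hc
    apply E_loc
    intro v hv
    exact hw v (Finset.mem_biUnion.2 ⟨c, hc, hv⟩)
  have hdisj : ∀ (j : ℕ) (T : Finset ℕ), j ∉ T → Disjoint (Cl m j) (T.biUnion (Cl m)) := by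
    intro j T hj
    rw [Finset.disjoint_biUnion_right]
    intro i hi
    exact hCl j i (fun h => hj (h ▸ hi))
  -- the terms with a triple
  have b1 : ∀ j ∈ S.erase j0, Dw (2 * (e + 2) + 1)
      (fun w => cl m w j 3 * ∏ c ∈ S.erase j, cl m w c 2) (m * c) := by
    intro j hj
    have hj' := Finset.mem_of_mem_erase hj
    have h1 := trivial_pow 3 m (Cl m j) (Cl_card m j).le
    have h2 := (h1.mul (hcT _ (hcard j hj')) (E_loc 3 (Cl m j)) (lP _)
      (hdisj j _ (Finset.notMem_erase j S))).cast (by ring : 3 + 2 * (e + 1) = 2 * (e + 2) + 1)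
    refine h2.mono ?_
    have : 3 / 2 = 1 := by norm_num
    rw [this, pow_one]
  -- the pinned term
  have hout : Disjoint (Cl m j0) ((range p \ S).biUnion (Cl m)) :=
    hdisj j0 _ (fun h => (Finset.mem_sdiff.1 h).2 hj0)
  have h1 := tri_out (n := m) (Cl m j0) ((range p \ S).biUnion (Cl m)) (Cl_card m j0).le hout
  have l1 : Loc (Cl m j0 ∪ (range p \ S).biUnion (Cl m)) (fun w => E 3 (Cl m j0) w +
      E 2 (Cl m j0) w * wt w ((range p \ S).biUnion (Cl m))) := by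
    intro w w' hw
    have e1 := E_loc 3 (Cl m j0) w w' (fun v hv => hw v (Finset.mem_union_left _ hv))
    have e2 := E_loc 2 (Cl m j0) w w' (fun v hv => hw v (Finset.mem_union_left _ hv))
    have e3 := wt_loc ((range p \ S).biUnion (Cl m)) w w'
      (fun v hv => hw v (Finset.mem_union_right _ hv))
    simp only at e1 e2 e3 ⊢
    rw [e1, e2, e3]
  have hd : Disjoint (Cl m j0 ∪ (range p \ S).biUnion (Cl m)) ((S.erase j0).biUnion (Cl m)) := by
    rw [Finset.disjoint_union_left]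
    refine ⟨hdisj j0 _ (Finset.notMem_erase j0 S), ?_⟩
    rw [Finset.disjoint_biUnion_left]
    intro i hi
    exact hdisj i _ (fun h => (Finset.mem_sdiff.1 hi).2 (Finset.mem_of_mem_erase h))
  have b0 := (h1.mul (hcT _ (hcard j0 hj0)) l1 (lP _) hd).cast
    (by ring : 3 + 2 * (e + 1) = 2 * (e + 2) + 1)
  refine ((b0.add (Dw.sum _ _ _ b1)).congr (fun w => ?_)).mono ?_
  · unfold MS
    rw [← Finset.add_sum_erase S (fun j => cl m w j 3 * ∏ c ∈ S.erase j, cl m w c 2) hj0,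
      ← Finset.mul_prod_erase S (fun c => cl m w c 2) hj0]
    have e1 : wt w ((range p \ S).biUnion (Cl m)) = ∑ c ∈ range p \ S, cl m w c 1 := by
      unfold wt
      rw [Finset.sum_biUnion]
      · apply Finset.sum_congr rfl
        intro c _
        rw [cl_one]
        rfl
      · intro i _ j _ hij
        exact hCl i j hij
    rw [e1]
    have e2 : E 3 (Cl m j0) w = cl m w j0 3 := rfl
    have e3 : E 2 (Cl m j0) w = cl m w j0 2 := rfl
    rw [e2, e3]
    ring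
  · rw [Finset.sum_const, hcard j0 hj0, smul_eq_mul]
    apply le_of_eq
    ring

/-- **odd ranks** -/
theorem good_odd_half (e : ℕ) : Good (2 * (e + 2) + 1) (e + 2) (((e : ℝ) + 2) * (1 / 2) ^ e) := by
  obtain ⟨N, hN⟩ := od_bad (e + 1)
  refine good_assemble (by omega) (by omega) _ (by positivity) N (fun ε hε p _ => ?_)
  have he : (0 : ℝ) < (e : ℝ) + 2 := by positivity
  obtain ⟨m0, h0⟩ := prod_clusters (e + 1) (by omega) (ε / ((e : ℝ) + 2)) (by positivity)
  obtain ⟨K, hK⟩ := (cheap_types p (e + 2)).2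
  refine ⟨K, m0, fun m hm hm1 => ?_⟩
  obtain ⟨c, hc, hcT⟩ := h0 m hm
  obtain ⟨c2, h2, h2'⟩ := hN m p ∅ (Finset.disjoint_empty_right _)
  obtain ⟨c3, h3, h3'⟩ := hK m
  have h1 : Dw (2 * (e + 2) + 1) (fun w => MoC m w p 0 (e + 2))
      (p.choose (e + 2) * ((e + 2) * (m * c))) := by
    have := Dw.sum ((range p).powersetCard (e + 2)) (fun S w => MS (fun c => cl m w c 1)
      (fun c => cl m w c 2) (fun c => cl m w c 3) p 0 S) (fun _ => (e + 2) * (m * c))
      (fun S hS => MS_dw hcT (Finset.mem_powersetCard.1 hS).2)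
    rw [Finset.sum_const, Finset.card_powersetCard, Finset.card_range, smul_eq_mul] at this
    exact this
  refine ⟨p.choose (e + 2) * ((e + 2) * (m * c)), c2, c3, ?_, ?_, ?_, ?_⟩
  · refine ((h1.add h2).add h3).congr (fun w => ?_)
    have e1 : wt w ∅ = 0 := Finset.sum_empty
    rw [e1]
    ring
  · rw [Nat.add_sub_cancel] at hc
    push_cast
    have h4 : ((e : ℝ) + 2) * ((m : ℝ) * (c : ℝ)) ≤
        (((e : ℝ) + 2) * (1 / 2) ^ e + ε) * (m : ℝ) ^ (e + 2) := by
      calc ((e : ℝ) + 2) * ((m : ℝ) * (c : ℝ)) ≤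
          ((e : ℝ) + 2) * ((m : ℝ) * (((1 / 2) ^ e + ε / ((e : ℝ) + 2)) * (m : ℝ) ^ (e + 1))) := by
            apply mul_le_mul_of_nonneg_left _ he.le
            exact mul_le_mul_of_nonneg_left hc (by positivity)
        _ = (((e : ℝ) + 2) * (1 / 2) ^ e + ε) * (m : ℝ) ^ (e + 2) := by
            rw [pow_succ (m : ℝ) (e + 1)]
            field_simp
    calc (p.choose (e + 2) : ℝ) * (((e : ℝ) + 2) * ((m : ℝ) * (c : ℝ))) ≤
        (p.choose (e + 2) : ℝ) * ((((e : ℝ) + 2) * (1 / 2) ^ e + ε) * (m : ℝ) ^ (e + 2)) :=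
          mul_le_mul_of_nonneg_left h4 (by positivity)
      _ = _ := by ring
  · have : e + 2 - 1 = e + 1 := by omega
    rw [this]
    exact h2'
  · have : e + 2 - 1 = e + 1 := by omega
    rw [this]
    have h4 : c3 * m ≤ (K * m ^ (e + 1)) * m := by
      rw [mul_assoc, ← pow_succ]
      exact h3'
    exact Nat.le_of_mul_le_mul_right h4 hm1

end Pool.Agent.Lib.MP_60210e_co.RankGaps
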