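import Pool.Agent.Lib.MP_60210e_co.RG3

/-!
# Decompositions of products of complete graphs, part 2: the recursion over the factors
-/

set_option autoImplicit false

namespace Pool.Agent.Lib.MP_60210e_co.RankGaps

open Finset

section basics
variable {G : Type} [Fintype G] [DecidableEq G] [AddCommGroup G]

/-- nonzero elements -/
abbrev HH (G : Type) [AddCommGroup G] := {g : G // g ≠ 0}

/-- vertices of one factor -/
abbrev VV (G : Type) [AddCommGroup G] (M : ℕ) := G × (Fin M × (HH G → Fin M))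

/-- functions of the weights of one factor, for every `M` -/
abbrev SF (G : Type) [AddCommGroup G] := (M : ℕ) → (VV G M → ℤ) → ℤ

/-- functions of the weights of countably many copies of a factor, for every `M` -/
abbrev RF (G : Type) [AddCommGroup G] := (M : ℕ) → ((ℕ × VV G M) → ℤ) → ℤ

/-- the copy number `j` of a function -/
def lift (j : ℕ) (f : SF G) : RF G := fun M w => f M (fun v => w (j, v))

theorem lift_add (j : ℕ) (f g : SF G) : lift j (f + g) = lift j f + lift j g := rfl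

theorem lift_mul (j : ℕ) (f g : SF G) : lift j (f * g) = lift j f * lift j g := rfl

theorem lift_zero (j : ℕ) : lift j (0 : SF G) = 0 := rfl

theorem lift_sum {α : Type} (j : ℕ) (s : Finset α) (f : α → SF G) :
    lift j (∑ a ∈ s, f a) = ∑ a ∈ s, lift j (f a) := by
  classical
  induction s using Finset.induction_on with
  | empty => rw [Finset.sum_empty, Finset.sum_empty, lift_zero]
  | insert a s ha ih => rw [Finset.sum_insert ha, Finset.sum_insert ha, lift_add, ih]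

/-- the region of the first `j` copies -/
def reg (G : Type) [Fintype G] [DecidableEq G] [AddCommGroup G] (j M : ℕ) : Finset (ℕ × VV G M) :=
  (range j) ×ˢ (univ : Finset (VV G M))

def Full1 (G : Type) [Fintype G] [DecidableEq G] [AddCommGroup G] (κ : ℕ) : AddSubmonoid (SF G) where
  carrier := {f | ∃ C : ℕ, ∀ M : ℕ, 1 ≤ M → Dw 2 (f M) (C * M ^ (κ + 1))}
  zero_mem' := ⟨0, fun M _ => Dw.zero 2 _⟩
  add_mem' := by
    rintro f g ⟨C, hC⟩ ⟨D, hD⟩
    refine ⟨C + D, fun M hM => ?_⟩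
    exact ((hC M hM).add (hD M hM)).mono (by rw [add_mul])

def Cheap1 (G : Type) [Fintype G] [DecidableEq G] [AddCommGroup G] (κ : ℕ) : AddSubmonoid (SF G) where
  carrier := {f | ∃ C : ℕ, ∀ M : ℕ, 1 ≤ M → ∃ c : ℕ, Dw 2 (f M) c ∧ c * M ≤ C * M ^ (κ + 1)}
  zero_mem' := ⟨0, fun M _ => ⟨0, Dw.zero 2 _, by simp⟩⟩
  add_mem' := by
    rintro f g ⟨C, hC⟩ ⟨D, hD⟩
    refine ⟨C + D, fun M hM => ?_⟩
    obtain ⟨c, h1, h2⟩ := hC M hM
    obtain ⟨d, h3, h4⟩ := hD M hM
    exact ⟨c + d, h1.add h3, by rw [add_mul, add_mul]; exact add_le_add h2 h4⟩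

def FullS (G : Type) [Fintype G] [DecidableEq G] [AddCommGroup G] (κ j : ℕ) :
    AddSubmonoid (RF G) where
  carrier := {f | ∃ C : ℕ, ∀ M : ℕ, 1 ≤ M → Dw (2 * j) (f M) (C * (M ^ (κ + 1)) ^ j) ∧
    Loc (reg G j M) (f M)}
  zero_mem' := ⟨0, fun M _ => ⟨Dw.zero _ _, fun _ _ _ => rfl⟩⟩
  add_mem' := by
    rintro f g ⟨C, hC⟩ ⟨D, hD⟩
    refine ⟨C + D, fun M hM => ⟨?_, ?_⟩⟩
    · exact ((hC M hM).1.add (hD M hM).1).mono (by rw [add_mul])
    · intro w w' hw
      show f M w + g M w = f M w' + g M w'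
      rw [(hC M hM).2 w w' hw, (hD M hM).2 w w' hw]

def CheapS (G : Type) [Fintype G] [DecidableEq G] [AddCommGroup G] (κ j : ℕ) :
    AddSubmonoid (RF G) where
  carrier := {f | ∃ C : ℕ, ∀ M : ℕ, 1 ≤ M → ∃ c : ℕ, Dw (2 * j) (f M) c ∧
    c * M ≤ C * (M ^ (κ + 1)) ^ j ∧ Loc (reg G j M) (f M)}
  zero_mem' := ⟨0, fun M _ => ⟨0, Dw.zero _ _, by simp, fun _ _ _ => rfl⟩⟩
  add_mem' := by
    rintro f g ⟨C, hC⟩ ⟨D, hD⟩
    refine ⟨C + D, fun M hM => ?_⟩
    obtain ⟨c, h1, h2, h5⟩ := hC M hM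
    obtain ⟨d, h3, h4, h6⟩ := hD M hM
    refine ⟨c + d, h1.add h3, by rw [add_mul, add_mul]; exact add_le_add h2 h4, ?_⟩
    intro w w' hw
    show f M w + g M w = f M w' + g M w'
    rw [h5 w w' hw, h6 w w' hw]

theorem cheap_full {κ j : ℕ} {F : RF G} (h : F ∈ CheapS G κ j) : F ∈ FullS G κ j := by
  obtain ⟨C, hC⟩ := h
  refine ⟨C, fun M hM => ?_⟩
  obtain ⟨c, h1, h2, h3⟩ := hC M hM
  refine ⟨h1.mono ?_, h3⟩
  calc c ≤ c * M := Nat.le_mul_of_pos_right c hM
    _ ≤ _ := h2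

theorem cheap1_full1 {κ : ℕ} {F : SF G} (h : F ∈ Cheap1 G κ) : F ∈ Full1 G κ := by
  obtain ⟨C, hC⟩ := h
  refine ⟨C, fun M hM => ?_⟩
  obtain ⟨c, h1, h2⟩ := hC M hM
  refine h1.mono ?_
  calc c ≤ c * M := Nat.le_mul_of_pos_right c hM
    _ ≤ _ := h2

theorem lift_dw {M j c : ℕ} {f : (VV G M → ℤ) → ℤ} (h : Dw 2 f c) :
    Dw 2 (fun w : (ℕ × VV G M) → ℤ => f (fun v => w (j, v))) c := by
  refine (h.pull (V := ℕ × VV G M) (fun x => x.2) (({j} : Finset ℕ) ×ˢ univ)).congr (fun w => ?_)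
  congr 1
  funext u
  rw [Finset.sum_eq_single (j, u)]
  · rintro ⟨i, v⟩ hb hb'
    rw [Finset.mem_filter, Finset.mem_product, Finset.mem_singleton] at hb
    exact absurd (Prod.ext hb.1.1 hb.2) hb'
  · intro hcon
    exact (hcon (by simp)).elim

theorem lift_loc {M j : ℕ} (f : (VV G M → ℤ) → ℤ) :
    Loc (({j} : Finset ℕ) ×ˢ (univ : Finset (VV G M)))
      (fun w : (ℕ × VV G M) → ℤ => f (fun v => w (j, v))) := by
  intro w w' hw
  show f (fun v => w (j, v)) = f (fun v => w' (j, v))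
  congr 1
  funext v
  exact hw (j, v) (by simp)

theorem reg_disj (j M : ℕ) :
    Disjoint (reg G j M) (({j} : Finset ℕ) ×ˢ (univ : Finset (VV G M))) := by
  rw [Finset.disjoint_left]
  rintro ⟨i, v⟩ h1 h2
  rw [reg, Finset.mem_product, Finset.mem_range] at h1
  rw [Finset.mem_product, Finset.mem_singleton] at h2
  have h3 := h1.1
  have h4 := h2.1
  simp only at h3 h4
  omega

theorem step_dw {M j c d : ℕ} {F : ((ℕ × VV G M) → ℤ) → ℤ} {f : (VV G M → ℤ) → ℤ}
    (hF : Dw (2 * j) F c) (lF : Loc (reg G j M) F) (hf : Dw 2 f d) :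
    Dw (2 * (j + 1)) (fun w => F w * f (fun v => w (j, v))) (c * d) ∧
      Loc (reg G (j + 1) M) (fun w => F w * f (fun v => w (j, v))) := by
  classical
  constructor
  · exact hF.mul (lift_dw hf) lF (lift_loc f) (reg_disj j M)
  · apply Loc.mul
    · apply lF.mono
      intro x hx
      rw [reg, Finset.mem_product, Finset.mem_range] at hx ⊢
      exact ⟨by omega, hx.2⟩
    · apply (lift_loc f).mono
      intro x hx
      rw [Finset.mem_product, Finset.mem_singleton] at hx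
      rw [reg, Finset.mem_product, Finset.mem_range]
      exact ⟨by omega, hx.2⟩

theorem full_mul {κ j : ℕ} {F : RF G} {f : SF G} (hF : F ∈ FullS G κ j) (hf : f ∈ Full1 G κ) :
    F * lift j f ∈ FullS G κ (j + 1) := by
  obtain ⟨C, hC⟩ := hF
  obtain ⟨D, hD⟩ := hf
  refine ⟨C * D, fun M hM => ?_⟩
  have h := step_dw (hC M hM).1 (hC M hM).2 (hD M hM)
  refine ⟨h.1.mono (le_of_eq ?_), h.2⟩
  rw [pow_succ (M ^ (κ + 1)) j]
  ring

theorem cheap_mul {κ j : ℕ} {F : RF G} {f : SF G} (hF : F ∈ CheapS G κ j) (hf : f ∈ Full1 G κ) :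
    F * lift j f ∈ CheapS G κ (j + 1) := by
  obtain ⟨C, hC⟩ := hF
  obtain ⟨D, hD⟩ := hf
  refine ⟨C * D, fun M hM => ?_⟩
  obtain ⟨c, h1, h2, h3⟩ := hC M hM
  have h := step_dw h1 h3 (hD M hM)
  refine ⟨_, h.1, ?_, h.2⟩
  calc c * (D * M ^ (κ + 1)) * M = (c * M) * (D * M ^ (κ + 1)) := by ring
    _ ≤ (C * (M ^ (κ + 1)) ^ j) * (D * M ^ (κ + 1)) := Nat.mul_le_mul_right _ h2
    _ = _ := by rw [pow_succ (M ^ (κ + 1)) j]; ring

theorem full_mul_cheap {κ j : ℕ} {F : RF G} {f : SF G} (hF : F ∈ FullS G κ j)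
    (hf : f ∈ Cheap1 G κ) : F * lift j f ∈ CheapS G κ (j + 1) := by
  obtain ⟨C, hC⟩ := hF
  obtain ⟨D, hD⟩ := hf
  refine ⟨C * D, fun M hM => ?_⟩
  obtain ⟨d, h1, h2⟩ := hD M hM
  have h := step_dw (hC M hM).1 (hC M hM).2 h1
  refine ⟨_, h.1, ?_, h.2⟩
  calc C * (M ^ (κ + 1)) ^ j * d * M = (C * (M ^ (κ + 1)) ^ j) * (d * M) := by ring
    _ ≤ (C * (M ^ (κ + 1)) ^ j) * (D * M ^ (κ + 1)) := Nat.mul_le_mul_left _ h2
    _ = _ := by rw [pow_succ (M ^ (κ + 1)) j]; ring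

theorem one_full (κ : ℕ) : (1 : RF G) ∈ FullS G κ 0 := by
  refine ⟨1, fun M _ => ⟨?_, fun _ _ _ => rfl⟩⟩
  have := Dw.box (V := ℕ × VV G M) (fun _ : Fin 0 => (∅ : Finset _)) (fun j => j.elim0)
  refine (this.congr (fun w => ?_)).mono (by simp)
  show (1 : ℤ) = _
  simp

/-! ### the states -/

/-- even state -/
def EvN (G : Type) [Fintype G] [DecidableEq G] [AddCommGroup G] (κ j : ℕ) :
    AddSubmonoid (RF G × RF G) where
  carrier := {x | x.2 ∈ FullS G κ j ∧ ∃ c ∈ CheapS G κ j, x.1 = x.2 + c}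
  zero_mem' := ⟨zero_mem _, 0, zero_mem _, by simp⟩
  add_mem' := by
    rintro x y ⟨h1, c, hc, h2⟩ ⟨h3, d, hd, h4⟩
    refine ⟨add_mem h1 h3, c + d, add_mem hc hd, ?_⟩
    rw [Prod.fst_add, Prod.snd_add, h2, h4]
    ring

/-- odd state -/
def OdN (G : Type) [Fintype G] [DecidableEq G] [AddCommGroup G] (κ j : ℕ) :
    AddSubmonoid (RF G × RF G) where
  carrier := {x | x.2 ∈ FullS G κ j ∧ ∃ U ∈ FullS G κ j, ∃ V ∈ FullS G κ j, ∃ c ∈ CheapS G κ j,
    x.1 = x.2 + U + V + c ∧ U + x.2 ∈ CheapS G κ j ∧ V + x.2 ∈ CheapS G κ j}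
  zero_mem' := ⟨zero_mem _, 0, zero_mem _, 0, zero_mem _, 0, zero_mem _, by simp,
    by simp [zero_mem], by simp [zero_mem]⟩
  add_mem' := by
    rintro x y ⟨h1, U, hU, V, hV, c, hc, h2, h3, h4⟩ ⟨g1, U', hU', V', hV', c', hc', g2, g3, g4⟩
    refine ⟨add_mem h1 g1, U + U', add_mem hU hU', V + V', add_mem hV hV', c + c',
      add_mem hc hc', ?_, ?_, ?_⟩
    · rw [Prod.fst_add, Prod.snd_add, h2, g2]
      ring
    · rw [Prod.snd_add]
      have : U + U' + (x.2 + y.2) = (U + x.2) + (U' + y.2) := by ring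
      rw [this]
      exact add_mem h3 g3
    · rw [Prod.snd_add]
      have : V + V' + (x.2 + y.2) = (V + x.2) + (V' + y.2) := by ring
      rw [this]
      exact add_mem h4 g4

/-- the data of one colour of one factor -/
structure Tri (G : Type) [Fintype G] [DecidableEq G] [AddCommGroup G] (κ : ℕ)
    (t ρ β : SF G) : Prop where
  hρ : ρ ∈ Full1 G κ
  hβ : β ∈ Full1 G κ
  hρβ : ρ + β ∈ Cheap1 G κ
  hR : ∃ R ∈ Full1 G κ, ∃ c ∈ Cheap1 G κ, t = ρ + β + R + c ∧ β + R ∈ Cheap1 G κ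

theorem Tri.ht {κ : ℕ} {t ρ β : SF G} (h : Tri G κ t ρ β) : t ∈ Full1 G κ := by
  obtain ⟨R, hR, c, hc, e, _⟩ := h.hR
  rw [e]
  exact add_mem (add_mem (add_mem h.hρ h.hβ) hR) (cheap1_full1 hc)

theorem ev_rho {κ j : ℕ} {T Z : RF G} {t ρ β : SF G} (h : Tri G κ t ρ β) (hx : (T, Z) ∈ EvN G κ j) :
    (T * lift j t, Z * lift j ρ) ∈ EvN G κ (j + 1) := by
  obtain ⟨hZ, c, hc, e⟩ := hx
  obtain ⟨R, hR, c', hc', e', h1⟩ := h.hR
  simp only at hZ e
  refine ⟨full_mul hZ h.hρ, c * lift j t + Z * lift j (β + R) + Z * lift j c', ?_, ?_⟩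
  · exact add_mem (add_mem (cheap_mul hc h.ht) (full_mul_cheap hZ h1)) (full_mul_cheap hZ hc')
  · simp only
    rw [e, e']
    simp only [lift_add]
    ring

theorem ev_beta {κ j : ℕ} {T Z : RF G} {t ρ β : SF G} (h : Tri G κ t ρ β)
    (hx : (T, Z) ∈ EvN G κ j) : (T * lift j t, Z * lift j β) ∈ OdN G κ (j + 1) := by
  obtain ⟨hZ, c, hc, e⟩ := hx
  obtain ⟨R, hR, c', hc', e', h1⟩ := h.hR
  simp only at hZ e
  refine ⟨full_mul hZ h.hβ, Z * lift j ρ, full_mul hZ h.hρ, Z * lift j R, full_mul hZ hR,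
    c * lift j t + Z * lift j c', add_mem (cheap_mul hc h.ht) (full_mul_cheap hZ hc'), ?_, ?_, ?_⟩
  · simp only
    rw [e, e']
    simp only [lift_add]
    ring
  · have : Z * lift j ρ + Z * lift j β = Z * lift j (ρ + β) := by
      rw [lift_add]; ring
    simp only
    rw [this]
    exact full_mul_cheap hZ h.hρβ
  · have : Z * lift j R + Z * lift j β = Z * lift j (β + R) := by
      rw [lift_add]; ring
    simp only
    rw [this]
    exact full_mul_cheap hZ h1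

theorem od_rho {κ j : ℕ} {T Z : RF G} {t ρ β : SF G} (h : Tri G κ t ρ β) (hx : (T, Z) ∈ OdN G κ j) :
    (T * lift j t, Z * lift j ρ) ∈ OdN G κ (j + 1) := by
  obtain ⟨hZ, U, hU, V, hV, c, hc, e, h2, h3⟩ := hx
  obtain ⟨R, hR, c', hc', e', h1⟩ := h.hR
  simp only at hZ e h2 h3
  refine ⟨full_mul hZ h.hρ, U * lift j ρ, full_mul hU h.hρ, V * lift j ρ, full_mul hV h.hρ,
    c * lift j t + Z * lift j c' + U * lift j c' + V * lift j c' +
      (Z * lift j (β + R) + U * lift j (β + R) + V * lift j (β + R)), ?_, ?_, ?_, ?_⟩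
  · exact add_mem (add_mem (add_mem (add_mem (cheap_mul hc h.ht) (full_mul_cheap hZ hc'))
      (full_mul_cheap hU hc')) (full_mul_cheap hV hc'))
      (add_mem (add_mem (full_mul_cheap hZ h1) (full_mul_cheap hU h1)) (full_mul_cheap hV h1))
  · simp only
    rw [e, e']
    simp only [lift_add]
    ring
  · have : U * lift j ρ + Z * lift j ρ = (U + Z) * lift j ρ := by ring
    simp only
    rw [this]
    exact cheap_mul h2 h.hρ
  · have : V * lift j ρ + Z * lift j ρ = (V + Z) * lift j ρ := by ring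
    simp only
    rw [this]
    exact cheap_mul h3 h.hρ

theorem od_beta {κ j : ℕ} {T Z : RF G} {t ρ β : SF G} (h : Tri G κ t ρ β)
    (hx : (T, Z) ∈ OdN G κ j) : (T * lift j t, Z * lift j β) ∈ EvN G κ (j + 1) := by
  obtain ⟨hZ, U, hU, V, hV, c, hc, e, h2, h3⟩ := hx
  obtain ⟨R, hR, c', hc', e', h1⟩ := h.hR
  simp only at hZ e h2 h3
  refine ⟨full_mul hZ h.hβ, c * lift j t + Z * lift j c' + U * lift j c' + V * lift j c' +
      ((U + Z) * lift j ρ + (V + Z) * lift j R + U * lift j (β + R) + V * lift j (ρ + β)),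
      ?_, ?_⟩
  · exact add_mem (add_mem (add_mem (add_mem (cheap_mul hc h.ht) (full_mul_cheap hZ hc'))
      (full_mul_cheap hU hc')) (full_mul_cheap hV hc'))
      (add_mem (add_mem (add_mem (cheap_mul h2 h.hρ) (cheap_mul h3 hR)) (full_mul_cheap hU h1))
        (full_mul_cheap hV h.hρβ))
  · simp only
    rw [e, e']
    simp only [lift_add]
    ring

/-- odd state for the cells of sum zero: `(T, P, Z)` -/
def OdW (G : Type) [Fintype G] [DecidableEq G] [AddCommGroup G] (κ j : ℕ) :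
    AddSubmonoid (RF G × RF G × RF G) where
  carrier := {x | x.2.1 ∈ FullS G κ j ∧ x.2.2 ∈ FullS G κ j ∧ ∃ c ∈ CheapS G κ j,
    ∃ S ∈ FullS G κ j, x.1 = x.2.1 + x.2.2 + c + S ∧ x.2.1 + x.2.2 + c ∈ CheapS G κ j}
  zero_mem' := ⟨zero_mem _, zero_mem _, 0, zero_mem _, 0, zero_mem _, by simp, by simp [zero_mem]⟩
  add_mem' := by
    rintro x y ⟨h1, h2, c, hc, S, hS, h3, h4⟩ ⟨g1, g2, c', hc', S', hS', g3, g4⟩
    refine ⟨add_mem h1 g1, add_mem h2 g2, c + c', add_mem hc hc', S + S', add_mem hS hS', ?_, ?_⟩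
    · rw [Prod.fst_add, Prod.snd_add, Prod.fst_add, Prod.snd_add, h3, g3]
      ring
    · rw [Prod.snd_add, Prod.fst_add, Prod.snd_add]
      have : x.2.1 + y.2.1 + (x.2.2 + y.2.2) + (c + c') =
          (x.2.1 + x.2.2 + c) + (y.2.1 + y.2.2 + c') := by ring
      rw [this]
      exact add_mem h4 g4

/-- even state for the cells of sum zero: `(T, P, Z)` -/
def EvW (G : Type) [Fintype G] [DecidableEq G] [AddCommGroup G] (κ j : ℕ) :
    AddSubmonoid (RF G × RF G × RF G) where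
  carrier := {x | ∃ D ∈ FullS G κ j, ∃ P ∈ FullS G κ j, ∃ Z ∈ FullS G κ j, ∃ μ ∈ FullS G κ j,
    ∃ S ∈ FullS G κ j, x.2.1 = D + P ∧ x.2.2 = D + Z ∧ x.1 = D + P + Z + μ + S ∧
      P + μ ∈ CheapS G κ j ∧ Z + μ ∈ CheapS G κ j}
  zero_mem' := ⟨0, zero_mem _, 0, zero_mem _, 0, zero_mem _, 0, zero_mem _, 0, zero_mem _,
    by simp, by simp, by simp, by simp [zero_mem], by simp [zero_mem]⟩
  add_mem' := by
    rintro x y ⟨D, hD, P, hP, Z, hZ, μ, hμ, S, hS, h1, h2, h3, h4, h5⟩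
      ⟨D', hD', P', hP', Z', hZ', μ', hμ', S', hS', g1, g2, g3, g4, g5⟩
    refine ⟨D + D', add_mem hD hD', P + P', add_mem hP hP', Z + Z', add_mem hZ hZ', μ + μ',
      add_mem hμ hμ', S + S', add_mem hS hS', ?_, ?_, ?_, ?_, ?_⟩
    · rw [Prod.snd_add, Prod.fst_add, h1, g1]; ring
    · rw [Prod.snd_add, Prod.snd_add, h2, g2]; ring
    · rw [Prod.fst_add, h3, g3]; ring
    · have : P + P' + (μ + μ') = (P + μ) + (P' + μ') := by ring
      rw [this]
      exact add_mem h4 g4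
    · have : Z + Z' + (μ + μ') = (Z + μ) + (Z' + μ') := by ring
      rw [this]
      exact add_mem h5 g5

theorem odW_rho {κ j : ℕ} {T P Z : RF G} {t ρ β : SF G} (h : Tri G κ t ρ β)
    (hT : T ∈ FullS G κ j) (hx : (T, P, Z) ∈ OdW G κ j) :
    (T * lift j t, P * lift j ρ, Z * lift j ρ) ∈ OdW G κ (j + 1) := by
  obtain ⟨hP, hZ, c, hc, S, hS, e, h2⟩ := hx
  obtain ⟨R, hR, c', hc', e', h1⟩ := h.hR
  simp only at hP hZ e h2
  refine ⟨full_mul hP h.hρ, full_mul hZ h.hρ, c * lift j ρ, cheap_mul hc h.hρ,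
    S * lift j ρ + T * lift j (β + R + c'), ?_, ?_, ?_⟩
  · exact add_mem (full_mul hS h.hρ) (full_mul hT (add_mem (add_mem h.hβ hR) (cheap1_full1 hc')))
  · simp only
    have : T * lift j t = T * lift j ρ + T * lift j (β + R + c') := by
      rw [e', lift_add, lift_add, lift_add, lift_add, lift_add]; ring
    rw [this]
    have e2 : T * lift j ρ = P * lift j ρ + Z * lift j ρ + c * lift j ρ + S * lift j ρ := by
      rw [e]; ring
    rw [e2]
    ring
  · simp only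
    have : P * lift j ρ + Z * lift j ρ + c * lift j ρ = (P + Z + c) * lift j ρ := by ring
    rw [this]
    exact cheap_mul h2 h.hρ

theorem odW_beta {κ j : ℕ} {T P Z : RF G} {t ρ β : SF G} (h : Tri G κ t ρ β)
    (hT : T ∈ FullS G κ j) (hx : (T, P, Z) ∈ OdW G κ j) :
    (T * lift j t, P * lift j ρ, Z * lift j β) ∈ EvW G κ (j + 1) := by
  obtain ⟨hP, hZ, c, hc, S, hS, e, h2⟩ := hx
  obtain ⟨R, hR, c', hc', e', h1⟩ := h.hR
  simp only at hP hZ e h2
  refine ⟨0, zero_mem _, P * lift j ρ, full_mul hP h.hρ, Z * lift j β, full_mul hZ h.hβ,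
    (c + Z) * lift j ρ, full_mul (add_mem (cheap_full hc) hZ) h.hρ,
    S * lift j ρ + (P + c + S) * lift j β + T * lift j (R + c'), ?_, ?_, ?_, ?_, ?_, ?_⟩
  · exact add_mem (add_mem (full_mul hS h.hρ) (full_mul (add_mem (add_mem hP (cheap_full hc)) hS)
      h.hβ)) (full_mul hT (add_mem hR (cheap1_full1 hc')))
  · simp only
    ring
  · simp only
    ring
  · simp only
    have : T * lift j t = T * lift j ρ + T * lift j β + T * lift j (R + c') := by
      rw [e', lift_add, lift_add, lift_add, lift_add]; ring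
    rw [this]
    have e2 : T * lift j ρ = P * lift j ρ + Z * lift j ρ + c * lift j ρ + S * lift j ρ := by
      rw [e]; ring
    have e3 : T * lift j β = P * lift j β + Z * lift j β + c * lift j β + S * lift j β := by
      rw [e]; ring
    rw [e2, e3]
    ring
  · have : P * lift j ρ + (c + Z) * lift j ρ = (P + Z + c) * lift j ρ := by ring
    rw [this]
    exact cheap_mul h2 h.hρ
  · have : Z * lift j β + (c + Z) * lift j ρ = c * lift j ρ + Z * lift j (ρ + β) := by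
      rw [lift_add]; ring
    rw [this]
    exact add_mem (cheap_mul hc h.hρ) (full_mul_cheap hZ h.hρβ)

theorem evW_rho {κ j : ℕ} {T P Z : RF G} {t ρ β : SF G} (h : Tri G κ t ρ β)
    (hT : T ∈ FullS G κ j) (hx : (T, P, Z) ∈ EvW G κ j) :
    (T * lift j t, P * lift j ρ, Z * lift j ρ) ∈ EvW G κ (j + 1) := by
  obtain ⟨D, hD, P', hP, Z', hZ, μ, hμ, S, hS, e1, e2, e, h2, h3⟩ := hx
  obtain ⟨R, hR, c', hc', e', h1⟩ := h.hR
  simp only at e1 e2 e
  refine ⟨D * lift j ρ, full_mul hD h.hρ, P' * lift j ρ, full_mul hP h.hρ, Z' * lift j ρ,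
    full_mul hZ h.hρ, μ * lift j ρ, full_mul hμ h.hρ, S * lift j ρ + T * lift j (β + R + c'),
    ?_, ?_, ?_, ?_, ?_, ?_⟩
  · exact add_mem (full_mul hS h.hρ) (full_mul hT (add_mem (add_mem h.hβ hR) (cheap1_full1 hc')))
  · simp only
    rw [e1]; ring
  · simp only
    rw [e2]; ring
  · simp only
    have : T * lift j t = T * lift j ρ + T * lift j (β + R + c') := by
      rw [e', lift_add, lift_add, lift_add, lift_add, lift_add]; ring
    rw [this]
    have e3 : T * lift j ρ = (D + P' + Z' + μ + S) * lift j ρ := by rw [e]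
    rw [e3]
    ring
  · have : P' * lift j ρ + μ * lift j ρ = (P' + μ) * lift j ρ := by ring
    rw [this]
    exact cheap_mul h2 h.hρ
  · have : Z' * lift j ρ + μ * lift j ρ = (Z' + μ) * lift j ρ := by ring
    rw [this]
    exact cheap_mul h3 h.hρ

theorem evW_beta {κ j : ℕ} {T P Z : RF G} {t ρ β : SF G} (h : Tri G κ t ρ β)
    (hT : T ∈ FullS G κ j) (hx : (T, P, Z) ∈ EvW G κ j) :
    (T * lift j t, P * lift j ρ, Z * lift j β) ∈ OdW G κ (j + 1) := by
  obtain ⟨D, hD, P', hP, Z', hZ, μ, hμ, S, hS, e1, e2, e, h2, h3⟩ := hx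
  obtain ⟨R, hR, c', hc', e', h1⟩ := h.hR
  simp only at e1 e2 e
  refine ⟨?_, ?_, (Z' + μ) * lift j ρ, cheap_mul h3 h.hρ,
    S * lift j ρ + (P' + μ + S) * lift j β + T * lift j (R + c'), ?_, ?_, ?_⟩
  · simp only
    rw [e1]
    exact full_mul (add_mem hD hP) h.hρ
  · simp only
    rw [e2]
    exact full_mul (add_mem hD hZ) h.hβ
  · exact add_mem (add_mem (full_mul hS h.hρ) (full_mul (add_mem (add_mem hP hμ) hS) h.hβ))
      (full_mul hT (add_mem hR (cheap1_full1 hc')))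
  · simp only
    have : T * lift j t = T * lift j ρ + T * lift j β + T * lift j (R + c') := by
      rw [e', lift_add, lift_add, lift_add, lift_add]; ring
    rw [this]
    have e3 : T * lift j ρ = (D + P' + Z' + μ + S) * lift j ρ := by rw [e]
    have e4 : T * lift j β = (D + P' + Z' + μ + S) * lift j β := by rw [e]
    rw [e3, e4, e1, e2]
    ring
  · simp only
    have : P * lift j ρ + Z * lift j β + (Z' + μ) * lift j ρ =
        D * lift j (ρ + β) + (P' + μ) * lift j ρ + Z' * lift j (ρ + β) := by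
      rw [e1, e2, lift_add]; ring
    rw [this]
    exact add_mem (add_mem (full_mul_cheap hD h.hρβ) (cheap_mul h2 h.hρ))
      (full_mul_cheap hZ h.hρβ)

end basics

end Pool.Agent.Lib.MP_60210e_co.RankGaps
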