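import Pool.Agent.Lib.MP_60210e_co.RH2

/-!
# Decompositions of products of complete graphs, part 3: the identity
-/

set_option autoImplicit false

namespace Pool.Agent.Lib.MP_60210e_co.RankGaps

open Finset

section conv
variable {G : Type} [Fintype G] [DecidableEq G] [AddCommGroup G]

/-- sum over the colour vectors with sum `s` (in characteristic two) -/
def conv (f : G → SF G) : ℕ → G → RF G
  | 0, s => if s = 0 then 1 else 0
  | j + 1, s => ∑ c, conv f j (s + c) * lift j (f c)

/-- sum over the vectors in `A` with sum `s` or `s + h` -/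
def cv2 (A : Finset G) (h : G) (f : G → SF G) : ℕ → G → RF G
  | 0, s => if s = 0 ∨ s = h then 1 else 0
  | j + 1, s => ∑ a ∈ A, cv2 A h f j (s + a) * lift j (f a)

/-- the product over the first `j` copies -/
def pw (f : SF G) : ℕ → RF G
  | 0 => 1
  | j + 1 => pw f j * lift j f

/-- the half of `G` given by the functional `χ h` -/
def hf (χ : G → G → Bool) (h : G) (b : Bool) : Finset G := univ.filter (fun a => χ h a = b)

/-- the hypotheses on the functionals -/
structure Chi (χ : G → G → Bool) : Prop where
  two : ∀ g : G, g + g = 0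
  add : ∀ h a b, χ h (a + b) = xor (χ h a) (χ h b)
  self : ∀ h, h ≠ 0 → χ h h = true

theorem Chi.zero {χ : G → G → Bool} (hχ : Chi χ) (h : G) : χ h 0 = false := by
  have := hχ.add h 0 0
  rw [add_zero] at this
  cases hc : χ h 0
  · rfl
  · rw [hc] at this
    simp at this

theorem Chi.cancel {χ : G → G → Bool} (hχ : Chi χ) (a h : G) : a + h + h = a := by
  rw [add_assoc, hχ.two, add_zero]

theorem hf_sum {χ : G → G → Bool} (hχ : Chi χ) {h : G} (hh : h ≠ 0) (b : Bool) {R : Type}
    [AddCommMonoid R] (F : G → R) : ∑ c, F c = ∑ a ∈ hf χ h b, (F a + F (a + h)) := by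
  rw [Finset.sum_add_distrib, ← Finset.sum_filter_add_sum_filter_not univ (fun a => χ h a = b)]
  congr 1
  refine Finset.sum_nbij' (fun a => a + h) (fun a => a + h) ?_ ?_ ?_ ?_ ?_
  · intro a ha
    rw [Finset.mem_filter] at ha
    rw [hf, Finset.mem_filter]
    refine ⟨mem_univ _, ?_⟩
    have h2 := ha.2
    rw [hχ.add, hχ.self h hh]
    cases hc : χ h a <;> cases b <;> simp_all
  · intro a ha
    rw [hf, Finset.mem_filter] at ha
    rw [Finset.mem_filter]
    refine ⟨mem_univ _, ?_⟩
    rw [hχ.add, hχ.self h hh, ha.2]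
    cases b <;> simp
  · intro a _
    exact hχ.cancel a h
  · intro a _
    exact hχ.cancel a h
  · intro a _
    show F a = F (a + h + h)
    rw [hχ.cancel]

theorem cv2_per {χ : G → G → Bool} (hχ : Chi χ) (A : Finset G) (h : G) (f : G → SF G) (j : ℕ) :
    ∀ s, cv2 A h f j (s + h) = cv2 A h f j s := by
  induction j with
  | zero =>
    intro s
    unfold cv2
    congr 1
    apply propext
    constructor
    · rintro (h1 | h1)
      · right
        have : s + h + h = 0 + h := by rw [h1]
        rw [hχ.cancel, zero_add] at this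
        exact this
      · left
        have : s + h = 0 + h := by rw [h1, zero_add]
        exact add_right_cancel this
    · rintro (h1 | h1)
      · right
        rw [h1, zero_add]
      · left
        rw [h1, hχ.two]
  | succ j ih =>
    intro s
    unfold cv2
    apply Finset.sum_congr rfl
    intro a _
    have : s + h + a = s + a + h := by abel
    rw [this, ih]

theorem cv2_conv {χ : G → G → Bool} (hχ : Chi χ) {h : G} (hh : h ≠ 0) (b : Bool)
    {f g : G → SF G} (hfg : ∀ a ∈ hf χ h b, f a = g a + g (a + h)) (j : ℕ) :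
    ∀ s, cv2 (hf χ h b) h f j s = conv g j s + conv g j (s + h) := by
  induction j with
  | zero =>
    intro s
    unfold cv2 conv
    by_cases h1 : s = 0
    · subst h1
      rw [if_pos (Or.inl rfl), if_pos rfl, zero_add, if_neg hh, add_zero]
    · by_cases h2 : s = h
      · subst h2
        rw [if_pos (Or.inr rfl), if_neg h1, hχ.two, if_pos rfl, zero_add]
      · rw [if_neg (by tauto), if_neg h1, if_neg, add_zero]
        intro h3
        apply h2
        have : s + h + h = 0 + h := by rw [h3]
        rw [hχ.cancel, zero_add] at this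
        exact this
  | succ j ih =>
    intro s
    have e1 : conv g (j + 1) s + conv g (j + 1) (s + h) =
        ∑ c, (conv g j (s + c) + conv g j (s + h + c)) * lift j (g c) := by
      rw [conv, conv, ← Finset.sum_add_distrib]
      apply Finset.sum_congr rfl
      intro c _
      rw [add_mul]
    rw [e1, hf_sum hχ hh b]
    rw [cv2]
    apply Finset.sum_congr rfl
    intro a ha
    rw [ih, hfg a ha, lift_add]
    have e2 : s + h + a = s + a + h := by abel
    have e3 : s + (a + h) = s + a + h := by abel
    have e4 : s + h + (a + h) = s + a := by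
      have : s + h + (a + h) = s + a + h + h := by abel
      rw [this, hχ.cancel]
    rw [e2, e3, e4]
    ring

theorem sum_shift {R : Type} [AddCommMonoid R] (F : G → R) (a : G) : ∑ s, F (s + a) = ∑ s, F s :=
  Fintype.sum_equiv (Equiv.addRight a) _ _ (fun _ => rfl)

theorem pw_conv (g : G → SF G) (j : ℕ) : pw (∑ c, g c) j = ∑ s, conv g j s := by
  induction j with
  | zero =>
    rw [pw]
    simp [conv]
  | succ j ih =>
    rw [pw, ih, lift_sum, Finset.mul_sum]
    have : ∀ s, conv g (j + 1) s = ∑ c, conv g j (s + c) * lift j (g c) := fun s => rfl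
    rw [Finset.sum_congr rfl (fun s _ => this s), Finset.sum_comm]
    apply Finset.sum_congr rfl
    intro c _
    rw [← Finset.sum_mul, sum_shift (fun s => conv g j s) c]

theorem half_eq {x y : RF G} (h : x + x = y + y) : x = y := by
  funext M w
  have := congrFun (congrFun h M) w
  change x M w + x M w = y M w + y M w at this
  omega

theorem per_shift {χ : G → G → Bool} (hχ : Chi χ) {h : G} (hh : h ≠ 0) (b : Bool) (F : G → RF G)
    (hF : ∀ s, F (s + h) = F s) (a : G) : ∑ s ∈ hf χ h b, F (s + a) = ∑ s ∈ hf χ h b, F s := by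
  apply half_eq
  have h1 := hf_sum hχ hh b (fun s => F (s + a))
  have h2 := hf_sum hχ hh b F
  rw [sum_shift F a, h2] at h1
  have h3 : ∀ s, F (s + h + a) = F (s + a) := by
    intro s
    have : s + h + a = s + a + h := by abel
    rw [this, hF]
  simp only [h3, hF] at h1
  rw [Finset.sum_add_distrib, Finset.sum_add_distrib] at h1
  exact h1.symm

theorem pw_cv2 {χ : G → G → Bool} (hχ : Chi χ) {h : G} (hh : h ≠ 0) (b : Bool) (f : G → SF G)
    (j : ℕ) : pw (∑ a ∈ hf χ h b, f a) j = ∑ s ∈ hf χ h b, cv2 (hf χ h b) h f j s := by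
  induction j with
  | zero =>
    rw [pw]
    unfold cv2
    have key : ∀ s ∈ hf χ h b, (if s = 0 ∨ s = h then (1 : RF G) else 0) =
        if s = (if b then h else 0) then 1 else 0 := by
      intro s hs
      rw [hf, Finset.mem_filter] at hs
      congr 1
      apply propext
      cases b with
      | false =>
        rw [if_neg (by simp)]
        constructor
        · rintro (h1 | h1)
          · exact h1
          · exfalso
            have h2 := hs.2
            rw [h1, hχ.self h hh] at h2
            exact Bool.noConfusion h2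
        · intro h1
          exact Or.inl h1
      | true =>
        rw [if_pos rfl]
        constructor
        · rintro (h1 | h1)
          · exfalso
            have h2 := hs.2
            rw [h1, hχ.zero] at h2
            exact Bool.noConfusion h2
          · exact h1
        · intro h1
          exact Or.inr h1
    rw [Finset.sum_congr rfl key, Finset.sum_ite_eq', if_pos]
    rw [hf, Finset.mem_filter]
    refine ⟨mem_univ _, ?_⟩
    cases b with
    | false => rw [if_neg (by simp), hχ.zero]
    | true => rw [if_pos rfl, hχ.self h hh]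
  | succ j ih =>
    rw [pw, ih, lift_sum, Finset.mul_sum]
    have : ∀ s, cv2 (hf χ h b) h f (j + 1) s =
        ∑ a ∈ hf χ h b, cv2 (hf χ h b) h f j (s + a) * lift j (f a) := fun s => rfl
    rw [Finset.sum_congr rfl (fun s _ => this s), Finset.sum_comm]
    apply Finset.sum_congr rfl
    intro a _
    rw [← Finset.sum_mul, per_shift hχ hh b (fun s => cv2 (hf χ h b) h f j s)
      (fun s => cv2_per hχ _ h f j s) a]

/-! ### the states along the recursion -/

theorem conv_full {κ : ℕ} {f : G → SF G} (hf : ∀ c, f c ∈ Full1 G κ) (j : ℕ) :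
    ∀ s, conv f j s ∈ FullS G κ j := by
  induction j with
  | zero =>
    intro s
    unfold conv
    split_ifs
    · exact one_full κ
    · exact zero_mem _
  | succ j ih =>
    intro s
    rw [conv]
    exact sum_mem (fun c _ => full_mul (ih _) (hf c))

theorem stN {χ : G → G → Bool} (hχ : Chi χ) {κ : ℕ} {T ρ β : G → SF G}
    (hT : ∀ c, Tri G κ (T c) (ρ c) (β c)) (h : G) (j : ℕ) :
    ∀ s, (χ h s = false →
      (conv T j s, conv (fun c => if χ h c then β c else ρ c) j s) ∈ EvN G κ j) ∧
      (χ h s = true →
      (conv T j s, conv (fun c => if χ h c then β c else ρ c) j s) ∈ OdN G κ j) := by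
  induction j with
  | zero =>
    intro s
    unfold conv
    by_cases h1 : s = 0
    · rw [if_pos h1]
      constructor
      · intro _
        exact ⟨one_full κ, 0, zero_mem _, by simp⟩
      · intro h2
        rw [h1, hχ.zero] at h2
        exact Bool.noConfusion h2
    · rw [if_neg h1]
      exact ⟨fun _ => zero_mem _, fun _ => zero_mem _⟩
  | succ j ih =>
    intro s
    have e1 : (conv T (j + 1) s, conv (fun c => if χ h c then β c else ρ c) (j + 1) s) =
        ∑ c, (conv T j (s + c) * lift j (T c),
          conv (fun c => if χ h c then β c else ρ c) j (s + c) *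
          lift j (if χ h c then β c else ρ c)) := by
      apply Prod.ext
      · rw [Prod.fst_sum]; rfl
      · rw [Prod.snd_sum]; rfl
    rw [e1]
    constructor
    · intro hs
      apply sum_mem
      intro c _
      have h2 : χ h (s + c) = χ h c := by rw [hχ.add, hs]; simp
      cases hc : χ h c
      · rw [if_neg (by simp)]
        exact ev_rho (hT c) ((ih _).1 (h2.trans hc))
      · rw [if_pos rfl]
        exact od_beta (hT c) ((ih _).2 (h2.trans hc))
    · intro hs
      apply sum_mem
      intro c _
      have h2 : χ h (s + c) = !(χ h c) := by rw [hχ.add, hs]; simp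
      cases hc : χ h c
      · rw [if_neg (by simp)]
        exact od_rho (hT c) ((ih _).2 (by rw [h2, hc]; rfl))
      · rw [if_pos rfl]
        exact ev_beta (hT c) ((ih _).1 (by rw [h2, hc]; rfl))

theorem stR {κ : ℕ} {T ρ β : G → SF G}
    (hT : ∀ c, Tri G κ (T c) (ρ c) (β c)) (j : ℕ) :
    ∀ s, (conv T j s, conv ρ j s) ∈ EvN G κ j := by
  induction j with
  | zero =>
    intro s
    unfold conv
    by_cases h1 : s = 0
    · rw [if_pos h1]
      exact ⟨one_full κ, 0, zero_mem _, by simp⟩
    · rw [if_neg h1]
      exact zero_mem _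
  | succ j ih =>
    intro s
    have e1 : (conv T (j + 1) s, conv ρ (j + 1) s) =
        ∑ c, (conv T j (s + c) * lift j (T c), conv ρ j (s + c) * lift j (ρ c)) := by
      apply Prod.ext
      · rw [Prod.fst_sum]; rfl
      · rw [Prod.snd_sum]; rfl
    rw [e1]
    exact sum_mem (fun c _ => ev_rho (hT c) (ih _))

theorem stW {χ : G → G → Bool} (hχ : Chi χ) {κ : ℕ} {T ρ β : G → SF G}
    (hT : ∀ c, Tri G κ (T c) (ρ c) (β c)) (h : G) (j : ℕ) :
    ∀ s, (χ h s = false →
      (conv T j s, conv ρ j s, conv (fun c => if χ h c then β c else ρ c) j s) ∈ EvW G κ j) ∧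
      (χ h s = true →
      (conv T j s, conv ρ j s, conv (fun c => if χ h c then β c else ρ c) j s) ∈ OdW G κ j) := by
  induction j with
  | zero =>
    intro s
    unfold conv
    by_cases h1 : s = 0
    · rw [if_pos h1]
      constructor
      · intro _
        exact ⟨1, one_full κ, 0, zero_mem _, 0, zero_mem _, 0, zero_mem _, 0, zero_mem _,
          by simp, by simp, by simp, by simp [zero_mem], by simp [zero_mem]⟩
      · intro h2
        rw [h1, hχ.zero] at h2
        exact Bool.noConfusion h2
    · rw [if_neg h1]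
      exact ⟨fun _ => zero_mem _, fun _ => zero_mem _⟩
  | succ j ih =>
    intro s
    have e1 : (conv T (j + 1) s, conv ρ (j + 1) s,
          conv (fun c => if χ h c then β c else ρ c) (j + 1) s) =
        ∑ c, (conv T j (s + c) * lift j (T c), conv ρ j (s + c) * lift j (ρ c),
          conv (fun c => if χ h c then β c else ρ c) j (s + c) *
          lift j (if χ h c then β c else ρ c)) := by
      apply Prod.ext
      · rw [Prod.fst_sum]; rfl
      · apply Prod.ext
        · rw [Prod.snd_sum, Prod.fst_sum]; rfl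
        · rw [Prod.snd_sum, Prod.snd_sum]; rfl
    rw [e1]
    have hfull : ∀ c, conv T j (s + c) ∈ FullS G κ j :=
      fun c => conv_full (fun c => (hT c).ht) j (s + c)
    constructor
    · intro hs
      apply sum_mem
      intro c _
      have h2 : χ h (s + c) = χ h c := by rw [hχ.add, hs]; simp
      cases hc : χ h c
      · rw [if_neg (by simp)]
        exact evW_rho (hT c) (hfull c) ((ih _).1 (h2.trans hc))
      · rw [if_pos rfl]
        exact odW_beta (hT c) (hfull c) ((ih _).2 (h2.trans hc))
    · intro hs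
      apply sum_mem
      intro c _
      have h2 : χ h (s + c) = !(χ h c) := by rw [hχ.add, hs]; simp
      cases hc : χ h c
      · rw [if_neg (by simp)]
        exact odW_rho (hT c) (hfull c) ((ih _).2 (by rw [h2, hc]; rfl))
      · rw [if_pos rfl]
        exact evW_beta (hT c) (hfull c) ((ih _).1 (by rw [h2, hc]; rfl))

/-! ### the cross terms -/

theorem cross_rec {κ : ℕ} (A : Finset G) (h : G) {φ Φ τ u z z' σ : G → SF G}
    (h1 : ∀ a ∈ A, Φ a = φ a + z a) (h2 : ∀ a ∈ A, τ a = φ a + σ a)
    (h3 : ∀ a ∈ A, u a = τ a + (z a + z' a))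
    (hφ : ∀ a ∈ A, φ a ∈ Full1 G κ) (hσ : ∀ a ∈ A, σ a ∈ Full1 G κ)
    (hz : ∀ a ∈ A, z a ∈ Cheap1 G κ) (hz' : ∀ a ∈ A, z' a ∈ Cheap1 G κ) (j : ℕ) :
    ∀ s, cv2 A h φ j s ∈ FullS G κ j ∧ cv2 A h Φ j s ∈ FullS G κ j ∧
      (∃ c ∈ CheapS G κ j, cv2 A h Φ j s = cv2 A h φ j s + c) ∧
      (∃ F ∈ FullS G κ j, cv2 A h u j s = cv2 A h Φ j s + F) ∧
      (∃ c ∈ CheapS G κ j, cv2 A h u j s + cv2 A h φ j s =
        cv2 A h τ j s + cv2 A h Φ j s + c) := by
  induction j with
  | zero =>
    intro s
    unfold cv2
    have h0 : (if s = 0 ∨ s = h then (1 : RF G) else 0) ∈ FullS G κ 0 := by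
      split_ifs
      · exact one_full κ
      · exact zero_mem _
    exact ⟨h0, h0, ⟨0, zero_mem _, by simp⟩, ⟨0, zero_mem _, by simp⟩, ⟨0, zero_mem _, by simp⟩⟩
  | succ j ih =>
    intro s
    have i1 := fun s => (ih s).1
    have i2 := fun s => (ih s).2.1
    choose c1 hc1 e1 using fun s => (ih s).2.2.1
    choose F hF e2 using fun s => (ih s).2.2.2.1
    choose c2 hc2 e3 using fun s => (ih s).2.2.2.2
    have hΦ : ∀ a ∈ A, Φ a ∈ Full1 G κ := fun a ha => by
      rw [h1 a ha]; exact add_mem (hφ a ha) (cheap1_full1 (hz a ha))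
    refine ⟨?_, ?_, ?_, ?_, ?_⟩
    · rw [cv2]
      exact sum_mem (fun a ha => full_mul (i1 _) (hφ a ha))
    · rw [cv2]
      exact sum_mem (fun a ha => full_mul (i2 _) (hΦ a ha))
    · refine ⟨∑ a ∈ A, (c1 (s + a) * lift j (φ a) + cv2 A h Φ j (s + a) * lift j (z a)), ?_, ?_⟩
      · exact sum_mem (fun a ha => add_mem (cheap_mul (hc1 _) (hφ a ha))
          (full_mul_cheap (i2 _) (hz a ha)))
      · rw [cv2, cv2, ← Finset.sum_add_distrib]
        apply Finset.sum_congr rfl
        intro a ha
        rw [h1 a ha, lift_add]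
        have := e1 (s + a)
        rw [mul_add]
        nth_rewrite 1 [this]
        ring
    · refine ⟨∑ a ∈ A, (F (s + a) * lift j (u a) +
        cv2 A h Φ j (s + a) * lift j (σ a + z' a)), ?_, ?_⟩
      · refine sum_mem (fun a ha => add_mem (full_mul (hF _) ?_) (full_mul (i2 _) ?_))
        · rw [h3 a ha, h2 a ha]
          exact add_mem (add_mem (hφ a ha) (hσ a ha))
            (cheap1_full1 (add_mem (hz a ha) (hz' a ha)))
        · exact add_mem (hσ a ha) (cheap1_full1 (hz' a ha))
      · rw [cv2, cv2, ← Finset.sum_add_distrib]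
        apply Finset.sum_congr rfl
        intro a ha
        rw [e2 (s + a), h3 a ha, h2 a ha, h1 a ha]
        simp only [lift_add]
        ring
    · refine ⟨∑ a ∈ A, (c2 (s + a) * lift j (τ a) + c1 (s + a) * lift j (σ a) +
        F (s + a) * lift j (z a + z' a) + cv2 A h Φ j (s + a) * lift j (z' a)), ?_, ?_⟩
      · refine sum_mem (fun a ha => add_mem (add_mem (add_mem (cheap_mul (hc2 _) ?_)
          (cheap_mul (hc1 _) (hσ a ha))) (full_mul_cheap (hF _) (add_mem (hz a ha) (hz' a ha))))
          (full_mul_cheap (i2 _) (hz' a ha)))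
        rw [h2 a ha]
        exact add_mem (hφ a ha) (hσ a ha)
      · rw [cv2, cv2, cv2, cv2, ← Finset.sum_add_distrib, ← Finset.sum_add_distrib,
          ← Finset.sum_add_distrib]
        apply Finset.sum_congr rfl
        intro a ha
        have k1 := e1 (s + a)
        have k2 := e2 (s + a)
        have k3 := e3 (s + a)
        rw [h3 a ha, h2 a ha, h1 a ha]
        simp only [lift_add]
        generalize cv2 A h u j (s + a) = U at *
        generalize cv2 A h Φ j (s + a) = P at *
        generalize cv2 A h φ j (s + a) = Q at *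
        generalize cv2 A h τ j (s + a) = T at *
        have k4 : F (s + a) = U - P := by rw [k2]; ring
        have k5 : c1 (s + a) = P - Q := by rw [k1]; ring
        have k6 : c2 (s + a) = U + Q - T - P := by rw [k3]; ring
        rw [k4, k5, k6]
        ring

theorem pw_add {κ : ℕ} {f g : SF G} (hf : f ∈ Full1 G κ) (hg : g ∈ Full1 G κ) (j : ℕ) :
    pw f j ∈ FullS G κ j ∧ ∃ F ∈ FullS G κ j, pw (f + g) j = pw f j + F := by
  induction j with
  | zero => exact ⟨one_full κ, 0, zero_mem _, by simp [pw]⟩
  | succ j ih =>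
    obtain ⟨h1, F, hF, e⟩ := ih
    refine ⟨full_mul h1 hf, F * lift j (f + g) + pw f j * lift j g, ?_, ?_⟩
    · exact add_mem (full_mul hF (add_mem hf hg)) (full_mul h1 hg)
    · rw [pw, pw, e, lift_add]
      ring

theorem cross_split {κ : ℕ} {α : Type} [DecidableEq α] (I : Finset α) {S : SF G}
    {X : α → SF G} (hS : S ∈ Full1 G κ) (hX : ∀ i ∈ I, X i ∈ Cheap1 G κ) (j : ℕ) :
    ∃ c ∈ CheapS G κ j, pw (S + ∑ i ∈ I, X i) j + ∑ i ∈ I, pw S j =
      pw S j + ∑ i ∈ I, pw (S + X i) j + c := by
  induction j with
  | zero => exact ⟨0, zero_mem _, by simp [pw]⟩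
  | succ j ih =>
    obtain ⟨c, hc, e⟩ := ih
    have hF : ∀ i ∈ I, ∃ F ∈ FullS G κ j, pw (S + ∑ i ∈ I, X i) j = pw (S + X i) j + F := by
      intro i hi
      have h1 : S + ∑ i ∈ I, X i = (S + X i) + ∑ i ∈ I.erase i, X i := by
        rw [← Finset.add_sum_erase I X hi]; ring
      rw [h1]
      exact (pw_add (add_mem hS (cheap1_full1 (hX i hi)))
        (sum_mem (fun k hk => cheap1_full1 (hX k (Finset.mem_of_mem_erase hk)))) j).2
    choose! F hF e2 using hF
    refine ⟨c * lift j S + ∑ i ∈ I, F i * lift j (X i), ?_, ?_⟩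
    · exact add_mem (cheap_mul hc hS) (sum_mem (fun i hi => full_mul_cheap (hF i hi) (hX i hi)))
    · have e3 : ∑ i ∈ I, F i * lift j (X i) = pw (S + ∑ i ∈ I, X i) j * ∑ i ∈ I, lift j (X i) -
          ∑ i ∈ I, pw (S + X i) j * lift j (X i) := by
        rw [Finset.mul_sum, ← Finset.sum_sub_distrib]
        apply Finset.sum_congr rfl
        intro i hi
        rw [e2 i hi]
        ring
      have e4 : c = pw (S + ∑ i ∈ I, X i) j + ∑ i ∈ I, pw S j - pw S j -
          ∑ i ∈ I, pw (S + X i) j := by rw [e]; ring
      have e5 : ∑ i ∈ I, pw (S + X i) (j + 1) = (∑ i ∈ I, pw (S + X i) j) * lift j S +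
          ∑ i ∈ I, pw (S + X i) j * lift j (X i) := by
        rw [Finset.sum_mul, ← Finset.sum_add_distrib]
        apply Finset.sum_congr rfl
        intro i _
        rw [pw, lift_add]
        ring
      have e6 : ∑ i ∈ I, pw S (j + 1) = (∑ i ∈ I, pw S j) * lift j S := by
        rw [Finset.sum_mul]
        rfl
      rw [e3, e4, e5, e6, pw, pw, lift_add, lift_sum]
      ring

end conv

end Pool.Agent.Lib.MP_60210e_co.RankGaps
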