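import Pool.Agent.Lib.MP_60210e_co.RH3

/-!
# Decompositions of products of complete graphs, part 4: the main identity
-/

set_option autoImplicit false

namespace Pool.Agent.Lib.MP_60210e_co.RankGaps

open Finset

variable {G : Type} [Fintype G] [DecidableEq G] [AddCommGroup G]

/-- the pieces of one factor -/
structure FD (G : Type) [Fintype G] [DecidableEq G] [AddCommGroup G] (χ : G → G → Bool) (κ : ℕ) where
  r : G → G → SF G
  b : G → G → SF G
  T : G → SF G
  rest : G → SF G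
  p : G → SF G
  Z : G → G → G → SF G
  Z' : G → G → G → SF G
  E2 : SF G
  hr : ∀ g c, r g c ∈ Full1 G κ
  hb : ∀ h c, h ≠ 0 → b h c ∈ Full1 G κ
  hrb : ∀ h c, h ≠ 0 → r h c + b h c ∈ Cheap1 G κ
  h0b : ∀ h c, h ≠ 0 → b h c + r 0 c ∈ Cheap1 G κ
  hrest : ∀ c, rest c ∈ Cheap1 G κ
  hT : ∀ c, T c = r 0 c + ∑ h ∈ univ.erase (0 : G), (r h c + b h c) + rest c
  hZ : ∀ h a a', h ≠ 0 → a ≠ a' → Z h a a' ∈ Cheap1 G κ
  hZ' : ∀ h a a', h ≠ 0 → a ≠ a' → Z' h a a' ∈ Cheap1 G κ
  hpp : ∀ h a a', h ≠ 0 → a ≠ a' → p a * p a' = Z h a a' + Z' h a a'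
  hE : E2 = ∑ c, T c + ∑ h ∈ univ.erase (0 : G), ∑ a ∈ hf χ h false, p a * p (a + h)

variable {χ : G → G → Bool} {κ : ℕ} (D : FD G χ κ)

namespace FD

theorem tri {h : G} (hh : h ≠ 0) (c : G) : Tri G κ (D.T c) (D.r h c) (D.b h c) := by
  refine ⟨D.hr h c, D.hb h c hh, D.hrb h c hh, D.r 0 c, D.hr 0 c,
    ∑ h' ∈ (univ.erase (0 : G)).erase h, (D.r h' c + D.b h' c) + D.rest c, ?_, ?_, D.h0b h c hh⟩
  · refine add_mem (sum_mem (fun h' hh' => ?_)) (D.hrest c)
    exact D.hrb h' c (Finset.ne_of_mem_erase (Finset.mem_of_mem_erase hh'))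
  · rw [D.hT c, ← Finset.add_sum_erase (univ.erase (0 : G)) (fun h => D.r h c + D.b h c)
      (Finset.mem_erase.2 ⟨hh, mem_univ h⟩)]
    ring

/-- pattern for the ordinary copies -/
def θ (h0 h : G) (c : G) : SF G := if χ h c then D.b h0 c else D.r h0 c

/-- pattern for the special copy -/
def θs (h : G) (c : G) : SF G := if χ h c then D.r h c else D.b h c

theorem finalN (hχ : Chi χ) {h0 : G} (hh0 : h0 ≠ 0) (e : ℕ) {h : G} (hh : h ≠ 0) (c : G) :
    ∃ x ∈ CheapS G κ (e + 1), conv D.T e (c + h) * lift e (D.T c) =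
      conv (D.θ h0 h) e (c + h) * lift e (D.θs h c) + x := by
  have h1 := stN hχ (T := D.T) (ρ := D.r h0) (β := D.b h0) (fun c => D.tri hh0 c) h e (c + h)
  cases hc : χ h c
  · have h2 : χ h (c + h) = true := by rw [hχ.add, hc, hχ.self h hh]; rfl
    have h3 := od_beta (D.tri hh c) (h1.2 h2)
    obtain ⟨_, x, hx, e1⟩ := h3
    refine ⟨x, hx, ?_⟩
    have e2 : D.θs h c = D.b h c := by unfold θs; rw [if_neg]; rw [hc]; simp
    rw [e2]
    exact e1
  · have h2 : χ h (c + h) = false := by rw [hχ.add, hc, hχ.self h hh]; rfl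
    have h3 := ev_rho (D.tri hh c) (h1.1 h2)
    obtain ⟨_, x, hx, e1⟩ := h3
    refine ⟨x, hx, ?_⟩
    have e2 : D.θs h c = D.r h c := by unfold θs; rw [if_pos hc]
    rw [e2]
    exact e1

theorem finalW (hχ : Chi χ) {h0 : G} (hh0 : h0 ≠ 0) (e : ℕ) (c : G) :
    ∃ x ∈ CheapS G κ (e + 1), conv D.T e c * lift e (D.T c) =
      conv (D.r h0) e c * lift e (∑ g, D.r g c) +
      ∑ h ∈ univ.erase (0 : G), conv (D.θ h0 h) e c * lift e (D.θs h c) + x := by
  have htri := fun c => D.tri hh0 c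
  obtain ⟨hP, x0, hx0, e0⟩ := stR htri e c
  simp only at hP e0
  have hTf : conv D.T e c ∈ FullS G κ e := conv_full (fun c => (htri c).ht) e c
  have key : ∀ h ∈ univ.erase (0 : G), ∃ x ∈ CheapS G κ (e + 1),
      conv D.T e c * lift e (D.r h c + D.b h c) =
      conv (D.r h0) e c * lift e (D.r h c) + conv (D.θ h0 h) e c * lift e (D.θs h c) + x := by
    intro h hh
    have hh' : h ≠ 0 := Finset.ne_of_mem_erase hh
    cases hc : χ h c
    · have e2 : D.θs h c = D.b h c := by unfold θs; rw [if_neg]; rw [hc]; simp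
      obtain ⟨_, x1, hx1, e1⟩ := (stN hχ htri h e c).1 hc
      simp only at e1
      refine ⟨x0 * lift e (D.r h c) + x1 * lift e (D.b h c),
        add_mem (cheap_mul hx0 (D.hr h c)) (cheap_mul hx1 (D.hb h c hh')), ?_⟩
      rw [e2, lift_add, mul_add]
      nth_rewrite 1 [e0]
      rw [e1]
      unfold θ
      ring
    · have e2 : D.θs h c = D.r h c := by unfold θs; rw [if_pos hc]
      obtain ⟨_, hZ, x1, hx1, S, hS, e1, h1⟩ := (stW hχ htri h e c).2 hc
      simp only at hZ e1 h1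
      refine ⟨S * lift e (D.r h c + D.b h c) + x1 * lift e (D.r h c) +
        (conv (D.r h0) e c + conv (fun c => if χ h c then D.b h0 c else D.r h0 c) e c + x1) *
          lift e (D.b h c),
        add_mem (add_mem (full_mul_cheap hS (D.hrb h c hh')) (cheap_mul hx1 (D.hr h c)))
          (cheap_mul h1 (D.hb h c hh')), ?_⟩
      rw [e2, lift_add, e1]
      unfold θ
      ring
  choose! x hx ex using key
  refine ⟨x0 * lift e (D.r 0 c) + ∑ h ∈ univ.erase (0 : G), x h +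
    conv D.T e c * lift e (D.rest c), ?_, ?_⟩
  · exact add_mem (add_mem (cheap_mul hx0 (D.hr 0 c)) (sum_mem (fun h hh => hx h hh)))
      (full_mul_cheap hTf (D.hrest c))
  · have e1 : ∑ g, D.r g c = D.r 0 c + ∑ h ∈ univ.erase (0 : G), D.r h c :=
      (Finset.add_sum_erase univ (fun g => D.r g c) (mem_univ 0)).symm
    have e2 : conv D.T e c * ∑ h ∈ univ.erase (0 : G), lift e (D.r h c + D.b h c) =
        conv (D.r h0) e c * ∑ h ∈ univ.erase (0 : G), lift e (D.r h c) +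
        ∑ h ∈ univ.erase (0 : G), conv (D.θ h0 h) e c * lift e (D.θs h c) +
        ∑ h ∈ univ.erase (0 : G), x h := by
      rw [Finset.mul_sum, Finset.mul_sum, ← Finset.sum_add_distrib, ← Finset.sum_add_distrib]
      exact Finset.sum_congr rfl (fun h hh => ex h hh)
    rw [D.hT c, e1, lift_add, lift_add, lift_add, lift_sum, lift_sum, mul_add, mul_add, e2]
    nth_rewrite 1 [e0]
    ring

/-- main family, ordinary copy -/
def Φo (h0 h : G) (a : G) : SF G := D.r h0 a + D.b h0 (a + h) + D.Z h0 a (a + h)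

/-- main family, special copy -/
def Φs (h : G) (a : G) : SF G := D.r h a + D.b h (a + h) + D.Z h a (a + h)

def φo (h0 h : G) (a : G) : SF G := D.r h0 a + D.b h0 (a + h)

def φs (h : G) (a : G) : SF G := D.r h a + D.b h (a + h)

def τ (h : G) (a : G) : SF G := D.T a + D.T (a + h)

def u (h : G) (a : G) : SF G := D.τ h a + D.p a * D.p (a + h)

/-- the main families of type `h` -/
def Ψ (h0 : G) (e : ℕ) (h : G) : RF G :=
  ∑ a ∈ hf χ h true, cv2 (hf χ h false) h (D.Φo h0 h) e (h + a) * lift e (D.Φs h a)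

def Ψφ (h0 : G) (e : ℕ) (h : G) : RF G :=
  ∑ a ∈ hf χ h true, cv2 (hf χ h false) h (D.φo h0 h) e (h + a) * lift e (D.φs h a)

theorem same_colour (hχ : Chi χ) {h0 : G} (hh0 : h0 ≠ 0) (e : ℕ) :
    ∃ x ∈ CheapS G κ (e + 1), pw (∑ c, D.T c) (e + 1) =
      ∑ c, conv (D.r h0) e c * lift e (∑ g, D.r g c) +
      ∑ h ∈ univ.erase (0 : G), D.Ψφ h0 e h + x := by
  choose x hx ex using fun c => D.finalW hχ hh0 e c
  choose! y hy ey using fun (h : G) (c : G) (hh : h ≠ 0) => D.finalN hχ hh0 e hh c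
  have hΨ : ∀ h ∈ univ.erase (0 : G), D.Ψφ h0 e h = ∑ c, (conv (D.θ h0 h) e (c + h) +
      conv (D.θ h0 h) e c) * lift e (D.θs h c) := by
    intro h hh
    have hh' : h ≠ 0 := Finset.ne_of_mem_erase hh
    rw [hf_sum hχ hh' true]
    unfold Ψφ
    apply Finset.sum_congr rfl
    intro a ha
    rw [hf, Finset.mem_filter] at ha
    have h1 : χ h (a + h) = false := by rw [hχ.add, ha.2, hχ.self h hh']; rfl
    have e1 : D.θs h a = D.r h a := by unfold θs; rw [if_pos ha.2]
    have e2 : D.θs h (a + h) = D.b h (a + h) := by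
      unfold θs; rw [if_neg]; rw [h1]; simp
    have h2 : ∀ a ∈ hf χ h false, D.φo h0 h a = D.θ h0 h a + D.θ h0 h (a + h) := by
      intro a ha
      rw [hf, Finset.mem_filter] at ha
      have h1 : χ h (a + h) = true := by rw [hχ.add, ha.2, hχ.self h hh']; rfl
      unfold φo θ
      rw [if_neg (by rw [ha.2]; simp), if_pos h1]
    rw [cv2_conv hχ hh' false h2, e1, e2, hχ.cancel]
    have e3 : h + a = a + h := add_comm h a
    rw [e3, hχ.cancel]
    unfold φs
    rw [lift_add]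
    ring
  refine ⟨∑ c, x c + ∑ h ∈ univ.erase (0 : G), ∑ c, y h c, ?_, ?_⟩
  · exact add_mem (sum_mem (fun c _ => hx c))
      (sum_mem (fun h hh => sum_mem (fun c _ => hy h c (Finset.ne_of_mem_erase hh))))
  · have e0 := Finset.add_sum_erase univ (fun h => ∑ c, conv D.T e (c + h) * lift e (D.T c))
      (mem_univ (0 : G))
    simp only [add_zero] at e0
    have e1 : pw (∑ c, D.T c) (e + 1) = ∑ c, conv D.T e c * lift e (D.T c) +
        ∑ h ∈ univ.erase (0 : G), ∑ c, conv D.T e (c + h) * lift e (D.T c) := by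
      rw [e0, pw, pw_conv, lift_sum, Finset.mul_sum, Finset.sum_comm]
      apply Finset.sum_congr rfl
      intro c _
      rw [← Finset.sum_mul]
      congr 1
      have h1 := sum_shift (fun s => conv D.T e s) c
      rw [← h1]
      apply Finset.sum_congr rfl
      intro h _
      rw [add_comm h c]
    have e2 : ∑ c, conv D.T e c * lift e (D.T c) =
        ∑ c, conv (D.r h0) e c * lift e (∑ g, D.r g c) +
        ∑ h ∈ univ.erase (0 : G), ∑ c, conv (D.θ h0 h) e c * lift e (D.θs h c) + ∑ c, x c := by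
      rw [Finset.sum_comm (s := univ.erase (0 : G)), ← Finset.sum_add_distrib,
        ← Finset.sum_add_distrib]
      exact Finset.sum_congr rfl (fun c _ => ex c)
    have e3 : ∑ h ∈ univ.erase (0 : G), ∑ c, conv D.T e (c + h) * lift e (D.T c) =
        ∑ h ∈ univ.erase (0 : G), ∑ c, conv (D.θ h0 h) e (c + h) * lift e (D.θs h c) +
        ∑ h ∈ univ.erase (0 : G), ∑ c, y h c := by
      rw [← Finset.sum_add_distrib]
      apply Finset.sum_congr rfl
      intro h hh
      rw [← Finset.sum_add_distrib]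
      exact Finset.sum_congr rfl (fun c _ => ey h c (Finset.ne_of_mem_erase hh))
    have e4 : ∑ h ∈ univ.erase (0 : G), D.Ψφ h0 e h =
        ∑ h ∈ univ.erase (0 : G), ∑ c, conv (D.θ h0 h) e (c + h) * lift e (D.θs h c) +
        ∑ h ∈ univ.erase (0 : G), ∑ c, conv (D.θ h0 h) e c * lift e (D.θs h c) := by
      rw [← Finset.sum_add_distrib]
      apply Finset.sum_congr rfl
      intro h hh
      rw [hΨ h hh, ← Finset.sum_add_distrib]
      apply Finset.sum_congr rfl
      intro c _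
      rw [add_mul]
    rw [e1, e2, e3, e4]
    ring

theorem split_r {h : G} (hh : h ≠ 0) (c : G) : ∃ σ ∈ Full1 G κ, D.T c = D.r h c + σ := by
  have h1 := D.tri hh c
  obtain ⟨R, hR, x, hx, e1, _⟩ := h1.hR
  exact ⟨D.b h c + R + x, add_mem (add_mem h1.hβ hR) (cheap1_full1 hx), by rw [e1]; ring⟩

theorem split_b {h : G} (hh : h ≠ 0) (c : G) : ∃ σ ∈ Full1 G κ, D.T c = D.b h c + σ := by
  have h1 := D.tri hh c
  obtain ⟨R, hR, x, hx, e1, _⟩ := h1.hR
  exact ⟨D.r h c + R + x, add_mem (add_mem h1.hρ hR) (cheap1_full1 hx), by rw [e1]; ring⟩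

/-- the ordinary copies: all comparisons -/
theorem cross_ord {h0 h : G} (hh0 : h0 ≠ 0) (hh : h ≠ 0) (e : ℕ) (s : G) :
    cv2 (hf χ h false) h (D.φo h0 h) e s ∈ FullS G κ e ∧
    cv2 (hf χ h false) h (D.Φo h0 h) e s ∈ FullS G κ e ∧
      (∃ c ∈ CheapS G κ e, cv2 (hf χ h false) h (D.Φo h0 h) e s =
        cv2 (hf χ h false) h (D.φo h0 h) e s + c) ∧
      (∃ F ∈ FullS G κ e, cv2 (hf χ h false) h (D.u h) e s =
        cv2 (hf χ h false) h (D.Φo h0 h) e s + F) ∧
      (∃ c ∈ CheapS G κ e, cv2 (hf χ h false) h (D.u h) e s +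
        cv2 (hf χ h false) h (D.φo h0 h) e s =
        cv2 (hf χ h false) h (D.τ h) e s + cv2 (hf χ h false) h (D.Φo h0 h) e s + c) := by
  have hne : ∀ a : G, a ≠ a + h := fun a h1 => hh (left_eq_add.1 h1)
  choose σ1 hσ1 e1 using fun c => D.split_r hh0 c
  choose σ2 hσ2 e2 using fun c => D.split_b hh0 c
  refine cross_rec (hf χ h false) h (z := fun a => D.Z h0 a (a + h))
    (z' := fun a => D.Z' h0 a (a + h)) (σ := fun a => σ1 a + σ2 (a + h)) ?_ ?_ ?_ ?_ ?_ ?_ ?_ e s
  · intro a _; rfl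
  · intro a _
    unfold τ φo
    rw [e1 a, e2 (a + h)]
    ring
  · intro a _
    unfold u
    rw [D.hpp h0 a (a + h) hh0 (hne a)]
  · intro a _
    exact add_mem (D.hr h0 a) (D.hb h0 (a + h) hh0)
  · intro a _
    exact add_mem (hσ1 a) (hσ2 (a + h))
  · intro a _
    exact D.hZ h0 a (a + h) hh0 (hne a)
  · intro a _
    exact D.hZ' h0 a (a + h) hh0 (hne a)

theorem pp_cheap {h0 : G} (hh0 : h0 ≠ 0) {a a' : G} (h : a ≠ a') : D.p a * D.p a' ∈ Cheap1 G κ := by
  rw [D.hpp h0 a a' hh0 h]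
  exact add_mem (D.hZ h0 a a' hh0 h) (D.hZ' h0 a a' hh0 h)

/-- same colours against everything -/
theorem cross_T {h : G} (hh : h ≠ 0) (e : ℕ) (s : G) :
    cv2 (hf χ h false) h (D.τ h) e s ∈ FullS G κ e ∧
    ∃ c ∈ CheapS G κ e, cv2 (hf χ h false) h (D.u h) e s =
        cv2 (hf χ h false) h (D.τ h) e s + c := by
  have hne : ∀ a : G, a ≠ a + h := fun a h1 => hh (left_eq_add.1 h1)
  have h1 := cross_rec (κ := κ) (hf χ h false) h (φ := D.τ h) (Φ := D.u h) (τ := D.τ h) (u := D.u h)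
    (z := fun a => D.p a * D.p (a + h)) (z' := fun _ => 0) (σ := fun _ => 0)
    (fun a _ => rfl) (fun a _ => (add_zero _).symm) (fun a _ => by simp only [add_zero]; rfl)
    (fun a _ => add_mem (D.tri hh a).ht (D.tri hh (a + h)).ht) (fun a _ => zero_mem _)
    (fun a _ => D.pp_cheap hh (hne a)) (fun a _ => zero_mem _) e s
  exact ⟨h1.1, h1.2.2.1⟩

theorem cross_fin {h0 h : G} (hh0 : h0 ≠ 0) (hh : h ≠ 0) (e : ℕ) :
    ∃ x ∈ CheapS G κ (e + 1),
      (∑ a ∈ hf χ h true, cv2 (hf χ h false) h (D.u h) e (h + a) * lift e (D.u h a)) +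
        D.Ψφ h0 e h =
      (∑ a ∈ hf χ h true, cv2 (hf χ h false) h (D.τ h) e (h + a) * lift e (D.τ h a)) +
        D.Ψ h0 e h + x := by
  have hne : ∀ a : G, a ≠ a + h := fun a h1 => hh (left_eq_add.1 h1)
  choose σ1 hσ1 e1 using fun c => D.split_r hh c
  choose σ2 hσ2 e2 using fun c => D.split_b hh c
  have key : ∀ a : G, ∃ x ∈ CheapS G κ (e + 1),
      cv2 (hf χ h false) h (D.u h) e (h + a) * lift e (D.u h a) +
      cv2 (hf χ h false) h (D.φo h0 h) e (h + a) * lift e (D.φs h a) =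
      cv2 (hf χ h false) h (D.τ h) e (h + a) * lift e (D.τ h a) +
      cv2 (hf χ h false) h (D.Φo h0 h) e (h + a) * lift e (D.Φs h a) + x := by
    intro a
    obtain ⟨i1, i2, ⟨c1, hc1, k1⟩, ⟨F, hF, k2⟩, ⟨c2, hc2, k3⟩⟩ := D.cross_ord hh0 hh e (h + a)
    have hz := D.hZ h a (a + h) hh (hne a)
    have hz' := D.hZ' h a (a + h) hh (hne a)
    refine ⟨c2 * lift e (D.τ h a) + c1 * lift e (σ1 a + σ2 (a + h)) +
      F * lift e (D.Z h a (a + h) + D.Z' h a (a + h)) +
      cv2 (hf χ h false) h (D.Φo h0 h) e (h + a) * lift e (D.Z' h a (a + h)), ?_, ?_⟩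
    · exact add_mem (add_mem (add_mem (cheap_mul hc2 (add_mem (D.tri hh a).ht (D.tri hh (a + h)).ht))
        (cheap_mul hc1 (add_mem (hσ1 a) (hσ2 (a + h))))) (full_mul_cheap hF (add_mem hz hz')))
        (full_mul_cheap i2 hz')
    · have e3 : D.τ h a = D.φs h a + (σ1 a + σ2 (a + h)) := by
        unfold τ φs
        rw [e1 a, e2 (a + h)]
        ring
      have e4 : D.u h a = D.φs h a + (σ1 a + σ2 (a + h)) +
          (D.Z h a (a + h) + D.Z' h a (a + h)) := by
        unfold u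
        rw [D.hpp h a (a + h) hh (hne a), e3]
      have e5 : D.Φs h a = D.φs h a + D.Z h a (a + h) := rfl
      rw [e4, e5, e3]
      simp only [lift_add]
      generalize cv2 (hf χ h false) h (D.u h) e (h + a) = U at *
      generalize cv2 (hf χ h false) h (D.Φo h0 h) e (h + a) = P at *
      generalize cv2 (hf χ h false) h (D.φo h0 h) e (h + a) = Q at *
      generalize cv2 (hf χ h false) h (D.τ h) e (h + a) = T at *
      have k4 : F = U - P := by rw [k2]; ring
      have k5 : c1 = P - Q := by rw [k1]; ring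
      have k6 : c2 = U + Q - T - P := by rw [k3]; ring
      rw [k4, k5, k6]
      ring
  choose x hx ex using key
  refine ⟨∑ a ∈ hf χ h true, x a, sum_mem (fun a _ => hx a), ?_⟩
  unfold Ψφ Ψ
  rw [← Finset.sum_add_distrib, ← Finset.sum_add_distrib, ← Finset.sum_add_distrib]
  exact Finset.sum_congr rfl (fun a _ => ex a)

/-- expansion of a product along the classes modulo `h` -/
theorem pw_class (hχ : Chi χ) {h : G} (hh : h ≠ 0) (f : G → SF G) (F : SF G)
    (h1 : F = ∑ a ∈ hf χ h false, f a) (h2 : F = ∑ a ∈ hf χ h true, f a) (e : ℕ) :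
    pw F (e + 1) = ∑ t ∈ hf χ h false, ∑ a ∈ hf χ h true,
      cv2 (hf χ h false) h f e (t + (h + a)) * lift e (f a) := by
  rw [pw]
  nth_rewrite 1 [h1]
  rw [h2, pw_cv2 hχ hh false, lift_sum, Finset.mul_sum, Finset.sum_comm]
  apply Finset.sum_congr rfl
  intro a _
  rw [← Finset.sum_mul, per_shift hχ hh false (fun s => cv2 (hf χ h false) h f e s)
    (fun s => cv2_per hχ _ h f e s) (h + a)]

/-- cross pairs with difference `h` -/
def X (χ : G → G → Bool) (D : FD G χ κ) (h : G) : SF G := ∑ a ∈ hf χ h false, D.p a * D.p (a + h)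

theorem X_symm (hχ : Chi χ) {h : G} (hh : h ≠ 0) :
    D.X χ h = ∑ a ∈ hf χ h true, D.p a * D.p (a + h) := by
  unfold X
  refine Finset.sum_nbij' (fun a => a + h) (fun a => a + h) ?_ ?_ ?_ ?_ ?_
  · intro a ha
    rw [hf, Finset.mem_filter] at ha ⊢
    refine ⟨mem_univ _, ?_⟩
    rw [hχ.add, ha.2, hχ.self h hh]; rfl
  · intro a ha
    rw [hf, Finset.mem_filter] at ha ⊢
    refine ⟨mem_univ _, ?_⟩
    rw [hχ.add, ha.2, hχ.self h hh]; rfl
  · intro a _
    exact hχ.cancel a h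
  · intro a _
    exact hχ.cancel a h
  · intro a _
    rw [hχ.cancel, mul_comm]

theorem cross_all (hχ : Chi χ) {h0 h : G} (hh0 : h0 ≠ 0) (hh : h ≠ 0) (e : ℕ) :
    ∃ x ∈ CheapS G κ (e + 1), pw (∑ c, D.T c + D.X χ h) (e + 1) + D.Ψφ h0 e h =
      pw (∑ c, D.T c) (e + 1) + D.Ψ h0 e h + x := by
  have hne : ∀ a : G, a ≠ a + h := fun a h1 => hh (left_eq_add.1 h1)
  have a1 : ∑ c, D.T c = ∑ a ∈ hf χ h false, D.τ h a := hf_sum hχ hh false _
  have a2 : ∑ c, D.T c = ∑ a ∈ hf χ h true, D.τ h a := hf_sum hχ hh true _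
  have b1 : ∑ c, D.T c + D.X χ h = ∑ a ∈ hf χ h false, D.u h a := by
    rw [a1]
    unfold X u
    rw [← Finset.sum_add_distrib]
  have b2 : ∑ c, D.T c + D.X χ h = ∑ a ∈ hf χ h true, D.u h a := by
    rw [a2, D.X_symm hχ hh]
    unfold u
    rw [← Finset.sum_add_distrib]
  have A := pw_class hχ hh (D.u h) _ b1 b2 e
  have B := pw_class hχ hh (D.τ h) _ a1 a2 e
  obtain ⟨x, hx, ex⟩ := D.cross_fin (χ := χ) hh0 hh e
  choose y1 hy1 ey1 using fun s => (D.cross_T (χ := χ) hh e s).2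
  have hyf := fun s => (D.cross_T (χ := χ) hh e s).1
  have h0m : (0 : G) ∈ hf χ h false := by
    rw [hf, Finset.mem_filter]
    exact ⟨mem_univ _, hχ.zero h⟩
  have key : ∀ t a : G, cv2 (hf χ h false) h (D.u h) e (t + (h + a)) * lift e (D.u h a) =
      cv2 (hf χ h false) h (D.τ h) e (t + (h + a)) * lift e (D.τ h a) +
      (y1 (t + (h + a)) * lift e (D.u h a) +
        cv2 (hf χ h false) h (D.τ h) e (t + (h + a)) * lift e (D.p a * D.p (a + h))) := by
    intro t a
    have e4 : lift e (D.u h a) = lift e (D.τ h a) + lift e (D.p a * D.p (a + h)) := rfl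
    nth_rewrite 1 [ey1 (t + (h + a))]
    rw [e4]
    ring
  refine ⟨x + ∑ t ∈ (hf χ h false).erase 0, ∑ a ∈ hf χ h true,
      (y1 (t + (h + a)) * lift e (D.u h a) +
        cv2 (hf χ h false) h (D.τ h) e (t + (h + a)) * lift e (D.p a * D.p (a + h))), ?_, ?_⟩
  · refine add_mem hx (sum_mem (fun t _ => sum_mem (fun a _ => add_mem (cheap_mul (hy1 _) ?_)
      (full_mul_cheap (hyf _) (D.pp_cheap hh (hne a))))))
    exact add_mem (add_mem (D.tri hh a).ht (D.tri hh (a + h)).ht)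
      (cheap1_full1 (D.pp_cheap hh (hne a)))
  · rw [A, B, ← Finset.add_sum_erase _ _ h0m, ← Finset.add_sum_erase (hf χ h false)
      (fun t => ∑ a ∈ hf χ h true, cv2 (hf χ h false) h (D.τ h) e (t + (h + a)) *
        lift e (D.τ h a)) h0m]
    simp only [zero_add]
    have e5 : ∑ t ∈ (hf χ h false).erase 0, ∑ a ∈ hf χ h true,
        cv2 (hf χ h false) h (D.u h) e (t + (h + a)) * lift e (D.u h a) =
        ∑ t ∈ (hf χ h false).erase 0, ∑ a ∈ hf χ h true,
          cv2 (hf χ h false) h (D.τ h) e (t + (h + a)) * lift e (D.τ h a) +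
        ∑ t ∈ (hf χ h false).erase 0, ∑ a ∈ hf χ h true,
          (y1 (t + (h + a)) * lift e (D.u h a) +
          cv2 (hf χ h false) h (D.τ h) e (t + (h + a)) * lift e (D.p a * D.p (a + h))) := by
      rw [← Finset.sum_add_distrib]
      apply Finset.sum_congr rfl
      intro t _
      rw [← Finset.sum_add_distrib]
      exact Finset.sum_congr rfl (fun a _ => key t a)
    rw [e5]
    linear_combination ex

/-- **the main identity** -/
theorem main (hχ : Chi χ) {h0 : G} (hh0 : h0 ≠ 0) (e : ℕ) :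
    ∃ x ∈ CheapS G κ (e + 1), pw D.E2 (e + 1) =
      ∑ c, conv (D.r h0) e c * lift e (∑ g, D.r g c) +
      ∑ h ∈ univ.erase (0 : G), D.Ψ h0 e h + x := by
  obtain ⟨x, hx, ex⟩ := D.same_colour hχ hh0 e
  have hS : ∑ c, D.T c ∈ Full1 G κ := sum_mem (fun c _ => (D.tri hh0 c).ht)
  have hX : ∀ h ∈ univ.erase (0 : G), D.X χ h ∈ Cheap1 G κ := by
    intro h hh
    refine sum_mem (fun a _ => D.pp_cheap hh0 ?_)
    intro h1
    exact (Finset.ne_of_mem_erase hh) (left_eq_add.1 h1)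
  obtain ⟨y, hy, ey⟩ := cross_split (univ.erase (0 : G)) hS hX (e + 1)
  choose! z hz ez using fun (h : G) (hh : h ≠ 0) => D.cross_all hχ hh0 hh e
  refine ⟨x + y + ∑ h ∈ univ.erase (0 : G), z h, ?_, ?_⟩
  · exact add_mem (add_mem hx hy) (sum_mem (fun h hh => hz h (Finset.ne_of_mem_erase hh)))
  · have e1 : D.E2 = ∑ c, D.T c + ∑ h ∈ univ.erase (0 : G), D.X χ h := D.hE
    have e2 : ∑ h ∈ univ.erase (0 : G), pw (∑ c, D.T c + D.X χ h) (e + 1) +
        ∑ h ∈ univ.erase (0 : G), D.Ψφ h0 e h =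
        ∑ h ∈ univ.erase (0 : G), pw (∑ c, D.T c) (e + 1) +
        ∑ h ∈ univ.erase (0 : G), D.Ψ h0 e h + ∑ h ∈ univ.erase (0 : G), z h := by
      rw [← Finset.sum_add_distrib, ← Finset.sum_add_distrib, ← Finset.sum_add_distrib]
      exact Finset.sum_congr rfl (fun h hh => ez h (Finset.ne_of_mem_erase hh))
    rw [e1]
    linear_combination ey + e2 + ex

end FD

end Pool.Agent.Lib.MP_60210e_co.RankGaps
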