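import Pool.Agent.Lib.MP_60210e_co.RH4

/-!
# Decompositions of products of complete graphs, part 5: the pieces of one factor
-/

set_option autoImplicit false

namespace Pool.Agent.Lib.MP_60210e_co.RankGaps

open Finset

/-! ### weights of sets -/

/-- `L` is the weight of a set of vertices all of which have property `p` -/
def IsWt {V : Type} (p : V → Prop) (L : (V → ℤ) → ℤ) : Prop :=
  ∃ S : Finset V, (∀ v ∈ S, p v) ∧ ∀ w, L w = wt w S

theorem IsWt.mono {V : Type} {p q : V → Prop} {L : (V → ℤ) → ℤ} (h : IsWt p L)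
    (hpq : ∀ v, p v → q v) : IsWt q L := by
  obtain ⟨S, h1, h2⟩ := h
  exact ⟨S, fun v hv => hpq v (h1 v hv), h2⟩

theorem IsWt.congr {V : Type} {p : V → Prop} {L L' : (V → ℤ) → ℤ} (h : IsWt p L)
    (e : ∀ w, L' w = L w) : IsWt p L' := by
  obtain ⟨S, h1, h2⟩ := h
  exact ⟨S, h1, fun w => by rw [e, h2]⟩

theorem IsWt.pt {V : Type} (v : V) : IsWt (fun x => x = v) (fun w => w v) := by
  refine ⟨{v}, fun x hx => by simpa using hx, fun w => ?_⟩
  rw [wt, Finset.sum_singleton]

theorem IsWt.add {V : Type} {p q : V → Prop} {L L' : (V → ℤ) → ℤ} (h : IsWt p L) (h' : IsWt q L')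
    (hd : ∀ v, p v → q v → False) : IsWt (fun v => p v ∨ q v) (fun w => L w + L' w) := by
  classical
  obtain ⟨S, h1, h2⟩ := h
  obtain ⟨T, h3, h4⟩ := h'
  refine ⟨S ∪ T, ?_, fun w => ?_⟩
  · intro v hv
    rcases Finset.mem_union.1 hv with h | h
    · exact Or.inl (h1 v h)
    · exact Or.inr (h3 v h)
  · beta_reduce
    rw [wt, Finset.sum_union, h2, h4]
    · rfl
    · rw [Finset.disjoint_left]
      exact fun v hv hv' => hd v (h1 v hv) (h3 v hv')

theorem IsWt.sum {V ι : Type} (s : Finset ι) (p : ι → V → Prop) (L : ι → (V → ℤ) → ℤ)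
    (h : ∀ i ∈ s, IsWt (p i) (L i)) (hd : ∀ i ∈ s, ∀ j ∈ s, i ≠ j → ∀ v, p i v → p j v → False) :
    IsWt (fun v => ∃ i ∈ s, p i v) (fun w => ∑ i ∈ s, L i w) := by
  classical
  choose! S h1 h2 using h
  refine ⟨s.biUnion S, ?_, fun w => ?_⟩
  · intro v hv
    obtain ⟨i, hi, hv⟩ := Finset.mem_biUnion.1 hv
    exact ⟨i, hi, h1 i hi v hv⟩
  · beta_reduce
    rw [wt, Finset.sum_biUnion]
    · exact Finset.sum_congr rfl (fun i hi => h2 i hi w)
    · intro i hi j hj hij
      rw [Function.onFun, Finset.disjoint_left]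
      exact fun v hv hv' => hd i hi j hj hij v (h1 i hi v hv) (h1 j hj v hv')

theorem IsWt.dw {V : Type} {p q : V → Prop} {L L' : (V → ℤ) → ℤ} (h : IsWt p L) (h' : IsWt q L')
    (hd : ∀ v, p v → q v → False) : Dw 2 (fun w => L w * L' w) 1 := by
  obtain ⟨S, h1, h2⟩ := h
  obtain ⟨T, h3, h4⟩ := h'
  have := Dw.box2 S T (by rw [Finset.disjoint_left]; exact fun v hv hv' => hd v (h1 v hv) (h3 v hv'))
  exact this.congr (fun w => by rw [h2, h4])

theorem dw_sum1 {V ι : Type} (s : Finset ι) (F : ι → (V → ℤ) → ℤ) {n : ℕ} (hn : s.card ≤ n)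
    (h : ∀ i ∈ s, Dw 2 (F i) 1) : Dw 2 (fun w => ∑ i ∈ s, F i w) n := by
  have := Dw.sum s F (fun _ => 1) h
  refine this.mono ?_
  simpa using hn

/-! ### symmetrisation -/

theorem mul_filter {α : Type} [Fintype α] (x : ℤ) (y : α → ℤ) (p : α → Prop) [DecidablePred p] :
    x * ∑ b ∈ univ.filter p, y b = ∑ b, if p b then x * y b else 0 := by
  rw [Finset.mul_sum, Finset.sum_filter]

theorem two_or {α : Type} [Fintype α] (O R : α → α → Prop) [DecidableRel O] [DecidableRel R]
    (h1 : ∀ a b, R a b ↔ (O a b ∨ O b a)) (h2 : ∀ a b, O a b → O b a → False) (x : α → ℤ) :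
    2 * ∑ a, ∑ b, (if O a b then x a * x b else 0) =
      ∑ a, ∑ b, (if R a b then x a * x b else 0) := by
  have e1 : ∑ a, ∑ b, (if O a b then x a * x b else 0) =
      ∑ a, ∑ b, (if O b a then x a * x b else 0) := by
    rw [Finset.sum_comm]
    apply Finset.sum_congr rfl
    intro a _
    apply Finset.sum_congr rfl
    intro b _
    rw [mul_comm]
  rw [two_mul]
  nth_rewrite 2 [e1]
  rw [← Finset.sum_add_distrib]
  apply Finset.sum_congr rfl
  intro a _
  rw [← Finset.sum_add_distrib]
  apply Finset.sum_congr rfl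
  intro b _
  have h3 := h1 a b
  have h4 := h2 a b
  by_cases c1 : O a b <;> by_cases c2 : O b a
  · exact (h4 c1 c2).elim
  · rw [if_pos c1, if_neg c2, if_pos (h3.2 (Or.inl c1)), add_zero]
  · rw [if_neg c1, if_pos c2, if_pos (h3.2 (Or.inr c2)), zero_add]
  · rw [if_neg c1, if_neg c2, if_neg, add_zero]
    intro h5
    rcases h3.1 h5 with h6 | h6
    · exact c1 h6
    · exact c2 h6

theorem sq_ne {α : Type} [Fintype α] [DecidableEq α] (x : α → ℤ) :
    (∑ a, x a) ^ 2 - ∑ a, x a ^ 2 = ∑ a, ∑ b, (if a ≠ b then x a * x b else 0) := by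
  rw [sq, Finset.sum_mul_sum, ← Finset.sum_sub_distrib]
  apply Finset.sum_congr rfl
  intro a _
  have : ∑ b, (if a ≠ b then x a * x b else 0) =
      ∑ b, (x a * x b - if a = b then x a * x b else 0) := by
    apply Finset.sum_congr rfl
    intro b _
    by_cases h : a = b
    · rw [if_neg (by simpa using h), if_pos h, sub_self]
    · rw [if_pos h, if_neg h, sub_zero]
  rw [this, Finset.sum_sub_distrib, Finset.sum_ite_eq]
  simp [sq]

theorem two_lt {α : Type} [Fintype α] [LinearOrder α] (x : α → ℤ) :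
    2 * ∑ u, x u * ∑ u' ∈ univ.filter (fun u' => u < u'), x u' = (∑ u, x u) ^ 2 - ∑ u, x u ^ 2 := by
  rw [sq_ne]
  simp only [mul_filter]
  apply two_or (fun a b => a < b) (fun a b => a ≠ b)
  · intro a b
    exact lt_or_lt_iff_ne.symm
  · intro a b h1 h2
    exact absurd h1 (not_lt.2 h2.le)

/-- the vectors agree outside `h` -/
def Agr {α β : Type} (h : α) (z z' : α → β) : Prop := ∀ j, j ≠ h → z' j = z j

instance {α β : Type} [Fintype α] [DecidableEq α] [DecidableEq β] (h : α) (z z' : α → β) :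
    Decidable (Agr h z z') := by unfold Agr; infer_instance

theorem Agr.symm {α β : Type} {h : α} {z z' : α → β} (H : Agr h z z') : Agr h z' z :=
  fun j hj => (H j hj).symm

theorem agr_update {α β : Type} [DecidableEq α] (h : α) (z : α → β) (t : β) :
    Agr h z (Function.update z h t) := fun j hj => Function.update_of_ne hj t z

theorem Agr.update_eq {α β : Type} [DecidableEq α] {h : α} {z z' : α → β} (H : Agr h z z') :
    Function.update z h (z' h) = z' := by
  funext j
  by_cases hj : j = h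
  · subst hj
    rw [Function.update_self]
  · rw [Function.update_of_ne hj, H j hj]

theorem line_sum {α : Type} {M : ℕ} [Fintype α] [DecidableEq α] (z : α → Fin M) (h : α)
    (p : Fin M → Prop) [DecidablePred p] (F : (α → Fin M) → ℤ) :
    ∑ t ∈ univ.filter p, F (Function.update z h t) =
      ∑ z' , if Agr h z z' ∧ p (z' h) then F z' else 0 := by
  rw [← Finset.sum_filter]
  refine Finset.sum_nbij' (fun t => Function.update z h t) (fun z' => z' h) ?_ ?_ ?_ ?_ ?_
  · intro t ht
    rw [Finset.mem_filter] at ht ⊢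
    refine ⟨mem_univ _, agr_update h z t, ?_⟩
    rw [Function.update_self]
    exact ht.2
  · intro z' hz'
    rw [Finset.mem_filter] at hz' ⊢
    exact ⟨mem_univ _, hz'.2.2⟩
  · intro t _
    exact Function.update_self h t z
  · intro z' hz'
    rw [Finset.mem_filter] at hz'
    exact hz'.2.1.update_eq
  · intro t _
    rfl

theorem two_line {α : Type} {M : ℕ} [Fintype α] [DecidableEq α] (h : α)
    (P : (α → Fin M) → ℤ) :
    2 * ∑ z, P z * ∑ t ∈ univ.filter (fun t => z h < t), P (Function.update z h t) =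
      ∑ z, ∑ z', (if Agr h z z' ∧ z h ≠ z' h then P z * P z' else 0) := by
  have e1 : ∀ z : α → Fin M, P z * ∑ t ∈ univ.filter (fun t => z h < t),
      P (Function.update z h t) = ∑ z', (if Agr h z z' ∧ z h < z' h then P z * P z' else 0) := by
    intro z
    rw [line_sum z h (fun t => z h < t) P, Finset.mul_sum]
    apply Finset.sum_congr rfl
    intro z' _
    rw [mul_ite, mul_zero]
  rw [Finset.sum_congr rfl (fun z _ => e1 z)]
  apply two_or (fun z z' => Agr h z z' ∧ z h < z' h) (fun z z' => Agr h z z' ∧ z h ≠ z' h)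
  · intro a b
    constructor
    · rintro ⟨h1, h2⟩
      rcases lt_or_gt_of_ne h2 with h3 | h3
      · exact Or.inl ⟨h1, h3⟩
      · exact Or.inr ⟨h1.symm, h3⟩
    · rintro (⟨h1, h2⟩ | ⟨h1, h2⟩)
      · exact ⟨h1, h2.ne⟩
      · exact ⟨h1.symm, h2.ne'⟩
  · rintro a b ⟨_, h1⟩ ⟨_, h2⟩
    exact absurd h1 (not_lt.2 h2.le)

theorem reidx {α : Type} {M : ℕ} [Fintype α] [DecidableEq α] (h : α)
    (F : (α → Fin M) → (α → Fin M) → ℤ) :
    ∑ z, ∑ t ∈ univ.filter (fun t => t < z h), F z (Function.update z h t) =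
      ∑ z, ∑ t ∈ univ.filter (fun t => z h < t), F (Function.update z h t) z := by
  have e1 : ∀ z : α → Fin M, ∑ t ∈ univ.filter (fun t => t < z h), F z (Function.update z h t) =
      ∑ z', (if Agr h z z' ∧ z' h < z h then F z z' else 0) := fun z =>
    line_sum z h (fun t => t < z h) (F z)
  have e2 : ∀ z : α → Fin M, ∑ t ∈ univ.filter (fun t => z h < t), F (Function.update z h t) z =
      ∑ z', (if Agr h z z' ∧ z h < z' h then F z' z else 0) := fun z =>
    line_sum z h (fun t => z h < t) (fun y => F y z)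
  rw [Finset.sum_congr rfl (fun z _ => e1 z), Finset.sum_congr rfl (fun z _ => e2 z),
    Finset.sum_comm]
  apply Finset.sum_congr rfl
  intro z _
  apply Finset.sum_congr rfl
  intro z' _
  have : (Agr h z' z ∧ z h < z' h) ↔ (Agr h z z' ∧ z h < z' h) :=
    ⟨fun H => ⟨H.1.symm, H.2⟩, fun H => ⟨H.1.symm, H.2⟩⟩
  rw [if_congr this rfl rfl]

/-- an injective enumeration -/
noncomputable def en {α : Type} [Fintype α] (a : α) : ℕ := (Fintype.equivFin α a).val

theorem en_inj {α : Type} [Fintype α] : Function.Injective (en : α → ℕ) := by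
  intro a b h
  exact (Fintype.equivFin α).injective (Fin.ext h)

/-- the vectors differ in at least two coordinates -/
def Far {α β : Type} (z z' : α → β) : Prop := ∀ h, ¬ Agr h z z'

theorem rest_identity {α : Type} {M : ℕ} [Fintype α] [DecidableEq α]
    (R : (α → Fin M) → (α → Fin M) → Prop) [DecidableRel R]
    (hR : ∀ z z', R z z' ↔ (z ≠ z' ∧ Far z z')) (P : (α → Fin M) → ℤ) :
    (∑ z, P z) ^ 2 - ∑ z, P z ^ 2 =
      2 * ∑ h, ∑ z, P z * ∑ t ∈ univ.filter (fun t => z h < t), P (Function.update z h t) +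
      2 * ∑ z, P z * ∑ z' ∈ univ.filter (fun z' => en z < en z' ∧ R z z'), P z' := by
  classical
  rw [Finset.mul_sum, Finset.sum_congr rfl (fun h _ => two_line h P), Finset.sum_comm]
  simp only [mul_filter]
  rw [two_or (fun z z' => en z < en z' ∧ R z z') R, sq_ne, ← Finset.sum_add_distrib]
  · apply Finset.sum_congr rfl
    intro z _
    rw [Finset.sum_comm, ← Finset.sum_add_distrib]
    apply Finset.sum_congr rfl
    intro z' _
    by_cases h1 : z = z'
    · subst h1
      rw [if_neg (by simp), Finset.sum_eq_zero, if_neg, add_zero]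
      · intro h2
        exact ((hR z z).1 h2).1 rfl
      · intro h _
        rw [if_neg]
        simp
    · rw [if_pos h1]
      by_cases h2 : ∃ h, Agr h z z'
      · obtain ⟨h0, h0'⟩ := h2
        have h3 : z h0 ≠ z' h0 := by
          intro h4
          apply h1
          rw [← h0'.update_eq, ← h4, Function.update_eq_self]
        rw [Finset.sum_eq_single h0, if_pos ⟨h0', h3⟩, if_neg, add_zero]
        · intro h4
          exact ((hR z z').1 h4).2 h0 h0'
        · intro h _ hne
          rw [if_neg]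
          rintro ⟨h4, _⟩
          exact h3 (h4 h0 hne.symm).symm
        · intro h4
          exact (h4 (mem_univ _)).elim
      · push Not at h2
        rw [Finset.sum_eq_zero, if_pos, zero_add]
        · exact (hR z z').2 ⟨h1, h2⟩
        · intro h _
          rw [if_neg]
          rintro ⟨h4, _⟩
          exact h2 h h4
  · intro a b
    constructor
    · intro h
      have h1 := (hR a b).1 h
      have h2 : R b a := (hR b a).2 ⟨h1.1.symm, fun j hj => h1.2 j hj.symm⟩
      rcases lt_trichotomy (en a) (en b) with h3 | h3 | h3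
      · exact Or.inl ⟨h3, h⟩
      · exact (h1.1 (en_inj h3)).elim
      · exact Or.inr ⟨h3, h2⟩
    · rintro (⟨_, h⟩ | ⟨_, h⟩)
      · exact h
      · have h1 := (hR b a).1 h
        exact (hR a b).2 ⟨h1.1.symm, fun j hj => h1.2 j hj.symm⟩
  · rintro a b ⟨h1, _⟩ ⟨h2, _⟩
    omega

theorem E_two_sq {V : Type} [DecidableEq V] (S : Finset V) (w : V → ℤ) :
    2 * E 2 S w = (∑ v ∈ S, w v) ^ 2 - ∑ v ∈ S, w v ^ 2 := by
  induction S using Finset.induction_on with
  | empty => rw [E_empty]; simp
  | insert a S ha ih =>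
    rw [E_insert 1 ha, E_one, wt, Finset.sum_insert ha, Finset.sum_insert ha]
    linear_combination ih

end Pool.Agent.Lib.MP_60210e_co.RankGaps
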