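import Pool.Agent.Lib.MP_60210e_co.RH5

/-!
# Decompositions of products of complete graphs, part 6: the pieces of one factor
-/

set_option autoImplicit false
set_option linter.unusedSectionVars false

namespace Pool.Agent.Lib.MP_60210e_co.RankGaps

open Finset

theorem arr {M : ℕ} (x : Fin M → Fin M → ℤ) :
    ∑ t, ∑ u, x u t * ∑ t' ∈ univ.filter (fun t' => t < t'), ∑ u' ∈ univ.filter (fun u' => u' ≠ u),
        x u' t' + ∑ t, ∑ u, x u t * ∑ u' ∈ univ.filter (fun u' => u < u'), x u' t =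
      ∑ u, (∑ t, x u t) * ∑ u' ∈ univ.filter (fun u' => u < u'), ∑ t, x u' t := by
  have e1 : 2 * ∑ t, ∑ u, x u t * ∑ t' ∈ univ.filter (fun t' => t < t'),
      ∑ u' ∈ univ.filter (fun u' => u' ≠ u), x u' t' =
      ∑ t, ∑ u, ∑ t', ∑ u', (if t ≠ t' ∧ u ≠ u' then x u t * x u' t' else 0) := by
    have := two_or (α := Fin M × Fin M) (fun a b => a.1 < b.1 ∧ b.2 ≠ a.2)
      (fun a b => a.1 ≠ b.1 ∧ a.2 ≠ b.2) ?_ ?_ (fun a => x a.2 a.1)
    · simp only [Fintype.sum_prod_type] at this
      rw [← this]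
      congr 1
      apply Finset.sum_congr rfl
      intro t _
      apply Finset.sum_congr rfl
      intro u _
      rw [mul_filter]
      apply Finset.sum_congr rfl
      intro t' _
      by_cases h : t < t'
      · rw [if_pos h, mul_filter]
        apply Finset.sum_congr rfl
        intro u' _
        by_cases h' : u' ≠ u
        · rw [if_pos h', if_pos ⟨h, h'⟩]
        · rw [if_neg h', if_neg (fun H => h' H.2)]
      · rw [if_neg h]
        symm
        apply Finset.sum_eq_zero
        intro u' _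
        rw [if_neg (fun H => h H.1)]
    · intro a b
      constructor
      · rintro ⟨h1, h2⟩
        rcases lt_or_gt_of_ne h1 with h3 | h3
        · exact Or.inl ⟨h3, h2.symm⟩
        · exact Or.inr ⟨h3, h2⟩
      · rintro (⟨h1, h2⟩ | ⟨h1, h2⟩)
        · exact ⟨h1.ne, h2.symm⟩
        · exact ⟨h1.ne', h2⟩
    · rintro a b ⟨h1, _⟩ ⟨h2, _⟩
      exact absurd h1 (not_lt.2 h2.le)
  have e2 : 2 * ∑ t, ∑ u, x u t * ∑ u' ∈ univ.filter (fun u' => u < u'), x u' t =
      ∑ t, ∑ u, ∑ t', ∑ u', (if t = t' ∧ u ≠ u' then x u t * x u' t' else 0) := by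
    rw [Finset.mul_sum]
    apply Finset.sum_congr rfl
    intro t _
    rw [two_lt, sq_ne]
    apply Finset.sum_congr rfl
    intro u _
    symm
    rw [Finset.sum_eq_single t]
    · apply Finset.sum_congr rfl
      intro u' _
      by_cases h : u ≠ u'
      · rw [if_pos h, if_pos ⟨rfl, h⟩]
      · rw [if_neg h, if_neg (fun H => h H.2)]
    · intro t' _ ht'
      apply Finset.sum_eq_zero
      intro u' _
      rw [if_neg (fun H => ht' H.1.symm)]
    · intro h
      exact (h (mem_univ _)).elim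
  have e3 : 2 * ∑ u, (∑ t, x u t) * ∑ u' ∈ univ.filter (fun u' => u < u'), ∑ t, x u' t =
      ∑ t, ∑ u, ∑ t', ∑ u', (if u ≠ u' then x u t * x u' t' else 0) := by
    rw [two_lt, sq_ne, Finset.sum_comm (s := (univ : Finset (Fin M)))
      (f := fun t u => ∑ t', ∑ u', (if u ≠ u' then x u t * x u' t' else 0))]
    apply Finset.sum_congr rfl
    intro u _
    have e6 : ∀ b : Fin M, (if u ≠ b then (∑ t, x u t) * ∑ t, x b t else 0) =
        ∑ t, ∑ t', (if u ≠ b then x u t * x b t' else 0) := by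
      intro b
      by_cases h : u ≠ b
      · rw [if_pos h, Finset.sum_mul_sum]
        apply Finset.sum_congr rfl
        intro t _
        apply Finset.sum_congr rfl
        intro t' _
        rw [if_pos h]
      · rw [if_neg h]
        symm
        apply Finset.sum_eq_zero
        intro t _
        apply Finset.sum_eq_zero
        intro t' _
        rw [if_neg h]
    rw [Finset.sum_congr rfl (fun b _ => e6 b), Finset.sum_comm]
    apply Finset.sum_congr rfl
    intro t _
    rw [Finset.sum_comm]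
  have e4 : ∑ t : Fin M, ∑ u : Fin M, ∑ t' : Fin M, ∑ u' : Fin M,
      (if u ≠ u' then x u t * x u' t' else 0) =
      ∑ t, ∑ u, ∑ t', ∑ u', (if t ≠ t' ∧ u ≠ u' then x u t * x u' t' else 0) +
      ∑ t, ∑ u, ∑ t', ∑ u', (if t = t' ∧ u ≠ u' then x u t * x u' t' else 0) := by
    simp only [← Finset.sum_add_distrib]
    refine Finset.sum_congr rfl (fun t _ => Finset.sum_congr rfl (fun u _ =>
      Finset.sum_congr rfl (fun t' _ => Finset.sum_congr rfl (fun u' _ => ?_))))
    by_cases h1 : t = t' <;> by_cases h2 : u = u' <;> simp [h1, h2]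
  have e5 : (2 : ℤ) ≠ 0 := by norm_num
  apply mul_left_cancel₀ e5
  rw [mul_add, e1, e2, e3, e4]


/-! ### lines -/

/-- put `t` in the coordinate `h` -/
def glue {α : Type} {M : ℕ} [DecidableEq α] (h : α) (t : Fin M) (l : {j // j ≠ h} → Fin M) :
    α → Fin M := (Equiv.funSplitAt h (Fin M)).symm (t, l)

theorem glue_self {α : Type} {M : ℕ} [DecidableEq α] (h : α) (t : Fin M)
    (l : {j // j ≠ h} → Fin M) : glue h t l h = t :=
  congrArg Prod.fst ((Equiv.funSplitAt h (Fin M)).apply_symm_apply (t, l))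

theorem glue_update {α : Type} {M : ℕ} [DecidableEq α] (h : α) (t t' : Fin M)
    (l : {j // j ≠ h} → Fin M) : Function.update (glue h t l) h t' = glue h t' l := by
  apply (Equiv.funSplitAt h (Fin M)).injective
  have h1 := (Equiv.funSplitAt h (Fin M)).apply_symm_apply (t, l)
  have h2 := (Equiv.funSplitAt h (Fin M)).apply_symm_apply (t', l)
  unfold glue
  rw [h2]
  refine Prod.ext ?_ ?_
  · exact Function.update_self (β := fun _ => Fin M) h t' _
  · funext j
    exact (Function.update_of_ne (β := fun _ => Fin M) j.2 t' _).trans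
      (congrFun (congrArg Prod.snd h1) j)

theorem sum_glue {α : Type} {M : ℕ} [Fintype α] [DecidableEq α] (h : α) (F : (α → Fin M) → ℤ) :
    ∑ z, F z = ∑ l : ({j // j ≠ h} → Fin M), ∑ t, F (glue h t l) := by
  rw [← Equiv.sum_comp (Equiv.funSplitAt h (Fin M)).symm F, Fintype.sum_prod_type_right]
  rfl

theorem card_lines {α : Type} (M : ℕ) [Fintype α] [DecidableEq α] (h : α) :
    Fintype.card ({j // j ≠ h} → Fin M) * M = M ^ (Fintype.card α) := by
  have h1 := Fintype.card_congr (Equiv.funSplitAt h (Fin M))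
  rw [Fintype.card_prod, Fintype.card_fin, Fintype.card_fun, Fintype.card_fin] at h1
  rw [h1, mul_comm]

section pieces
variable {G : Type} [Fintype G] [DecidableEq G] [AddCommGroup G]

def Pz {M : ℕ} (w : VV G M → ℤ) (c : G) (z : HH G → Fin M) : ℤ := ∑ u, w (c, (u, z))

def pF (c : G) : SF G := fun _ w => ∑ z, Pz w c z

def r0F (c : G) : SF G := fun _ w =>
  ∑ z, ∑ u, w (c, (u, z)) * ∑ u' ∈ univ.filter (fun u' => u < u'), w (c, (u', z))

def rF (h : HH G) (c : G) : SF G := fun _ w =>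
  ∑ z, ∑ u, w (c, (u, z)) *
    ∑ t ∈ univ.filter (fun t => z h < t), w (c, (u, Function.update z h t))

def bF (h : HH G) (c : G) : SF G := fun _ w =>
  ∑ z, ∑ u, w (c, (u, z)) * ∑ t ∈ univ.filter (fun t => z h < t),
    ∑ u' ∈ univ.filter (fun u' => u' ≠ u), w (c, (u', Function.update z h t))

def ZF (h : HH G) (a a' : G) : SF G := fun _ w =>
  ∑ z, Pz w a z * ∑ t ∈ univ.filter (fun t => t < z h), Pz w a' (Function.update z h t)

def ZF' (h : HH G) (a a' : G) : SF G := fun _ w =>
  ∑ z, Pz w a z * ∑ z' ∈ univ.filter (fun z' => ¬ (Agr h z z' ∧ z' h < z h)), Pz w a' z'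

open Classical in
noncomputable def restF (c : G) : SF G := fun _ w =>
  ∑ z, Pz w c z * ∑ z' ∈ univ.filter (fun z' => en z < en z' ∧ (z ≠ z' ∧ Far z z')), Pz w c z'

/-! ### supports -/

theorem isWt_Pz {M : ℕ} (c : G) (z : HH G → Fin M) :
    IsWt (fun v : VV G M => v.1 = c ∧ v.2.2 = z) (fun w => Pz w c z) := by
  refine (IsWt.sum univ (fun u v => v = (c, (u, z))) (fun u w => w (c, (u, z)))
    (fun u _ => IsWt.pt _) ?_).mono ?_
  · rintro u _ u' _ hne v h1 h2
    rw [h1] at h2
    exact hne (congrArg (fun v => v.2.1) h2)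
  · rintro v ⟨u, _, rfl⟩
    exact ⟨rfl, rfl⟩

theorem isWt_Pset {M : ℕ} (c : G) (s : Finset (HH G → Fin M)) :
    IsWt (fun v : VV G M => v.1 = c ∧ v.2.2 ∈ s) (fun w => ∑ z ∈ s, Pz w c z) := by
  refine (IsWt.sum s (fun z v => v.1 = c ∧ v.2.2 = z) (fun z w => Pz w c z)
    (fun z _ => isWt_Pz c z) ?_).mono ?_
  · rintro z _ z' _ hne v ⟨_, h1⟩ ⟨_, h2⟩
    exact hne (h1.symm.trans h2)
  · rintro v ⟨z, hz, h1, h2⟩
    exact ⟨h1, h2 ▸ hz⟩

theorem upd_inj {M : ℕ} {α : Type} [DecidableEq α] {z : α → Fin M} {h : α} {t t' : Fin M}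
    (H : Function.update z h t = Function.update z h t') : t = t' := by
  have := congrFun H h
  rwa [Function.update_self, Function.update_self] at this

theorem isWt_Pline {M : ℕ} (c : G) (z : HH G → Fin M) (h : HH G) (s : Finset (Fin M)) :
    IsWt (fun v : VV G M => v.1 = c ∧ ∃ t ∈ s, v.2.2 = Function.update z h t)
      (fun w => ∑ t ∈ s, Pz w c (Function.update z h t)) := by
  refine (IsWt.sum s (fun t v => v.1 = c ∧ v.2.2 = Function.update z h t)
    (fun t w => Pz w c (Function.update z h t)) (fun t _ => isWt_Pz c _) ?_).mono ?_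
  · rintro t _ t' _ hne v ⟨_, h1⟩ ⟨_, h2⟩
    exact hne (upd_inj (h1.symm.trans h2))
  · rintro v ⟨t, ht, h1, h2⟩
    exact ⟨h1, t, ht, h2⟩

theorem isWt_us {M : ℕ} (c : G) (z : HH G → Fin M) (s : Finset (Fin M)) :
    IsWt (fun v : VV G M => v.1 = c ∧ v.2.1 ∈ s ∧ v.2.2 = z)
      (fun w => ∑ u ∈ s, w (c, (u, z))) := by
  refine (IsWt.sum s (fun u v => v = (c, (u, z))) (fun u w => w (c, (u, z)))
    (fun u _ => IsWt.pt _) ?_).mono ?_
  · rintro u _ u' _ hne v h1 h2
    rw [h1] at h2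
    exact hne (congrArg (fun v => v.2.1) h2)
  · rintro v ⟨u, hu, rfl⟩
    exact ⟨rfl, hu, rfl⟩

theorem isWt_line {M : ℕ} (c : G) (u : Fin M) (z : HH G → Fin M) (h : HH G) (s : Finset (Fin M)) :
    IsWt (fun v : VV G M => v.1 = c ∧ v.2.1 = u ∧ ∃ t ∈ s, v.2.2 = Function.update z h t)
      (fun w => ∑ t ∈ s, w (c, (u, Function.update z h t))) := by
  refine (IsWt.sum s (fun t v => v = (c, (u, Function.update z h t)))
    (fun t w => w (c, (u, Function.update z h t))) (fun t _ => IsWt.pt _) ?_).mono ?_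
  · rintro t _ t' _ hne v h1 h2
    rw [h1] at h2
    exact hne (upd_inj (congrArg (fun v => v.2.2) h2))
  · rintro v ⟨t, ht, rfl⟩
    exact ⟨rfl, rfl, t, ht, rfl⟩

theorem isWt_lines {M : ℕ} (c : G) (z : HH G → Fin M) (h : HH G) (s s' : Finset (Fin M)) :
    IsWt (fun v : VV G M => v.1 = c ∧ v.2.1 ∈ s' ∧ ∃ t ∈ s, v.2.2 = Function.update z h t)
      (fun w => ∑ t ∈ s, ∑ u ∈ s', w (c, (u, Function.update z h t))) := by
  refine (IsWt.sum s (fun t v => v.1 = c ∧ v.2.1 ∈ s' ∧ v.2.2 = Function.update z h t)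
    (fun t w => ∑ u ∈ s', w (c, (u, Function.update z h t))) (fun t _ => isWt_us c _ s')
    ?_).mono ?_
  · rintro t _ t' _ hne v ⟨_, _, h1⟩ ⟨_, _, h2⟩
    exact hne (upd_inj (h1.symm.trans h2))
  · rintro v ⟨t, ht, h1, h2, h3⟩
    exact ⟨h1, h2, t, ht, h3⟩

/-! ### costs -/

theorem card_Q (M : ℕ) : (univ : Finset (HH G → Fin M)).card = M ^ (Fintype.card (HH G)) := by
  rw [Finset.card_univ, Fintype.card_fun, Fintype.card_fin]

theorem dw_z {M : ℕ} (F : (HH G → Fin M) → (VV G M → ℤ) → ℤ) (h : ∀ z, Dw 2 (F z) 1) :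
    Dw 2 (fun w => ∑ z, F z w) (M ^ (Fintype.card (HH G))) :=
  dw_sum1 univ F (card_Q M).le (fun z _ => h z)

theorem dw_uz {M : ℕ} (F : (HH G → Fin M) → Fin M → (VV G M → ℤ) → ℤ)
    (h : ∀ z u, Dw 2 (F z u) 1) :
    Dw 2 (fun w => ∑ z, ∑ u, F z u w) (M ^ (Fintype.card (HH G) + 1)) := by
  have h1 : ∀ z ∈ (univ : Finset (HH G → Fin M)), Dw 2 (fun w => ∑ u, F z u w) M := fun z _ =>
    dw_sum1 univ (F z) (by simp) (fun u _ => h z u)
  refine (Dw.sum univ (fun z w => ∑ u, F z u w) (fun _ => M) h1).mono ?_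
  rw [Finset.sum_const, card_Q, smul_eq_mul, pow_succ]

theorem full_of {f : SF G} (h : ∀ M, Dw 2 (f M) (M ^ (Fintype.card (HH G) + 1))) :
    f ∈ Full1 G (Fintype.card (HH G)) := ⟨1, fun M _ => (h M).mono (by rw [one_mul])⟩

theorem cheap_of {f : SF G} (h : ∀ M, Dw 2 (f M) (M ^ (Fintype.card (HH G)))) :
    f ∈ Cheap1 G (Fintype.card (HH G)) :=
  ⟨1, fun M _ => ⟨_, h M, by rw [one_mul, pow_succ]⟩⟩

theorem dw_r0 (M : ℕ) (c : G) : Dw 2 (r0F c M) (M ^ (Fintype.card (HH G) + 1)) := by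
  refine dw_uz (G := G) (fun z u w => w (c, (u, z)) *
    ∑ u' ∈ univ.filter (fun u' => u < u'), w (c, (u', z))) (fun z u => ?_)
  refine (IsWt.pt (c, (u, z))).dw (isWt_us c z (univ.filter (fun u' => u < u'))) ?_
  rintro v h1 ⟨_, h2, _⟩
  rw [h1] at h2
  exact absurd (Finset.mem_filter.1 h2).2 (lt_irrefl _)

theorem ne_upd {M : ℕ} {α : Type} [DecidableEq α] {z : α → Fin M} {h : α} {t : Fin M}
    (ht : t ≠ z h) : z ≠ Function.update z h t := by
  intro H
  have := congrFun H h
  rw [Function.update_self] at this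
  exact ht this.symm

theorem dw_r (M : ℕ) (h : HH G) (c : G) : Dw 2 (rF h c M) (M ^ (Fintype.card (HH G) + 1)) := by
  refine dw_uz (G := G) (fun z u w => w (c, (u, z)) *
    ∑ t ∈ univ.filter (fun t => z h < t), w (c, (u, Function.update z h t))) (fun z u => ?_)
  refine (IsWt.pt (c, (u, z))).dw (isWt_line c u z h (univ.filter (fun t => z h < t))) ?_
  rintro v h1 ⟨_, _, t, ht, h2⟩
  rw [h1] at h2
  exact ne_upd (Finset.mem_filter.1 ht).2.ne' h2

theorem dw_b (M : ℕ) (h : HH G) (c : G) : Dw 2 (bF h c M) (M ^ (Fintype.card (HH G) + 1)) := by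
  refine dw_uz (G := G) (fun z u w => w (c, (u, z)) * ∑ t ∈ univ.filter (fun t => z h < t),
    ∑ u' ∈ univ.filter (fun u' => u' ≠ u), w (c, (u', Function.update z h t))) (fun z u => ?_)
  refine (IsWt.pt (c, (u, z))).dw (isWt_lines c z h (univ.filter (fun t => z h < t))
    (univ.filter (fun u' => u' ≠ u))) ?_
  rintro v h1 ⟨_, _, t, ht, h2⟩
  rw [h1] at h2
  exact ne_upd (Finset.mem_filter.1 ht).2.ne' h2

theorem dw_Z (M : ℕ) (h : HH G) {a a' : G} (hne : a ≠ a') :
    Dw 2 (ZF h a a' M) (M ^ (Fintype.card (HH G))) := by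
  refine dw_z (G := G) (fun z w => Pz w a z *
    ∑ t ∈ univ.filter (fun t => t < z h), Pz w a' (Function.update z h t)) (fun z => ?_)
  refine (isWt_Pz a z).dw (isWt_Pline a' z h (univ.filter (fun t => t < z h))) ?_
  rintro v ⟨h1, _⟩ ⟨h2, _⟩
  exact hne (h1.symm.trans h2)

theorem dw_Z' (M : ℕ) (h : HH G) {a a' : G} (hne : a ≠ a') :
    Dw 2 (ZF' h a a' M) (M ^ (Fintype.card (HH G))) := by
  refine dw_z (G := G) (fun z w => Pz w a z *
    ∑ z' ∈ univ.filter (fun z' => ¬ (Agr h z z' ∧ z' h < z h)), Pz w a' z') (fun z => ?_)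
  refine (isWt_Pz a z).dw (isWt_Pset a' _) ?_
  rintro v ⟨h1, _⟩ ⟨h2, _⟩
  exact hne (h1.symm.trans h2)

theorem dw_rest (M : ℕ) (c : G) : Dw 2 (restF c M) (M ^ (Fintype.card (HH G))) := by
  classical
  refine dw_z (G := G) (fun z w => Pz w c z *
    ∑ z' ∈ univ.filter (fun z' => en z < en z' ∧ (z ≠ z' ∧ Far z z')), Pz w c z') (fun z => ?_)
  refine (isWt_Pz c z).dw (isWt_Pset c _) ?_
  rintro v ⟨_, h1⟩ ⟨_, h2⟩
  rw [h1] at h2
  exact (Finset.mem_filter.1 h2).2.2.1 rfl

theorem rb_eq (h : HH G) (c : G) (M : ℕ) (w : VV G M → ℤ) :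
    (rF h c + bF h c) M w = ∑ z, Pz w c z * ∑ t ∈ univ.filter (fun t => z h < t),
      Pz w c (Function.update z h t) := by
  show rF h c M w + bF h c M w = _
  unfold rF bF
  rw [← Finset.sum_add_distrib]
  apply Finset.sum_congr rfl
  intro z _
  rw [← Finset.sum_add_distrib]
  unfold Pz
  rw [Finset.sum_mul]
  apply Finset.sum_congr rfl
  intro u _
  rw [← mul_add, ← Finset.sum_add_distrib]
  congr 1
  apply Finset.sum_congr rfl
  intro t _
  rw [← Finset.add_sum_erase univ (fun u => w (c, (u, Function.update z h t))) (mem_univ u)]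
  congr 1
  apply Finset.sum_congr _ (fun _ _ => rfl)
  ext u'
  simp

theorem dw_rb (M : ℕ) (h : HH G) (c : G) :
    Dw 2 ((rF h c + bF h c) M) (M ^ (Fintype.card (HH G))) := by
  refine (dw_z (G := G) (fun z w => Pz w c z * ∑ t ∈ univ.filter (fun t => z h < t),
      Pz w c (Function.update z h t)) (fun z => ?_)).congr (rb_eq h c M)
  refine (isWt_Pz c z).dw (isWt_Pline c z h (univ.filter (fun t => z h < t))) ?_
  rintro v ⟨_, h1⟩ ⟨_, t, ht, h2⟩
  rw [h1] at h2
  exact ne_upd (Finset.mem_filter.1 ht).2.ne' h2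

theorem b0_eq (h : HH G) (c : G) (M : ℕ) (w : VV G M → ℤ) :
    (bF h c + r0F c) M w = ∑ l : ({j // j ≠ h} → Fin M), ∑ u,
      (∑ t, w (c, (u, glue h t l))) * ∑ u' ∈ univ.filter (fun u' => u < u'),
        ∑ t, w (c, (u', glue h t l)) := by
  show bF h c M w + r0F c M w = _
  unfold bF r0F
  rw [sum_glue h, sum_glue h, ← Finset.sum_add_distrib]
  apply Finset.sum_congr rfl
  intro l _
  rw [← arr (fun u t => w (c, (u, glue h t l)))]
  congr 1
  apply Finset.sum_congr rfl
  intro t _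
  apply Finset.sum_congr rfl
  intro u _
  rw [glue_self]
  congr 1
  apply Finset.sum_congr rfl
  intro t' _
  apply Finset.sum_congr rfl
  intro u' _
  rw [glue_update]

theorem dw_b0 (M : ℕ) (h : HH G) (c : G) :
    Dw 2 ((bF h c + r0F c) M) (M ^ (Fintype.card (HH G))) := by
  have glue_inj : ∀ (l : {j // j ≠ h} → Fin M) (t t' : Fin M), glue h t l = glue h t' l →
      t = t' := by
    intro l t t' H
    rw [← glue_self h t l, H, glue_self]
  have h1 : ∀ (l : {j // j ≠ h} → Fin M) (u : Fin M),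
      IsWt (fun v : VV G M => v.1 = c ∧ v.2.1 = u) (fun w => ∑ t, w (c, (u, glue h t l))) := by
    intro l u
    refine (IsWt.sum univ (fun t v => v = (c, (u, glue h t l))) (fun t w => w (c, (u, glue h t l)))
      (fun t _ => IsWt.pt _) ?_).mono ?_
    · rintro t _ t' _ hne v h1 h2
      rw [h1] at h2
      exact hne (glue_inj l t t' (congrArg (fun v => v.2.2) h2))
    · rintro v ⟨t, _, rfl⟩
      exact ⟨rfl, rfl⟩
  have h2 : ∀ (l : {j // j ≠ h} → Fin M) (u : Fin M),
      IsWt (fun v : VV G M => v.1 = c ∧ u < v.2.1)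
        (fun w => ∑ u' ∈ univ.filter (fun u' => u < u'), ∑ t, w (c, (u', glue h t l))) := by
    intro l u
    refine (IsWt.sum (univ.filter (fun u' => u < u')) (fun u' v => v.1 = c ∧ v.2.1 = u')
      (fun u' w => ∑ t, w (c, (u', glue h t l))) (fun u' _ => h1 l u') ?_).mono ?_
    · rintro u _ u' _ hne v ⟨_, h1⟩ ⟨_, h2⟩
      exact hne (h1.symm.trans h2)
    · rintro v ⟨u', hu', h1, h2⟩
      exact ⟨h1, h2 ▸ (Finset.mem_filter.1 hu').2⟩
  have h3 : ∀ l ∈ (univ : Finset ({j // j ≠ h} → Fin M)), Dw 2 (fun w : VV G M → ℤ => ∑ u,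
      (∑ t, w (c, (u, glue h t l))) * ∑ u' ∈ univ.filter (fun u' => u < u'),
        ∑ t, w (c, (u', glue h t l))) M := by
    intro l _
    refine dw_sum1 univ (fun u w => (∑ t, w (c, (u, glue h t l))) *
      ∑ u' ∈ univ.filter (fun u' => u < u'), ∑ t, w (c, (u', glue h t l))) (by simp) (fun u _ => ?_)
    refine (h1 l u).dw (h2 l u) ?_
    rintro v ⟨_, h4⟩ ⟨_, h5⟩
    rw [h4] at h5
    exact lt_irrefl _ h5
  refine ((Dw.sum univ _ (fun _ => M) h3).mono ?_).congr (b0_eq h c M)
  rw [Finset.sum_const, Finset.card_univ, smul_eq_mul, card_lines]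

theorem pp_eq (h : HH G) (a a' : G) : pF a * pF a' = ZF h a a' + ZF' h a a' := by
  funext M w
  show pF a M w * pF a' M w = ZF h a a' M w + ZF' h a a' M w
  unfold pF ZF ZF'
  rw [Finset.sum_mul, ← Finset.sum_add_distrib]
  apply Finset.sum_congr rfl
  intro z _
  rw [line_sum z h (fun t => t < z h) (Pz w a'), ← mul_add, ← Finset.sum_filter,
    Finset.sum_filter_add_sum_filter_not]

/-! ### the expensive families -/

/-- the family with a pinned vertex -/
theorem dw_pin (M : ℕ) (c : G) : Dw 2 (fun w => r0F c M w + ∑ h, rF h c M w)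
    (M ^ (Fintype.card (HH G) + 1)) := by
  refine (dw_uz (G := G) (fun z u w => w (c, (u, z)) *
    (∑ u' ∈ univ.filter (fun u' => u < u'), w (c, (u', z)) +
      ∑ h : HH G, ∑ t ∈ univ.filter (fun t => z h < t), w (c, (u, Function.update z h t))))
      (fun z u => ?_)).congr (fun w => ?_)
  · refine (IsWt.pt (c, (u, z))).dw (IsWt.add (isWt_us c z (univ.filter (fun u' => u < u')))
      (IsWt.sum univ (fun h v => v.1 = c ∧ v.2.1 = u ∧ ∃ t ∈ univ.filter (fun t => z h < t),
          v.2.2 = Function.update z h t)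
        (fun h w => ∑ t ∈ univ.filter (fun t => z h < t), w (c, (u, Function.update z h t)))
        (fun h _ => isWt_line c u z h (univ.filter (fun t => z h < t))) ?_) ?_) ?_
    · rintro h _ h' _ hne v ⟨_, _, t, ht, h1⟩ ⟨_, _, t', _, h2⟩
      have h3 := congrFun (h1.symm.trans h2) h
      rw [Function.update_self, Function.update_of_ne hne] at h3
      exact (Finset.mem_filter.1 ht).2.ne' h3
    · rintro v ⟨_, h1, _⟩ ⟨h, _, _, h2, _⟩
      rw [h2] at h1
      exact absurd (Finset.mem_filter.1 h1).2 (lt_irrefl _)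
    · rintro v h1 (⟨_, h2, _⟩ | ⟨h, _, _, _, t, ht, h2⟩)
      · rw [h1] at h2
        exact absurd (Finset.mem_filter.1 h2).2 (lt_irrefl _)
      · rw [h1] at h2
        exact ne_upd (Finset.mem_filter.1 ht).2.ne' h2
  · unfold r0F rF
    rw [Finset.sum_comm (s := (univ : Finset (HH G))), ← Finset.sum_add_distrib]
    apply Finset.sum_congr rfl
    intro z _
    rw [Finset.sum_comm (s := (univ : Finset (HH G))), ← Finset.sum_add_distrib]
    apply Finset.sum_congr rfl
    intro u _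
    rw [mul_add, Finset.mul_sum (s := (univ : Finset (HH G)))]

theorem Phi_eq (h : HH G) (a a' : G) (M : ℕ) (w : VV G M → ℤ) :
    rF h a M w + bF h a' M w + ZF h a a' M w =
      ∑ z : HH G → Fin M, ∑ u, (w (a, (u, z)) + ∑ u' ∈ univ.filter (fun u' => u' ≠ u), w (a', (u', z))) *
        (∑ t ∈ univ.filter (fun t => z h < t), w (a, (u, Function.update z h t)) +
          ∑ t ∈ univ.filter (fun t => t < z h), w (a', (u, Function.update z h t))) := by
  have e1 : ∑ z : HH G → Fin M, ∑ u, (∑ u' ∈ univ.filter (fun u' => u' ≠ u), w (a', (u', z))) *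
      ∑ t ∈ univ.filter (fun t => z h < t), w (a, (u, Function.update z h t)) =
      ∑ z : HH G → Fin M, ∑ u, w (a, (u, z)) * ∑ t ∈ univ.filter (fun t => t < z h),
        ∑ u' ∈ univ.filter (fun u' => u' ≠ u), w (a', (u', Function.update z h t)) := by
    have := reidx h (fun z1 z2 : HH G → Fin M => ∑ u, w (a, (u, z1)) *
      ∑ u' ∈ univ.filter (fun u' => u' ≠ u), w (a', (u', z2)))
    have e2 : ∀ z : HH G → Fin M, ∑ u, (∑ u' ∈ univ.filter (fun u' => u' ≠ u), w (a', (u', z))) *
        ∑ t ∈ univ.filter (fun t => z h < t), w (a, (u, Function.update z h t)) =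
        ∑ t ∈ univ.filter (fun t => z h < t), ∑ u, w (a, (u, Function.update z h t)) *
          ∑ u' ∈ univ.filter (fun u' => u' ≠ u), w (a', (u', z)) := by
      intro z
      rw [Finset.sum_comm (t := (univ : Finset (Fin M)))]
      apply Finset.sum_congr rfl
      intro u _
      rw [Finset.mul_sum]
      apply Finset.sum_congr rfl
      intro t _
      rw [mul_comm]
    have e3 : ∀ z : HH G → Fin M, ∑ u, w (a, (u, z)) * ∑ t ∈ univ.filter (fun t => t < z h),
        ∑ u' ∈ univ.filter (fun u' => u' ≠ u), w (a', (u', Function.update z h t)) =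
        ∑ t ∈ univ.filter (fun t => t < z h), ∑ u, w (a, (u, z)) *
          ∑ u' ∈ univ.filter (fun u' => u' ≠ u), w (a', (u', Function.update z h t)) := by
      intro z
      rw [Finset.sum_comm (t := (univ : Finset (Fin M)))]
      apply Finset.sum_congr rfl
      intro u _
      rw [Finset.mul_sum]
    rw [Finset.sum_congr rfl (fun z _ => e2 z), Finset.sum_congr rfl (fun z _ => e3 z)]
    exact this.symm
  have e4 : ∑ z : HH G → Fin M, ∑ u, (∑ u' ∈ univ.filter (fun u' => u' ≠ u), w (a', (u', z))) *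
      ∑ t ∈ univ.filter (fun t => t < z h), w (a', (u, Function.update z h t)) =
      ∑ z : HH G → Fin M, ∑ u, w (a', (u, z)) * ∑ t ∈ univ.filter (fun t => z h < t),
        ∑ u' ∈ univ.filter (fun u' => u' ≠ u), w (a', (u', Function.update z h t)) := by
    have := reidx h (fun z1 z2 : HH G → Fin M => ∑ u, (∑ u' ∈ univ.filter (fun u' => u' ≠ u),
      w (a', (u', z1))) * w (a', (u, z2)))
    have e2 : ∀ z : HH G → Fin M, ∑ u, (∑ u' ∈ univ.filter (fun u' => u' ≠ u), w (a', (u', z))) *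
        ∑ t ∈ univ.filter (fun t => t < z h), w (a', (u, Function.update z h t)) =
        ∑ t ∈ univ.filter (fun t => t < z h), ∑ u, (∑ u' ∈ univ.filter (fun u' => u' ≠ u),
          w (a', (u', z))) * w (a', (u, Function.update z h t)) := by
      intro z
      rw [Finset.sum_comm (t := (univ : Finset (Fin M)))]
      apply Finset.sum_congr rfl
      intro u _
      rw [Finset.mul_sum]
    have e3 : ∀ z : HH G → Fin M, ∑ u, w (a', (u, z)) * ∑ t ∈ univ.filter (fun t => z h < t),
        ∑ u' ∈ univ.filter (fun u' => u' ≠ u), w (a', (u', Function.update z h t)) =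
        ∑ t ∈ univ.filter (fun t => z h < t), ∑ u, (∑ u' ∈ univ.filter (fun u' => u' ≠ u),
          w (a', (u', Function.update z h t))) * w (a', (u, z)) := by
      intro z
      rw [Finset.sum_comm (t := (univ : Finset (Fin M)))]
      apply Finset.sum_congr rfl
      intro u _
      rw [Finset.mul_sum]
      apply Finset.sum_congr rfl
      intro t _
      rw [mul_comm]
    rw [Finset.sum_congr rfl (fun z _ => e2 z), Finset.sum_congr rfl (fun z _ => e3 z)]
    exact this
  have e5 : ZF h a a' M w = ∑ z : HH G → Fin M, ∑ u, w (a, (u, z)) *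
      ∑ t ∈ univ.filter (fun t => t < z h), w (a', (u, Function.update z h t)) +
      ∑ z : HH G → Fin M, ∑ u, w (a, (u, z)) * ∑ t ∈ univ.filter (fun t => t < z h),
        ∑ u' ∈ univ.filter (fun u' => u' ≠ u), w (a', (u', Function.update z h t)) := by
    unfold ZF
    rw [← Finset.sum_add_distrib]
    apply Finset.sum_congr rfl
    intro z _
    rw [← Finset.sum_add_distrib]
    unfold Pz
    rw [Finset.sum_mul]
    apply Finset.sum_congr rfl
    intro u _
    rw [← mul_add, ← Finset.sum_add_distrib]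
    congr 1
    apply Finset.sum_congr rfl
    intro t _
    rw [← Finset.add_sum_erase univ (fun u => w (a', (u, Function.update z h t))) (mem_univ u)]
    congr 1
    apply Finset.sum_congr _ (fun _ _ => rfl)
    ext u'
    simp
  have e6 : ∑ z : HH G → Fin M, ∑ u, (w (a, (u, z)) + ∑ u' ∈ univ.filter (fun u' => u' ≠ u),
      w (a', (u', z))) *
        (∑ t ∈ univ.filter (fun t => z h < t), w (a, (u, Function.update z h t)) +
          ∑ t ∈ univ.filter (fun t => t < z h), w (a', (u, Function.update z h t))) =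
      rF h a M w + (∑ z : HH G → Fin M, ∑ u, w (a, (u, z)) *
        ∑ t ∈ univ.filter (fun t => t < z h), w (a', (u, Function.update z h t))) +
      (∑ z : HH G → Fin M, ∑ u, (∑ u' ∈ univ.filter (fun u' => u' ≠ u), w (a', (u', z))) *
        ∑ t ∈ univ.filter (fun t => z h < t), w (a, (u, Function.update z h t))) +
      ∑ z : HH G → Fin M, ∑ u, (∑ u' ∈ univ.filter (fun u' => u' ≠ u), w (a', (u', z))) *
        ∑ t ∈ univ.filter (fun t => t < z h), w (a', (u, Function.update z h t)) := by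
    unfold rF
    simp only [← Finset.sum_add_distrib]
    refine Finset.sum_congr rfl (fun z _ => Finset.sum_congr rfl (fun u _ => ?_))
    ring
  rw [e6, e1, e4, e5]
  unfold bF
  ring

/-- the mixed family -/
theorem dw_Phi (M : ℕ) (h : HH G) {a a' : G} (hne : a ≠ a') :
    Dw 2 (fun w => rF h a M w + bF h a' M w + ZF h a a' M w) (M ^ (Fintype.card (HH G) + 1)) := by
  refine (dw_uz (G := G) (fun z u w => (w (a, (u, z)) +
    ∑ u' ∈ univ.filter (fun u' => u' ≠ u), w (a', (u', z))) *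
        (∑ t ∈ univ.filter (fun t => z h < t), w (a, (u, Function.update z h t)) +
          ∑ t ∈ univ.filter (fun t => t < z h), w (a', (u, Function.update z h t))))
      (fun z u => ?_)).congr (Phi_eq h a a' M)
  refine (IsWt.add (IsWt.pt (a, (u, z))) (isWt_us a' z (univ.filter (fun u' => u' ≠ u))) ?_).dw
    (IsWt.add (isWt_line a u z h (univ.filter (fun t => z h < t)))
      (isWt_line a' u z h (univ.filter (fun t => t < z h))) ?_) ?_
  · rintro v h1 ⟨h2, _⟩
    rw [h1] at h2
    exact hne h2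
  · rintro v ⟨h1, _⟩ ⟨h2, _⟩
    exact hne (h1.symm.trans h2)
  · rintro v h1 h2
    have h3 : v.2.2 = z := by
      rcases h1 with h1 | ⟨_, _, h1⟩
      · rw [h1]
      · exact h1
    have h4 : ∃ t, t ≠ z h ∧ v.2.2 = Function.update z h t := by
      rcases h2 with ⟨_, _, t, ht, h2⟩ | ⟨_, _, t, ht, h2⟩
      · exact ⟨t, (Finset.mem_filter.1 ht).2.ne', h2⟩
      · exact ⟨t, (Finset.mem_filter.1 ht).2.ne, h2⟩
    obtain ⟨t, h5, h6⟩ := h4
    exact ne_upd h5 (h3.symm.trans h6)

end pieces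

end Pool.Agent.Lib.MP_60210e_co.RankGaps
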