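import Pool.Agent.Lib.MP_60210e_co.RH6

/-!
# Decompositions of products of complete graphs, part 7: the factor, and the product
-/

set_option autoImplicit false
set_option linter.unusedSectionVars false

namespace Pool.Agent.Lib.MP_60210e_co.RankGaps

open Finset

section inst
variable {G : Type} [Fintype G] [DecidableEq G] [AddCommGroup G]

def rG (g c : G) : SF G := if h : g = 0 then r0F c else rF ⟨g, h⟩ c

def bG (g c : G) : SF G := if h : g = 0 then 0 else bF ⟨g, h⟩ c

def ZG (g a a' : G) : SF G := if h : g = 0 then 0 else ZF ⟨g, h⟩ a a'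

def ZG' (g a a' : G) : SF G := if h : g = 0 then 0 else ZF' ⟨g, h⟩ a a'

theorem rG_zero (c : G) : rG 0 c = r0F c := dif_pos rfl

theorem rG_ne {g : G} (h : g ≠ 0) (c : G) : rG g c = rF ⟨g, h⟩ c := dif_neg h

theorem bG_ne {g : G} (h : g ≠ 0) (c : G) : bG g c = bF ⟨g, h⟩ c := dif_neg h

theorem ZG_ne {g : G} (h : g ≠ 0) (a a' : G) : ZG g a a' = ZF ⟨g, h⟩ a a' := dif_neg h

theorem ZG'_ne {g : G} (h : g ≠ 0) (a a' : G) : ZG' g a a' = ZF' ⟨g, h⟩ a a' := dif_neg h

theorem sum_HH {R : Type} [AddCommMonoid R] (f : G → R) :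
    ∑ h ∈ univ.erase (0 : G), f h = ∑ h : HH G, f h.1 :=
  Finset.sum_subtype (univ.erase (0 : G)) (fun x => by simp) f

theorem sf_sum {α : Type} (s : Finset α) (f : α → SF G) (M : ℕ) (w : VV G M → ℤ) :
    (∑ a ∈ s, f a) M w = ∑ a ∈ s, f a M w := by
  rw [Finset.sum_apply, Finset.sum_apply]

noncomputable def TF (c : G) : SF G :=
  rG 0 c + ∑ h ∈ univ.erase (0 : G), (rG h c + bG h c) + restF c

theorem two_T (c : G) (M : ℕ) (w : VV G M → ℤ) :
    2 * TF c M w = (pF c M w) ^ 2 - ∑ z, ∑ u, w (c, (u, z)) ^ 2 := by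
  classical
  have e1 : TF c M w = r0F c M w + ∑ h : HH G, (rF h c + bF h c) M w + restF c M w := by
    show rG 0 c M w + (∑ h ∈ univ.erase (0 : G), (rG h c + bG h c)) M w + restF c M w = _
    rw [rG_zero, sum_HH, sf_sum]
    congr 2
    apply Finset.sum_congr rfl
    intro h _
    rw [rG_ne h.2, bG_ne h.2]
  have e2 : 2 * r0F c M w = ∑ z, Pz w c z ^ 2 - ∑ z, ∑ u, w (c, (u, z)) ^ 2 := by
    unfold r0F
    rw [Finset.mul_sum, ← Finset.sum_sub_distrib]
    apply Finset.sum_congr rfl
    intro z _
    exact two_lt (fun u => w (c, (u, z)))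
  have e3 := rest_identity (fun z z' : HH G → Fin M => z ≠ z' ∧ Far z z') (fun _ _ => Iff.rfl)
    (Pz w c)
  have e4 : ∑ h : HH G, (rF h c + bF h c) M w = ∑ h : HH G, ∑ z, Pz w c z *
      ∑ t ∈ univ.filter (fun t => z h < t), Pz w c (Function.update z h t) :=
    Finset.sum_congr rfl (fun h _ => rb_eq h c M w)
  have e5 : restF c M w = ∑ z, Pz w c z *
      ∑ z' ∈ univ.filter (fun z' => en z < en z' ∧ (z ≠ z' ∧ Far z z')), Pz w c z' := rfl
  rw [e1, e4]
  have e6 : pF c M w = ∑ z, Pz w c z := rfl
  rw [e6]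
  rw [← e5] at e3
  linear_combination e2 - e3

theorem hE_aux {χ : G → G → Bool} (hχ : Chi χ) (M : ℕ) (w : VV G M → ℤ) :
    E 2 univ w = ∑ c, TF c M w +
      ∑ h ∈ univ.erase (0 : G), ∑ a ∈ hf χ h false, pF a M w * pF (a + h) M w := by
  have e1 := E_two_sq (univ : Finset (VV G M)) w
  have e2 : ∑ v : VV G M, w v = ∑ c, pF c M w := by
    rw [Fintype.sum_prod_type]
    apply Finset.sum_congr rfl
    intro c _
    rw [Fintype.sum_prod_type_right]
    rfl
  have e3 : ∑ v : VV G M, w v ^ 2 = ∑ c, ∑ z, ∑ u, w (c, (u, z)) ^ 2 := by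
    rw [Fintype.sum_prod_type]
    apply Finset.sum_congr rfl
    intro c _
    rw [Fintype.sum_prod_type_right]
  have e4 : 2 * ∑ c, TF c M w = ∑ c, pF c M w ^ 2 - ∑ c, ∑ z, ∑ u, w (c, (u, z)) ^ 2 := by
    rw [Finset.mul_sum, ← Finset.sum_sub_distrib]
    exact Finset.sum_congr rfl (fun c _ => two_T c M w)
  have e5 : 2 * ∑ h ∈ univ.erase (0 : G), ∑ a ∈ hf χ h false, pF a M w * pF (a + h) M w =
      ∑ h ∈ univ.erase (0 : G), ∑ c, pF c M w * pF (c + h) M w := by
    rw [Finset.mul_sum]
    apply Finset.sum_congr rfl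
    intro h hh
    rw [hf_sum hχ (Finset.ne_of_mem_erase hh) false (fun c => pF c M w * pF (c + h) M w),
      Finset.mul_sum]
    apply Finset.sum_congr rfl
    intro a _
    rw [hχ.cancel]
    ring
  have e6 : (∑ c, pF c M w) ^ 2 = ∑ c, pF c M w ^ 2 +
      ∑ h ∈ univ.erase (0 : G), ∑ c, pF c M w * pF (c + h) M w := by
    have h1 := Finset.add_sum_erase univ (fun h => ∑ c, pF c M w * pF (c + h) M w)
      (mem_univ (0 : G))
    simp only [add_zero] at h1
    have h2 : ∑ c, pF c M w ^ 2 = ∑ c, pF c M w * pF c M w :=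
      Finset.sum_congr rfl (fun c _ => sq _)
    rw [h2, h1, sq, Finset.sum_mul_sum, Finset.sum_comm (f := fun h c => pF c M w * pF (c + h) M w)]
    apply Finset.sum_congr rfl
    intro c _
    rw [← sum_shift (fun s => pF c M w * pF s M w) c]
    apply Finset.sum_congr rfl
    intro h _
    rw [add_comm h c]
  rw [e2, e3] at e1
  have e7 : (2 : ℤ) ≠ 0 := by norm_num
  apply mul_left_cancel₀ e7
  linear_combination e1 - e4 - e5 + e6

/-- the pieces of one factor -/
noncomputable def fd {χ : G → G → Bool} (hχ : Chi χ) : FD G χ (Fintype.card (HH G)) where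
  r := rG
  b := bG
  T := TF
  rest := restF
  p := pF
  Z := ZG
  Z' := ZG'
  E2 := fun _ w => E 2 univ w
  hr := by
    intro g c
    by_cases h : g = 0
    · subst h
      rw [rG_zero]
      exact full_of (fun M => dw_r0 M c)
    · rw [rG_ne h]
      exact full_of (fun M => dw_r M _ c)
  hb := by
    intro h c hh
    rw [bG_ne hh]
    exact full_of (fun M => dw_b M _ c)
  hrb := by
    intro h c hh
    rw [bG_ne hh, rG_ne hh]
    exact cheap_of (fun M => dw_rb M _ c)
  h0b := by
    intro h c hh
    rw [bG_ne hh, rG_zero]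
    exact cheap_of (fun M => dw_b0 M _ c)
  hrest := fun c => cheap_of (fun M => dw_rest M c)
  hT := fun _ => rfl
  hZ := by
    intro h a a' hh hne
    rw [ZG_ne hh]
    exact cheap_of (fun M => dw_Z M _ hne)
  hZ' := by
    intro h a a' hh hne
    rw [ZG'_ne hh]
    exact cheap_of (fun M => dw_Z' M _ hne)
  hpp := by
    intro h a a' hh _
    rw [ZG_ne hh, ZG'_ne hh]
    exact pp_eq _ a a'
  hE := by
    funext M w
    rw [hE_aux hχ M w]
    show _ = (∑ c, TF c) M w + (∑ h ∈ univ.erase (0 : G), ∑ a ∈ hf χ h false,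
      pF a * pF (a + h)) M w
    rw [sf_sum, sf_sum]
    congr 1
    apply Finset.sum_congr rfl
    intro h _
    rw [sf_sum]
    rfl

/-! ### exact costs -/

/-- number of colour vectors -/
def nc (k : ℕ) (j : ℕ) (z : Prop) [Decidable z] : ℕ := if j = 0 then (if z then 1 else 0) else k ^ (j - 1)

theorem conv_cost {κ : ℕ} (f : G → SF G) (M : ℕ) (hf : ∀ c, Dw 2 (f c M) (M ^ (κ + 1))) (j : ℕ) :
    ∀ s, Dw (2 * j) (conv f j s M) (nc (Fintype.card G) j (s = 0) * (M ^ (κ + 1)) ^ j) ∧
      Loc (reg G j M) (conv f j s M) := by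
  induction j with
  | zero =>
    intro s
    unfold conv nc
    by_cases h : s = 0
    · rw [if_pos h, if_pos rfl, if_pos h]
      refine ⟨?_, fun _ _ _ => rfl⟩
      have := Dw.box (V := ℕ × VV G M) (fun _ : Fin 0 => (∅ : Finset _)) (fun j => j.elim0)
      refine (this.congr (fun w => ?_)).mono (by simp)
      show (1 : ℤ) = _
      simp
    · rw [if_neg h]
      exact ⟨Dw.zero _ _, fun _ _ _ => rfl⟩
  | succ j ih =>
    intro s
    have h1 : ∀ c ∈ (univ : Finset G), Dw (2 * (j + 1)) ((conv f j (s + c) * lift j (f c)) M)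
        (nc (Fintype.card G) j (s + c = 0) * (M ^ (κ + 1)) ^ j * (M ^ (κ + 1))) := fun c _ =>
      (step_dw (ih (s + c)).1 (ih (s + c)).2 (hf c)).1
    have h2 : ∀ c ∈ (univ : Finset G), Loc (reg G (j + 1) M) ((conv f j (s + c) * lift j (f c)) M) :=
      fun c _ => (step_dw (ih (s + c)).1 (ih (s + c)).2 (hf c)).2
    have e1 : ∀ w, conv f (j + 1) s M w = ∑ c, (conv f j (s + c) * lift j (f c)) M w := by
      intro w
      rw [conv, Finset.sum_apply, Finset.sum_apply]
    constructor
    · refine ((Dw.sum univ _ _ h1).mono ?_).congr e1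
      rw [← Finset.sum_mul, ← Finset.sum_mul, mul_assoc, ← pow_succ]
      apply Nat.mul_le_mul_right
      unfold nc
      rw [if_neg (Nat.succ_ne_zero j), Nat.add_sub_cancel]
      by_cases h : j = 0
      · subst h
        simp only [if_true, pow_zero]
        rw [Finset.sum_eq_single (-s)]
        · split_ifs <;> simp
        · intro c _ hc
          rw [if_neg]
          intro h3
          apply hc
          rw [eq_neg_iff_add_eq_zero, add_comm]
          exact h3
        · intro h3
          exact (h3 (mem_univ _)).elim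
      · simp only [if_neg h]
        rw [Finset.sum_const, Finset.card_univ, smul_eq_mul]
        obtain ⟨i, rfl⟩ := Nat.exists_eq_succ_of_ne_zero h
        rw [Nat.succ_sub_one, Nat.succ_eq_add_one, pow_succ, mul_comm]
    · intro w w' hw
      rw [e1, e1]
      exact Finset.sum_congr rfl (fun c hc => h2 c hc w w' hw)

theorem cv2_cost {χ : G → G → Bool} (hχ : Chi χ) {h : G} (hh : h ≠ 0) {κ : ℕ} (f : G → SF G)
    (M : ℕ) (hf' : ∀ c ∈ hf χ h false, Dw 2 (f c M) (M ^ (κ + 1))) (j : ℕ) :
    ∀ s, Dw (2 * j) (cv2 (hf χ h false) h f j s M)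
      (nc (hf χ h false).card j (s = 0 ∨ s = h) * (M ^ (κ + 1)) ^ j) ∧
      Loc (reg G j M) (cv2 (hf χ h false) h f j s M) := by
  induction j with
  | zero =>
    intro s
    unfold cv2 nc
    by_cases h : s = 0 ∨ s = h
    · rw [if_pos h, if_pos rfl, if_pos h]
      refine ⟨?_, fun _ _ _ => rfl⟩
      have := Dw.box (V := ℕ × VV G M) (fun _ : Fin 0 => (∅ : Finset _)) (fun j => j.elim0)
      refine (this.congr (fun w => ?_)).mono (by simp)
      show (1 : ℤ) = _
      simp
    · rw [if_neg h]
      exact ⟨Dw.zero _ _, fun _ _ _ => rfl⟩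
  | succ j ih =>
    intro s
    have h1 : ∀ c ∈ hf χ h false, Dw (2 * (j + 1))
        ((cv2 (hf χ h false) h f j (s + c) * lift j (f c)) M)
        (nc (hf χ h false).card j (s + c = 0 ∨ s + c = h) * (M ^ (κ + 1)) ^ j * (M ^ (κ + 1))) :=
      fun c hc => (step_dw (ih (s + c)).1 (ih (s + c)).2 (hf' c hc)).1
    have h2 : ∀ c ∈ hf χ h false, Loc (reg G (j + 1) M)
        ((cv2 (hf χ h false) h f j (s + c) * lift j (f c)) M) :=
      fun c hc => (step_dw (ih (s + c)).1 (ih (s + c)).2 (hf' c hc)).2
    have e1 : ∀ w, cv2 (hf χ h false) h f (j + 1) s M w =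
        ∑ c ∈ hf χ h false, (cv2 (hf χ h false) h f j (s + c) * lift j (f c)) M w := by
      intro w
      rw [cv2, Finset.sum_apply, Finset.sum_apply]
    constructor
    · refine ((Dw.sum (hf χ h false) _ _ h1).mono ?_).congr e1
      rw [← Finset.sum_mul, ← Finset.sum_mul, mul_assoc, ← pow_succ]
      apply Nat.mul_le_mul_right
      unfold nc
      rw [if_neg (Nat.succ_ne_zero j), Nat.add_sub_cancel]
      by_cases hj : j = 0
      · subst hj
        simp only [if_true, pow_zero]
        rw [← Finset.card_filter, Finset.card_le_one]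
        intro a ha b hb
        rw [Finset.mem_filter, hf, Finset.mem_filter] at ha hb
        have ha1 := ha.1.2
        have hb1 := hb.1.2
        have ha2 : a = s ∨ a = s + h := by
          rcases ha.2 with h3 | h3
          · left
            have : s + a + s = 0 + s := by rw [h3]
            have h4 : s + a + s = a + s + s := by abel
            rw [h4, hχ.cancel, zero_add] at this
            exact this
          · right
            have : s + a + s = h + s := by rw [h3]
            have h4 : s + a + s = a + s + s := by abel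
            rw [h4, hχ.cancel, add_comm] at this
            exact this
        have hb2 : b = s ∨ b = s + h := by
          rcases hb.2 with h3 | h3
          · left
            have : s + b + s = 0 + s := by rw [h3]
            have h4 : s + b + s = b + s + s := by abel
            rw [h4, hχ.cancel, zero_add] at this
            exact this
          · right
            have : s + b + s = h + s := by rw [h3]
            have h4 : s + b + s = b + s + s := by abel
            rw [h4, hχ.cancel, add_comm] at this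
            exact this
        have h5 : χ h (s + h) = !(χ h s) := by
          rw [hχ.add, hχ.self h hh]
          cases χ h s <;> rfl
        rcases ha2 with rfl | rfl <;> rcases hb2 with rfl | rfl
        · rfl
        · rw [h5, ha1] at hb1
          exact absurd hb1 (by simp)
        · rw [h5, hb1] at ha1
          exact absurd ha1 (by simp)
        · rfl
      · simp only [if_neg hj]
        rw [Finset.sum_const, smul_eq_mul]
        obtain ⟨i, rfl⟩ := Nat.exists_eq_succ_of_ne_zero hj
        rw [Nat.succ_sub_one, Nat.succ_eq_add_one, pow_succ, mul_comm]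
    · intro w w' hw
      rw [e1, e1]
      exact Finset.sum_congr rfl (fun c hc => h2 c hc w w' hw)

end inst

end Pool.Agent.Lib.MP_60210e_co.RankGaps
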