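import Pool.Agent.Lib.MP_60210e_co.RH7

/-!
# Decompositions of products of complete graphs, part 8: the cost of the product
-/

set_option autoImplicit false
set_option linter.unusedSectionVars false

namespace Pool.Agent.Lib.MP_60210e_co.RankGaps

open Finset

section cost
variable {G : Type} [Fintype G] [DecidableEq G] [AddCommGroup G]

theorem pin_dw (M : ℕ) (c : G) : Dw 2 ((∑ g, rG g c) M) (M ^ (Fintype.card (HH G) + 1)) := by
  refine (dw_pin M c).congr (fun w => ?_)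
  rw [sf_sum, ← Finset.add_sum_erase univ (fun g => rG g c M w) (mem_univ 0), sum_HH, rG_zero]
  congr 1
  apply Finset.sum_congr rfl
  intro h _
  rw [rG_ne h.2]

theorem Phi_dw {χ : G → G → Bool} (hχ : Chi χ) {h0 : G} (hh0 : h0 ≠ 0) {h : G} (hh : h ≠ 0) (a : G)
    (M : ℕ) : Dw 2 ((fd hχ).Φo h0 h a M) (M ^ (Fintype.card (HH G) + 1)) := by
  have hne : a ≠ a + h := fun h1 => hh (left_eq_add.1 h1)
  refine (dw_Phi M ⟨h0, hh0⟩ hne).congr (fun w => ?_)
  show rG h0 a M w + bG h0 (a + h) M w + ZG h0 a (a + h) M w = _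
  rw [rG_ne hh0, bG_ne hh0, ZG_ne hh0]

theorem Phis_dw {χ : G → G → Bool} (hχ : Chi χ) {h : G} (hh : h ≠ 0) (a : G)
    (M : ℕ) : Dw 2 ((fd hχ).Φs h a M) (M ^ (Fintype.card (HH G) + 1)) := by
  have hne : a ≠ a + h := fun h1 => hh (left_eq_add.1 h1)
  refine (dw_Phi M ⟨h, hh⟩ hne).congr (fun w => ?_)
  show rG h a M w + bG h (a + h) M w + ZG h a (a + h) M w = _
  rw [rG_ne hh, bG_ne hh, ZG_ne hh]

theorem card_hf {χ : G → G → Bool} (hχ : Chi χ) {h : G} (hh : h ≠ 0) (b : Bool) :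
    2 * (hf χ h b).card = Fintype.card G := by
  have h1 := hf_sum hχ hh b (fun _ : G => (1 : ℕ))
  simp only [Finset.sum_const, Finset.card_univ, smul_eq_mul, mul_one] at h1
  omega

theorem card_HH : Fintype.card (HH G) + 1 = Fintype.card G := by
  have h1 : Fintype.card (HH G) = Fintype.card G - 1 := by
    rw [Fintype.card_subtype_compl (fun g : G => g = 0), Fintype.card_subtype_eq]
  have h2 : 0 < Fintype.card G := Fintype.card_pos_iff.2 ⟨0⟩
  omega

/-- **cost of the product of standard factors** -/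
theorem main_cost' {χ : G → G → Bool} (hχ : Chi χ) {h0 : G} (hh0 : h0 ≠ 0) (e : ℕ) (he : 1 ≤ e) :
    ∃ C : ℕ, ∀ M : ℕ, 1 ≤ M → ∃ x : ℕ,
      Dw (2 * (e + 1)) (pw ((fd hχ).E2) (e + 1) M)
        (Fintype.card G * (Fintype.card G) ^ (e - 1) * (M ^ (Fintype.card G)) ^ (e + 1) +
          Fintype.card (HH G) * ((Fintype.card G / 2) * (Fintype.card G / 2) ^ (e - 1)) *
            (M ^ (Fintype.card G)) ^ (e + 1) + x) ∧
      x * M ≤ C * (M ^ (Fintype.card G)) ^ (e + 1) := by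
  obtain ⟨y, ⟨C, hC⟩, ey⟩ := (fd hχ).main hχ hh0 e
  refine ⟨C, fun M hM => ?_⟩
  obtain ⟨x, hx1, hx2, _⟩ := hC M hM
  rw [card_HH] at hx2
  refine ⟨x, ?_, hx2⟩
  have he0 : e ≠ 0 := by omega
  have h1 : ∀ c ∈ (univ : Finset G), Dw (2 * (e + 1))
      ((conv ((fd hχ).r h0) e c * lift e (∑ g, (fd hχ).r g c)) M)
      ((Fintype.card G) ^ (e - 1) * (M ^ (Fintype.card G)) ^ (e + 1)) := by
    intro c _
    have h2 := conv_cost (κ := Fintype.card (HH G)) ((fd hχ).r h0) M (fun c => by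
      show Dw 2 (rG h0 c M) _
      rw [rG_ne hh0]
      exact dw_r M _ c) e c
    refine (step_dw h2.1 h2.2 (pin_dw M c)).1.mono ?_
    unfold nc
    rw [if_neg he0, card_HH, mul_assoc, ← pow_succ]
  have h3 : ∀ h ∈ univ.erase (0 : G), Dw (2 * (e + 1)) ((fd hχ).Ψ h0 e h M)
      (((Fintype.card G / 2) * (Fintype.card G / 2) ^ (e - 1)) *
            (M ^ (Fintype.card G)) ^ (e + 1)) := by
    intro h hh
    have hh' := Finset.ne_of_mem_erase hh
    have h5 : (hf χ h false).card = Fintype.card G / 2 := by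
      have := card_hf hχ hh' false
      omega
    have h6 : (hf χ h true).card = Fintype.card G / 2 := by
      have := card_hf hχ hh' true
      omega
    have h4 : ∀ a ∈ hf χ h true, Dw (2 * (e + 1))
        ((cv2 (hf χ h false) h ((fd hχ).Φo h0 h) e (h + a) * lift e ((fd hχ).Φs h a)) M)
        ((Fintype.card G / 2) ^ (e - 1) * (M ^ (Fintype.card G)) ^ (e + 1)) := by
      intro a _
      have h2 := cv2_cost hχ hh' (κ := Fintype.card (HH G)) ((fd hχ).Φo h0 h) M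
        (fun c _ => Phi_dw hχ hh0 hh' c M) e (h + a)
      refine (step_dw h2.1 h2.2 (Phis_dw hχ hh' a M)).1.mono ?_
      unfold nc
      rw [if_neg he0, h5, card_HH, mul_assoc, ← pow_succ]
    refine ((Dw.sum (hf χ h true) _ _ h4).congr (fun w => ?_)).mono ?_
    · unfold FD.Ψ
      rw [Finset.sum_apply, Finset.sum_apply]
    · rw [Finset.sum_const, h6, smul_eq_mul, mul_assoc]
  have h7 := Dw.sum univ _ _ h1
  have h8 := Dw.sum (univ.erase (0 : G)) _ _ h3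
  refine (((h7.add h8).add hx1).congr (fun w => ?_)).mono ?_
  · rw [ey]
    simp only [Pi.add_apply, Finset.sum_apply]
  · rw [Finset.sum_const, Finset.sum_const, Finset.card_univ, Finset.card_erase_of_mem (mem_univ _),
      Finset.card_univ, smul_eq_mul, smul_eq_mul]
    have h9 := card_HH (G := G)
    have h10 : Fintype.card G - 1 = Fintype.card (HH G) := by omega
    rw [h10]
    apply le_of_eq
    ring

theorem pw_E2 {χ : G → G → Bool} (hχ : Chi χ) (d M : ℕ) (w : (ℕ × VV G M) → ℤ) :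
    pw ((fd hχ).E2) d M w = ∏ j ∈ range d, E 2 univ (fun v => w (j, v)) := by
  induction d with
  | zero => rfl
  | succ d ih =>
    rw [Finset.prod_range_succ, ← ih]
    rfl

theorem cost_real {χ : G → G → Bool} (hχ : Chi χ) {h0 : G} (hh0 : h0 ≠ 0) (e : ℕ) (he : 1 ≤ e) :
    ∃ C : ℝ, 0 ≤ C ∧ ∀ M : ℕ, 1 ≤ M → ∃ c : ℕ,
      Dw (2 * (e + 1)) (fun w : (ℕ × VV G M) → ℤ =>
        ∏ j ∈ range (e + 1), E 2 univ (fun v => w (j, v))) c ∧
      (c : ℝ) ≤ ((1 / 2) ^ e + 1 / (Fintype.card G : ℝ) + C / M) *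
        ((Fintype.card G : ℝ) * (M : ℝ) ^ (Fintype.card G)) ^ (e + 1) := by
  obtain ⟨C, hC⟩ := main_cost' hχ hh0 e he
  refine ⟨C, Nat.cast_nonneg C, fun M hM => ?_⟩
  obtain ⟨x, hx1, hx2⟩ := hC M hM
  refine ⟨_, hx1.congr (fun w => (pw_E2 hχ (e + 1) M w).symm), ?_⟩
  set k := Fintype.card G with hk
  have hk2 : 2 ≤ k := by
    have := card_hf hχ hh0 false
    have h2 : 0 < Fintype.card G := Fintype.card_pos_iff.2 ⟨0⟩
    omega
  have hkr : (2 : ℝ) ≤ (k : ℝ) := by exact_mod_cast hk2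
  have hM' : (0 : ℝ) < (M : ℝ) := by exact_mod_cast hM
  set X : ℝ := ((M : ℝ) ^ k) ^ (e + 1) with hX
  have hX0 : 0 < X := by positivity
  have h1 : (x : ℝ) ≤ C / M * X := by
    have : ((x * M : ℕ) : ℝ) ≤ ((C * (M ^ k) ^ (e + 1) : ℕ) : ℝ) := by exact_mod_cast hx2
    push_cast at this
    rw [div_mul_eq_mul_div, le_div_iff₀ hM']
    exact this
  have h2 : (Fintype.card (HH G) : ℝ) ≤ (k : ℝ) := by
    have := card_HH (G := G)
    have h3 : Fintype.card (HH G) ≤ k := by omega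
    exact_mod_cast h3
  have h3 : (((k / 2 : ℕ)) : ℝ) ≤ (k : ℝ) / 2 := Nat.cast_div_le
  have h4 : (((k / 2 : ℕ)) : ℝ) * (((k / 2 : ℕ)) : ℝ) ^ (e - 1) ≤ ((k : ℝ) / 2) ^ e := by
    have : ((k : ℝ) / 2) ^ e = (k : ℝ) / 2 * ((k : ℝ) / 2) ^ (e - 1) := by
      rw [← pow_succ']
      congr 1
      omega
    rw [this]
    apply mul_le_mul h3 (pow_le_pow_left₀ (by positivity) h3 _) (by positivity) (by positivity)
  have h5 : (k : ℝ) * (k : ℝ) ^ (e - 1) = (k : ℝ) ^ e := by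
    rw [← pow_succ']
    congr 1
    omega
  push_cast
  rw [h5]
  have h6 : ((k : ℝ) * (M : ℝ) ^ k) ^ (e + 1) = (k : ℝ) ^ (e + 1) * X := by
    rw [mul_pow]
  rw [h6]
  have h7 : ((1 / 2 : ℝ) ^ e + 1 / (k : ℝ) + C / M) * ((k : ℝ) ^ (e + 1) * X) =
      (1 / 2 : ℝ) ^ e * (k : ℝ) ^ (e + 1) * X + (k : ℝ) ^ e * X + C / M * ((k : ℝ) ^ (e + 1) * X) := by
    rw [pow_succ (k : ℝ) e]
    field_simp
  rw [h7]
  have h8 : (Fintype.card (HH G) : ℝ) * (((k / 2 : ℕ) : ℝ) * ((k / 2 : ℕ) : ℝ) ^ (e - 1)) * X ≤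
      (1 / 2 : ℝ) ^ e * (k : ℝ) ^ (e + 1) * X := by
    apply mul_le_mul_of_nonneg_right _ hX0.le
    calc (Fintype.card (HH G) : ℝ) * (((k / 2 : ℕ) : ℝ) * ((k / 2 : ℕ) : ℝ) ^ (e - 1)) ≤
        (k : ℝ) * ((k : ℝ) / 2) ^ e := by
          apply mul_le_mul h2 h4 (by positivity) (by positivity)
      _ = (1 / 2 : ℝ) ^ e * (k : ℝ) ^ (e + 1) := by
          rw [div_eq_mul_one_div (k : ℝ) 2, mul_pow, pow_succ (k : ℝ) e]
          ring
  have h9 : (C : ℝ) / M * X ≤ C / M * ((k : ℝ) ^ (e + 1) * X) := by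
    apply mul_le_mul_of_nonneg_left _ (by positivity)
    have : (1 : ℝ) ≤ (k : ℝ) ^ (e + 1) := one_le_pow₀ (by linarith)
    nlinarith
  linarith

end cost

end Pool.Agent.Lib.MP_60210e_co.RankGaps
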