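import Pool.Agent.Lib.MP_60210e_co.RH8

/-!
# Decompositions of products of complete graphs, part 9: transport and asymptotics
-/

set_option autoImplicit false
set_option linter.unusedSectionVars false

namespace Pool.Agent.Lib.MP_60210e_co.RankGaps

open Finset

/-! ### the colour group -/

open Classical in
noncomputable def piv {n : ℕ} (h : Fin (n + 1) → ZMod 2) : Fin (n + 1) :=
  if H : ∃ i, h i ≠ 0 then Classical.choose H else 0

theorem piv_ne {n : ℕ} {h : Fin (n + 1) → ZMod 2} (hh : h ≠ 0) : h (piv h) ≠ 0 := by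
  have H : ∃ i, h i ≠ 0 := by
    by_contra hcon
    push Not at hcon
    exact hh (funext hcon)
  unfold piv
  rw [dif_pos H]
  exact Classical.choose_spec H

noncomputable def chi {n : ℕ} (h s : Fin (n + 1) → ZMod 2) : Bool := decide (s (piv h) ≠ 0)

theorem zmod2_xor : ∀ a b : ZMod 2, decide (a + b ≠ 0) = xor (decide (a ≠ 0)) (decide (b ≠ 0)) := by
  decide

theorem zmod2_two : ∀ a : ZMod 2, a + a = 0 := by decide

theorem chi_chi (n : ℕ) : Chi (chi (n := n)) where
  two := fun g => funext (fun i => zmod2_two (g i))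
  add := fun h a b => zmod2_xor (a (piv h)) (b (piv h))
  self := fun h hh => by
    unfold chi
    exact decide_eq_true (piv_ne hh)

theorem std_cost (e : ℕ) (he : 1 ≤ e) (ε : ℝ) (hε : 0 < ε) :
    ∃ k : ℕ, 2 ≤ k ∧ ∃ C : ℝ, 0 ≤ C ∧ ∀ M : ℕ, 1 ≤ M → ∃ (U : Type) (_ : Fintype U)
      (_ : Nonempty U) (_ : DecidableEq U), Fintype.card U = k * M ^ k ∧ ∃ c : ℕ,
      Dw (2 * (e + 1)) (fun w : (ℕ × U) → ℤ =>
        ∏ j ∈ range (e + 1), E 2 univ (fun v => w (j, v))) c ∧
      (c : ℝ) ≤ ((1 / 2) ^ e + ε + C / M) * ((k : ℝ) * (M : ℝ) ^ k) ^ (e + 1) := by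
  obtain ⟨n, hn⟩ := exists_nat_gt (1 / ε)
  have hcard : Fintype.card (Fin (n + 1) → ZMod 2) = 2 ^ (n + 1) := by
    rw [Fintype.card_fun, ZMod.card, Fintype.card_fin]
  have h0 : (fun _ => 1 : Fin (n + 1) → ZMod 2) ≠ 0 := by
    intro h
    have h1 : (1 : ZMod 2) = 0 := congrFun h 0
    exact absurd h1 (by decide)
  obtain ⟨C, hC0, hC⟩ := cost_real (chi_chi n) h0 e he
  rw [hcard] at hC
  refine ⟨2 ^ (n + 1), ?_, C, hC0, fun M hM => ?_⟩
  · rw [pow_succ]
    have : 1 ≤ 2 ^ n := Nat.one_le_two_pow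
    omega
  obtain ⟨c, h1, h2⟩ := hC M hM
  have : Nonempty (Fin M) := ⟨⟨0, hM⟩⟩
  refine ⟨VV (Fin (n + 1) → ZMod 2) M, inferInstance, inferInstance, inferInstance, ?_, c, h1, ?_⟩
  · rw [Fintype.card_prod, Fintype.card_prod, hcard, Fintype.card_fin, Fintype.card_fun,
      Fintype.card_fin, ← hcard, ← card_HH (G := Fin (n + 1) → ZMod 2), pow_succ M]
    ring
  · refine h2.trans ?_
    apply mul_le_mul_of_nonneg_right _ (by positivity)
    have h3 : 1 / (((2 ^ (n + 1) : ℕ)) : ℝ) ≤ ε := by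
      rw [div_le_iff₀ (by positivity)]
      have h4 : (n : ℝ) ≤ ((2 ^ (n + 1) : ℕ) : ℝ) := by
        have h5 : n < 2 ^ n := Nat.lt_two_pow_self
        have h6 : 2 ^ n ≤ 2 ^ (n + 1) := Nat.pow_le_pow_right (by norm_num) (by omega)
        exact_mod_cast (h5.le.trans h6)
      have h7 : 1 < ε * n := by
        rw [div_lt_iff₀ hε] at hn
        linarith
      nlinarith
    linarith

/-! ### transport -/

theorem E_slices {V U : Type} [DecidableEq V] [DecidableEq U] (k : ℕ) (f : U → V)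
    (hf : Function.Injective f) (S : Finset U) (w : V → ℤ) :
    E k (S.image f) w = E k S (fun u => w (f u)) := by
  induction S using Finset.induction_on generalizing k with
  | empty =>
    rw [Finset.image_empty]
    cases k with
    | zero => rw [E_zero, E_zero]
    | succ k => rw [E_empty, E_empty]
  | insert a S ha ih =>
    cases k with
    | zero => rw [E_zero, E_zero]
    | succ k =>
      rw [Finset.image_insert, E_insert k, E_insert k ha, ih (k + 1), ih k]
      intro h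
      obtain ⟨b, hb, hb'⟩ := Finset.mem_image.1 h
      exact ha (hf hb' ▸ hb)

theorem prod_transport {V U : Type} [DecidableEq V] [DecidableEq U] [Fintype U] [Nonempty U]
    {d c : ℕ} (A : ℕ → Finset V) (hdis : ∀ i < d, ∀ j < d, i ≠ j → Disjoint (A i) (A j))
    (hc : ∀ j < d, (A j).card ≤ Fintype.card U)
    (hD : Dw (2 * d) (fun W : (ℕ × U) → ℤ => ∏ j ∈ range d, E 2 univ (fun v => W (j, v))) c) :
    Dw (2 * d) (fun w => ∏ j ∈ range d, E 2 (A j) w) c := by
  classical
  have h1 : ∀ j, ∃ π : V → U, j < d → (Set.InjOn π (A j) ∧ ∀ v ∈ A j, π v ∈ (univ : Finset U)) := by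
    intro j
    by_cases hj : j < d
    · obtain ⟨π, h2⟩ := exists_inj (A j) (univ : Finset U) (by
        rw [Finset.card_univ]; exact hc j hj) inferInstance
      exact ⟨π, fun _ => h2⟩
    · exact ⟨fun _ => Classical.arbitrary U, fun h => absurd h hj⟩
  choose π hπ using h1
  have h2 : ∃ jv : V → ℕ, ∀ j < d, ∀ v ∈ A j, jv v = j := by
    refine ⟨fun v => if H : ∃ j, j < d ∧ v ∈ A j then Nat.find H else d, ?_⟩
    intro j hj v hv
    have H : ∃ j, j < d ∧ v ∈ A j := ⟨j, hj, hv⟩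
    simp only [dif_pos H]
    have h3 := Nat.find_spec H
    by_contra hne
    exact Finset.disjoint_left.1 (hdis _ h3.1 _ hj hne) h3.2 hv
  obtain ⟨jv, hjv⟩ := h2
  refine (hD.pull (fun v => (jv v, π (jv v) v)) ((range d).biUnion A)).congr (fun w => ?_)
  apply Finset.prod_congr rfl
  intro j hj
  have hj' := Finset.mem_range.1 hj
  have h4 := E_slices 2 (fun u : U => (j, u)) (fun a b h => (Prod.ext_iff.1 h).2) univ
    (fun x => ∑ v ∈ ((range d).biUnion A) with (jv v, π (jv v) v) = x, w v)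
  rw [← h4]
  symm
  apply E_push 2 (fun v => (jv v, π (jv v) v))
  · exact Finset.subset_biUnion_of_mem A hj
  · intro x hx y hy hxy
    simp only [Finset.mem_coe] at hx hy
    have h5 := (Prod.ext_iff.1 hxy).2
    simp only [hjv j hj' x hx, hjv j hj' y hy] at h5
    exact (hπ j hj').1 hx hy h5
  · intro v hv
    rw [hjv j hj' v hv]
    exact Finset.mem_image_of_mem _ (mem_univ _)
  · intro v hv hvj h6
    obtain ⟨i, hi, hvi⟩ := Finset.mem_biUnion.1 hv
    obtain ⟨u, _, hu⟩ := Finset.mem_image.1 h6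
    have h7 := (Prod.ext_iff.1 hu).1
    simp only at h7
    rw [hjv i (Finset.mem_range.1 hi) v hvi] at h7
    exact hvj (h7 ▸ hvi)

/-- **the product of `d` complete graphs** -/
theorem prod_module (d : ℕ) (hd : 1 ≤ d) (ε : ℝ) (hε : 0 < ε) : ∃ m0 : ℕ, ∀ m : ℕ, m0 ≤ m →
    ∀ (V : Type) (_ : DecidableEq V) (A : ℕ → Finset V),
    (∀ i < d, ∀ j < d, i ≠ j → Disjoint (A i) (A j)) → (∀ j < d, (A j).card ≤ m) →
    ∃ c : ℕ, Dw (2 * d) (fun w => ∏ j ∈ range d, E 2 (A j) w) c ∧
      (c : ℝ) ≤ ((1 / 2) ^ (d - 1) + ε) * (m : ℝ) ^ d := by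
  rcases Nat.lt_or_ge d 2 with h2 | h2
  · have : d = 1 := by omega
    subst this
    refine ⟨0, fun m _ V _ A _ hA => ⟨m, ?_, ?_⟩⟩
    · refine ((trivial_set 2 m (A 0) (hA 0 one_pos)).mono (by simp)).congr (fun w => ?_)
      rw [Finset.prod_range_one]
    · simp only [Nat.sub_self, pow_zero, pow_one]
      have : (0 : ℝ) ≤ (m : ℝ) := Nat.cast_nonneg m
      nlinarith
  · obtain ⟨e, rfl⟩ : ∃ e, d = e + 1 := ⟨d - 1, by omega⟩
    have he : 1 ≤ e := by omega
    obtain ⟨k, hk, C, hC0, hC⟩ := std_cost e he (ε / 2) (by positivity)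
    have ht1 : Filter.Tendsto (fun M : ℕ => ((1 / 2 : ℝ) ^ e + ε / 2 + C / M) *
        ((M : ℝ) / ((M : ℝ) + (-1))) ^ (k * (e + 1))) Filter.atTop
        (nhds (((1 / 2 : ℝ) ^ e + ε / 2 + 0) * 1 ^ (k * (e + 1)))) := by
      apply Filter.Tendsto.mul
      · apply Filter.Tendsto.add tendsto_const_nhds
        exact tendsto_const_div_atTop_nhds_zero_nat C
      · exact (tendsto_natCast_div_add_atTop (-1 : ℝ)).pow _
    rw [add_zero, one_pow, mul_one] at ht1
    have h3 : (1 / 2 : ℝ) ^ e + ε / 2 < (1 / 2 : ℝ) ^ e + ε := by linarith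
    have h4 := ht1.eventually (gt_mem_nhds h3)
    obtain ⟨M1, hM1⟩ := Filter.eventually_atTop.1 h4
    refine ⟨k * (M1 + 1) ^ k + 1, fun m hm V _ A hdis hA => ?_⟩
    have hex : ∃ M, m ≤ k * M ^ k := ⟨m, by
      calc m ≤ m ^ k := Nat.le_self_pow (by omega) m
        _ ≤ k * m ^ k := Nat.le_mul_of_pos_left _ (by omega)⟩
    set M := Nat.find hex with hMdef
    have hMs : m ≤ k * M ^ k := Nat.find_spec hex
    have hMgt : M1 + 1 < M := by
      by_contra hcon
      push Not at hcon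
      have : k * M ^ k ≤ k * (M1 + 1) ^ k := Nat.mul_le_mul_left k (Nat.pow_le_pow_left hcon k)
      omega
    have hMlt : k * (M - 1) ^ k < m := by
      by_contra hcon
      push Not at hcon
      have := Nat.find_min' hex hcon
      omega
    obtain ⟨U, iF, iN, iD, hU, c, hc1, hc2⟩ := hC M (by omega)
    refine ⟨c, prod_transport A hdis (fun j hj => ?_) hc1, ?_⟩
    · rw [hU]
      exact (hA j hj).trans hMs
    · rw [Nat.add_sub_cancel]
      have h5 := hM1 M (by omega)
      have hM0 : (0 : ℝ) < (M : ℝ) + (-1) := by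
        have : (2 : ℝ) ≤ (M : ℝ) := by exact_mod_cast (by omega : 2 ≤ M)
        linarith
      have h6 : ((k : ℝ) * ((M : ℝ) + (-1)) ^ k) ≤ (m : ℝ) := by
        have h7 : ((k * (M - 1) ^ k : ℕ) : ℝ) ≤ (m : ℝ) := by exact_mod_cast hMlt.le
        rw [Nat.cast_mul, Nat.cast_pow, Nat.cast_sub (by omega)] at h7
        push_cast at h7
        exact h7
      have h8 : ((k : ℝ) * (M : ℝ) ^ k) ^ (e + 1) =
          ((k : ℝ) * ((M : ℝ) + (-1)) ^ k) ^ (e + 1) *
            ((M : ℝ) / ((M : ℝ) + (-1))) ^ (k * (e + 1)) := by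
        rw [pow_mul, ← mul_pow]
        congr 1
        rw [div_pow]
        field_simp
      calc (c : ℝ) ≤ ((1 / 2) ^ e + ε / 2 + C / M) * ((k : ℝ) * (M : ℝ) ^ k) ^ (e + 1) := hc2
        _ = ((1 / 2) ^ e + ε / 2 + C / M) * ((M : ℝ) / ((M : ℝ) + (-1))) ^ (k * (e + 1)) *
            ((k : ℝ) * ((M : ℝ) + (-1)) ^ k) ^ (e + 1) := by
              rw [h8]
              ring
        _ ≤ ((1 / 2) ^ e + ε) * (m : ℝ) ^ (e + 1) := by
              apply mul_le_mul h5.le (pow_le_pow_left₀ (by positivity) h6 _) (by positivity)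
              positivity

end Pool.Agent.Lib.MP_60210e_co.RankGaps
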